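import Mathlib

/-!
# Two lemmas of linear algebra
-/

set_option autoImplicit false

namespace Pool.Agent.J4H92.NC

open Module

/-- If `α r` is a multiple of `β r` (modulo `B`) whenever `β r` is nonzero, and if `β` has rank at
least two, then `α` is a multiple of `β`. -/
theorem par {R C : Type*} [AddCommGroup R] [Module ℝ R] [AddCommGroup C] [Module ℝ C]
    (B : Submodule ℝ C) (α β : R →ₗ[ℝ] C) {r1 r2 : R}
    (hind : ∀ s s' : ℝ, s • β r1 + s' • β r2 ∈ B → s = 0 ∧ s' = 0)
    (h : ∀ r, β r ∉ B → ∃ z : ℝ, α r - z • β r ∈ B) : ∃ κ : ℝ, ∀ r, α r - κ • β r ∈ B := by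
  have n1 : β r1 ∉ B := fun h1 => by
    have := (hind 1 0 (by simpa using h1)).1
    norm_num at this
  have n2 : β r2 ∉ B := fun h1 => by
    have := (hind 0 1 (by simpa using h1)).2
    norm_num at this
  -- independent directions have the same factor
  have key : ∀ a b : R, (∀ s s' : ℝ, s • β a + s' • β b ∈ B → s = 0 ∧ s' = 0) →
      ∀ z z' : ℝ, α a - z • β a ∈ B → α b - z' • β b ∈ B → z = z' := by
    intro a b hab z z' hz hz'
    have n3 : β (a + b) ∉ B := fun h1 => by
      have := (hab 1 1 (by rw [one_smul, one_smul, ← map_add]; exact h1)).1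
      norm_num at this
    obtain ⟨w, hw⟩ := h (a + b) n3
    have e : (z - w) • β a + (z' - w) • β b ∈ B := by
      have h1 := B.sub_mem (B.sub_mem hw hz) hz'
      have : α (a + b) - w • β (a + b) - (α a - z • β a) - (α b - z' • β b) =
          (z - w) • β a + (z' - w) • β b := by
        rw [map_add, map_add]
        module
      rwa [this] at h1
    obtain ⟨e1, e2⟩ := hab _ _ e
    linarith
  obtain ⟨κ, hκ⟩ := h r1 n1
  obtain ⟨κ2, hκ2⟩ := h r2 n2
  have hk2 : κ2 = κ := (key r1 r2 hind κ κ2 hκ hκ2).symm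
  rw [hk2] at hκ2
  -- all nonzero directions
  have hnz : ∀ r, β r ∉ B → α r - κ • β r ∈ B := by
    intro r hr
    obtain ⟨z, hz⟩ := h r hr
    have hzk : z = κ := by
      by_cases h1 : ∀ s s' : ℝ, s • β r + s' • β r1 ∈ B → s = 0 ∧ s' = 0
      · exact key r r1 h1 z κ hz hκ
      · push Not at h1
        obtain ⟨s, s', hs, hss⟩ := h1
        have hs' : s ≠ 0 := by
          rintro rfl
          have h2 := hss rfl
          rw [zero_smul, zero_add] at hs
          exact h2 (hind s' 0 (by simpa using hs)).1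
        refine key r r2 ?_ z κ hz hκ2
        intro a b hab
        have e : (-(a * s')) • β r1 + (b * s) • β r2 ∈ B := by
          have h3 := B.sub_mem (B.smul_mem s hab) (B.smul_mem a hs)
          have : s • (a • β r + b • β r2) - a • (s • β r + s' • β r1) =
              (-(a * s')) • β r1 + (b * s) • β r2 := by module
          rwa [this] at h3
        obtain ⟨e1, e2⟩ := hind _ _ e
        have hb : b = 0 := (mul_eq_zero.1 e2).resolve_right hs'
        refine ⟨?_, hb⟩
        by_contra ha
        rw [hb, zero_smul, add_zero] at hab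
        apply hr
        have := B.smul_mem a⁻¹ hab
        rwa [smul_smul, inv_mul_cancel₀ ha, one_smul] at this
    rw [← hzk]
    exact hz
  refine ⟨κ, fun r => ?_⟩
  by_cases hr : β r ∈ B
  · have h1 : β (r + r1) ∉ B := fun h2 => by
      rw [map_add] at h2
      exact n1 ((B.add_mem_iff_right hr).1 h2)
    have h2 := B.sub_mem (hnz _ h1) hκ
    have : α (r + r1) - κ • β (r + r1) - (α r1 - κ • β r1) = α r - κ • β r := by
      rw [map_add, map_add]
      module
    rwa [this] at h2
  · exact hnz r hr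

/-- greedy choice -/
theorem greedy {Y I : Type*} [AddCommGroup Y] [Module ℝ Y] [FiniteDimensional ℝ Y] [Nonempty I]
    (T : Submodule ℝ Y) (A : I → Submodule ℝ Y) (h : ∀ y, y ∉ T → ∃ i, y ∉ A i) (n : ℕ) :
    ∃ f : Fin n → I, finrank ℝ (⨅ j, A (f j) : Submodule ℝ Y) ≤
      max (finrank ℝ T) (finrank ℝ Y - n) := by
  induction n with
  | zero =>
    refine ⟨Fin.elim0, ?_⟩
    have := Submodule.finrank_le (⨅ j : Fin 0, A (Fin.elim0 j) : Submodule ℝ Y)
    simp only [tsub_zero]
    omega
  | succ n ih =>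
    obtain ⟨f, hf⟩ := ih
    set Z : Submodule ℝ Y := ⨅ j, A (f j) with hZ
    have hcons : ∀ i, (⨅ j, A ((Fin.cons i f : Fin (n + 1) → I) j) : Submodule ℝ Y) ≤
        Z ⊓ A i := by
      intro i
      refine le_inf (le_iInf fun j => ?_) ?_
      · exact (iInf_le _ j.succ).trans (le_of_eq (by simp))
      · exact (iInf_le _ 0).trans (le_of_eq (by simp))
    by_cases hle : Z ≤ T
    · obtain ⟨i⟩ := ‹Nonempty I›
      refine ⟨Fin.cons i f, ?_⟩
      have h1 := Submodule.finrank_mono ((hcons i).trans inf_le_left)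
      have h2 := Submodule.finrank_mono hle
      omega
    · obtain ⟨y, hy, hyT⟩ := SetLike.not_le_iff_exists.1 hle
      obtain ⟨i, hi⟩ := h y hyT
      refine ⟨Fin.cons i f, ?_⟩
      have h1 := Submodule.finrank_mono (hcons i)
      have h2 : Z ⊓ A i < Z := by
        refine lt_of_le_of_ne inf_le_left fun he => hi ?_
        have : y ∈ Z ⊓ A i := by rw [he]; exact hy
        exact this.2
      have h3 := Submodule.finrank_lt_finrank_of_lt h2
      omega

/-- greedy choice, indexed by a finite type -/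
theorem greedy_fin {Y I W : Type*} [AddCommGroup Y] [Module ℝ Y] [FiniteDimensional ℝ Y]
    [Nonempty I] [Fintype W] (T : Submodule ℝ Y) (A : I → Submodule ℝ Y) (hT : ∀ i, T ≤ A i)
    (h : ∀ y, y ∉ T → ∃ i, y ∉ A i) (hW : finrank ℝ Y ≤ finrank ℝ T + Fintype.card W) :
    ∃ f : W → I, ∀ y, (∀ x, y ∈ A (f x)) → y ∈ T := by
  obtain ⟨f, hf⟩ := greedy T A h (Fintype.card W)
  refine ⟨fun x => f (Fintype.equivFin W x), fun y hy => ?_⟩
  have h1 : T ≤ ⨅ j, A (f j) := le_iInf fun j => hT _
  have h2 : finrank ℝ (⨅ j, A (f j) : Submodule ℝ Y) ≤ finrank ℝ T := by omega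
  rw [Submodule.eq_of_le_of_finrank_le h1 h2, Submodule.mem_iInf]
  intro j
  have := hy ((Fintype.equivFin W).symm j)
  simpa using this

end Pool.Agent.J4H92.NC
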