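import Pool.Agent.J4H92.NC.E9

/-!
# Contraction of a bridge, general bound
-/

set_option autoImplicit false

namespace Pool.Agent.J4H92.NC

open SimpleGraph hiding between

open Module Pool.Agent.H283R2.DR Pool.Agent.H283R2.DR.TA Pool.Agent.J4H92.CP Pool.Agent.H789R5

variable {U W : Type} {G : SimpleGraph U} {H : SimpleGraph W} {d : ℕ}

/-- **Contraction of a bridge.** -/
theorem bridge_step' [Fintype U] [Fintype W] {a b : U} (hab : a ≠ b) (hadj : G.Adj a b)
    (hbr : b ∉ sd G a b) (hH : GenRigid 2 H) (hW3 : 3 ≤ Fintype.card W)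
    {k1 k2 N0 : ℕ} (hk : k1 + k2 ≤ Fintype.card W + N0)
    (h1 : Mu 0 k1 ((G.induce (sd G a b)) □ H)) (h2' : Mu 0 k2 ((G.induce (sd G a b)ᶜ) □ H))
    (hc : Mu 0 N0 ((Gc G hab) □ H)) : Mu 0 N0 (G □ H) := by
  classical
  have h2 : 2 ≤ Fintype.card W := by omega
  have h3 : 3 ≤ Fintype.card ({u : U // u ≠ b} × W) := by
    rw [Fintype.card_prod]
    have : 0 < Fintype.card {u : U // u ≠ b} := Fintype.card_pos_iff.2 ⟨⟨a, hab⟩⟩
    nlinarith
  set f := fab hab with hf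
  let c : U × W → {u : U // u ≠ b} × W := fun v => (f v.1, v.2)
  have hinj1 : Function.Injective (fun v : (sd G a b) × W => c (v.1.1, v.2)) := by
    rintro ⟨⟨u, hu⟩, w⟩ ⟨⟨v, hv⟩, w'⟩ h
    rw [Prod.ext_iff] at h
    obtain ⟨e1, e2⟩ := h
    have e1 : f u = f v := e1
    have e2 : w = w' := e2
    subst e2
    by_cases huv : u = v
    · subst huv
      rfl
    · have e3 : s(u, v) = s(a, b) := fab_eq hab e1 huv
      rcases Sym2.eq_iff.1 e3 with ⟨-, h⟩ | ⟨h, -⟩
      · rw [h] at hv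
        exact absurd hv hbr
      · rw [h] at hu
        exact absurd hu hbr
  have hinj2 : Function.Injective (fun v : ((sd G a b)ᶜ : Set U) × W => c (v.1.1, v.2)) := by
    rintro ⟨⟨u, hu⟩, w⟩ ⟨⟨v, hv⟩, w'⟩ h
    rw [Prod.ext_iff] at h
    obtain ⟨e1, e2⟩ := h
    have e1 : f u = f v := e1
    have e2 : w = w' := e2
    subst e2
    by_cases huv : u = v
    · subst huv
      rfl
    · have e3 : s(u, v) = s(a, b) := fab_eq hab e1 huv
      rcases Sym2.eq_iff.1 e3 with ⟨h, -⟩ | ⟨-, h⟩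
      · rw [h] at hu
        exact absurd a_mem hu
      · rw [h] at hv
        exact absurd a_mem hv
  -- a common choice of the parameters
  let Lq : EB {u : U // u ≠ b} W →ₗ[ℝ] ({u : U // u ≠ b} × W → Fin 3 → ℝ) :=
    LinearMap.fst ℝ _ _
  have lift : ∀ {P : ({u : U // u ≠ b} × W → Fin 3 → ℝ) → Prop}, (∃ q, P q) →
      ∃ e : EB {u : U // u ≠ b} W, P (Lq e) := by
    rintro P ⟨q, hq⟩
    exact ⟨(q, 0, 0), hq⟩
  have g1 := good_comp (good_Bd ((G.induce (sd G a b)) □ H) (fun v => c (v.1.1, v.2)) k1) Lq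
  have g2 := good_comp (good_Bd ((G.induce (sd G a b)ᶜ) □ H) (fun v => c (v.1.1, v.2)) k2) Lq
  have g3 := good_comp (good_Bd ((Gc G hab) □ H) id N0) Lq
  have g4 := good_comp (good_PN (H := H)) (Ly (W := W) (⟨a, hab⟩ : {u : U // u ≠ b}))
  obtain ⟨e12, he12⟩ := good_two g1 g2 (lift (exists_Bd hinj1 h1)) (lift (exists_Bd hinj2 h2'))
  obtain ⟨e123, he123⟩ := good_two (good_and g1 g2) g3 ⟨e12, he12⟩
    (lift (exists_Bd Function.injective_id hc))
  obtain ⟨⟨q, n0, d⟩, ⟨⟨hb1, hb2⟩, hb3⟩, hb4⟩ := good_two (good_and (good_and g1 g2) g3) g4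
    ⟨e123, he123⟩ (by
      obtain ⟨⟨p, n, d⟩, h⟩ := exists_PN hH h2
      refine ⟨(fun v => p v.2, n, d), h⟩)
  have hb1 : Bd ((G.induce (sd G a b)) □ H) (fun v => c (v.1.1, v.2)) k1 q := hb1
  have hb2 : Bd ((G.induce (sd G a b)ᶜ) □ H) (fun v => c (v.1.1, v.2)) k2 q := hb2
  have hb3 : finrank ℝ (Sol ((Gc G hab) □ H) (df q) (0 : ({u : U // u ≠ b} × W) → Fin 0 → Fin 3 → ℝ)) ≤ N0 := hb3
  have hb4 : PN H (fun w => q (⟨a, hab⟩, w), n0, d) := hb4
  have hb := sides_le hbr c q hb1 hb2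
  -- the motions without the bridge
  set N := Sol ((G0 G a b) □ H) (df fun v => q (c v)) (0 : U × W → Fin 0 → Fin 3 → ℝ) with hN
  have hNfin : finrank ℝ N ≤ k1 + k2 := hb
  let D0 : (U × W → Fin 3 → ℝ) →ₗ[ℝ] (W → Fin 3 → ℝ) :=
    { toFun := fun M w => M (b, w) - M (a, w)
      map_add' := by
        intro M M'
        funext w
        simp only [Pi.add_apply]
        abel
      map_smul' := by
        intro s M
        funext w
        simp only [Pi.smul_apply, smul_sub, RingHom.id_apply] }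
  let D : N →ₗ[ℝ] (W → Fin 3 → ℝ) := D0.comp N.subtype
  obtain ⟨n, hn, hfin⟩ := sel' D (fun n => PN H (fun w => q (⟨a, hab⟩, w), n, d))
    (good_PN_slice _ d) ⟨n0, hb4⟩ (by
      intro n hn M hM y y' hyy hy hy'
      refine (hn.1 ⟨(y, y'), hyy⟩).zero (fun x x' hx => ?_) hM hy hy'
      have e1 := M.2.1 (b, x) (b, x') (Or.inr ⟨hx, rfl⟩)
      have e2 := M.2.1 (a, x) (a, x') (Or.inr ⟨hx, rfl⟩)
      have e1 : (q (f b, x) - q (f b, x')) ⬝ᵥ (M.1 (b, x) - M.1 (b, x')) = 0 := e1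
      have e2 : (q (f a, x) - q (f a, x')) ⬝ᵥ (M.1 (a, x) - M.1 (a, x')) = 0 := e2
      rw [hf, fab_b] at e1
      rw [hf, fab_a] at e2
      show (q (⟨a, hab⟩, x) - q (⟨a, hab⟩, x')) ⬝ᵥ
        ((M.1 (b, x) - M.1 (a, x)) - (M.1 (b, x') - M.1 (a, x'))) = 0
      have : (M.1 (b, x) - M.1 (a, x)) - (M.1 (b, x') - M.1 (a, x')) =
        (M.1 (b, x) - M.1 (b, x')) - (M.1 (a, x) - M.1 (a, x')) := by abel
      rw [this, dotProduct_sub, e1, e2, sub_zero]) (by
      intro n hn y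
      refine ⟨⟨fun v => if v.1 ∈ sd G a b then 0 else n y, ?_⟩, ?_⟩
      · refine ⟨fun u v huv => ?_, fun v i => i.elim0⟩
        have : u.1 ∈ sd G a b ↔ v.1 ∈ sd G a b := by
          rcases huv with ⟨h, -⟩ | ⟨-, h⟩
          · exact side_iff h
          · rw [h]
        show _ ⬝ᵥ ((if u.1 ∈ sd G a b then 0 else n y) - (if v.1 ∈ sd G a b then 0 else n y)) = 0
        by_cases hu : u.1 ∈ sd G a b
        · rw [if_pos hu, if_pos (this.1 hu), sub_self, dotProduct_zero]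
        · rw [if_neg hu, if_neg (fun h => hu (this.2 h)), sub_self, dotProduct_zero]
      · show n y ⬝ᵥ ((if b ∈ sd G a b then 0 else n y) - (if a ∈ sd G a b then 0 else n y)) ≠ 0
        rw [if_neg hbr, if_pos a_mem, sub_zero, Ne, dotProduct_self_eq_zero]
        exact hn.2 y)
  -- the limit placement
  refine mu_of_lim c q (fun v => if v.1 = a then n v.2 else 0)
    (0 : U × W → Fin 0 → Fin 3 → ℝ) ?_
  set L := Sol (G □ H) (lim c q (fun v => if v.1 = a then n v.2 else 0))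
    (0 : U × W → Fin 0 → Fin 3 → ℝ) with hL
  have hLN : ∀ M ∈ L, M ∈ N := by
    rintro M ⟨hM, -⟩
    refine ⟨fun u v huv => ?_, fun v i => i.elim0⟩
    have hne : c u ≠ c v := by
      intro he
      rw [Prod.ext_iff] at he
      rcases huv with ⟨h, h'⟩ | ⟨h, h'⟩
      · exact (G0_adj.1 h).2 (fab_eq hab he.1 h.ne)
      · exact h.ne he.2
    have h5 := hM u v (by
      rcases huv with ⟨h, h'⟩ | ⟨h, h'⟩
      · exact Or.inl ⟨(G0_adj.1 h).1, h'⟩
      · exact Or.inr ⟨h, h'⟩)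
    rw [lim_ne _ _ hne] at h5
    exact h5
  have hLn : ∀ M ∈ L, ∀ w, n w ⬝ᵥ (M (b, w) - M (a, w)) = 0 := by
    intro M hM w
    have h6 := hM.1 (a, w) (b, w) (Or.inl ⟨hadj, rfl⟩)
    have heq : c (a, w) = c (b, w) := by
      show (f a, w) = (f b, w)
      rw [hf, fab_a, fab_b]
    rw [lim_eq _ _ heq] at h6
    simp only [if_true, if_neg hab.symm, sub_zero] at h6
    rw [← neg_sub, dotProduct_neg, h6, neg_zero]
  rcases hfin with hfin | hfin
  · have hLfin : finrank ℝ L ≤ finrank ℝ (LinearMap.ker (cmp D n)) := by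
      let ι : L →ₗ[ℝ] LinearMap.ker (cmp D n) :=
        { toFun := fun M => ⟨⟨M.1, hLN M.1 M.2⟩, by
            rw [LinearMap.mem_ker]
            funext w
            exact hLn M.1 M.2 w⟩
          map_add' := fun _ _ => rfl
          map_smul' := fun _ _ => rfl }
      refine LinearMap.finrank_le_finrank_of_injective (f := ι) ?_
      intro M M' h
      exact Subtype.ext (congrArg (fun z => z.1.1) h)
    omega
  have hLD : ∀ M ∈ L, ∀ w, M (b, w) = M (a, w) := by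
    intro M hM
    have h5 := hfin ⟨M, hLN M hM⟩ (hLn M hM)
    intro w
    exact sub_eq_zero.1 (congrFun h5 w)
  -- restriction to the contracted product
  let R : (U × W → Fin 3 → ℝ) →ₗ[ℝ] ({u : U // u ≠ b} × W → Fin 3 → ℝ) :=
    LinearMap.funLeft ℝ (Fin 3 → ℝ) (fun v => (v.1.1, v.2))
  have hval : ∀ M ∈ L, ∀ u w, M ((f u).1, w) = M (u, w) := by
    intro M hM u w
    by_cases hu : u = b
    · rw [hu, hf, fab_b]
      exact (hLD M hM w).symm
    · rw [hf, fab_ne hab hu]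
  have hR : ∀ M ∈ L, R M ∈ Sol ((Gc G hab) □ H) (df q) (0 : ({u : U // u ≠ b} × W) → Fin 0 → Fin 3 → ℝ) := by
    intro M hM
    refine ⟨?_, fun v i => i.elim0⟩
    rintro ⟨x, w⟩ ⟨y, w'⟩ hxy
    show (q (x, w) - q (y, w')) ⬝ᵥ (M (x.1, w) - M (y.1, w')) = 0
    rcases hxy with ⟨⟨hne, u, v, rfl, rfl, huv⟩, h'⟩ | ⟨h, h'⟩
    · have h' : w = w' := h'
      subst h'
      have h5 := hM.1 (u, w) (v, w) (Or.inl ⟨huv, rfl⟩)
      rw [lim_ne _ _ (fun he => hne (Prod.ext_iff.1 he).1)] at h5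
      have e1 := hval M hM u w
      have e2 := hval M hM v w
      rw [hf] at e1 e2
      rw [e1, e2]
      exact h5
    · have h' : x = y := h'
      have h : H.Adj w w' := h
      subst h'
      have h5 := hM.1 (x.1, w) (x.1, w') (Or.inr ⟨h, rfl⟩)
      have hne : c (x.1, w) ≠ c (x.1, w') := fun he => h.ne (Prod.ext_iff.1 he).2
      rw [lim_ne _ _ hne] at h5
      have e1 : f x.1 = x := fab_ne hab x.2
      have h6 : (q (f x.1, w) - q (f x.1, w')) ⬝ᵥ (M (x.1, w) - M (x.1, w')) = 0 := h5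
      rw [e1] at h6
      exact h6
  have hinj : Function.Injective ((R.domRestrict L).codRestrict
      (Sol ((Gc G hab) □ H) (df q) (0 : ({u : U // u ≠ b} × W) → Fin 0 → Fin 3 → ℝ)) (fun M => hR M M.2)) := by
    rw [injective_iff_map_eq_zero]
    rintro ⟨M, hM⟩ h
    have h' : R M = 0 := congrArg Subtype.val h
    rw [Subtype.ext_iff]
    show M = 0
    funext v
    obtain ⟨u, w⟩ := v
    rw [← hval M hM u w]
    exact congrFun h' (f u, w)
  exact (LinearMap.finrank_le_finrank_of_injective hinj).trans hb3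

end Pool.Agent.J4H92.NC
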