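import Pool.Agent.J4H92.NC.B1

/-!
# Bridges of a minimal counterexample
-/

set_option autoImplicit false

namespace Pool.Agent.J4H92.NC

open SimpleGraph hiding between

open Module Pool.Agent.H283R2.DR Pool.Agent.H283R2.DR.TA Pool.Agent.J4H92.CP Pool.Agent.H789R5

variable {U W : Type} {G : SimpleGraph U} {H : SimpleGraph W} {d : ℕ}

/-- **Two parts joined by few edges.** -/
theorem e_glue' [Finite U] {A : Set U} {g : ℕ}
    (hg : {p : U × U | G.Adj p.1 p.2 ∧ ¬ (p.1 ∈ A ↔ p.2 ∈ A)}.ncard ≤ 2 * g)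
    (f1 : A → ℕ) (f2 : (Aᶜ : Set U) → ℕ) {h : ℕ} (h6 : 6 ≤ h) :
    ∃ f : U → ℕ, vl h d (G.induce A) f1 + vl h d (G.induce Aᶜ) f2 - h * g ≤ vl h d G f := by
  classical
  obtain ⟨B, hB⟩ := exists_bound f2
  let f' : U → ℕ := fun u => if h : u ∈ A then f1 ⟨u, h⟩ + B else f2 ⟨u, h⟩
  have hin : ∀ u (hu : u ∈ A), f' u = f1 ⟨u, hu⟩ + B := fun u hu => dif_pos hu
  have hout : ∀ u (hu : u ∉ A), f' u = f2 ⟨u, hu⟩ := fun u hu => dif_neg hu
  refine ⟨f', ?_⟩
  have hK : ((Set.range f1).ncard : ℤ) + (Set.range f2).ncard ≤ (Set.range f').ncard := by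
    have h1 : Set.range f2 ∪ ((fun n => n + B) '' Set.range f1) ⊆ Set.range f' := by
      rintro n (⟨q, rfl⟩ | ⟨_, ⟨q, rfl⟩, rfl⟩)
      · exact ⟨q.1, hout q.1 q.2⟩
      · exact ⟨q.1, hin q.1 q.2⟩
    have h2 := Set.ncard_le_ncard h1 (Set.toFinite _)
    rw [Set.ncard_union_eq (by
      rw [Set.disjoint_left]
      rintro n ⟨q, rfl⟩ ⟨_, -, he⟩
      have he : _ + B = f2 q := he
      have := hB q
      omega) (Set.toFinite _) (Set.toFinite _), Set.ncard_image_of_injective _ (by
        intro a b hab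
        have hab : a + B = b + B := hab
        omega)] at h2
    omega
  have hS : ((Sg f1).ncard : ℤ) + (Sg f2).ncard ≤ (Sg f').ncard := by
    have h1 : (Subtype.val '' Sg f1) ∪ (Subtype.val '' Sg f2) ⊆ Sg f' := by
      rintro _ (⟨q, hq, rfl⟩ | ⟨q, hq, rfl⟩) w hw
      · rw [hin q.1 q.2] at hw
        by_cases hwX : w ∈ A
        · rw [hin w hwX] at hw
          have h5 := hq ⟨w, hwX⟩ (by
            show f1 ⟨w, hwX⟩ = f1 ⟨q.1, q.2⟩
            omega)
          exact congrArg Subtype.val h5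
        · rw [hout w hwX] at hw
          have := hB ⟨w, hwX⟩
          omega
      · rw [hout q.1 q.2] at hw
        by_cases hwX : w ∈ A
        · rw [hin w hwX] at hw
          have := hB ⟨q.1, q.2⟩
          omega
        · rw [hout w hwX] at hw
          have h5 := hq ⟨w, hwX⟩ hw
          exact congrArg Subtype.val h5
    have h2 := Set.ncard_le_ncard h1 (Set.toFinite _)
    rw [Set.ncard_union_eq (by
      rw [Set.disjoint_left]
      rintro _ ⟨q, -, rfl⟩ ⟨q', -, he⟩
      exact q'.2 (he ▸ q.2)) (Set.toFinite _) (Set.toFinite _),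
      Set.ncard_image_of_injective _ Subtype.val_injective,
      Set.ncard_image_of_injective _ Subtype.val_injective] at h2
    omega
  have hC : ((Cr G f').ncard : ℤ) ≤ 2 * (((Cf (G.induce A) f1).edgeSet.ncard : ℤ) +
      (Cf (G.induce Aᶜ) f2).edgeSet.ncard + g) := by
    have h1 : Cr G f' ⊆ (Prod.map Subtype.val Subtype.val '' Cr (G.induce A) f1 ∪
        Prod.map Subtype.val Subtype.val '' Cr (G.induce Aᶜ) f2) ∪
        {p : U × U | G.Adj p.1 p.2 ∧ ¬ (p.1 ∈ A ↔ p.2 ∈ A)} := by
      rintro ⟨u, w⟩ ⟨huw, hf⟩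
      have hf : f' u ≠ f' w := hf
      have huw : G.Adj u w := huw
      by_cases hu : u ∈ A
      · by_cases hw : w ∈ A
        · refine Or.inl (Or.inl ⟨(⟨u, hu⟩, ⟨w, hw⟩), ⟨huw, fun he => hf ?_⟩, rfl⟩)
          rw [hin u hu, hin w hw]
          have he : f1 ⟨u, hu⟩ = f1 ⟨w, hw⟩ := he
          rw [he]
        · exact Or.inr ⟨huw, fun h => hw (h.1 hu)⟩
      · by_cases hw : w ∈ A
        · exact Or.inr ⟨huw, fun h => hu (h.2 hw)⟩
        · refine Or.inl (Or.inr ⟨(⟨u, hu⟩, ⟨w, hw⟩), ⟨huw, fun he => hf ?_⟩, rfl⟩)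
          rw [hout u hu, hout w hw]
          exact he
    have h2 := Set.ncard_le_ncard h1 (Set.toFinite _)
    have h3 := Set.ncard_union_le (Prod.map Subtype.val Subtype.val '' Cr (G.induce A) f1 ∪
        Prod.map Subtype.val Subtype.val '' Cr (G.induce Aᶜ) f2)
        {p : U × U | G.Adj p.1 p.2 ∧ ¬ (p.1 ∈ A ↔ p.2 ∈ A)}
    have h4 := Set.ncard_union_le (Prod.map Subtype.val Subtype.val '' Cr (G.induce A) f1)
      (Prod.map Subtype.val Subtype.val '' Cr (G.induce Aᶜ) f2)
    rw [Set.ncard_image_of_injective _ (Subtype.val_injective.prodMap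
      Subtype.val_injective),
      Set.ncard_image_of_injective _ (Subtype.val_injective.prodMap
      Subtype.val_injective), cr_two f1, cr_two f2] at h4
    omega
  have := vl_ge (d := d) h6 hK hS hC
  unfold vl at this ⊢
  linarith

/-- the contraction of a bridge -/
theorem vl_gc [Finite U] {a b : U} (hab : a ≠ b) (hbr : b ∉ sd G a b)
    (f : {u : U // u ≠ b} → ℕ) {h : ℕ} (h6 : 6 ≤ h) :
    ∃ f' : U → ℕ, vl h d (Gc G hab) f ≤ vl h d G f' := by
  classical
  -- the pairs of adjacent vertices, except the bridge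
  have hinj : ∀ P : Set (U × U), (∀ p ∈ P, G.Adj p.1 p.2 ∧ s(p.1, p.2) ≠ s(a, b)) →
      Set.InjOn (fun p : U × U => (fab hab p.1, fab hab p.2)) P := by
    rintro P hP ⟨u, w⟩ hp ⟨u', w'⟩ hp' he
    obtain ⟨h1, h2⟩ := hP _ hp
    obtain ⟨h1', h2'⟩ := hP _ hp'
    have h1 : G.Adj u w := h1
    have h1' : G.Adj u' w' := h1'
    have h2 : s(u, w) ≠ s(a, b) := h2
    have e1 : fab hab u = fab hab u' := congrArg Prod.fst he
    have e2 : fab hab w = fab hab w' := congrArg Prod.snd he
    have key : ∀ x y z : U, G.Adj x z → G.Adj y z → fab hab x = fab hab y → x = y := by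
      intro x y z hxz hyz hxy
      by_contra hne
      rcases Sym2.eq_iff.1 (fab_eq hab hxy hne) with ⟨r1, r2⟩ | ⟨r1, r2⟩
      · subst r1
        subst r2
        exact no_common hbr hxz hyz
      · subst r1
        subst r2
        exact no_common hbr hyz hxz
    by_cases hw : w = w'
    · subst hw
      rw [key u u' w h1 h1' e1]
    · exfalso
      by_cases hu : u = u'
      · subst hu
        exact hw (key w w' u h1.symm h1'.symm e2)
      · have e3 := fab_eq hab e1 hu
        have e4 := fab_eq hab e2 hw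
        apply h2
        rcases Sym2.eq_iff.1 e3 with ⟨r1, r2⟩ | ⟨r1, r2⟩ <;>
          rcases Sym2.eq_iff.1 e4 with ⟨r3, r4⟩ | ⟨r3, r4⟩
        · exact absurd (r1.trans r3.symm) h1.ne
        · rw [r1, r3]
        · rw [r1, r3, Sym2.eq_swap]
        · exact absurd (r1.trans r3.symm) h1.ne
  by_cases has : (⟨a, hab⟩ : {u : U // u ≠ b}) ∈ Sg f
  · -- a new colour
    obtain ⟨B, hB⟩ := exists_bound f
    let f' : U → ℕ := fun u => if h : u = b then B else f ⟨u, h⟩
    have hin : f' b = B := dif_pos rfl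
    have hout : ∀ u (hu : u ≠ b), f' u = f ⟨u, hu⟩ := fun u hu => dif_neg hu
    refine ⟨f', ?_⟩
    have hK : ((Set.range f).ncard : ℤ) + 1 ≤ (Set.range f').ncard := by
      have h1 : insert B (Set.range f) ⊆ Set.range f' := by
        rintro n (rfl | ⟨q, rfl⟩)
        · exact ⟨b, hin⟩
        · exact ⟨q.1, hout q.1 q.2⟩
      have h2 := Set.ncard_le_ncard h1 (Set.toFinite _)
      rw [Set.ncard_insert_of_notMem (by
        rintro ⟨q, hq⟩
        have := hB q
        omega)] at h2
      omega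
    have hS : ((Sg f).ncard : ℤ) + 1 ≤ (Sg f').ncard := by
      have h1 : insert b (Subtype.val '' Sg f) ⊆ Sg f' := by
        rintro _ (rfl | ⟨q, hq, rfl⟩) w hw
        · rw [hin] at hw
          by_contra hne
          rw [hout w hne] at hw
          have := hB ⟨w, hne⟩
          omega
        · rw [hout q.1 q.2] at hw
          by_cases hwv : w = b
          · rw [hwv, hin] at hw
            have := hB ⟨q.1, q.2⟩
            omega
          · rw [hout w hwv] at hw
            exact congrArg Subtype.val (hq ⟨w, hwv⟩ hw)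
      have h2 := Set.ncard_le_ncard h1 (Set.toFinite _)
      rw [Set.ncard_insert_of_notMem (by
        rintro ⟨q, -, hq⟩
        exact q.2 hq), Set.ncard_image_of_injective _ Subtype.val_injective] at h2
      omega
    have hC : ((Cr G f').ncard : ℤ) ≤ 2 * (((Cf (Gc G hab) f).edgeSet.ncard : ℤ) + 1) := by
      set P : Set (U × U) := {p ∈ Cr G f' | s(p.1, p.2) ≠ s(a, b)} with hP
      have h1 : Cr G f' ⊆ P ∪ {(a, b), (b, a)} := by
        rintro ⟨u, w⟩ hp
        by_cases he : s(u, w) = s(a, b)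
        · right
          rcases Sym2.eq_iff.1 he with ⟨e1, e2⟩ | ⟨e1, e2⟩
          · left
            rw [e1, e2]
          · right
            show (u, w) = (b, a)
            rw [e1, e2]
        · exact Or.inl ⟨hp, he⟩
      have h2 : P.ncard ≤ (Cr (Gc G hab) f).ncard := by
        refine Set.ncard_le_ncard_of_injOn _ ?_ (hinj P fun p hp => ⟨hp.1.1, hp.2⟩)
          (Set.toFinite _)
        rintro ⟨u, w⟩ ⟨⟨huw, hf⟩, he⟩
        have huw : G.Adj u w := huw
        have hf : f' u ≠ f' w := hf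
        have he : s(u, w) ≠ s(a, b) := he
        refine ⟨⟨fun h => he (fab_eq hab h huw.ne), u, w, rfl, rfl, huw⟩, fun h => ?_⟩
        have h : f (fab hab u) = f (fab hab w) := h
        by_cases hu : u = b
        · subst hu
          rw [fab_b] at h
          have h5 := has _ h.symm
          have hw : w ≠ u := huw.ne'
          rw [fab_ne hab hw] at h5
          have h5 : w = a := congrArg Subtype.val h5
          exact he (by rw [h5, Sym2.eq_swap])
        · by_cases hw : w = b
          · subst hw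
            rw [fab_b] at h
            have h5 := has _ h
            rw [fab_ne hab hu] at h5
            have h5 : u = a := congrArg Subtype.val h5
            exact he (by rw [h5])
          · rw [fab_ne hab hu, fab_ne hab hw] at h
            exact hf (by rw [hout u hu, hout w hw, h])
      have h3 := Set.ncard_le_ncard h1 (Set.toFinite _)
      have h4 := Set.ncard_union_le P {(a, b), (b, a)}
      have h5 : ({(a, b), (b, a)} : Set (U × U)).ncard ≤ 2 := by
        refine (Set.ncard_insert_le _ _).trans ?_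
        rw [Set.ncard_singleton]
      rw [cr_two (G := Gc G hab) f] at h2
      omega
    have := vl_ge (d := d) h6 hK hS hC
    have hd' : (0 : ℤ) ≤ d := by positivity
    unfold vl at this ⊢
    linarith
  · -- the colour of `a`
    let f' : U → ℕ := fun u => f (fab hab u)
    refine ⟨f', ?_⟩
    have hK : ((Set.range f).ncard : ℤ) ≤ (Set.range f').ncard := by
      have h1 : Set.range f ⊆ Set.range f' := by
        rintro n ⟨q, rfl⟩
        refine ⟨q.1, ?_⟩
        show f (fab hab q.1) = f q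
        rw [fab_ne hab q.2]
      exact_mod_cast Set.ncard_le_ncard h1 (Set.toFinite _)
    have hS : ((Sg f).ncard : ℤ) ≤ (Sg f').ncard := by
      have h1 : Subtype.val '' Sg f ⊆ Sg f' := by
        rintro _ ⟨q, hq, rfl⟩ w hw
        have hw : f (fab hab w) = f (fab hab q.1) := hw
        rw [fab_ne hab q.2] at hw
        have h5 := hq _ hw
        by_cases hwb : w = b
        · rw [hwb, fab_b] at h5
          exact absurd (h5 ▸ hq) has
        · rw [fab_ne hab hwb] at h5
          exact congrArg Subtype.val h5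
      have h2 := Set.ncard_le_ncard h1 (Set.toFinite _)
      rw [Set.ncard_image_of_injective _ Subtype.val_injective] at h2
      exact_mod_cast h2
    have hC : ((Cr G f').ncard : ℤ) ≤ 2 * ((Cf (Gc G hab) f).edgeSet.ncard : ℤ) := by
      have hnb : ∀ u w, f' u ≠ f' w → s(u, w) ≠ s(a, b) := by
        intro u w hf he
        apply hf
        show f (fab hab u) = f (fab hab w)
        rcases Sym2.eq_iff.1 he with ⟨e1, e2⟩ | ⟨e1, e2⟩
        · rw [e1, e2, fab_a, fab_b]
        · rw [e1, e2, fab_a, fab_b]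
      have h2 : (Cr G f').ncard ≤ (Cr (Gc G hab) f).ncard := by
        refine Set.ncard_le_ncard_of_injOn _ ?_
          (hinj (Cr G f') fun p hp => ⟨hp.1, hnb p.1 p.2 hp.2⟩) (Set.toFinite _)
        rintro ⟨u, w⟩ ⟨huw, hf⟩
        have huw : G.Adj u w := huw
        exact ⟨⟨fun h => hnb u w hf (fab_eq hab h huw.ne), u, w, rfl, rfl, huw⟩, hf⟩
      rw [cr_two (G := Gc G hab) f] at h2
      exact_mod_cast h2
    have := vl_ge (d := d) h6 hK hS hC
    unfold vl at this ⊢
    linarith

/-- **A bridge.** -/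
theorem tg_bridge [Fintype U] [Fintype W] (h6 : 6 ≤ Fintype.card W) (hH : GenRigid 2 H)
    {a b : U} {N : ℕ} (hab : a ≠ b) (hadj : G.Adj a b) (hbr : b ∉ sd G a b)
    (hI : ∀ A : Set U, A.Nonempty → A ≠ Set.univ → Tg d H (G.induce A))
    (hIc : Tg d H (Gc G hab)) (hN : ∀ f : U → ℕ, vl (Fintype.card W) d G f ≤ N) :
    Mu 0 N (G □ H) := by
  classical
  set A : Set U := sd G a b with hAdef
  have haA : a ∈ A := a_mem
  have hneA : Nonempty A := ⟨⟨a, haA⟩⟩
  have hneB : Nonempty (Aᶜ : Set U) := ⟨⟨b, hbr⟩⟩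
  have hg : {p : U × U | G.Adj p.1 p.2 ∧ ¬ (p.1 ∈ A ↔ p.2 ∈ A)}.ncard ≤ 2 * 1 := by
    have h1 : {p : U × U | G.Adj p.1 p.2 ∧ ¬ (p.1 ∈ A ↔ p.2 ∈ A)} ⊆ {(a, b), (b, a)} := by
      rintro ⟨u, w⟩ ⟨huw, hne⟩
      have huw : G.Adj u w := huw
      by_cases he : s(u, w) = s(a, b)
      · rcases Sym2.eq_iff.1 he with ⟨e1, e2⟩ | ⟨e1, e2⟩
        · left
          rw [e1, e2]
        · right
          show (u, w) = (b, a)
          rw [e1, e2]
      · exact absurd (side_iff (G0_adj.2 ⟨huw, he⟩)) hne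
    refine (Set.ncard_le_ncard h1 (Set.toFinite _)).trans ((Set.ncard_insert_le _ _).trans ?_)
    rw [Set.ncard_singleton]
  have hcB := vl_const_nonneg (G := G.induce Aᶜ) hneB (Fintype.card W) d
  have hP : ∃ n : ℕ, ∀ f1 : A → ℕ, vl (Fintype.card W) d (G.induce A) f1 ≤ n := by
    refine ⟨N + Fintype.card W, fun f1 => ?_⟩
    obtain ⟨f, hf⟩ := e_glue' (d := d) hg f1 (fun _ => 0) h6
    have h5 := hN f
    push_cast at hf ⊢
    linarith
  set n0 := Nat.find hP with hn0
  have hn1 : ∀ f1 : A → ℕ, vl (Fintype.card W) d (G.induce A) f1 ≤ n0 := Nat.find_spec hP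
  obtain ⟨f1, hf1⟩ : ∃ f1 : A → ℕ, (n0 : ℤ) ≤ vl (Fintype.card W) d (G.induce A) f1 := by
    by_cases h0 : n0 = 0
    · refine ⟨fun _ => 0, ?_⟩
      rw [h0]
      exact vl_const_nonneg hneA _ _
    · have h5 := Nat.find_min hP (m := n0 - 1) (by omega)
      push Not at h5
      obtain ⟨f1, h7⟩ := h5
      refine ⟨f1, ?_⟩
      have : ((n0 - 1 : ℕ) : ℤ) = (n0 : ℤ) - 1 := by
        have : 1 ≤ n0 := by omega
        push_cast [this]
        ring
      rw [this] at h7
      linarith
  have hle : n0 ≤ N + Fintype.card W := by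
    obtain ⟨f, hf⟩ := e_glue' (d := d) hg f1 (fun _ => 0) h6
    have h5 := hN f
    push_cast at hf
    have : (n0 : ℤ) ≤ N + Fintype.card W := by linarith
    exact_mod_cast this
  have hA1 := hI A ⟨a, haA⟩ (fun h => hbr (h ▸ Set.mem_univ b)) n0 hn1
  have hA2 := hI Aᶜ ⟨b, hbr⟩ (fun h => by
    have : a ∈ Aᶜ := h ▸ Set.mem_univ a
    exact this haA) (N + Fintype.card W - n0) (fun f2 => by
      obtain ⟨f, hf⟩ := e_glue' (d := d) hg f1 f2 h6
      have h5 := hN f
      push_cast [hle] at hf ⊢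
      linarith)
  refine bridge_step' hab hadj hbr hH (by omega) (by omega) hA1 hA2 (hIc N fun f => ?_)
  obtain ⟨f', hf'⟩ := vl_gc (d := d) hab hbr f h6
  exact hf'.trans (hN f')

end Pool.Agent.J4H92.NC
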