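import Pool.Agent.J4H92.NC.F6

/-!
# Counting
-/

set_option autoImplicit false

namespace Pool.Agent.J4H92.NC

open SimpleGraph hiding between

open Module Pool.Agent.H283R2.DR Pool.Agent.H283R2.DR.TA Pool.Agent.J4H92.CP Pool.Agent.H789R5

variable {U W : Type} {G : SimpleGraph U} {H : SimpleGraph W}

/-- all proper rigid parts are monochromatic -/
def Mono [Fintype W] (H : SimpleGraph W) (G : SimpleGraph U) (f : U → ℕ) : Prop :=
  ∀ X : Set U, X ≠ Set.univ → 2 ≤ X.ncard → Mu 0 6 ((G.induce X) □ H) →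
    ∀ x ∈ X, ∀ y ∈ X, f x = f y

theorem no_rigid [Fintype U] [Fintype W] {f : U → ℕ} (hnr : ¬ Mu 0 6 (G □ H))
    (hM : Mono H G f) {X : Set U} {u w : U} (hu : u ∈ X) (hw : w ∈ X) (hne : f u ≠ f w) :
    ¬ Mu 0 6 ((G.induce X) □ H) := by
  intro hX
  by_cases hXu : X = Set.univ
  · subst hXu
    exact hnr (mu_univ hX)
  · have h2 := (Set.one_lt_ncard (s := X) (Set.toFinite _)).2
      ⟨u, hu, w, hw, fun h => hne (by rw [h])⟩
    exact hne (hM X hXu h2 hX u hu w hw)

theorem tri_sg [Fintype U] [Fintype W] (h6 : 6 ≤ Fintype.card W) (hH : GenRigid 2 H) {N : ℕ}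
    {f : U → ℕ} (hf : Ncl H G N f) (hnr : ¬ Mu 0 6 (G □ H)) (hM : Mono H G f) {v a b : U}
    (hva : G.Adj v a) (hvb : G.Adj v b) (hab : G.Adj a b) (hv : v ∈ Sg f) : a ∈ Sg f := by
  by_contra ha
  have hA := hf.cl a ha
  have hva' : f v ≠ f a := fun h => hva.ne' (hv a h.symm)
  have hvb' : f v ≠ f b := fun h => hvb.ne' (hv b h.symm)
  by_cases hb : f b = f a
  · have h1 := point_step hH (by omega) hA (v := v) (b1 := a) (b2 := b) hva' rfl hb hab.ne hva hvb
    exact no_rigid hnr hM (X := {w | f w = f a} ∪ {v}) (Or.inr rfl) (Or.inl rfl) hva' h1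
  · have h1 := ear_step hH one_pos (by omega) hA (u := ![v, b]) (by
      intro i j hij
      fin_cases i <;> fin_cases j
      · rfl
      · exact absurd hij hvb.ne
      · exact absurd hij hvb.ne'
      · rfl) (by
      intro i
      fin_cases i
      · exact hva'
      · exact hb) (by
      intro j hj
      have : j = 0 := by omega
      subst this
      exact hvb) (b1 := a) (b2 := a) rfl rfl hva hab.symm
    exact no_rigid hnr hM (X := {w | f w = f a} ∪ Set.range ![v, b])
      (Or.inr ⟨0, rfl⟩) (Or.inl rfl) hva' h1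

theorem two_tri [Fintype U] [Fintype W] (h9 : 9 ≤ Fintype.card W) (hH : GenRigid 2 H)
    {w v x v' x' : U} (h1 : G.Adj w v) (h2 : G.Adj w x) (h3 : G.Adj v x) (h1' : G.Adj w v')
    (h2' : G.Adj w x') (h3' : G.Adj v' x') (hne1 : v' ≠ v) (hne2 : v' ≠ x) :
    Mu 0 6 ((G.induce {w, v, x, v', x'}) □ H) := by
  classical
  have mw : w ∈ ({w, v, x, v', x'} : Set U) := Or.inl rfl
  have mv : v ∈ ({w, v, x, v', x'} : Set U) := Or.inr (Or.inl rfl)
  have mx : x ∈ ({w, v, x, v', x'} : Set U) := Or.inr (Or.inr (Or.inl rfl))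
  have mv' : v' ∈ ({w, v, x, v', x'} : Set U) := Or.inr (Or.inr (Or.inr (Or.inl rfl)))
  have mx' : x' ∈ ({w, v, x, v', x'} : Set U) := Or.inr (Or.inr (Or.inr (Or.inr rfl)))
  have hcard : ({w, v, x, v', x'} : Set U).ncard ≤ 5 := by
    have e1 := Set.ncard_insert_le w {v, x, v', x'}
    have e2 := Set.ncard_insert_le v {x, v', x'}
    have e3 := Set.ncard_insert_le x {v', x'}
    have e4 := Set.ncard_insert_le v' {x'}
    rw [Set.ncard_singleton] at e4
    omega
  refine leafless_rigid hH _ ({w, v, x, v', x'} : Set U) (G.induce {w, v, x, v', x'}) rfl ?_ ?_ ?_ ?_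
  · have key : ∀ y : ({w, v, x, v', x'} : Set U),
        (G.induce {w, v, x, v', x'}).Reachable ⟨w, mw⟩ y := by
      rintro ⟨y, hy⟩
      by_cases hyw : y = w
      · subst hyw
        exact Reachable.refl _
      · refine Adj.reachable ?_
        show G.Adj w y
        rcases hy with rfl | rfl | rfl | rfl | rfl
        · exact absurd rfl hyw
        · exact h1
        · exact h2
        · exact h1'
        · exact h2'
    have hne : Nonempty ({w, v, x, v', x'} : Set U) := ⟨⟨w, mw⟩⟩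
    exact ⟨fun y z => (key y).symm.trans (key z)⟩
  · rintro ⟨y, hy⟩
    have mk : ∀ s t : U, s ∈ ({w, v, x, v', x'} : Set U) → t ∈ ({w, v, x, v', x'} : Set U) →
        s ≠ t → G.Adj y s → G.Adj y t → Two (G.induce {w, v, x, v', x'}) ⟨y, hy⟩ :=
      fun s t hs ht hst h h' => ⟨⟨s, hs⟩, ⟨t, ht⟩, fun he => hst (congrArg Subtype.val he), h, h'⟩
    rcases hy with hy | hy | hy | hy | hy
    · exact mk v v' mv mv' hne1.symm (hy ▸ h1) (hy ▸ h1')
    · exact mk w x mw mx h2.ne (hy ▸ h1.symm) (hy ▸ h3)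
    · exact mk w v mw mv h1.ne (hy ▸ h2.symm) (hy ▸ h3.symm)
    · exact mk w x' mw mx' h2'.ne (hy ▸ h1'.symm) (hy ▸ h3')
    · have hy : y = x' := hy
      exact mk w v' mw mv' h1'.ne (hy ▸ h2'.symm) (hy ▸ h3'.symm)
  · refine ⟨⟨w, mw⟩, ⟨v, mv⟩, ⟨x, mx⟩, ⟨v', mv'⟩, fun he => h3.ne (congrArg Subtype.val he),
      fun he => hne1 (congrArg Subtype.val he).symm, fun he => hne2 (congrArg Subtype.val he).symm,
      h1, h2, h1'⟩
  · rw [← Nat.card_eq_fintype_card, Nat.card_coe_set_eq]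
    omega

/-- an isolated triangle -/
theorem no_tri (hG : G.Connected) (h3 : Three G) {v a b : U}
    (hv : ∀ u, G.Adj v u → u = a ∨ u = b) (ha : ∀ u, G.Adj a u → u = v ∨ u = b)
    (hb : ∀ u, G.Adj b u → u = v ∨ u = a) : False := by
  by_cases hB : ({v, a, b} : Set U) = Set.univ
  · obtain ⟨u, x, y, z, hxy, hxz, hyz, hx, hy, hz⟩ := h3
    have hu : u ∈ ({v, a, b} : Set U) := hB ▸ Set.mem_univ u
    rcases hu with rfl | rfl | hu
    · rcases hv x hx with rfl | rfl <;> rcases hv y hy with rfl | rfl <;>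
        rcases hv z hz with rfl | rfl <;> simp_all
    · rcases ha x hx with rfl | rfl <;> rcases ha y hy with rfl | rfl <;>
        rcases ha z hz with rfl | rfl <;> simp_all
    · have hu : u = b := hu
      subst hu
      rcases hb x hx with rfl | rfl <;> rcases hb y hy with rfl | rfl <;>
        rcases hb z hz with rfl | rfl <;> simp_all
  · obtain ⟨c, hc, x, hx, hcx⟩ := exists_cross hG ⟨v, Or.inl rfl⟩ hB
    apply hx
    rcases hc with rfl | rfl | hc
    · rcases hv x hcx with rfl | rfl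
      · exact Or.inr (Or.inl rfl)
      · exact Or.inr (Or.inr rfl)
    · rcases ha x hcx with rfl | rfl
      · exact Or.inl rfl
      · exact Or.inr (Or.inr rfl)
    · have hc : c = b := hc
      subst hc
      rcases hb x hcx with rfl | rfl
      · exact Or.inl rfl
      · exact Or.inr (Or.inl rfl)

/-- the arithmetic of the count -/
theorem arith {h r2 r3 t : ℤ} {S K C : ℤ} (hh : 30 ≤ h) (h2 : 0 ≤ r2) (h3 : 0 ≤ r3) (ht : 0 ≤ t)
    (hr : r2 ≤ 2 * r3) (hS : S ≤ r2 + r3) (hK : K ≤ r2 + r3 + t)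
    (hC : 2 * r2 + 3 * r3 + t ≤ 2 * C) (hv : 7 ≤ 6 * K + (h - 3) * S - h * C + h) :
    3 * (r2 + r3 + 4 * t) ≤ h + 6 := by
  have e1 : (h - 3) * S ≤ (h - 3) * (r2 + r3) := mul_le_mul_of_nonneg_left hS (by linarith)
  have e2 : h * (2 * r2 + 3 * r3 + t) ≤ h * (2 * C) := mul_le_mul_of_nonneg_left hC (by linarith)
  have e3 : (h - 6) * r3 + (h - 12) * t ≤ 6 * r2 + 2 * h - 14 := by nlinarith
  have e4 : (h - 18) * r3 + (h - 12) * t ≤ 2 * h - 14 := by nlinarith
  have b1 : r3 ≤ 3 := by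
    by_contra hcon
    push Not at hcon
    have : (h - 18) * 4 ≤ (h - 18) * r3 := mul_le_mul_of_nonneg_left (by linarith) (by linarith)
    have : 0 ≤ (h - 12) * t := mul_nonneg (by linarith) ht
    linarith
  have b2 : t ≤ 2 := by
    by_contra hcon
    push Not at hcon
    have : (h - 12) * 3 ≤ (h - 12) * t := mul_le_mul_of_nonneg_left (by linarith) (by linarith)
    have : 0 ≤ (h - 18) * r3 := mul_nonneg (by linarith) h3
    linarith
  interval_cases r3 <;> interval_cases t <;> linarith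

end Pool.Agent.J4H92.NC
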