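import Pool.Agent.J4H92.NC.E5
import Pool.Agent.J4H92.NC.F7

/-!
# Colourings with rigid classes, general rank
-/

set_option autoImplicit false

namespace Pool.Agent.J4H92.NC

open SimpleGraph hiding between

open Module Pool.Agent.H283R2.DR Pool.Agent.H283R2.DR.TA Pool.Agent.J4H92.CP Pool.Agent.H789R5

variable {U W : Type} {G : SimpleGraph U} {H : SimpleGraph W} {d : ℕ}

/-- a colouring all of whose classes are single vertices or rigid parts -/
structure Ncg [Fintype W] (d : ℕ) (H : SimpleGraph W) (G : SimpleGraph U) (N : ℕ) (f : U → ℕ) :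
    Prop where
  ne : ∃ a b, f a ≠ f b
  bd : (N : ℤ) + 1 ≤ vl (Fintype.card W) d G f + Fintype.card W
  cl : ∀ u, u ∉ Sg f → Mu 0 6 ((G.induce {w | f w = f u}) □ H)

theorem exists_ncg [Fintype U] [Fintype W] (h6 : 6 ≤ Fintype.card W) {N : ℕ}
    (hI : ∀ A : Set U, A.Nonempty → A ≠ Set.univ → Tg d H (G.induce A))
    (hN : ∀ f : U → ℕ, vl (Fintype.card W) d G f ≤ N)
    (hf : ∃ f : U → ℕ, (∃ a b, f a ≠ f b) ∧
      (N : ℤ) + 1 ≤ vl (Fintype.card W) d G f + Fintype.card W) : ∃ f, Ncg d H G N f := by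
  classical
  obtain ⟨n, ⟨f, ⟨hf1, hf2⟩, rfl⟩, hmin⟩ := (wellFounded_lt (α := ℕ)).has_min
    {n : ℕ | ∃ f : U → ℕ, ((∃ a b, f a ≠ f b) ∧
      (N : ℤ) + 1 ≤ vl (Fintype.card W) d G f + Fintype.card W) ∧
      ((N : ℤ) - vl (Fintype.card W) d G f).toNat = n}
    (by obtain ⟨f, hf⟩ := hf; exact ⟨_, f, hf, rfl⟩)
  refine ⟨f, hf1, hf2, fun u hu => ?_⟩
  by_contra hcon
  have h2 := two_of_not_sg hu
  have hne := cls_ne_univ hf1 (f u)
  obtain ⟨f1, hf1'⟩ : ∃ f1 : ({w | f w = f u} : Set U) → ℕ,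
      6 < vl (Fintype.card W) d (G.induce {w | f w = f u}) f1 := by
    by_contra hno
    push Not at hno
    exact hcon (hI {w | f w = f u} ⟨u, rfl⟩ hne 6 (fun f1 => by exact_mod_cast hno f1))
  obtain ⟨f', hf', hsep⟩ := e_refine (d := d) (G := G) (f := f) (c := f u) (X := {w | f w = f u})
    (fun _ => Iff.rfl) h2 f1 h6
  obtain ⟨w, hw⟩ := (Set.ne_univ_iff_exists_notMem _).1 hne
  refine hmin _ ⟨f', ⟨⟨u, w, hsep u rfl w hw⟩, by linarith⟩, rfl⟩ ?_
  have h4 := hN f'
  have h5 := hN f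
  omega

/-- the union of the classes that meet a rigid part is rigid -/
theorem union_rigid [Fintype U] [Fintype W] (h3 : 3 ≤ Fintype.card W) {f : U → ℕ}
    (hcl : ∀ u, u ∉ Sg f → Mu 0 6 ((G.induce {w | f w = f u}) □ H)) {X : Set U}
    (hX : Mu 0 6 ((G.induce X) □ H)) : Mu 0 6 ((G.induce {u | f u ∈ f '' X}) □ H) := by
  classical
  set Z : Set U := {u | f u ∈ f '' X} with hZ
  have hXZ : X ⊆ Z := fun x hx => ⟨x, hx, rfl⟩
  obtain ⟨k, ⟨Y, ⟨hXY, hYZ, hY⟩, rfl⟩, hmin⟩ := (wellFounded_lt (α := ℕ)).has_min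
    {k : ℕ | ∃ Y : Set U, (X ⊆ Y ∧ Y ⊆ Z ∧ Mu 0 6 ((G.induce Y) □ H)) ∧
      Z.ncard - Y.ncard = k} ⟨_, X, ⟨subset_rfl, hXZ, hX⟩, rfl⟩
  by_cases hYe : Y = Z
  · rw [← hYe]
    exact hY
  exfalso
  have hlt : Y ⊂ Z := lt_of_le_of_ne hYZ hYe
  obtain ⟨z, hz, hzY⟩ := Set.exists_of_ssubset hlt
  obtain ⟨x', hx', hxz⟩ := hz
  have hzs : z ∉ Sg f := by
    intro hzs
    have := hzs x' hxz
    exact hzY (this ▸ hXY hx')
  have hun := mu_union h3 (A := {w | f w = f z}) (B := Y) (z := x') hxz (hXY hx') (hcl z hzs) hY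
  have hsub : ({w | f w = f z} : Set U) ∪ Y ⊆ Z := by
    rintro w (hw | hw)
    · have hw : f w = f z := hw
      exact ⟨x', hx', hxz.trans hw.symm⟩
    · exact hYZ hw
  refine hmin _ ⟨{w | f w = f z} ∪ Y, ⟨hXY.trans Set.subset_union_right, hsub, hun⟩, rfl⟩ ?_
  have h1 : Y ⊂ ({w | f w = f z} : Set U) ∪ Y := by
    refine ⟨Set.subset_union_right, fun h => hzY (h (Or.inl rfl))⟩
  have h2 := Set.ncard_lt_ncard h1 (Set.toFinite _)
  have h4 := Set.ncard_le_ncard hsub (Set.toFinite _)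
  omega

theorem exists_ncg_min [Fintype U] [Fintype W] (h6 : 6 ≤ Fintype.card W)
    (hr : genRank 3 H + d = 2 * Fintype.card W) {N : ℕ}
    (hnr : ¬ Mu 0 6 (G □ H)) (hf : ∃ f, Ncg d H G N f) :
    ∃ f, Ncg d H G N f ∧ Mono H G f := by
  classical
  obtain ⟨n, ⟨f, hf, rfl⟩, hmin⟩ := (wellFounded_lt (α := ℕ)).has_min
    {n : ℕ | ∃ f : U → ℕ, Ncg d H G N f ∧ (Set.range f).ncard = n}
    (by obtain ⟨f, hf⟩ := hf; exact ⟨_, f, hf, rfl⟩)
  refine ⟨f, hf, fun X hXu hX2 hX x hx y hy => ?_⟩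
  by_contra hxy
  have hZr := union_rigid (by omega) hf.cl hX
  set Z : Set U := {u | f u ∈ f '' X} with hZ
  have hZu : Z ≠ Set.univ := by
    intro h
    rw [h] at hZr
    exact hnr (mu_univ hZr)
  set ι : X → U := Subtype.val with hι
  set f' := mrg ι ⟨x, hx⟩ f with hf'
  have hin : ∀ u ∈ Z, f' u = f x := by
    rintro u ⟨q, hq, hqu⟩
    exact mrg_in ⟨⟨q, hq⟩, hqu⟩
  have hout : ∀ u, u ∉ Z → f' u = f u := by
    intro u hu
    refine mrg_out ?_
    rintro ⟨q, hq⟩
    exact hu ⟨q.1, q.2, hq⟩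
  have hxZ : x ∈ Z := ⟨x, hx, rfl⟩
  have hval : vl (Fintype.card W) d G f ≤ vl (Fintype.card W) d G f' :=
    vl_mrg (Γ := G.induce X) Subtype.val_injective (fun a b hab => hab) ⟨x, hx⟩ h6
      (vl_le hr.le h6 hX _)
  have hZc : ∀ u w, f w = f u → (w ∈ Z ↔ u ∈ Z) := by
    intro u w h
    rw [hZ]
    show f w ∈ f '' X ↔ f u ∈ f '' X
    rw [h]
  obtain ⟨u0, hu0⟩ := (Set.ne_univ_iff_exists_notMem _).1 hZu
  refine hmin _ ⟨f', ⟨⟨u0, x, ?_⟩, ?_, fun u hu => ?_⟩, rfl⟩ ?_
  · rw [hout u0 hu0, hin x hxZ]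
    intro h
    exact hu0 ((hZc x u0 h).2 hxZ)
  · have := hf.bd
    linarith
  · by_cases huZ : u ∈ Z
    · have hset : ({w | f' w = f' u} : Set U) = Z := by
        ext w
        show f' w = f' u ↔ w ∈ Z
        rw [hin u huZ]
        constructor
        · intro h
          by_contra hw
          rw [hout w hw] at h
          exact hw ((hZc x w h).2 hxZ)
        · intro hw
          exact hin w hw
      rw [hset]
      exact hZr
    · have hset : ({w | f' w = f' u} : Set U) = {w | f w = f u} := by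
        ext w
        show f' w = f' u ↔ f w = f u
        rw [hout u huZ]
        by_cases hw : w ∈ Z
        · rw [hin w hw]
          constructor
          · intro h
            exact absurd ((hZc u x h).1 hxZ) huZ
          · intro h
            exact absurd ((hZc u w h).1 hw) huZ
        · rw [hout w hw]
      rw [hset]
      refine hf.cl u fun hsg => hu fun w hw => ?_
      have h5 : w ∈ ({w | f' w = f' u} : Set U) := hw
      rw [hset] at h5
      exact hsg w h5
  · have hsub : Set.range f' ⊂ Set.range f := by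
      refine ⟨?_, fun hh => ?_⟩
      · rintro _ ⟨u, rfl⟩
        by_cases hu : u ∈ Z
        · rw [hin u hu]
          exact ⟨x, rfl⟩
        · rw [hout u hu]
          exact ⟨u, rfl⟩
      · obtain ⟨u, hu⟩ := hh ⟨y, rfl⟩
        by_cases huZ : u ∈ Z
        · rw [hin u huZ] at hu
          exact hxy hu
        · rw [hout u huZ] at hu
          exact huZ ⟨y, hy, hu.symm⟩
    exact Set.ncard_lt_ncard hsub (Set.toFinite _)

/-- the triangle -/
theorem tri_rig [Fintype U] [Fintype W] (h3 : 3 ≤ Fintype.card W) (hH : GenRigid 2 H)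
    (hr : 2 * Fintype.card W ≤ genRank 3 H + 2) {v a b : U} (hva : G.Adj v a) (hvb : G.Adj v b)
    (hab : G.Adj a b) : Mu 0 6 ((G.induce {v, a, b}) □ H) := by
  classical
  have h1 := rank_le H
  have h2 := tri_plane hH (by omega) (by omega)
  have hcard : Fintype.card ({v, a, b} : Set U) = 3 := by
    rw [← Nat.card_eq_fintype_card, Nat.card_coe_set_eq, Set.ncard_insert_of_notMem,
      Set.ncard_pair hab.ne]
    rintro (h | h)
    · exact hva.ne h
    · exact hvb.ne h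
  let e : ({v, a, b} : Set U) ≃ Fin 3 := Fintype.equivFinOfCardEq hcard
  have hadj : ∀ x y : ({v, a, b} : Set U), x ≠ y → G.Adj x.1 y.1 := by
    rintro ⟨x, hx⟩ ⟨y, hy⟩ hxy
    have hxy' : x ≠ y := fun h => hxy (Subtype.ext h)
    show G.Adj x y
    rcases hx with hx | hx | hx <;> rcases hy with hy | hy | hy
    · exact absurd (hx.trans hy.symm) hxy'
    · rw [hx, hy]; exact hva
    · have hy : y = b := hy
      rw [hx, hy]; exact hvb
    · rw [hx, hy]; exact hva.symm
    · exact absurd (hx.trans hy.symm) hxy'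
    · have hy : y = b := hy
      rw [hx, hy]; exact hab
    · have hx : x = b := hx
      rw [hx, hy]; exact hvb.symm
    · have hx : x = b := hx
      rw [hx, hy]; exact hab.symm
    · have hx : x = b := hx
      have hy : y = b := hy
      exact absurd (hx.trans hy.symm) hxy'
  refine h2.pull (Equiv.prodCongr e (Equiv.refl W)) ?_
  rintro ⟨i, x⟩ ⟨j, y⟩ (⟨h, h'⟩ | ⟨h, h'⟩)
  · refine Or.inl ⟨?_, h'⟩
    have h : i ≠ j := h
    exact hadj _ _ fun he => h (e.symm.injective he)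
  · have h' : i = j := h'
    subst h'
    exact Or.inr ⟨h, rfl⟩

theorem tri_sg' [Fintype U] [Fintype W] (h6 : 6 ≤ Fintype.card W) (hH : GenRigid 2 H)
    {f : U → ℕ} (hcl : ∀ u, u ∉ Sg f → Mu 0 6 ((G.induce {w | f w = f u}) □ H))
    (hnr : ¬ Mu 0 6 (G □ H)) (hM : Mono H G f) {v a b : U}
    (hva : G.Adj v a) (hvb : G.Adj v b) (hab : G.Adj a b) (hv : v ∈ Sg f) : a ∈ Sg f := by
  by_contra ha
  have hA := hcl a ha
  have hva' : f v ≠ f a := fun h => hva.ne' (hv a h.symm)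
  have hvb' : f v ≠ f b := fun h => hvb.ne' (hv b h.symm)
  by_cases hb : f b = f a
  · have h1 := point_step hH (by omega) hA (v := v) (b1 := a) (b2 := b) hva' rfl hb hab.ne hva hvb
    exact no_rigid hnr hM (X := {w | f w = f a} ∪ {v}) (Or.inr rfl) (Or.inl rfl) hva' h1
  · have h1 := ear_step hH one_pos (by omega) hA (u := ![v, b]) (by
      intro i j hij
      fin_cases i <;> fin_cases j
      · rfl
      · exact absurd hij hvb.ne
      · exact absurd hij hvb.ne'
      · rfl) (by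
      intro i
      fin_cases i
      · exact hva'
      · exact hb) (by
      intro j hj
      have : j = 0 := by omega
      subst this
      exact hvb) (b1 := a) (b2 := a) rfl rfl hva hab.symm
    exact no_rigid hnr hM (X := {w | f w = f a} ∪ Set.range ![v, b])
      (Or.inr ⟨0, rfl⟩) (Or.inl rfl) hva' h1

end Pool.Agent.J4H92.NC
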