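import Pool.Agent.J4H92.NC.B2
import Pool.Agent.J4H92.NC.E6
import Pool.Agent.J4H92.NC.F8

/-!
# A minimal counterexample does not exist
-/

set_option autoImplicit false

namespace Pool.Agent.J4H92.NC

open SimpleGraph hiding between

open Module Pool.Agent.H283R2.DR Pool.Agent.H283R2.DR.TA Pool.Agent.J4H92.CP Pool.Agent.H789R5

variable {U W : Type} {G : SimpleGraph U} {H : SimpleGraph W} {d : ℕ}

/-- a set closed under the edges different from `ab` contains the side of `a` -/
theorem sd_sub {A : Set U} {a b : U} (ha : a ∈ A)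
    (hA : ∀ u ∈ A, ∀ w, G.Adj u w → s(u, w) ≠ s(a, b) → w ∈ A) : sd G a b ⊆ A := by
  rintro u ⟨p⟩
  suffices h : ∀ (x y : U), (G0 G a b).Walk x y → x ∈ A → y ∈ A from h a u p ha
  intro x y q
  induction q with
  | nil => exact fun h => h
  | cons hadj _ ih => exact fun h => ih (hA _ h _ (G0_adj.1 hadj).1 (G0_adj.1 hadj).2)

/-- the number of neighbours -/
noncomputable def dg [Fintype U] (G : SimpleGraph U) (v : U) : ℕ :=
  {w | G.Adj v w}.ncard

/-- a vertex with at most two neighbours -/
theorem nb2 [Fintype U] {u s t : U} (hst : s ≠ t) (hs : G.Adj u s) (ht : G.Adj u t)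
    (h : dg G u ≤ 2) : ∀ z, G.Adj u z → z = s ∨ z = t := by
  intro z hz
  by_contra hcon
  push Not at hcon
  have h1 : ({z, s, t} : Set U) ⊆ {w | G.Adj u w} := by
    rintro y (rfl | rfl | rfl)
    · exact hz
    · exact hs
    · exact ht
  have h2 := Set.ncard_le_ncard h1 (Set.toFinite _)
  rw [Set.ncard_insert_of_notMem (by
    rintro (h | h)
    · exact hcon.1 h
    · exact hcon.2 h), Set.ncard_pair hst] at h2
  unfold dg at h
  omega

/-- **Degrees in a triangle with a vertex of degree two.** -/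
theorem tri_deg [Fintype U] (hG : G.Connected) (h3 : Three G)
    (hbl : ∀ a b, G.Adj a b → b ∈ sd G a b) {v a b : U} (hva : G.Adj v a) (hvb : G.Adj v b)
    (hab : G.Adj a b) (hv : ∀ u, G.Adj v u → u = a ∨ u = b) : 8 ≤ dg G v + dg G a + dg G b := by
  classical
  have key : ∀ x y : U, G.Adj v x → G.Adj v y → G.Adj x y → (∀ u, G.Adj v u → u = x ∨ u = y) →
      dg G x ≤ 2 → 4 ≤ dg G y := by
    intro x y hvx hvy hxy hv hx
    have hx' := nb2 (u := x) (s := v) (t := y) hvy.ne hvx.symm hxy hx
    by_contra hcon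
    have h4 : ∀ z, G.Adj y z → z ≠ v → z ≠ x → False := by
      intro z hyz hzv hzx
      have h5 := sd_sub (A := {v, x, y}) (G := G) (a := y) (b := z) (Or.inr (Or.inr rfl)) (by
        rintro u (rfl | rfl | hu) w huw hne
        · rcases hv w huw with rfl | rfl
          · exact Or.inr (Or.inl rfl)
          · exact Or.inr (Or.inr rfl)
        · rcases hx' w huw with rfl | rfl
          · exact Or.inl rfl
          · exact Or.inr (Or.inr rfl)
        · have hu : u = y := hu
          subst hu
          by_contra hw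
          have hwz : w ≠ z := fun h => hne (by rw [h])
          have hwv : w ≠ v := fun h => hw (Or.inl h)
          have hwx : w ≠ x := fun h => hw (Or.inr (Or.inl h))
          have h6 : ({v, x, z, w} : Set U) ⊆ {w | G.Adj u w} := by
            rintro q (rfl | rfl | rfl | rfl)
            · exact hvy.symm
            · exact hxy.symm
            · exact hyz
            · exact huw
          have h7 := Set.ncard_le_ncard h6 (Set.toFinite _)
          rw [Set.ncard_insert_of_notMem (by
            rintro (h | h | h)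
            · exact hvx.ne h
            · exact hzv h.symm
            · exact hwv h.symm), Set.ncard_insert_of_notMem (by
            rintro (h | h)
            · exact hzx h.symm
            · exact hwx h.symm), Set.ncard_pair hwz.symm] at h7
          exact hcon h7)
      rcases h5 (hbl y z hyz) with h | h | h
      · exact hzv h
      · exact hzx h
      · exact hyz.ne' h
    refine no_tri hG h3 hv hx' fun u hu => ?_
    by_contra hne
    push Not at hne
    exact h4 u hu hne.1 hne.2
  have hv2 : 2 ≤ dg G v := by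
    have h1 : ({a, b} : Set U) ⊆ {w | G.Adj v w} := by
      rintro y (rfl | rfl)
      · exact hva
      · exact hvb
    have h2 := Set.ncard_le_ncard h1 (Set.toFinite _)
    rw [Set.ncard_pair hab.ne] at h2
    exact h2
  have ha2 : 2 ≤ dg G a := by
    have h1 : ({v, b} : Set U) ⊆ {w | G.Adj a w} := by
      rintro y (rfl | rfl)
      · exact hva.symm
      · exact hab
    have h2 := Set.ncard_le_ncard h1 (Set.toFinite _)
    rw [Set.ncard_pair hvb.ne] at h2
    exact h2
  have hb2 : 2 ≤ dg G b := by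
    have h1 : ({v, a} : Set U) ⊆ {w | G.Adj b w} := by
      rintro y (rfl | rfl)
      · exact hvb.symm
      · exact hab.symm
    have h2 := Set.ncard_le_ncard h1 (Set.toFinite _)
    rw [Set.ncard_pair hva.ne] at h2
    exact h2
  by_cases h5 : dg G a ≤ 2
  · have := key a b hva hvb hab hv h5
    omega
  by_cases h6 : dg G b ≤ 2
  · have := key b a hvb hva hab.symm (fun u hu => (hv u hu).symm) h6
    omega
  omega

/-- the number of neighbours in other classes -/
noncomputable def cdg [Fintype U] (G : SimpleGraph U) (f : U → ℕ) (v : U) : ℕ :=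
  {w | G.Adj v w ∧ f v ≠ f w}.ncard

theorem cdg_sg [Fintype U] {f : U → ℕ} {v : U} (hv : v ∈ Sg f) : cdg G f v = dg G v := by
  unfold cdg dg
  congr 1
  ext w
  exact ⟨fun h => h.1, fun h => ⟨h, fun hh => h.ne' (hv w hh.symm)⟩⟩

/-- **A class is left by two edges.** -/
theorem two_out [Fintype U] [DecidableEq U] (hG : G.Connected)
    (hbl : ∀ a b, G.Adj a b → b ∈ sd G a b) {f : U → ℕ} (hne : ∃ a b, f a ≠ f b) (u : U)
    (A : Finset U) (hA : ∀ w, w ∈ A ↔ f w = f u) : 2 ≤ ∑ v ∈ A, cdg G f v := by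
  classical
  obtain ⟨b, hb, x, hx, hbx⟩ := exists_cross hG (B := {w | f w = f u}) ⟨u, rfl⟩
    (cls_ne_univ hne (f u))
  have hb : f b = f u := hb
  have hx : f x ≠ f u := hx
  have hbA : b ∈ A := (hA b).2 hb
  have hb1 : 1 ≤ cdg G f b := by
    unfold cdg
    rw [Nat.one_le_iff_ne_zero, Ne, Set.ncard_eq_zero]
    intro h
    have : x ∈ ({w | G.Adj b w ∧ f b ≠ f w} : Set U) := ⟨hbx, fun h => hx (h ▸ hb)⟩
    rw [h] at this
    exact this
  by_contra hcon
  -- the only crossing pair is `(b, x)`
  have hone : ∀ u' w', f u' = f u → G.Adj u' w' → f w' ≠ f u → u' = b ∧ w' = x := by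
    intro u' w' hu' hadj hw'
    have hu'A : u' ∈ A := (hA u').2 hu'
    have h1 : 1 ≤ cdg G f u' := by
      unfold cdg
      rw [Nat.one_le_iff_ne_zero, Ne, Set.ncard_eq_zero]
      intro h
      have : w' ∈ ({w | G.Adj u' w ∧ f u' ≠ f w} : Set U) := ⟨hadj, fun h => hw' (h ▸ hu')⟩
      rw [h] at this
      exact this
    have e1 : u' = b := by
      by_contra hne'
      have h2 : ({u', b} : Finset U) ⊆ A := by
        intro y hy
        rw [Finset.mem_insert, Finset.mem_singleton] at hy
        rcases hy with rfl | rfl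
        · exact hu'A
        · exact hbA
      have h3 := Finset.sum_le_sum_of_subset (f := cdg G f) h2
      rw [Finset.sum_pair hne'] at h3
      omega
    subst e1
    refine ⟨rfl, ?_⟩
    by_contra hne'
    have h2 : ({w', x} : Set U) ⊆ {w | G.Adj u' w ∧ f u' ≠ f w} := by
      rintro y (rfl | rfl)
      · exact ⟨hadj, fun h => hw' (h ▸ hu')⟩
      · exact ⟨hbx, fun h => hx (h ▸ hb)⟩
    have h3 := Set.ncard_le_ncard h2 (Set.toFinite _)
    rw [Set.ncard_pair hne'] at h3
    have h4 := Finset.single_le_sum (f := cdg G f) (fun _ _ => Nat.zero_le _) hbA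
    unfold cdg at h4 hcon
    omega
  have h5 := sd_sub (A := {w | f w = f u}) (G := G) (a := b) (b := x) hb (by
    intro u' hu' w' hadj hne'
    by_contra hw'
    obtain ⟨e1, e2⟩ := hone u' w' hu' hadj hw'
    exact hne' (by rw [e1, e2]))
  exact hx (h5 (hbl b x hbx))

/-- the arithmetic of the last step -/
theorem arith2 {h s t τ S K C : ℤ} (h12 : 12 ≤ h) (hs : 0 ≤ s) (ht : 0 ≤ t) (hτ : 0 ≤ τ)
    (hsum : 2 ≤ s + t + τ) (hS : S ≤ s + 3 * t) (hK : K ≤ s + 3 * t + τ)
    (hC : 3 * s + 8 * t + 2 * τ ≤ 2 * C) (hv : 7 ≤ 6 * K + (h - 3) * S - h * C + h) : False := by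
  have e1 : (h - 3) * S ≤ (h - 3) * (s + 3 * t) := mul_le_mul_of_nonneg_left hS (by linarith)
  have e2 : h * (3 * s + 8 * t + 2 * τ) ≤ h * (2 * C) := mul_le_mul_of_nonneg_left hC (by linarith)
  have e3 : 0 ≤ (h - 12) * s := mul_nonneg (by linarith) hs
  have e4 : 0 ≤ (h - 12) * t := mul_nonneg (by linarith) ht
  have e5 : 0 ≤ (h - 12) * τ := mul_nonneg (by linarith) hτ
  have e6 : 0 ≤ (h - 12) * (s + t + τ - 2) := mul_nonneg (by linarith) (by linarith)
  nlinarith

theorem arith3 {h s τ S K C d : ℤ} (h6 : 6 ≤ h) (hd : d ≤ 2) (hs : 0 ≤ s) (hτ : 0 ≤ τ)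
    (hsum : 2 ≤ s + τ) (hS0 : 0 ≤ S) (hS : S ≤ s) (hK : K ≤ s + τ)
    (hC : 3 * s + 2 * τ ≤ 2 * C) (hv : 7 ≤ 6 * K + (h + d - 6) * S - h * C + h) : False := by
  have e0 : (h + d - 6) * S ≤ (h - 4) * S := mul_le_mul_of_nonneg_right (by linarith) hS0
  have e1 : (h - 4) * S ≤ (h - 4) * s := mul_le_mul_of_nonneg_left hS (by linarith)
  have e2 : h * (3 * s + 2 * τ) ≤ h * (2 * C) := mul_le_mul_of_nonneg_left hC (by linarith)
  have e3 : 0 ≤ (h - 6) * s := mul_nonneg (by linarith) hs
  have e5 : 0 ≤ (h - 6) * τ := mul_nonneg (by linarith) hτ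
  have e6 : 0 ≤ (h - 6) * (s + τ - 2) := mul_nonneg (by linarith) (by linarith)
  nlinarith

end Pool.Agent.J4H92.NC
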