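import Pool.Agent.J4H92.NC.B3

/-!
# A minimal counterexample does not exist, count
-/

set_option autoImplicit false

namespace Pool.Agent.J4H92.NC

open SimpleGraph hiding between

open Module Pool.Agent.H283R2.DR Pool.Agent.H283R2.DR.TA Pool.Agent.J4H92.CP Pool.Agent.H789R5

variable {U W : Type} {G : SimpleGraph U} {H : SimpleGraph W} {d : ℕ}

/-- a triangle with a vertex of degree two -/
structure TV (G : SimpleGraph U) (v a b : U) : Prop where
  va : G.Adj v a
  vb : G.Adj v b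
  ab : G.Adj a b
  nb : ∀ z, G.Adj v z → z = a ∨ z = b

theorem tv_card [DecidableEq U] {v a b : U} (h : TV G v a b) : ({v, a, b} : Finset U).card = 3 := by
  rw [Finset.card_insert_of_notMem, Finset.card_pair h.ab.ne]
  rw [Finset.mem_insert, Finset.mem_singleton, not_or]
  exact ⟨h.va.ne, h.vb.ne⟩

theorem tv_eq [DecidableEq U] {v a b v' a' b' : U} (h : TV G v a b) (h' : TV G v' a' b')
    (hm : v' ∈ ({v, a, b} : Finset U)) : ({v, a, b} : Finset U) = {v', a', b'} := by
  have key : ∀ z, z ∈ ({v, a, b} : Finset U) → z = v' ∨ G.Adj v' z := by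
    intro z hz
    rw [Finset.mem_insert, Finset.mem_insert, Finset.mem_singleton] at hm hz
    rcases hm with rfl | rfl | rfl <;> rcases hz with rfl | rfl | rfl
    · exact Or.inl rfl
    · exact Or.inr h.va
    · exact Or.inr h.vb
    · exact Or.inr h.va.symm
    · exact Or.inl rfl
    · exact Or.inr h.ab
    · exact Or.inr h.vb.symm
    · exact Or.inr h.ab.symm
    · exact Or.inl rfl
  refine Finset.eq_of_subset_of_card_le (fun z hz => ?_) (by rw [tv_card h, tv_card h'])
  rw [Finset.mem_insert, Finset.mem_insert, Finset.mem_singleton]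
  rcases key z hz with h1 | h1
  · exact Or.inl h1
  · exact Or.inr (h'.nb z h1)

theorem tv_other [DecidableEq U] {v a b w : U} (h : TV G v a b) (hw : w ∈ ({v, a, b} : Finset U))
    (hwv : w ≠ v) : ∃ x, x ∈ ({v, a, b} : Finset U) ∧ G.Adj w v ∧ G.Adj w x ∧ G.Adj v x := by
  rw [Finset.mem_insert, Finset.mem_insert, Finset.mem_singleton] at hw
  rcases hw with rfl | rfl | rfl
  · exact absurd rfl hwv
  · exact ⟨b, by simp, h.va.symm, h.ab, h.vb⟩
  · exact ⟨a, by simp, h.vb.symm, h.ab.symm, h.va⟩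

theorem tv_dis [Fintype U] [DecidableEq U] [Fintype W] (h9 : 9 ≤ Fintype.card W)
    (hH : GenRigid 2 H) {f : U → ℕ} (hnr : ¬ Mu 0 6 (G □ H)) (hM : Mono H G f)
    {v a b v' a' b' : U} (h : TV G v a b) (h' : TV G v' a' b')
    (hs : ∀ z ∈ ({v, a, b} : Finset U), z ∈ Sg f)
    (hne : ({v, a, b} : Finset U) ≠ {v', a', b'}) :
    Disjoint ({v, a, b} : Finset U) {v', a', b'} := by
  rw [Finset.disjoint_left]
  intro w hw hw'
  have h1 : v' ∉ ({v, a, b} : Finset U) := fun hm => hne (tv_eq h h' hm)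
  have h2 : v ∉ ({v', a', b'} : Finset U) := fun hm => hne (tv_eq h' h hm).symm
  obtain ⟨x, hx, p1, p2, p3⟩ := tv_other h hw (fun he => h2 (he ▸ hw'))
  obtain ⟨x', hx', q1, q2, q3⟩ := tv_other h' hw' (fun he => h1 (he ▸ hw))
  have h5 := two_tri h9 hH p1 p2 p3 q1 q2 q3 (fun he => h1 (by rw [he]; simp))
    (fun he => h1 (by rw [he]; exact hx))
  exact no_rigid hnr hM (X := {w, v, x, v', x'}) (u := w) (w := v) (Or.inl rfl)
    (Or.inr (Or.inl rfl)) (fun hh => p1.ne' (hs w hw v hh.symm)) h5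

theorem cr_sum [Fintype U] (f : U → ℕ) : (Cr G f).ncard = ∑ v, cdg G f v := by
  classical
  have h5 : Cr G f = ↑(Finset.univ.filter (fun p : U × U => G.Adj p.1 p.2 ∧ f p.1 ≠ f p.2)) := by
    ext p
    simp [Cr]
  rw [h5, Set.ncard_coe_finset, Finset.card_filter, Fintype.sum_prod_type]
  refine Finset.sum_congr rfl fun v _ => ?_
  have h6 : ({w | G.Adj v w ∧ f v ≠ f w} : Set U) =
      ↑(Finset.univ.filter fun w => G.Adj v w ∧ f v ≠ f w) := by
    ext w
    simp
  unfold cdg
  rw [h6, Set.ncard_coe_finset, Finset.card_filter]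

/-- **No minimal counterexample.** -/
theorem no_ncg [Fintype U] [Fintype W] (hh : 12 ≤ Fintype.card W ∨ (6 ≤ Fintype.card W ∧ d ≤ 2))
    (hH : GenRigid 2 H) (hr0 : genRank 3 H + d = 2 * Fintype.card W) (hd3 : d ≤ 3)
    (hG : G.Connected) (h2 : ∀ v, Two G v) (h3 : Three G)
    (hbl : ∀ a b, G.Adj a b → b ∈ sd G a b)
    (htri : ∀ v a b, a ≠ b → G.Adj v a → G.Adj v b → (∀ u, G.Adj v u → u = a ∨ u = b) → G.Adj a b)
    (hnr : ¬ Mu 0 6 (G □ H)) {N : ℕ} (hN6 : 6 ≤ N) {f : U → ℕ} (hf : Ncg d H G N f)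
    (hM : Mono H G f) : False := by
  classical
  have h6 : 6 ≤ Fintype.card W := by omega
  set R2 : Finset U := Finset.univ.filter (fun v => v ∈ Sg f ∧ dg G v ≤ 2) with hR2d
  set R0 : Finset U := Finset.univ.filter (fun v => v ∉ Sg f) with hR0d
  have m2 : ∀ v, v ∈ R2 ↔ v ∈ Sg f ∧ dg G v ≤ 2 := by
    intro v
    rw [hR2d, Finset.mem_filter]
    simp
  have m0 : ∀ v, v ∈ R0 ↔ v ∉ Sg f := by
    intro v
    rw [hR0d, Finset.mem_filter]
    simp
  set C0 := R0.image f with hC0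
  -- triangles
  have hφe : ∀ v, ∃ a b, v ∈ R2 → (TV G v a b ∧ a ∈ Sg f ∧ b ∈ Sg f) ∧ ¬ d ≤ 2 := by
    intro v
    by_cases hv : v ∈ R2
    swap
    · exact ⟨v, v, fun h => absurd h hv⟩
    obtain ⟨hvs, hvd⟩ := (m2 v).1 hv
    obtain ⟨a, b, hab, hva, hvb⟩ := h2 v
    have hdeg := nb2 hab hva hvb hvd
    have hadj := htri v a b hab hva hvb hdeg
    by_cases hd2 : d ≤ 2
    · exact (no_rigid hnr hM (X := {v, a, b}) (u := v) (w := a) (Or.inl rfl)
        (Or.inr (Or.inl rfl)) (fun h => hva.ne' (hvs a h.symm))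
        (tri_rig (by omega) hH (by omega) hva hvb hadj)).elim
    have ha := tri_sg' (by omega) hH hf.cl hnr hM hva hvb hadj hvs
    have hb := tri_sg' (by omega) hH hf.cl hnr hM hvb hva hadj.symm hvs
    exact ⟨a, b, fun _ => ⟨⟨⟨hva, hvb, hadj, hdeg⟩, ha, hb⟩, hd2⟩⟩
  choose α β hαβ using hφe
  set Tr : U → Finset U := fun v => {v, α v, β v} with hTr
  set T := R2.image Tr with hT
  set P := T.biUnion id with hP
  have mT : ∀ Δ ∈ T, ∃ v ∈ R2, Δ = {v, α v, β v} := by
    intro Δ hΔ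
    obtain ⟨v, hv, rfl⟩ := Finset.mem_image.1 hΔ
    exact ⟨v, hv, rfl⟩
  have sT : ∀ v ∈ R2, ∀ z ∈ ({v, α v, β v} : Finset U), z ∈ Sg f := by
    intro v hv z hz
    rw [Finset.mem_insert, Finset.mem_insert, Finset.mem_singleton] at hz
    obtain ⟨⟨-, ha, hb⟩, -⟩ := hαβ v hv
    rcases hz with rfl | rfl | rfl
    · exact ((m2 _).1 hv).1
    · exact ha
    · exact hb
  have sP : ∀ z ∈ P, z ∈ Sg f := by
    intro z hz
    obtain ⟨Δ, hΔ, hzΔ⟩ := Finset.mem_biUnion.1 hz
    obtain ⟨v, hv, rfl⟩ := mT Δ hΔ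
    exact sT v hv z hzΔ
  have hdis : (T : Set (Finset U)).PairwiseDisjoint id := by
    intro Δ hΔ Δ' hΔ' hne
    obtain ⟨v, hv, rfl⟩ := mT Δ hΔ
    obtain ⟨v', hv', rfl⟩ := mT Δ' hΔ'
    obtain ⟨⟨h1, -, -⟩, hd⟩ := hαβ v hv
    obtain ⟨⟨h1', -, -⟩, -⟩ := hαβ v' hv'
    exact tv_dis (by omega) hH hnr hM h1 h1' (sT v hv) hne
  set S' : Finset U := Finset.univ.filter (fun v => v ∈ Sg f ∧ v ∉ P) with hS'
  have mS : ∀ v, v ∈ S' ↔ v ∈ Sg f ∧ v ∉ P := by
    intro v
    rw [hS', Finset.mem_filter]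
    simp
  have hP3 : P.card = 3 * T.card := by
    rw [hP, Finset.card_biUnion hdis]
    rw [Finset.sum_const_nat (m := 3), mul_comm]
    intro Δ hΔ
    obtain ⟨v, hv, rfl⟩ := mT Δ hΔ
    exact tv_card (hαβ v hv).1.1
  have hsumT : 8 * T.card ≤ ∑ v ∈ P, cdg G f v := by
    rw [hP, Finset.sum_biUnion hdis, mul_comm, ← smul_eq_mul]
    refine Finset.card_nsmul_le_sum T _ 8 fun Δ hΔ => ?_
    obtain ⟨v, hv, rfl⟩ := mT Δ hΔ
    obtain ⟨⟨h1, ha, hb⟩, -⟩ := hαβ v hv
    have h5 := tri_deg hG h3 hbl h1.va h1.vb h1.ab h1.nb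
    show 8 ≤ ∑ z ∈ ({v, α v, β v} : Finset U), cdg G f z
    rw [Finset.sum_insert (by
      rw [Finset.mem_insert, Finset.mem_singleton, not_or]
      exact ⟨h1.va.ne, h1.vb.ne⟩), Finset.sum_pair h1.ab.ne, cdg_sg ((m2 _).1 hv).1, cdg_sg ha,
      cdg_sg hb]
    omega
  have hsumS : 3 * S'.card ≤ ∑ v ∈ S', cdg G f v := by
    rw [mul_comm, ← smul_eq_mul]
    refine Finset.card_nsmul_le_sum S' _ 3 fun v hv => ?_
    obtain ⟨hvs, hvP⟩ := (mS v).1 hv
    rw [cdg_sg hvs]
    by_contra hcon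
    refine hvP (Finset.mem_biUnion.2 ⟨Tr v, Finset.mem_image_of_mem _
      ((m2 v).2 ⟨hvs, by omega⟩), ?_⟩)
    show v ∈ ({v, α v, β v} : Finset U)
    simp
  have hsum0 : 2 * C0.card ≤ ∑ v ∈ R0, cdg G f v := by
    rw [← Finset.sum_fiberwise_of_maps_to (g := f) (t := C0)
      (fun v hv => Finset.mem_image_of_mem f hv), mul_comm, ← smul_eq_mul]
    refine Finset.card_nsmul_le_sum C0 _ 2 fun c hc => ?_
    obtain ⟨u, hu, rfl⟩ := Finset.mem_image.1 hc
    refine two_out hG hbl hf.ne u _ fun w => ?_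
    rw [Finset.mem_filter]
    refine ⟨fun h => h.2, fun h => ⟨(m0 w).2 fun hws => (m0 u).1 hu ?_, h⟩⟩
    have := hws u h.symm
    rw [this]
    exact hws
  have hdSP : Disjoint S' P := by
    rw [Finset.disjoint_left]
    intro v hv hvP
    exact ((mS v).1 hv).2 hvP
  have hdR : Disjoint (S' ∪ P) R0 := by
    rw [Finset.disjoint_left]
    intro v hv hv0
    rcases Finset.mem_union.1 hv with h | h
    · exact (m0 v).1 hv0 ((mS v).1 h).1
    · exact (m0 v).1 hv0 (sP v h)
  have hlow : 3 * S'.card + 8 * T.card + 2 * C0.card ≤ (Cr G f).ncard := by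
    rw [cr_sum]
    have h5 := Finset.sum_le_sum_of_subset (f := cdg G f) (Finset.subset_univ ((S' ∪ P) ∪ R0))
    rw [Finset.sum_union hdR, Finset.sum_union hdSP] at h5
    omega
  have hcov : ∀ u ∈ Sg f, u ∈ S' ∪ P := by
    intro u hus
    rw [Finset.mem_union]
    by_cases h6 : u ∈ P
    · exact Or.inr h6
    · exact Or.inl ((mS u).2 ⟨hus, h6⟩)
  have hK : (Set.range f).ncard ≤ S'.card + 3 * T.card + C0.card := by
    have h5 : Set.range f ⊆ ↑((S' ∪ P).image f ∪ C0) := by
      rintro _ ⟨u, rfl⟩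
      rw [Finset.mem_coe, Finset.mem_union]
      by_cases hus : u ∈ Sg f
      · exact Or.inl (Finset.mem_image_of_mem _ (hcov u hus))
      · exact Or.inr (Finset.mem_image_of_mem _ ((m0 u).2 hus))
    have h6 := Set.ncard_le_ncard h5 (Set.toFinite _)
    rw [Set.ncard_coe_finset] at h6
    have h7 := Finset.card_union_le ((S' ∪ P).image f) C0
    have h8 : ((S' ∪ P).image f).card ≤ (S' ∪ P).card := Finset.card_image_le
    have h9 := Finset.card_union_le S' P
    omega
  have hS : (Sg f).ncard ≤ S'.card + 3 * T.card := by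
    have h5 : Sg f ⊆ ↑(S' ∪ P) := fun u hu => hcov u hu
    have h6 := Set.ncard_le_ncard h5 (Set.toFinite _)
    rw [Set.ncard_coe_finset] at h6
    have h9 := Finset.card_union_le S' P
    omega
  have hU : Fintype.card U ≤ S'.card + 3 * T.card + R0.card := by
    have h6 : (Finset.univ : Finset U) ⊆ (S' ∪ P) ∪ R0 := by
      intro u _
      rw [Finset.mem_union]
      by_cases hus : u ∈ Sg f
      · exact Or.inl (hcov u hus)
      · exact Or.inr ((m0 u).2 hus)
    have h7 := Finset.card_le_card h6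
    rw [Finset.card_univ] at h7
    have h8 := Finset.card_union_le (S' ∪ P) R0
    have h9 := Finset.card_union_le S' P
    omega
  have hK2 : 2 ≤ (Set.range f).ncard := by
    obtain ⟨a, b, hab⟩ := hf.ne
    have h5 : ({f a, f b} : Set ℕ) ⊆ Set.range f := by
      rintro _ (rfl | rfl)
      · exact ⟨a, rfl⟩
      · exact ⟨b, rfl⟩
    have h6 := Set.ncard_le_ncard h5 (Set.toFinite _)
    rw [Set.ncard_pair hab] at h6
    exact h6
  have hU4 : 4 ≤ Fintype.card U := by
    obtain ⟨u, x, y, z, hxy, hxz, hyz, hx, hy, hz⟩ := h3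
    have h5 : ({u, x, y, z} : Finset U).card = 4 := by
      rw [Finset.card_insert_of_notMem, Finset.card_insert_of_notMem,
        Finset.card_pair hyz]
      · rw [Finset.mem_insert, Finset.mem_singleton, not_or]
        exact ⟨hxy, hxz⟩
      · rw [Finset.mem_insert, Finset.mem_insert, Finset.mem_singleton, not_or, not_or]
        exact ⟨hx.ne, hy.ne, hz.ne⟩
    have h6 := Finset.card_le_univ ({u, x, y, z} : Finset U)
    omega
  have hsum : 2 ≤ S'.card + T.card + C0.card := by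
    by_contra hcon
    by_cases hC : C0.card = 0
    · have : R0 = ∅ := by
        rw [Finset.card_eq_zero, hC0, Finset.image_eq_empty] at hC
        exact hC
      rw [this, Finset.card_empty] at hU
      omega
    · omega
  have hv := hf.bd
  unfold vl at hv
  have hcr := cr_two (G := G) f
  rw [hcr] at hlow
  rcases hh with h12 | ⟨-, hd2⟩
  · have hmul : ((Fintype.card W : ℤ) + d - 6) * (Sg f).ncard ≤
        ((Fintype.card W : ℤ) - 3) * (Sg f).ncard := by
      refine mul_le_mul_of_nonneg_right ?_ (by positivity)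
      have : (d : ℤ) ≤ 3 := by exact_mod_cast hd3
      linarith
    exact arith2 (h := Fintype.card W) (s := S'.card) (t := T.card) (τ := C0.card)
      (S := (Sg f).ncard) (K := (Set.range f).ncard) (C := (Cf G f).edgeSet.ncard)
      (by exact_mod_cast h12) (by positivity) (by positivity) (by positivity)
      (by exact_mod_cast hsum) (by exact_mod_cast hS) (by exact_mod_cast hK)
      (by exact_mod_cast hlow) (by
        have : (6 : ℤ) ≤ N := by exact_mod_cast hN6
        linarith)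
  · have hT0 : T.card = 0 := by
      rw [Finset.card_eq_zero, hT, Finset.image_eq_empty, Finset.eq_empty_iff_forall_notMem]
      intro v hv
      exact (hαβ v hv).2 hd2
    rw [hT0] at hlow hK hS hsum
    exact arith3 (h := Fintype.card W) (d := d) (s := S'.card) (τ := C0.card)
      (S := (Sg f).ncard) (K := (Set.range f).ncard) (C := (Cf G f).edgeSet.ncard)
      (by exact_mod_cast h6) (by exact_mod_cast hd2) (by positivity) (by positivity)
      (by exact_mod_cast hsum) (by positivity) (by exact_mod_cast hS) (by exact_mod_cast hK)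
      (by exact_mod_cast hlow) (by
        have : (6 : ℤ) ≤ N := by exact_mod_cast hN6
        linarith)

end Pool.Agent.J4H92.NC
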