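import Pool.Agent.J4H92.NC.Leaf

/-!
# Products with a plane-rigid graph
-/

set_option autoImplicit false

namespace Pool.Agent.J4H92.NC

open SimpleGraph hiding between

open Module Pool.Agent.H283R2.DR Pool.Agent.H789R5 Pool.Agent.J4H92.CP

variable {U W : Type} [Fintype U] [Fintype W] {G : SimpleGraph U} {H : SimpleGraph W}

theorem rigid_of_mu (h : Mu 0 6 (G □ H)) (hU : 1 ≤ Fintype.card U) (hW : 3 ≤ Fintype.card W) :
    GenRigid 3 (G □ H) := by
  classical
  have hcard : 3 ≤ Fintype.card (U × W) := by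
    rw [Fintype.card_prod]
    nlinarith
  have k1 := rank_le (G □ H)
  have k2 := rank_le' (G □ H) hcard
  have h1 := mu_rank h
  have hr : genRank 3 (G □ H) = min (G □ H).edgeSet.ncard (3 * Fintype.card (U × W) - 6) := by
    omega
  rw [Pool.Agent.TH409.RG.rigid_iff_of_rank (by omega) hr]
  omega

/-- two edge-disjoint spanning trees -/
theorem two_trees {T₁ T₂ : SimpleGraph U} (hU : 2 ≤ Fintype.card U) (h1 : T₁ ≤ G) (h2 : T₂ ≤ G)
    (h3 : T₁.Connected) (h4 : T₂.Connected) (h5 : Disjoint T₁ T₂) (hH : GenRigid 2 H)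
    (hW : 3 ≤ Fintype.card W) : Mu 0 6 (G □ H) := by
  classical
  have hbet : ∀ r : Setoid U, Pool.Agent.Y530.TN.between T₁ id r +
      Pool.Agent.Y530.TN.between T₂ id r ≤ Pool.Agent.Y530.TN.between G id r := by
    intro r
    unfold Pool.Agent.Y530.TN.between
    rw [← Set.ncard_union_eq ?_ (Set.toFinite _) (Set.toFinite _)]
    · refine Set.ncard_le_ncard ?_ (Set.toFinite _)
      rintro e (⟨u, v, h, h', he⟩ | ⟨u, v, h, h', he⟩)
      · exact ⟨u, v, h1 h, h', he⟩
      · exact ⟨u, v, h2 h, h', he⟩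
    · rw [Set.disjoint_left]
      rintro e ⟨u, v, h, h', he⟩ ⟨u', v', g, g', ge⟩
      rw [he] at ge
      have h6 : T₂.Adj u v := by
        rw [← mem_edgeSet, ge]
        exact g
      have h7 := (disjoint_iff_inf_le.1 h5) (show (T₁ ⊓ T₂).Adj u v from ⟨h, h6⟩)
      exact h7
  have hG : G.Connected := h3.mono h1
  have hcount : ∀ r : Setoid U, 2 * Nat.card (Quotient r) ≤
      Pool.Agent.Y530.TN.between G id r + 2 := by
    intro r
    have a1 := between_conn h3 r
    have a2 := between_conn h4 r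
    have a3 := hbet r
    omega
  have hcyc : ¬ G.IsAcyclic := by
    intro ha
    have ht : G.IsTree := ⟨hG, ha⟩
    have e1 := (isTree_iff_connected_and_card.1 ht).2
    rw [Nat.card_coe_set_eq, Nat.card_eq_fintype_card] at e1
    have e2 := hcount ⊥
    have e3 : Nat.card (Quotient (⊥ : Setoid U)) = Fintype.card U := by
      rw [← Nat.card_eq_fintype_card]
      refine Nat.card_eq_of_bijective (Quotient.mk (⊥ : Setoid U)) ⟨?_, Quotient.mk_surjective⟩ |>.symm
      intro x y h
      exact Quotient.exact h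
    rw [between_bot e3, e3] at e2
    omega
  have hbase : Mu 0 6 ((⊤ : SimpleGraph (Fin 3)) □ G) := by
    apply mu_of_rank
    have h := tri_rank (Γ := G) (N := 9 * Fintype.card U - 6) (by
      intro r
      have a1 := hcount r
      have a2 := card_quot r
      omega)
    rw [Fintype.card_prod, Fintype.card_fin]
    omega
  refine Pool.Agent.J4H92.PL.mu_comm ?_
  refine Pool.Agent.J4H92.PL.up (j := 0) (k := 6) (m := 3) G (by norm_num)
    (mu_two hG hcyc) ?_ _ hW W H hH rfl
  intro W' _ H' hH' hW'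
  obtain ⟨M, hM, e, he⟩ := Pool.Agent.J4H92.PL.small_three W' H' hH' hW'
  have hM' : M = 0x30506 := List.mem_singleton.1 hM
  subst hM'
  refine hbase.pull (Equiv.prodCongr e (Equiv.refl U)) ?_
  rintro ⟨a, a'⟩ ⟨b, b'⟩ hab
  rcases hab with ⟨h1, h2⟩ | ⟨h1, h2⟩
  · exact Or.inl ⟨he a b (Pool.Agent.J4H92.PL.all3 a b h1.ne), h2⟩
  · refine Or.inr ⟨h1, ?_⟩
    have h2 : a = b := h2
    subst h2
    rfl

/-- vertex degrees -/
theorem two_of_deg {v : U} (h : 2 ≤ (G.neighborSet v).ncard) : Two G v := by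
  obtain ⟨x, hx, y, hy, hxy⟩ := (Set.one_lt_ncard (Set.toFinite _)).1 h
  exact ⟨x, y, hxy, hx, hy⟩

theorem three_of_deg {v : U} (h : 3 ≤ (G.neighborSet v).ncard) : Three G := by
  obtain ⟨a, b, c, ha, hb, hc, h1, h2, h3⟩ := (Set.two_lt_ncard_iff (Set.toFinite _)).1 h
  exact ⟨v, a, b, c, h1, h2, h3, ha, hb, hc⟩

theorem flex_of_deg (hG : GenRigid 3 (G □ H)) (hU : 2 ≤ Fintype.card U)
    (hW : 3 ≤ Fintype.card W) {v : U} (h : (G.neighborSet v).ncard < 2) :
    2 * Fintype.card W ≤ genRank 3 H := by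
  have h1 : ∃ w, ∀ x, G.Adj v x → x = w := by
    by_cases h0 : ∃ w, G.Adj v w
    · obtain ⟨w, hw⟩ := h0
      refine ⟨w, fun x hx => ?_⟩
      by_contra hne
      have := (Set.one_lt_ncard (Set.toFinite (G.neighborSet v))).2 ⟨x, hx, w, hw, hne⟩
      omega
    · exact ⟨v, fun x hx => absurd ⟨x, hx⟩ h0⟩
  obtain ⟨w, hw⟩ := h1
  exact leaf_flex hG hU hW hw

theorem edges_of_deg (h : ∀ v, (G.neighborSet v).ncard = 2) :
    G.edgeSet.ncard = Fintype.card U := by
  classical
  have h1 := G.sum_degrees_eq_twice_card_edges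
  have h2 : ∀ v, G.degree v = 2 := by
    intro v
    rw [← h v, ← G.card_neighborSet_eq_degree v, ← Nat.card_eq_fintype_card, Nat.card_coe_set_eq]
  simp only [h2, Finset.sum_const, Finset.card_univ, smul_eq_mul] at h1
  rw [Set.ncard_eq_toFinset_card']
  have h3 : G.edgeSet.toFinset = G.edgeFinset := by
    ext e
    simp
  rw [h3]
  omega

end Pool.Agent.J4H92.NC
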