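import Pool.Agent.J4H92.NC.F9
import Pool.Agent.J4H92.NC.Fin1

/-!
# The rank formula
-/

set_option autoImplicit false

namespace Pool.Agent.J4H92.NC

open SimpleGraph hiding between

open Module Pool.Agent.H283R2.DR Pool.Agent.H283R2.DR.TA Pool.Agent.J4H92.CP Pool.Agent.H789R5

variable {U W : Type} {G : SimpleGraph U} {H : SimpleGraph W}

theorem cf_edges (f : U → ℕ) :
    (Cf G f).edgeSet = {e ∈ G.edgeSet | ¬ (e.map f).IsDiag} := by
  ext e
  induction e using Sym2.ind with | _ x y => ?_
  rw [mem_edgeSet]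
  show (G.Adj x y ∧ f x ≠ f y) ↔ (s(x, y) ∈ G.edgeSet ∧ ¬ (Sym2.map f s(x, y)).IsDiag)
  rw [mem_edgeSet, Sym2.map_mk, Sym2.mk_isDiag_iff]

theorem dof_greatest [Fintype U] [Nonempty U] [Fintype W] (h30 : 30 ≤ Fintype.card W)
    (hH : GenRigid 2 H) (he : H.edgeSet.ncard + 3 = 2 * Fintype.card W) :
    IsGreatest (Set.range fun f : U → ℕ => val (Fintype.card W) G f)
      (3 * ((Fintype.card U : ℤ) * Fintype.card W) - genRank 3 (G □ H)) := by
  classical
  have hU : 1 ≤ Fintype.card U := Fintype.card_pos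
  have hcard : 3 ≤ Fintype.card (U × W) := by
    rw [Fintype.card_prod]
    nlinarith
  have k2 := rank_le' (G □ H) hcard
  rw [Fintype.card_prod] at k2 hcard
  set m := Fintype.card U * Fintype.card W with hm
  have hle : genRank 3 (G □ H) + 6 ≤ 3 * m := by omega
  set D := 3 * m - genRank 3 (G □ H) with hD
  have hDz : (3 * ((Fintype.card U : ℤ) * Fintype.card W) - genRank 3 (G □ H)) = D := by
    have h5 : (D : ℤ) = 3 * (m : ℤ) - genRank 3 (G □ H) := by
      rw [hD]
      push_cast [show genRank 3 (G □ H) ≤ 3 * m by omega]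
      ring
    rw [h5, hm]
    push_cast
    ring
  rw [hDz]
  have hMu : Mu 0 D (G □ H) := by
    apply mu_of_rank
    rw [Fintype.card_prod]
    omega
  have hup : ∀ f : U → ℕ, val (Fintype.card W) G f ≤ D := fun f => val_le he (by omega) hMu f
  refine ⟨?_, ?_⟩
  · by_contra hcon
    have hlt : ∀ f : U → ℕ, val (Fintype.card W) G f ≤ ((D - 1 : ℕ) : ℤ) := by
      intro f
      have h5 := hup f
      have h6 : val (Fintype.card W) G f ≠ D := fun h => hcon ⟨f, h⟩
      have h7 : 1 ≤ D := by omega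
      push_cast [h7]
      omega
    have h8 := (mu_iff (G := G) h30 hH he (D - 1)).2 hlt
    have h9 := mu_rank h8
    rw [Fintype.card_prod] at h9
    omega
  · rintro _ ⟨f, rfl⟩
    exact hup f

theorem rigid_iff_val [Fintype U] [Nonempty U] [Fintype W] (h30 : 30 ≤ Fintype.card W)
    (hH : GenRigid 2 H) (he : H.edgeSet.ncard + 3 = 2 * Fintype.card W) :
    GenRigid 3 (G □ H) ↔ ∀ f : U → ℕ, val (Fintype.card W) G f ≤ 6 := by
  classical
  have hU : 1 ≤ Fintype.card U := Fintype.card_pos
  have hcard : 3 ≤ Fintype.card (U × W) := by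
    rw [Fintype.card_prod]
    nlinarith
  constructor
  · intro h f
    obtain ⟨p, hp⟩ := exists_mg (U × W) 3
    have h1 := (genRigid_iff hp hcard _).1 h
    norm_num at h1
    have h2 := genRank_add hp (G □ H)
    have h3 : Mu 0 6 (G □ H) := mu_of_rank (by omega)
    exact_mod_cast val_le he (by omega) h3 f
  · intro h
    exact rigid_of_mu ((mu_iff h30 hH he 6).2 (by exact_mod_cast h)) hU (by omega)

end Pool.Agent.J4H92.NC
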