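import Pool.Agent.J4H92.NC.B4
import Pool.Agent.J4H92.NC.E9

/-!
# The number of degrees of freedom, small factors
-/

set_option autoImplicit false

namespace Pool.Agent.J4H92.NC

open SimpleGraph hiding between

open Module Pool.Agent.H283R2.DR Pool.Agent.H283R2.DR.TA Pool.Agent.J4H92.CP Pool.Agent.H789R5

variable {U W : Type} {G : SimpleGraph U} {H : SimpleGraph W} {d : ℕ}

/-- **The number of degrees of freedom is at most the maximal value.** -/
theorem tg_all2 [Fintype W] (hh : 12 ≤ Fintype.card W ∨ (6 ≤ Fintype.card W ∧ d ≤ 2))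
    (hH : GenRigid 2 H)
    (hr : genRank 3 H + d = 2 * Fintype.card W) (hd1 : 1 ≤ d) (hd3 : d ≤ 3) :
    ∀ (n : ℕ) (U : Type) [Fintype U], Fintype.card U = n → Nonempty U →
      ∀ (m : ℕ) (G : SimpleGraph U), G.edgeSet.ncard = m → Tg d H G := by
  classical
  intro n
  induction n using Nat.strong_induction_on with
  | _ n ihn =>
  intro U _ hUn hne m
  induction m using Nat.strong_induction_on with
  | _ m ihm =>
  intro G hGm N hN
  have h3 : 3 ≤ Fintype.card W := by omega
  have h6 : 6 ≤ Fintype.card W := by omega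
  have hIs : ∀ (U' : Type) [Fintype U'] (G' : SimpleGraph U'), Nonempty U' →
      Fintype.card U' < Fintype.card U → Tg d H G' := by
    intro U' _ G' hne' hlt
    exact ihn _ (by omega) U' rfl hne' _ G' rfl
  by_cases h1 : Nat.card U = 1
  · exact tg_one hr h1 N hN
  have hU2 : 2 ≤ Nat.card U := by
    have : 0 < Nat.card U := Nat.card_pos
    omega
  have hN6 : 6 ≤ N := by
    have h5 := hN (fun _ => 0)
    rw [vl_const hU2 (fun _ _ => rfl)] at h5
    exact_mod_cast h5
  have hIA : ∀ A : Set U, A.Nonempty → A ≠ Set.univ → Tg d H (G.induce A) := by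
    rintro A ⟨a, ha⟩ hA
    refine hIs A (G.induce A) ⟨⟨a, ha⟩⟩ ?_
    rw [← Nat.card_eq_fintype_card, ← Nat.card_eq_fintype_card, Nat.card_coe_set_eq,
      ← Set.ncard_univ]
    refine Set.ncard_lt_ncard ?_ (Set.toFinite _)
    exact ⟨Set.subset_univ _, fun h => hA (Set.eq_univ_of_univ_subset h)⟩
  by_cases hG : G.Connected
  swap
  · exact tg_disc h6 hne hG hIA N hN
  by_cases hnr : Mu 0 6 (G □ H)
  · exact hnr.mono hN6
  by_contra hgoal
  have hnb : ∀ v, ∃ a, G.Adj v a := by
    intro v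
    have hvu : ({v} : Set U) ≠ Set.univ := by
      intro h
      have : ({v} : Set U).ncard = Nat.card U := by rw [h, Set.ncard_univ]
      rw [Set.ncard_singleton] at this
      omega
    obtain ⟨b, hb, x, hx, hbx⟩ := exists_cross hG (Set.singleton_nonempty v) hvu
    have hb : b = v := hb
    subst hb
    exact ⟨x, hbx⟩
  have hdel : ∀ v, Tg d H (G.induce {u | u ≠ v}) := by
    intro v
    obtain ⟨a, ha⟩ := hnb v
    exact hIA _ ⟨a, ha.ne'⟩ (fun h => by
      have : v ∈ ({u | u ≠ v} : Set U) := h ▸ Set.mem_univ v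
      exact this rfl)
  have h2 : ∀ v, Two G v := by
    intro v
    obtain ⟨a, hva⟩ := hnb v
    by_contra hnt
    refine hgoal (tg_leaf h6 hH hr (by omega) hva (fun u hu => ?_) (hdel v) hN hN6)
    by_contra hne
    exact hnt ⟨u, a, hne, hu, hva⟩
  have htri : ∀ v a b, a ≠ b → G.Adj v a → G.Adj v b → (∀ u, G.Adj v u → u = a ∨ u = b) →
      G.Adj a b := by
    intro v a b hab hva hvb hdeg
    by_contra hnab
    refine hgoal (tg_split h6 hH hr hd1 (by omega) hab hva hvb hdeg hnab
      (hIs {u : U // u ≠ v} (Sp G v a b) ⟨⟨a, hva.ne'⟩⟩ ?_) (hdel v) hN)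
    exact Fintype.card_subtype_lt (x := v) (by simp)
  have hThree : Three G := by
    by_contra hn3
    obtain ⟨v⟩ := hne
    obtain ⟨a, b, hab, hva, hvb⟩ := h2 v
    have nb : ∀ u s t, s ≠ t → G.Adj u s → G.Adj u t → ∀ z, G.Adj u z → z = s ∨ z = t := by
      intro u s t hst hs ht z hz
      by_contra hcon
      push Not at hcon
      exact hn3 ⟨u, s, t, z, hst, hcon.1.symm, hcon.2.symm, hs, ht, hz⟩
    have hdeg := nb v a b hab hva hvb
    have hadj := htri v a b hab hva hvb hdeg
    have hset := tri_closed hG hdeg (nb a v b hvb.ne hva.symm hadj)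
      (nb b v a hva.ne hvb.symm hadj.symm)
    by_cases hd2 : d ≤ 2
    · have h7 := tri_rig h3 hH (by omega) hva hvb hadj
      rw [hset] at h7
      exact hnr (mu_univ h7)
    · have hd : d = 3 := by omega
      subst hd
      refine hgoal (tf_tri h3 hH hG hva hvb hadj hset fun f => ?_)
      have h8 := hN f
      unfold vl at h8
      unfold val
      push_cast at h8
      have e : (Fintype.card W : ℤ) + 3 - 6 = (Fintype.card W : ℤ) - 3 := by ring
      rw [e] at h8
      exact h8
  by_cases hbl : ∀ a b, G.Adj a b → b ∈ sd G a b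
  swap
  · push Not at hbl
    obtain ⟨a, b, hab, hbr⟩ := hbl
    refine hgoal (tg_bridge h6 hH hab.ne hab hbr hIA
      (hIs {u : U // u ≠ b} (Gc G hab.ne) ⟨⟨a, hab.ne⟩⟩ ?_) hN)
    exact Fintype.card_subtype_lt (x := b) (by simp)
  have hcrit : ∃ f : U → ℕ, (∃ a b, f a ≠ f b) ∧
      (N : ℤ) + 1 ≤ vl (Fintype.card W) d G f + Fintype.card W := by
    obtain ⟨v⟩ := hne
    obtain ⟨a, hva⟩ := hnb v
    by_contra hno
    push Not at hno
    refine hgoal (tg_crit (a := v) (b := a) h6 (ihm _ ?_ (G0 G v a) rfl) hN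
      (fun f hf => by
        have := hno f ⟨v, a, hf⟩
        linarith))
    rw [← hGm]
    refine Set.ncard_lt_ncard ⟨?_, fun hh => ?_⟩ (Set.toFinite _)
    · intro e
      induction e using Sym2.ind with | _ x y => ?_
      intro h
      exact (G0_adj.1 h).1
    · have h5 : (G0 G v a).Adj v a := hh (show s(v, a) ∈ G.edgeSet from hva)
      exact (G0_adj.1 h5).2 rfl
  obtain ⟨f, hf, hM⟩ := exists_ncg_min h6 hr hnr (exists_ncg h6 hIA hN hcrit)
  exact no_ncg hh hH hr hd3 hG h2 hThree hbl htri hnr hN6 hf hM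

/-- **The number of degrees of freedom is the maximal value.** -/
theorem mu_iff2 [Fintype U] [Nonempty U] [Fintype W]
    (hh : 12 ≤ Fintype.card W ∨ (6 ≤ Fintype.card W ∧ d ≤ 2))
    (hH : GenRigid 2 H) (hr : genRank 3 H + d = 2 * Fintype.card W) (N : ℕ) :
    Mu 0 N (G □ H) ↔ ∀ f : U → ℕ, vl (Fintype.card W) d G f ≤ N := by
  have h3 := rank_ge hH
  refine ⟨fun h f => vl_le hr.le (by omega) h f, fun h => ?_⟩
  rcases Nat.eq_zero_or_pos d with h0 | h0
  · subst h0
    exact tg_zero (by omega) hH hr _ U rfl inferInstance G N h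
  · exact tg_all2 hh hH hr h0 (by omega) _ U rfl inferInstance _ G rfl N h

theorem dof_greatest2 [Fintype U] [Nonempty U] [Fintype W]
    (hh : 12 ≤ Fintype.card W ∨ (6 ≤ Fintype.card W ∧ d ≤ 2))
    (hH : GenRigid 2 H) (hr : genRank 3 H + d = 2 * Fintype.card W) :
    IsGreatest (Set.range fun f : U → ℕ => vl (Fintype.card W) d G f)
      (3 * ((Fintype.card U : ℤ) * Fintype.card W) - genRank 3 (G □ H)) := by
  classical
  have hU : 1 ≤ Fintype.card U := Fintype.card_pos
  have h6 : 6 ≤ Fintype.card W := by omega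
  have hcard : 3 ≤ Fintype.card (U × W) := by
    rw [Fintype.card_prod]
    nlinarith
  have k2 := rank_le' (G □ H) hcard
  rw [Fintype.card_prod] at k2 hcard
  set m := Fintype.card U * Fintype.card W with hm
  have hle : genRank 3 (G □ H) + 6 ≤ 3 * m := by omega
  set D := 3 * m - genRank 3 (G □ H) with hD
  have hDz : (3 * ((Fintype.card U : ℤ) * Fintype.card W) - genRank 3 (G □ H)) = D := by
    have h5 : (D : ℤ) = 3 * (m : ℤ) - genRank 3 (G □ H) := by
      rw [hD]
      push_cast [show genRank 3 (G □ H) ≤ 3 * m by omega]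
      ring
    rw [h5, hm]
    push_cast
    ring
  rw [hDz]
  have hMu : Mu 0 D (G □ H) := by
    apply mu_of_rank
    rw [Fintype.card_prod]
    omega
  have hup : ∀ f : U → ℕ, vl (Fintype.card W) d G f ≤ D := (mu_iff2 hh hH hr D).1 hMu
  refine ⟨?_, ?_⟩
  · by_contra hcon
    have hlt : ∀ f : U → ℕ, vl (Fintype.card W) d G f ≤ ((D - 1 : ℕ) : ℤ) := by
      intro f
      have h5 := hup f
      have h6 : vl (Fintype.card W) d G f ≠ D := fun h => hcon ⟨f, h⟩
      have h7 : 1 ≤ D := by omega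
      push_cast [h7]
      omega
    have h8 := (mu_iff2 (G := G) hh hH hr (D - 1)).2 hlt
    have h9 := mu_rank h8
    rw [Fintype.card_prod] at h9
    omega
  · rintro _ ⟨f, rfl⟩
    exact hup f

theorem rigid_iff_vl2 [Fintype U] [Nonempty U] [Fintype W]
    (hh : 12 ≤ Fintype.card W ∨ (6 ≤ Fintype.card W ∧ d ≤ 2))
    (hH : GenRigid 2 H) (hr : genRank 3 H + d = 2 * Fintype.card W) :
    GenRigid 3 (G □ H) ↔ ∀ f : U → ℕ, vl (Fintype.card W) d G f ≤ 6 := by
  classical
  have hU : 1 ≤ Fintype.card U := Fintype.card_pos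
  have h6 : 6 ≤ Fintype.card W := by omega
  have hcard : 3 ≤ Fintype.card (U × W) := by
    rw [Fintype.card_prod]
    nlinarith
  constructor
  · intro h f
    obtain ⟨p, hp⟩ := exists_mg (U × W) 3
    have h1 := (genRigid_iff hp hcard _).1 h
    norm_num at h1
    have h2 := genRank_add hp (G □ H)
    have h3 : Mu 0 6 (G □ H) := mu_of_rank (by omega)
    exact_mod_cast (mu_iff2 hh hH hr 6).1 h3 f
  · intro h
    exact rigid_of_mu ((mu_iff2 hh hH hr 6).2 (by exact_mod_cast h)) hU (by omega)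

end Pool.Agent.J4H92.NC
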