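import Pool.Agent.J4H92.NC.Bridge
import Pool.Agent.J4H92.PL.Two
import Pool.Agent.Y530.TN.Gen
import Pool.Agent.Y532.TN.Prd

/-!
# Products with a triangle
-/

set_option autoImplicit false

namespace Pool.Agent.J4H92.NC

open SimpleGraph hiding between

open Module Pool.Agent.H283R2.DR Pool.Agent.H789R5 Pool.Agent.J4H92.CP Pool.Agent.Y530.TN

variable {U : Type} [Fintype U] {Γ : SimpleGraph U}

/-! ### Edges between the classes of a partition -/

/-- the quotient graph -/
def Qg (Γ : SimpleGraph U) (r : Setoid U) : SimpleGraph (Quotient r) where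
  Adj x y := x ≠ y ∧ ∃ u v, Quotient.mk r u = x ∧ Quotient.mk r v = y ∧ Γ.Adj u v
  symm := ⟨fun _ _ ⟨h, u, v, hu, hv, huv⟩ => ⟨h.symm, v, u, hv, hu, huv.symm⟩⟩
  loopless := ⟨fun _ h => h.1 rfl⟩

theorem between_conn (hc : Γ.Connected) (r : Setoid U) :
    Nat.card (Quotient r) ≤ between Γ id r + 1 := by
  classical
  have hq : (Qg Γ r).Connected := by
    have hpre : ∀ u v, (Qg Γ r).Reachable (Quotient.mk r u) (Quotient.mk r v) := by
      intro u v
      obtain ⟨p⟩ := hc.preconnected u v
      induction p with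
      | nil => exact Reachable.refl _
      | cons hab p ih =>
        rename_i a b c
        refine Reachable.trans ?_ ih
        by_cases h : Quotient.mk r a = Quotient.mk r b
        · rw [h]
        · exact Adj.reachable ⟨h, a, b, rfl, rfl, hab⟩
    have : Nonempty (Quotient r) := by
      obtain ⟨u⟩ := hc.nonempty
      exact ⟨Quotient.mk r u⟩
    refine ⟨fun x y => ?_⟩
    induction x using Quotient.inductionOn with | _ u => ?_
    induction y using Quotient.inductionOn with | _ v => ?_
    exact hpre u v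
  have h1 := hq.card_vert_le_card_edgeSet_add_one
  have h2 : Nat.card (Qg Γ r).edgeSet ≤ between Γ id r := by
    rw [Nat.card_coe_set_eq]
    unfold between
    refine le_trans (Set.ncard_le_ncard (t := (Sym2.map (Quotient.mk r)) ''
      {e : Sym2 U | ∃ u v, Γ.Adj u v ∧ ¬ r (id u) (id v) ∧ e = s(u, v)}) ?_ (Set.toFinite _))
      (Set.ncard_image_le (Set.toFinite _))
    intro e he
    induction e using Sym2.ind with | _ x y => ?_
    rw [mem_edgeSet] at he
    obtain ⟨hne, u, v, rfl, rfl, huv⟩ := he
    exact ⟨s(u, v), ⟨u, v, huv, fun h => hne (Quotient.sound h), rfl⟩, rfl⟩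
  omega

theorem between_bot {r : Setoid U} (hr : Nat.card (Quotient r) = Fintype.card U) :
    between Γ id r = Γ.edgeSet.ncard := by
  classical
  have hinj : Function.Injective (Quotient.mk r) := by
    have hs : Function.Surjective (Quotient.mk r) := Quotient.mk_surjective
    have := Fintype.ofFinite (Quotient r)
    rw [Nat.card_eq_fintype_card] at hr
    exact ((Fintype.bijective_iff_surjective_and_card _).2 ⟨hs, hr.symm⟩).1
  unfold between
  congr 1
  ext e
  induction e using Sym2.ind with | _ x y => ?_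
  rw [mem_edgeSet]
  constructor
  · rintro ⟨u, v, h, -, he⟩
    rw [← mem_edgeSet, he]
    exact h
  · intro h
    exact ⟨x, y, h, fun h' => h.ne (hinj (Quotient.sound h')), rfl⟩

theorem card_quot (r : Setoid U) : Nat.card (Quotient r) ≤ Fintype.card U := by
  rw [← Nat.card_eq_fintype_card]
  exact Nat.card_le_card_of_surjective (Quotient.mk r) Quotient.mk_surjective

theorem edges_conn (hc : Γ.Connected) (ha : ¬ Γ.IsAcyclic) :
    Fintype.card U ≤ Γ.edgeSet.ncard := by
  have h1 := hc.card_vert_le_card_edgeSet_add_one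
  rw [Nat.card_eq_fintype_card, Nat.card_coe_set_eq] at h1
  by_contra hcon
  apply ha
  have h2 : Γ.IsTree := by
    rw [isTree_iff_connected_and_card]
    refine ⟨hc, ?_⟩
    rw [Nat.card_coe_set_eq, Nat.card_eq_fintype_card]
    omega
  exact h2.isAcyclic

theorem count_conn (hc : Γ.Connected) (ha : ¬ Γ.IsAcyclic) (r : Setoid U) :
    2 * Nat.card (Quotient r) ≤ Fintype.card U + between Γ id r := by
  have h1 := between_conn hc r
  have h2 := card_quot r
  rcases Nat.lt_or_ge (Nat.card (Quotient r)) (Fintype.card U) with h | h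
  · omega
  · have h3 := between_bot (Γ := Γ) (r := r) (by omega)
    have h4 := edges_conn hc ha
    omega

/-! ### Graphs that are rigid in the plane -/

/-- the edges inside the classes -/
def inn (Γ : SimpleGraph U) (r : Setoid U) : SimpleGraph U where
  Adj u v := Γ.Adj u v ∧ r u v
  symm := ⟨fun _ _ h => ⟨h.1.symm, r.symm h.2⟩⟩
  loopless := ⟨fun _ h => h.1.ne rfl⟩

/-- independent translations of the classes and a rotation of one class -/
theorem mo_inn {p : U → Fin 2 → ℝ} (hp : MG p) (r : Setoid U) {v0 v1 : U} (hr : r v0 v1)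
    (hne : v0 ≠ v1) : 2 * Nat.card (Quotient r) + 1 ≤ mo (inn Γ r) p := by
  classical
  have := Fintype.ofFinite (Quotient r)
  let F : ((Quotient r → Fin 2 → ℝ) × ℝ) →ₗ[ℝ] (U → Fin 2 → ℝ) :=
    { toFun := fun x u => x.1 (Quotient.mk r u) +
        (if r v0 u then x.2 else 0) • ![-(p u 1 - p v0 1), p u 0 - p v0 0]
      map_add' := by
        intro x y
        funext u i
        by_cases h : r v0 u
        · simp only [Prod.fst_add, Prod.snd_add, Pi.add_apply, if_pos h, Pi.smul_apply,
            smul_eq_mul]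
          ring
        · simp only [Prod.fst_add, Pi.add_apply, if_neg h, Pi.smul_apply, smul_eq_mul]
          ring
      map_smul' := by
        intro c x
        funext u i
        by_cases h : r v0 u
        · simp only [Prod.smul_fst, Prod.smul_snd, Pi.add_apply, if_pos h, Pi.smul_apply,
            smul_eq_mul, RingHom.id_apply]
          ring
        · simp only [Prod.smul_fst, Pi.add_apply, if_neg h, Pi.smul_apply, smul_eq_mul,
            RingHom.id_apply]
          ring }
  have hF : ∀ x, F x ∈ Mot (inn Γ r) p := by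
    intro x
    rw [mem_mot]
    rintro u v ⟨-, huv⟩
    have h1 : Quotient.mk r u = Quotient.mk r v := Quotient.sound huv
    show (p u - p v) ⬝ᵥ ((x.1 (Quotient.mk r u) +
        (if r v0 u then x.2 else 0) • ![-(p u 1 - p v0 1), p u 0 - p v0 0]) -
      (x.1 (Quotient.mk r v) +
        (if r v0 v then x.2 else 0) • ![-(p v 1 - p v0 1), p v 0 - p v0 0])) = 0
    rw [h1]
    by_cases h : r v0 u
    · rw [if_pos h, if_pos (r.trans h huv)]
      simp only [dotProduct, Fin.sum_univ_two, Pi.sub_apply, Pi.add_apply, Pi.smul_apply,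
        smul_eq_mul, Matrix.cons_val_zero, Matrix.cons_val_one]
      ring
    · rw [if_neg h, if_neg (fun h' => h (r.trans h' (r.symm huv)))]
      simp
  have hinj : Function.Injective (F.codRestrict _ hF) := by
    rw [injective_iff_map_eq_zero]
    rintro ⟨τ, ρ⟩ h
    rw [Subtype.ext_iff] at h
    have h : F (τ, ρ) = 0 := h
    have hval : ∀ u, τ (Quotient.mk r u) +
        (if r v0 u then ρ else 0) • ![-(p u 1 - p v0 1), p u 0 - p v0 0] = 0 := fun u =>
      congrFun h u
    have h0 : τ (Quotient.mk r v0) = 0 := by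
      funext i
      have := congrFun (hval v0) i
      fin_cases i <;> simpa using this
    have hρ : ρ = 0 := by
      by_contra hρ
      have h2 := hval v1
      rw [show Quotient.mk r v1 = Quotient.mk r v0 from Quotient.sound (r.symm hr), h0, zero_add,
        if_pos hr, smul_eq_zero] at h2
      have h3 := h2.resolve_left hρ
      apply Pool.Agent.N423.DE.p_ne hp (by norm_num) hne
      have e0 := congrFun h3 0
      have e1 := congrFun h3 1
      simp only [Matrix.cons_val_zero, Matrix.cons_val_one, Pi.zero_apply] at e0 e1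
      funext i
      fin_cases i
      · show p v0 0 = p v1 0
        linarith
      · show p v0 1 = p v1 1
        linarith
    have hτ : τ = 0 := by
      funext x
      induction x using Quotient.inductionOn with | _ u => ?_
      have := hval u
      rw [hρ] at this
      simpa using this
    rw [hτ, hρ]
    rfl
  have h1 := LinearMap.finrank_le_finrank_of_injective hinj
  rw [Module.finrank_prod, Module.finrank_pi_fintype] at h1
  simp only [Module.finrank_fin_fun, Module.finrank_self, Finset.sum_const, Finset.card_univ,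
    smul_eq_mul] at h1
  rw [Nat.card_eq_fintype_card]
  have h2 : finrank ℝ (Mot (inn Γ r) p) = mo (inn Γ r) p := rfl
  omega

theorem count_plane (hΓ : GenRigid 2 Γ) (h2 : 2 ≤ Fintype.card U)
    (he : 2 * Fintype.card U ≤ Γ.edgeSet.ncard + 2) (r : Setoid U) :
    2 * Nat.card (Quotient r) ≤ between Γ id r + 2 := by
  classical
  have h1 := card_quot r
  rcases Nat.lt_or_ge (Nat.card (Quotient r)) (Fintype.card U) with h | h
  · obtain ⟨p, hp⟩ := exists_mg U 2
    obtain ⟨v0, v1, hne, hr⟩ : ∃ v0 v1 : U, v0 ≠ v1 ∧ r v0 v1 := by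
      by_contra hcon
      push Not at hcon
      have hinj : Function.Injective (Quotient.mk r) := by
        intro u v huv
        by_contra hne
        exact hcon u v hne (Quotient.exact huv)
      have := Nat.card_le_card_of_injective (Quotient.mk r) hinj
      rw [Nat.card_eq_fintype_card] at this
      omega
    have h3 := mo_inn (Γ := Γ) hp r hr hne
    have h4 := mo_le_add (G := inn Γ r) (G' := Γ) p
    have h5 := (genRigid_iff hp h2 Γ).1 hΓ
    norm_num at h5
    have h6 : (Γ.edgeSet \ (inn Γ r).edgeSet).ncard ≤ between Γ id r := by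
      unfold between
      refine Set.ncard_le_ncard ?_ (Set.toFinite _)
      intro e he
      induction e using Sym2.ind with | _ x y => ?_
      obtain ⟨h7, h8⟩ := he
      rw [mem_edgeSet] at h7 h8
      exact ⟨x, y, h7, fun h => h8 ⟨h7, h⟩, rfl⟩
    omega
  · have h3 := between_bot (Γ := Γ) (r := r) (by omega)
    omega

/-! ### Products with a triangle -/

theorem tri_gen : GenRigid 3 (⊤ : SimpleGraph (Fin 3)) := by
  obtain ⟨p, hp⟩ := exists_mg (Fin 3) 3
  rw [genRigid_iff hp (by simp)]
  let p' : Fin 3 → Fin 3 → ℝ := ![![0, 0, 0], ![1, 0, 0], ![0, 1, 0]]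
  refine (hp.min ⊤ p').trans ?_
  let R : (Fin 3 → Fin 3 → ℝ) →ₗ[ℝ] (Fin 6 → ℝ) :=
    { toFun := fun M => ![M 0 0, M 0 1, M 0 2, M 1 1, M 1 2, M 2 2]
      map_add' := by
        intro M M'
        funext i
        fin_cases i <;> simp
      map_smul' := by
        intro c M
        funext i
        fin_cases i <;> simp }
  have hinj : Function.Injective (R.domRestrict (Mot ⊤ p')) := by
    rw [injective_iff_map_eq_zero]
    rintro ⟨M, hM⟩ h
    rw [mem_mot] at hM
    have h : R M = 0 := h
    have e0 : M 0 0 = 0 := congrFun h 0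
    have e1 : M 0 1 = 0 := congrFun h 1
    have e2 : M 0 2 = 0 := congrFun h 2
    have e3 : M 1 1 = 0 := congrFun h 3
    have e4 : M 1 2 = 0 := congrFun h 4
    have e5 : M 2 2 = 0 := congrFun h 5
    have f1 := hM 0 1 (by simp)
    have f2 := hM 0 2 (by simp)
    have f3 := hM 1 2 (by simp)
    simp [p', dotProduct, Fin.sum_univ_three] at f1 f2 f3
    rw [Subtype.ext_iff]
    show M = 0
    funext i j
    fin_cases i <;> fin_cases j <;> simp only [Fin.zero_eta, Fin.mk_one, Fin.reduceFinMk,
      Pi.zero_apply] <;> linarith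
  have h1 := LinearMap.finrank_le_finrank_of_injective hinj
  rw [Module.finrank_fin_fun] at h1
  exact h1

theorem tri_rank {N : ℕ} (h : ∀ r : Setoid U, N ≤ 3 * Fintype.card U +
    6 * (Fintype.card U - Nat.card (Quotient r)) + 3 * between Γ id r) :
    N ≤ genRank 3 ((⊤ : SimpleGraph (Fin 3)) □ Γ) := by
  obtain ⟨⟨r, hr⟩, -⟩ := (Pool.Agent.Y532.TN.Prd.t gen (Fin 3) U ⊤ Γ (by simp) tri_gen).1
  rw [hr]
  have := h r
  simp only [Nat.card_eq_fintype_card, Fintype.card_fin] at this ⊢
  omega

theorem tri_conn (hc : Γ.Connected) (ha : ¬ Γ.IsAcyclic) :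
    Mu 0 (3 * Fintype.card U) ((⊤ : SimpleGraph (Fin 3)) □ Γ) := by
  apply mu_of_rank
  have h := tri_rank (Γ := Γ) (N := 6 * Fintype.card U) (by
    intro r
    have h1 := count_conn hc ha r
    have h2 := card_quot r
    omega)
  rw [Fintype.card_prod, Fintype.card_fin]
  omega

theorem tri_plane (hΓ : GenRigid 2 Γ) (h2 : 2 ≤ Fintype.card U)
    (he : 2 * Fintype.card U ≤ Γ.edgeSet.ncard + 2) :
    Mu 0 6 ((⊤ : SimpleGraph (Fin 3)) □ Γ) := by
  apply mu_of_rank
  have h := tri_rank (Γ := Γ) (N := 9 * Fintype.card U - 6) (by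
    intro r
    have h1 := count_plane hΓ h2 he r
    have h3 := card_quot r
    omega)
  rw [Fintype.card_prod, Fintype.card_fin]
  omega

/-! ### Consequences -/

theorem mu_two (hc : Γ.Connected) (ha : ¬ Γ.IsAcyclic) : Mu 2 0 Γ := by
  obtain ⟨g, hg⟩ := contr_tri hc ha
  have hb : Mu 2 0 ((⊤ : SimpleGraph (Fin 3)) □ (⊥ : SimpleGraph Unit)) := base_C3p
  have h := Mu.contract hg (Pool.Agent.J4H92.PL.mu_more (⊥ : SimpleGraph Unit) 0) hb
  refine h.pull (Equiv.prodPUnit U).symm ?_
  rintro ⟨a, a'⟩ ⟨b, b'⟩ hab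
  rcases hab with ⟨h1, h2⟩ | ⟨h1, h2⟩
  · exact h1
  · exact absurd h1 (by simp)

/-- the product has at least as many independent edges as for a unicyclic graph -/
theorem unicyclic_bound {W : Type} [Fintype W] {H : SimpleGraph W} (hc : Γ.Connected)
    (ha : ¬ Γ.IsAcyclic) (hH : GenRigid 2 H) (h3 : 3 ≤ Fintype.card W) :
    Mu 0 (3 * Fintype.card U) (Γ □ H) := by
  refine Pool.Agent.J4H92.PL.mu_comm ?_
  refine Pool.Agent.J4H92.PL.up (j := 0) (k := 3 * Fintype.card U) (m := 3) Γ (by norm_num)
    (mu_two hc ha) ?_ _ h3 W H hH rfl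
  intro W' _ H' hH' hW'
  classical
  obtain ⟨M, hM, e, he⟩ := Pool.Agent.J4H92.PL.small_three W' H' hH' hW'
  have hM' : M = 0x30506 := List.mem_singleton.1 hM
  subst hM'
  refine (tri_conn hc ha).pull (Equiv.prodCongr e (Equiv.refl U)) ?_
  rintro ⟨a, a'⟩ ⟨b, b'⟩ hab
  rcases hab with ⟨h1, h2⟩ | ⟨h1, h2⟩
  · exact Or.inl ⟨he a b (Pool.Agent.J4H92.PL.all3 a b h1.ne), h2⟩
  · refine Or.inr ⟨h1, ?_⟩
    have h2 : a = b := h2
    subst h2
    rfl

/-- **Plane-rigid graphs with rank at least `2 h` in space.** -/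
theorem rank_rigid {W : Type} [Fintype W] {H : SimpleGraph W} (hc : Γ.Connected)
    (ha : ¬ Γ.IsAcyclic) (hH : GenRigid 2 H) (h2 : 2 ≤ Fintype.card W)
    (hr : 2 * Fintype.card W ≤ genRank 3 H) : Mu 0 6 (Γ □ H) := by
  obtain ⟨g, hg⟩ := contr_tri hc ha
  have h1 := rank_le H
  exact Mu.contract hg (pin_one hH h2 hr) (tri_plane hH h2 (by omega))

end Pool.Agent.J4H92.NC
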