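import Pool.Agent.J4H92.NC.Ker
import Pool.Agent.J4H92.CP.Count

/-!
# Nearly collapsed placements
-/

set_option autoImplicit false

namespace Pool.Agent.J4H92.NC

open Module SimpleGraph Pool.Agent.H283R2.DR Pool.Agent.H283R2.DR.TA Pool.Agent.J4H92.CP

variable {U W : Type} {G : SimpleGraph U} {H : SimpleGraph W} {t : U → ℝ}

/-- scalar product -/
def dt (a b : Fin 3 → ℝ) : ℝ := a 0 * b 0 + a 1 * b 1 + a 2 * b 2

theorem dt_eq (a b : Fin 3 → ℝ) : a ⬝ᵥ b = dt a b := by
  simp [dotProduct, Fin.sum_univ_three, dt]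

/-- the limit points -/
def qh (q : W → Fin 2 → ℝ) (x : W) : Fin 3 → ℝ := ![q x 0, q x 1, 0]

/-- first order positions -/
def Pu (t : U → ℝ) (q : W → Fin 2 → ℝ) (r : W → U → Fin 2 → ℝ) (u : U) (x : W) : Fin 3 → ℝ :=
  ![r x u 0, r x u 1, lam t u (q x)]

/-- unknowns -/
abbrev X0 (U W : Type) : Type := (W → Fin 3 → ℝ) × (U → W → Fin 3 → ℝ)

abbrev Y0 (U W : Type) : Type :=
  (W → W → ℝ) × (U → W → W → ℝ) × (U → U → W → ℝ) × (W → Fin 3 → ℝ)

/-- the limit system -/
noncomputable def B0 (G : SimpleGraph U) (H : SimpleGraph W) (t : U → ℝ) (b : U)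
    (q : W → Fin 2 → ℝ) (r : W → U → Fin 2 → ℝ) : X0 U W →ₗ[ℝ] Y0 U W where
  toFun p := (fun x y => ad H x y * dt (qh q x - qh q y) (p.1 x - p.1 y),
    fun u x y => ad H x y * (dt (Pu t q r u x - Pu t q r u y - (Pu t q r b x - Pu t q r b y))
      (p.1 x - p.1 y) + dt (qh q x - qh q y) (p.2 u x - p.2 u y)),
    fun u v x => ad G u v * dt (Pu t q r u x - Pu t q r v x) (p.2 u x - p.2 v x),
    fun x => p.2 b x)
  map_add' p p' := by
    refine Prod.ext ?_ (Prod.ext ?_ (Prod.ext ?_ ?_))
    · funext x y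
      simp only [dt, Prod.fst_add, Pi.add_apply, Pi.sub_apply]
      ring
    · funext u x y
      simp only [dt, Prod.fst_add, Prod.snd_add, Pi.add_apply, Pi.sub_apply]
      ring
    · funext u v x
      simp only [dt, Prod.fst_add, Prod.snd_add, Pi.add_apply, Pi.sub_apply]
      ring
    · rfl
  map_smul' a p := by
    refine Prod.ext ?_ (Prod.ext ?_ (Prod.ext ?_ ?_))
    · funext x y
      simp only [dt, Prod.smul_fst, Pi.smul_apply, Pi.sub_apply, smul_eq_mul, RingHom.id_apply]
      ring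
    · funext u x y
      simp only [dt, Prod.smul_fst, Prod.smul_snd, Pi.smul_apply, Pi.sub_apply, smul_eq_mul,
        RingHom.id_apply]
      ring
    · funext u v x
      simp only [dt, Prod.smul_fst, Prod.smul_snd, Pi.smul_apply, Pi.sub_apply, smul_eq_mul,
        RingHom.id_apply]
      ring
    · rfl

/-- the first order term -/
noncomputable def B1 (H : SimpleGraph W) (t : U → ℝ) (b : U)
    (q : W → Fin 2 → ℝ) (r : W → U → Fin 2 → ℝ) : X0 U W →ₗ[ℝ] Y0 U W where
  toFun p := (fun x y => ad H x y * dt (Pu t q r b x - Pu t q r b y) (p.1 x - p.1 y),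
    fun u x y => ad H x y * dt (Pu t q r u x - Pu t q r u y) (p.2 u x - p.2 u y), 0, 0)
  map_add' p p' := by
    refine Prod.ext ?_ (Prod.ext ?_ (Prod.ext ?_ ?_))
    · funext x y
      simp only [dt, Prod.fst_add, Pi.add_apply, Pi.sub_apply]
      ring
    · funext u x y
      simp only [dt, Prod.fst_add, Prod.snd_add, Pi.add_apply, Pi.sub_apply]
      ring
    · simp
    · simp
  map_smul' a p := by
    refine Prod.ext ?_ (Prod.ext ?_ (Prod.ext ?_ ?_))
    · funext x y
      simp only [dt, Prod.smul_fst, Pi.smul_apply, Pi.sub_apply, smul_eq_mul, RingHom.id_apply]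
      ring
    · funext u x y
      simp only [dt, Prod.smul_fst, Prod.smul_snd, Pi.smul_apply, Pi.sub_apply, smul_eq_mul,
        RingHom.id_apply]
      ring
    · simp
    · simp

theorem mem_ker_B {b : U} {q : W → Fin 2 → ℝ} {r : W → U → Fin 2 → ℝ} {ε : ℝ} {p : X0 U W} :
    p ∈ LinearMap.ker (B0 G H t b q r + ε • B1 H t b q r) ↔
      (∀ x y, H.Adj x y → dt (qh q x - qh q y) (p.1 x - p.1 y) +
        ε * dt (Pu t q r b x - Pu t q r b y) (p.1 x - p.1 y) = 0) ∧
      (∀ u x y, H.Adj x y → dt (Pu t q r u x - Pu t q r u y - (Pu t q r b x - Pu t q r b y))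
        (p.1 x - p.1 y) + dt (qh q x - qh q y) (p.2 u x - p.2 u y) +
        ε * dt (Pu t q r u x - Pu t q r u y) (p.2 u x - p.2 u y) = 0) ∧
      (∀ u v x, G.Adj u v → dt (Pu t q r u x - Pu t q r v x) (p.2 u x - p.2 v x) = 0) ∧
      ∀ x, p.2 b x = 0 := by
  rw [LinearMap.mem_ker, Prod.ext_iff, Prod.ext_iff, Prod.ext_iff]
  have e1 : ∀ x y, ((B0 G H t b q r + ε • B1 H t b q r) p).1 x y = ad H x y *
      (dt (qh q x - qh q y) (p.1 x - p.1 y) +
        ε * dt (Pu t q r b x - Pu t q r b y) (p.1 x - p.1 y)) := by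
    intro x y
    simp only [B0, B1, LinearMap.add_apply, LinearMap.smul_apply, LinearMap.coe_mk,
      AddHom.coe_mk, Prod.fst_add, Prod.smul_fst, Pi.add_apply, Pi.smul_apply, smul_eq_mul]
    ring
  have e2 : ∀ u x y, ((B0 G H t b q r + ε • B1 H t b q r) p).2.1 u x y = ad H x y *
      (dt (Pu t q r u x - Pu t q r u y - (Pu t q r b x - Pu t q r b y))
        (p.1 x - p.1 y) + dt (qh q x - qh q y) (p.2 u x - p.2 u y) +
        ε * dt (Pu t q r u x - Pu t q r u y) (p.2 u x - p.2 u y)) := by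
    intro u x y
    simp only [B0, B1, LinearMap.add_apply, LinearMap.smul_apply, LinearMap.coe_mk,
      AddHom.coe_mk, Prod.fst_add, Prod.smul_fst, Prod.snd_add, Prod.smul_snd, Pi.add_apply,
      Pi.smul_apply, smul_eq_mul]
    ring
  have e3 : ∀ u v x, ((B0 G H t b q r + ε • B1 H t b q r) p).2.2.1 u v x =
      ad G u v * dt (Pu t q r u x - Pu t q r v x) (p.2 u x - p.2 v x) := by
    intro u v x
    simp only [B0, B1, LinearMap.add_apply, LinearMap.smul_apply, LinearMap.coe_mk,
      AddHom.coe_mk, Prod.fst_add, Prod.snd_add, Prod.smul_snd, Pi.add_apply,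
      Prod.smul_fst, smul_zero]
    exact add_zero _
  have e4 : ∀ x, ((B0 G H t b q r + ε • B1 H t b q r) p).2.2.2 x = p.2 b x := by
    intro x
    simp only [B0, B1, LinearMap.add_apply, LinearMap.smul_apply, LinearMap.coe_mk,
      AddHom.coe_mk, Prod.snd_add, Prod.smul_snd, Pi.add_apply, smul_zero]
    exact add_zero _
  constructor
  · rintro ⟨h1, h2, h3, h4⟩
    refine ⟨fun x y hxy => ?_, fun u x y hxy => ?_, fun u v x huv => ?_, fun x => ?_⟩
    · have := congrFun (congrFun h1 x) y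
      rw [e1] at this
      exact ad_mul.1 this hxy
    · have := congrFun (congrFun (congrFun h2 u) x) y
      rw [e2] at this
      exact ad_mul.1 this hxy
    · have := congrFun (congrFun (congrFun h3 u) v) x
      rw [e3] at this
      exact ad_mul.1 this huv
    · have := congrFun h4 x
      rw [e4] at this
      exact this
  · rintro ⟨h1, h2, h3, h4⟩
    refine ⟨?_, ?_, ?_, ?_⟩
    · funext x y
      rw [e1]
      exact ad_mul.2 (h1 x y)
    · funext u x y
      rw [e2]
      exact ad_mul.2 (h2 u x y)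
    · funext u v x
      rw [e3]
      exact ad_mul.2 (h3 u v x)
    · funext x
      rw [e4]
      exact h4 x

/-- the motions of the product embed into the kernel -/
theorem sol_le [Fintype U] [Fintype W] (b : U) (q : W → Fin 2 → ℝ) (r : W → U → Fin 2 → ℝ)
    {ε : ℝ} (hε : ε ≠ 0) :
    finrank ℝ (Sol (G □ H) (df fun v : U × W => qh q v.2 + ε • Pu t q r v.1 v.2)
      (0 : U × W → Fin 0 → Fin 3 → ℝ)) ≤
      finrank ℝ (LinearMap.ker (B0 G H t b q r + ε • B1 H t b q r)) := by
  let φ : (U × W → Fin 3 → ℝ) →ₗ[ℝ] X0 U W :=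
    { toFun := fun M => (fun x => M (b, x), fun u x => ε⁻¹ • (M (u, x) - M (b, x)))
      map_add' := by
        intro M M'
        refine Prod.ext rfl ?_
        funext u x
        simp only [Pi.add_apply, Prod.snd_add]
        rw [← smul_add]
        congr 1
        abel
      map_smul' := by
        intro a M
        refine Prod.ext rfl ?_
        funext u x
        simp only [Pi.smul_apply, Prod.smul_snd, RingHom.id_apply]
        rw [← smul_sub, smul_comm] }
  have hφ : ∀ M ∈ Sol (G □ H) (df fun v : U × W => qh q v.2 + ε • Pu t q r v.1 v.2)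
      (0 : U × W → Fin 0 → Fin 3 → ℝ),
      φ M ∈ LinearMap.ker (B0 G H t b q r + ε • B1 H t b q r) := by
    rintro M ⟨hM, -⟩
    have lay : ∀ u x y, H.Adj x y → dt (qh q x - qh q y) (M (u, x) - M (u, y)) +
        ε * dt (Pu t q r u x - Pu t q r u y) (M (u, x) - M (u, y)) = 0 := by
      intro u x y hxy
      have h1 := hM (u, x) (u, y) (Or.inr ⟨hxy, rfl⟩)
      rw [dt_eq] at h1
      rw [← h1]
      simp only [dt, df, Pi.add_apply, Pi.sub_apply, Pi.smul_apply, smul_eq_mul]
      ring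
    rw [mem_ker_B]
    refine ⟨fun x y hxy => lay b x y hxy, fun u x y hxy => ?_, fun u v x huv => ?_, fun x => ?_⟩
    · have h1 := lay u x y hxy
      have h2 := lay b x y hxy
      show dt (Pu t q r u x - Pu t q r u y - (Pu t q r b x - Pu t q r b y))
        (M (b, x) - M (b, y)) + dt (qh q x - qh q y)
        (ε⁻¹ • (M (u, x) - M (b, x)) - ε⁻¹ • (M (u, y) - M (b, y))) +
        ε * dt (Pu t q r u x - Pu t q r u y)
        (ε⁻¹ • (M (u, x) - M (b, x)) - ε⁻¹ • (M (u, y) - M (b, y))) = 0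
      simp only [dt, Pi.sub_apply, Pi.smul_apply, smul_eq_mul] at h1 h2 ⊢
      field_simp
      linear_combination h1 - h2
    · have h1 := hM (u, x) (v, x) (Or.inl ⟨huv, rfl⟩)
      rw [dt_eq] at h1
      show dt (Pu t q r u x - Pu t q r v x)
        (ε⁻¹ • (M (u, x) - M (b, x)) - ε⁻¹ • (M (v, x) - M (b, x))) = 0
      have h2 : ε * dt (Pu t q r u x - Pu t q r v x) (M (u, x) - M (v, x)) = 0 := by
        rw [← h1]
        simp only [dt, df, Pi.add_apply, Pi.sub_apply, Pi.smul_apply, smul_eq_mul]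
        ring
      have h3 := (mul_eq_zero.1 h2).resolve_left hε
      simp only [dt, Pi.sub_apply, Pi.smul_apply, smul_eq_mul] at h3 ⊢
      linear_combination ε⁻¹ * h3
    · show ε⁻¹ • (M (b, x) - M (b, x)) = 0
      rw [sub_self, smul_zero]
  have hinj : Function.Injective ((φ.domRestrict (Sol (G □ H)
      (df fun v : U × W => qh q v.2 + ε • Pu t q r v.1 v.2)
      (0 : U × W → Fin 0 → Fin 3 → ℝ))).codRestrict
      (LinearMap.ker (B0 G H t b q r + ε • B1 H t b q r)) (fun M => hφ M M.2)) := by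
    rw [injective_iff_map_eq_zero]
    rintro ⟨M, hM⟩ h
    rw [Subtype.ext_iff] at h
    have h1 : φ M = 0 := h
    rw [Subtype.ext_iff]
    show M = 0
    have h2 : ∀ x, M (b, x) = 0 := fun x => congrFun (congrArg Prod.fst h1) x
    funext v
    obtain ⟨u, x⟩ := v
    have h3 : ε⁻¹ • (M (u, x) - M (b, x)) = 0 := congrFun (congrFun (congrArg Prod.snd h1) u) x
    rw [h2, sub_zero, smul_eq_zero] at h3
    exact h3.resolve_left (inv_ne_zero hε)
  exact LinearMap.finrank_le_finrank_of_injective hinj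

end Pool.Agent.J4H92.NC
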