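import Pool.Agent.J4H92.NC.Base

/-!
# Graphs without vertices of degree one
-/

set_option autoImplicit false

namespace Pool.Agent.J4H92.NC

open SimpleGraph hiding between

open Module Pool.Agent.H283R2.DR Pool.Agent.H789R5 Pool.Agent.J4H92.CP

variable {U : Type} {G : SimpleGraph U}

/-- two neighbours -/
def Two (G : SimpleGraph U) (v : U) : Prop := ∃ x y, x ≠ y ∧ G.Adj v x ∧ G.Adj v y

/-- three neighbours -/
def Three (G : SimpleGraph U) : Prop :=
  ∃ v a b c : U, a ≠ b ∧ a ≠ c ∧ b ≠ c ∧ G.Adj v a ∧ G.Adj v b ∧ G.Adj v c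

theorem G0_comm (a b : U) : G0 G a b = G0 G b a := by
  unfold G0
  rw [Sym2.eq_swap]

theorem reach_or (hG : G.Connected) {a b : U} (u : U) :
    (G0 G a b).Reachable a u ∨ (G0 G a b).Reachable b u := by
  obtain ⟨p⟩ := hG.preconnected u a
  have key : ∀ x y, ∀ p : G.Walk x y, y = a → (G0 G a b).Reachable a x ∨
      (G0 G a b).Reachable b x := by
    intro x y p
    induction p with
    | nil =>
      rintro rfl
      exact Or.inl (Reachable.refl _)
    | cons hab p ih =>
      rename_i x y z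
      intro hz
      by_cases h : s(x, y) = s(a, b)
      · rcases Sym2.eq_iff.1 h with ⟨rfl, rfl⟩ | ⟨rfl, rfl⟩
        · exact Or.inl (Reachable.refl _)
        · exact Or.inr (Reachable.refl _)
      · have h1 : (G0 G a b).Adj y x := (G0_adj.2 ⟨hab, h⟩).symm
        rcases ih hz with h2 | h2
        · exact Or.inl (h2.trans h1.reachable)
        · exact Or.inr (h2.trans h1.reachable)
  exact key u a p rfl

theorem compl_sd (hG : G.Connected) {a b : U} (hbr : b ∉ sd G a b) :
    (sd G a b)ᶜ = sd G b a := by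
  ext u
  constructor
  · intro hu
    rcases reach_or hG (a := a) (b := b) u with h | h
    · exact absurd h hu
    · show (G0 G b a).Reachable b u
      rw [G0_comm]
      exact h
  · intro hu hu'
    have hu : (G0 G b a).Reachable b u := hu
    rw [G0_comm] at hu
    exact hbr (Reachable.trans hu' hu.symm)

/-- the side is connected -/
theorem side_conn {a b : U} (hbr : b ∉ sd G a b) : (G.induce (sd G a b)).Connected := by
  have key : ∀ x y, ∀ p : (G0 G a b).Walk x y, ∀ hx : x ∈ sd G a b, ∃ hy : y ∈ sd G a b,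
      (G.induce (sd G a b)).Reachable ⟨x, hx⟩ ⟨y, hy⟩ := by
    intro x y p
    induction p with
    | nil => exact fun hx => ⟨hx, Reachable.refl _⟩
    | cons hab p ih =>
      rename_i x y z
      intro hx
      have hy : y ∈ sd G a b := (side_iff hab).1 hx
      obtain ⟨hz, hr⟩ := ih hy
      refine ⟨hz, Reachable.trans (Adj.reachable ?_) hr⟩
      exact (G0_adj.1 hab).1
  have hne : Nonempty (sd G a b) := ⟨⟨a, a_mem⟩⟩
  refine ⟨fun x y => ?_⟩
  obtain ⟨p⟩ := x.2
  obtain ⟨p'⟩ := y.2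
  obtain ⟨_, h1⟩ := key a x.1 p a_mem
  obtain ⟨_, h2⟩ := key a y.1 p' a_mem
  exact h1.symm.trans h2

/-- the side is not a tree -/
theorem side_cycle [Fintype U] {a b : U} (hbr : b ∉ sd G a b) (h2 : ∀ v, Two G v) :
    ¬ (G.induce (sd G a b)).IsAcyclic := by
  classical
  intro ha
  set S := sd G a b with hS
  set Γ := G.induce S with hΓ
  have htree : Γ.IsTree := ⟨side_conn hbr, ha⟩
  have hcard := htree.card_edgeFinset
  have hsum := Γ.sum_degrees_eq_twice_card_edges
  -- neighbours stay in the side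
  have hstay : ∀ u v, u ∈ S → G.Adj u v → u ≠ a ∨ v ≠ b → v ∈ S := by
    intro u v hu huv hne
    refine (side_iff (G0_adj.2 ⟨huv, fun h => ?_⟩)).1 hu
    rcases Sym2.eq_iff.1 h with ⟨rfl, rfl⟩ | ⟨rfl, rfl⟩
    · rcases hne with h | h <;> exact h rfl
    · exact hbr hu
  have hdeg : ∀ v : S, v ≠ ⟨a, a_mem⟩ → 2 ≤ Γ.degree v := by
    intro v hv
    have hva : v.1 ≠ a := fun h => hv (Subtype.ext h)
    obtain ⟨x, y, hxy, hx, hy⟩ := h2 v.1
    have hx' := hstay v.1 x v.2 hx (Or.inl hva)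
    have hy' := hstay v.1 y v.2 hy (Or.inl hva)
    rw [← card_neighborFinset_eq_degree]
    refine Finset.one_lt_card.2 ⟨⟨x, hx'⟩, ?_, ⟨y, hy'⟩, ?_, fun h => hxy (congrArg Subtype.val h)⟩
    · rw [mem_neighborFinset]
      exact hx
    · rw [mem_neighborFinset]
      exact hy
  have hdega : 1 ≤ Γ.degree ⟨a, a_mem⟩ := by
    obtain ⟨x, y, hxy, hx, hy⟩ := h2 a
    obtain ⟨c, hc, hcb⟩ : ∃ c, G.Adj a c ∧ c ≠ b := by
      by_cases h : x = b
      · exact ⟨y, hy, fun h' => hxy (h.trans h'.symm)⟩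
      · exact ⟨x, hx, h⟩
    have hc' := hstay a c a_mem hc (Or.inr hcb)
    rw [← card_neighborFinset_eq_degree]
    refine Finset.card_pos.2 ⟨⟨c, hc'⟩, ?_⟩
    rw [mem_neighborFinset]
    exact hc
  have hlow : 2 * (Fintype.card S - 1) + 1 ≤ ∑ v, Γ.degree v := by
    rw [← Finset.add_sum_erase Finset.univ _ (Finset.mem_univ (⟨a, a_mem⟩ : S))]
    have h3 : ∑ v ∈ Finset.univ.erase (⟨a, a_mem⟩ : S), 2 ≤
        ∑ v ∈ Finset.univ.erase (⟨a, a_mem⟩ : S), Γ.degree v :=
      Finset.sum_le_sum fun v hv => hdeg v (Finset.ne_of_mem_erase hv)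
    have hcu : (Finset.univ.erase (⟨a, a_mem⟩ : S)).card = Fintype.card S - 1 := by
      rw [Finset.card_erase_of_mem (Finset.mem_univ _)]
      rfl
    rw [Finset.sum_const, hcu, smul_eq_mul] at h3
    omega
  have hpos : 0 < Fintype.card S := Fintype.card_pos_iff.2 ⟨⟨a, a_mem⟩⟩
  omega

/-! ### The contracted graph -/

theorem gc_conn (hG : G.Connected) {a b : U} (hab : a ≠ b) : (Gc G hab).Connected := by
  classical
  have key : ∀ x y, ∀ p : G.Walk x y, (Gc G hab).Reachable (fab hab x) (fab hab y) := by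
    intro x y p
    induction p with
    | nil => exact Reachable.refl _
    | cons h p ih =>
      rename_i x y z
      refine Reachable.trans ?_ ih
      by_cases he : fab hab x = fab hab y
      · rw [he]
      · exact Adj.reachable ⟨he, x, y, rfl, rfl, h⟩
  have hne : Nonempty {u : U // u ≠ b} := ⟨⟨a, hab⟩⟩
  refine ⟨fun x y => ?_⟩
  obtain ⟨p⟩ := hG.preconnected x.1 y.1
  have := key _ _ p
  rwa [fab_ne hab x.2, fab_ne hab y.2] at this

/-- no vertex is adjacent to both ends of a bridge -/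
theorem no_common {a b : U} (hbr : b ∉ sd G a b) {c : U} (h1 : G.Adj a c) (h2 : G.Adj b c) :
    False := by
  have hca : c ≠ a := h1.ne'
  have hcb : c ≠ b := h2.ne'
  have e1 : (G0 G a b).Adj a c := G0_adj.2 ⟨h1, fun h => by
    rcases Sym2.eq_iff.1 h with ⟨-, h⟩ | ⟨-, h⟩
    · exact hcb h
    · exact hca h⟩
  have e2 : (G0 G a b).Adj c b := G0_adj.2 ⟨h2.symm, fun h => by
    rcases Sym2.eq_iff.1 h with ⟨h, -⟩ | ⟨h, -⟩
    · exact hca h
    · exact hcb h⟩
  exact hbr (e1.reachable.trans e2.reachable)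

/-- neighbours of a vertex which is not contracted -/
theorem gc_adj_of {a b : U} (hab : a ≠ b) {v x : U} (hva : v ≠ a) (hvb : v ≠ b)
    (h : G.Adj v x) : (Gc G hab).Adj ⟨v, hvb⟩ (fab hab x) := by
  refine ⟨fun he => ?_, v, x, fab_ne hab hvb, rfl, h⟩
  rw [← fab_ne hab hvb] at he
  have := fab_eq hab he h.ne
  rcases Sym2.eq_iff.1 this with ⟨h, -⟩ | ⟨h, -⟩
  · exact hva h
  · exact hvb h

theorem fab_inj_nb {a b : U} (hab : a ≠ b) (hbr : b ∉ sd G a b) {v x y : U}
    (hx : G.Adj v x) (hy : G.Adj v y) (hxy : x ≠ y) : fab hab x ≠ fab hab y := by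
  intro he
  rcases Sym2.eq_iff.1 (fab_eq hab he hxy) with ⟨rfl, rfl⟩ | ⟨rfl, rfl⟩
  · exact no_common hbr hx.symm hy.symm
  · exact no_common hbr hy.symm hx.symm

theorem gc_adj_a {a b : U} (hab : a ≠ b) {c : U} (hc : G.Adj a c) (hcb : c ≠ b) :
    (Gc G hab).Adj ⟨a, hab⟩ ⟨c, hcb⟩ :=
  ⟨fun h => hc.ne (congrArg Subtype.val h), a, c, fab_a hab, fab_ne hab hcb, hc⟩

theorem gc_adj_b {a b : U} (hab : a ≠ b) {d : U} (hd : G.Adj b d) (hda : d ≠ a) :
    (Gc G hab).Adj ⟨a, hab⟩ ⟨d, hd.ne'⟩ :=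
  ⟨fun h => hda (congrArg Subtype.val h).symm, b, d, fab_b hab, fab_ne hab hd.ne', hd⟩

theorem other {v w : U} (h : Two G v) : ∃ c, G.Adj v c ∧ c ≠ w := by
  obtain ⟨x, y, hxy, hx, hy⟩ := h
  by_cases h : x = w
  · exact ⟨y, hy, fun h' => hxy (h.trans h'.symm)⟩
  · exact ⟨x, hx, h⟩

theorem gc_two {a b : U} (hab : a ≠ b) (hbr : b ∉ sd G a b) (h2 : ∀ v, Two G v) :
    ∀ v, Two (Gc G hab) v := by
  rintro ⟨v, hvb⟩
  by_cases hva : v = a
  · subst hva
    obtain ⟨c, hc, hcb⟩ := other (w := b) (h2 v)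
    obtain ⟨d, hd, hda⟩ := other (w := v) (h2 b)
    refine ⟨⟨c, hcb⟩, ⟨d, hd.ne'⟩, fun h => ?_, gc_adj_a hab hc hcb, gc_adj_b hab hd hda⟩
    have h : c = d := congrArg Subtype.val h
    subst h
    exact no_common hbr hc hd
  · obtain ⟨x, y, hxy, hx, hy⟩ := h2 v
    exact ⟨fab hab x, fab hab y, fab_inj_nb hab hbr hx hy hxy, gc_adj_of hab hva hvb hx,
      gc_adj_of hab hva hvb hy⟩

theorem two_others {v w a b c : U} (h1 : a ≠ b) (h2 : a ≠ c) (h3 : b ≠ c) (ha : G.Adj v a)
    (hb : G.Adj v b) (hc : G.Adj v c) : ∃ x y, x ≠ y ∧ x ≠ w ∧ y ≠ w ∧ G.Adj v x ∧ G.Adj v y := by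
  by_cases e1 : a = w
  · subst e1
    exact ⟨b, c, h3, h1.symm, h2.symm, hb, hc⟩
  · by_cases e2 : b = w
    · subst e2
      exact ⟨a, c, h2, h1, h3.symm, ha, hc⟩
    · exact ⟨a, b, h1, e1, e2, ha, hb⟩

theorem gc_three {a b : U} (hab : a ≠ b) (hbr : b ∉ sd G a b) (h2 : ∀ v, Two G v)
    (h3 : Three G) : Three (Gc G hab) := by
  obtain ⟨v, x, y, z, hxy, hxz, hyz, hx, hy, hz⟩ := h3
  by_cases hva : v = a
  · subst hva
    obtain ⟨c, c', hcc, hcb, hcb', hc, hc'⟩ := two_others (w := b) hxy hxz hyz hx hy hz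
    obtain ⟨d, hd, hda⟩ := other (w := v) (h2 b)
    refine ⟨⟨v, hab⟩, ⟨c, hcb⟩, ⟨c', hcb'⟩, ⟨d, hd.ne'⟩, fun h => hcc (congrArg Subtype.val h),
      fun h => ?_, fun h => ?_, gc_adj_a hab hc hcb, gc_adj_a hab hc' hcb',
      gc_adj_b hab hd hda⟩
    · have h : c = d := congrArg Subtype.val h
      subst h
      exact no_common hbr hc hd
    · have h : c' = d := congrArg Subtype.val h
      subst h
      exact no_common hbr hc' hd
  · by_cases hvb : v = b
    · subst hvb
      obtain ⟨d, d', hdd, hda, hda', hd, hd'⟩ := two_others (w := a) hxy hxz hyz hx hy hz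
      obtain ⟨c, hc, hcb⟩ := other (w := v) (h2 a)
      refine ⟨⟨a, hab⟩, ⟨d, hd.ne'⟩, ⟨d', hd'.ne'⟩, ⟨c, hcb⟩,
        fun h => hdd (congrArg Subtype.val h), fun h => ?_, fun h => ?_, gc_adj_b hab hd hda,
        gc_adj_b hab hd' hda', gc_adj_a hab hc hcb⟩
      · have h : d = c := congrArg Subtype.val h
        subst h
        exact no_common hbr hc hd
      · have h : d' = c := congrArg Subtype.val h
        subst h
        exact no_common hbr hc hd'
    · exact ⟨⟨v, hvb⟩, fab hab x, fab hab y, fab hab z, fab_inj_nb hab hbr hx hy hxy,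
        fab_inj_nb hab hbr hx hz hxz, fab_inj_nb hab hbr hy hz hyz, gc_adj_of hab hva hvb hx,
        gc_adj_of hab hva hvb hy, gc_adj_of hab hva hvb hz⟩

/-- **Graphs without vertices of degree one.** -/
theorem leafless_rigid {W : Type} [Fintype W] {H : SimpleGraph W} (hH : GenRigid 2 H) :
    ∀ (n : ℕ) (U : Type) [Fintype U] (G : SimpleGraph U), Fintype.card U = n → G.Connected →
      (∀ v, Two G v) → Three G → 3 * Fintype.card U ≤ Fintype.card W + 6 →
      Mu 0 6 (G □ H) := by
  intro n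
  induction n with
  | zero =>
    intro U _ G hU hG _ _ _
    have := hG.nonempty
    exact absurd hU Fintype.card_ne_zero
  | succ n ih =>
    intro U _ G hU hG h2 h3 hW
    classical
    by_cases hb : ∀ u v, G.Adj u v → (G.deleteEdges {s(u, v)}).Reachable u v
    · exact bridgeless_rigid hG hb h3 hH hW
    · push Not at hb
      obtain ⟨a, b, hadj, hnr⟩ := hb
      have hbr : b ∉ sd G a b := hnr
      have hbr' : a ∉ sd G b a := by
        intro h
        have h : (G0 G b a).Reachable b a := h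
        rw [G0_comm] at h
        exact hbr h.symm
      have hab : a ≠ b := hadj.ne
      have hcard : 4 ≤ Fintype.card U := by
        obtain ⟨v, x, y, z, hxy, hxz, hyz, hx, hy, hz⟩ := h3
        have h1 : ({v, x, y, z} : Finset U).card = 4 := by
          rw [Finset.card_insert_of_notMem, Finset.card_insert_of_notMem,
            Finset.card_insert_of_notMem, Finset.card_singleton]
          · simpa using hyz
          · simp [hxy, hxz]
          · simp [hx.ne, hy.ne, hz.ne]
        rw [← h1]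
        exact Finset.card_le_univ _
      have hc1 : Fintype.card {u : U // u ≠ b} + 1 = Fintype.card U := by
        rw [Fintype.card_subtype_compl, Fintype.card_subtype_eq]
        omega
      have hih := ih {u : U // u ≠ b} (Gc G hab) (by omega) (gc_conn hG hab)
        (gc_two hab hbr h2) (gc_three hab hbr h2 h3) (by omega)
      have s1 := unicyclic_bound (side_conn hbr) (side_cycle hbr h2) hH (by omega)
      have s2 : Mu 0 (3 * Fintype.card ((sd G a b)ᶜ : Set U)) ((G.induce (sd G a b)ᶜ) □ H) := by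
        have hset := compl_sd hG hbr
        have s3 := unicyclic_bound (side_conn hbr') (side_cycle hbr' h2) hH (by omega)
        have e : Fintype.card ((sd G a b)ᶜ : Set U) = Fintype.card (sd G b a) := by
          simp only [hset]
        rw [e]
        rw [hset]
        exact s3
      refine bridge_step hab hadj hbr hH (by omega) ?_ s1 s2 hih
      have : Fintype.card (sd G a b) + Fintype.card ((sd G a b)ᶜ : Set U) = Fintype.card U := by
        rw [Fintype.card_compl_set]
        have := Fintype.card_subtype_le (· ∈ sd G a b)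
        have h5 : Fintype.card (sd G a b) ≤ Fintype.card U := set_fintype_card_le_univ _
        omega
      omega

end Pool.Agent.J4H92.NC
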