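import Pool.Agent.J4H92.NC.Ear2
import Pool.Agent.J4H92.NC.Leafless

/-!
# A small set of vertices without leaves added to a rigid part
-/

set_option autoImplicit false

namespace Pool.Agent.J4H92.NC

open SimpleGraph hiding between

open Module Pool.Agent.H283R2.DR Pool.Agent.H789R5 Pool.Agent.J4H92.CP

variable {U : Type} {G : SimpleGraph U}

/-- the side is not a tree -/
theorem side_cycle' [Fintype U] {a b : U} (hbr : b ∉ sd G a b) (h2 : ∀ v ∈ sd G a b, Two G v) :
    ¬ (G.induce (sd G a b)).IsAcyclic := by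
  classical
  intro ha
  set S := sd G a b with hS
  set Γ := G.induce S with hΓ
  have htree : Γ.IsTree := ⟨side_conn hbr, ha⟩
  have hcard := htree.card_edgeFinset
  have hsum := Γ.sum_degrees_eq_twice_card_edges
  -- neighbours stay in the side
  have hstay : ∀ u v, u ∈ S → G.Adj u v → u ≠ a ∨ v ≠ b → v ∈ S := by
    intro u v hu huv hne
    refine (side_iff (G0_adj.2 ⟨huv, fun h => ?_⟩)).1 hu
    rcases Sym2.eq_iff.1 h with ⟨rfl, rfl⟩ | ⟨rfl, rfl⟩
    · rcases hne with h | h <;> exact h rfl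
    · exact hbr hu
  have hdeg : ∀ v : S, v ≠ ⟨a, a_mem⟩ → 2 ≤ Γ.degree v := by
    intro v hv
    have hva : v.1 ≠ a := fun h => hv (Subtype.ext h)
    obtain ⟨x, y, hxy, hx, hy⟩ := h2 v.1 v.2
    have hx' := hstay v.1 x v.2 hx (Or.inl hva)
    have hy' := hstay v.1 y v.2 hy (Or.inl hva)
    rw [← card_neighborFinset_eq_degree]
    refine Finset.one_lt_card.2 ⟨⟨x, hx'⟩, ?_, ⟨y, hy'⟩, ?_, fun h => hxy (congrArg Subtype.val h)⟩
    · rw [mem_neighborFinset]
      exact hx
    · rw [mem_neighborFinset]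
      exact hy
  have hdega : 1 ≤ Γ.degree ⟨a, a_mem⟩ := by
    obtain ⟨x, y, hxy, hx, hy⟩ := h2 a a_mem
    obtain ⟨c, hc, hcb⟩ : ∃ c, G.Adj a c ∧ c ≠ b := by
      by_cases h : x = b
      · exact ⟨y, hy, fun h' => hxy (h.trans h'.symm)⟩
      · exact ⟨x, hx, h⟩
    have hc' := hstay a c a_mem hc (Or.inr hcb)
    rw [← card_neighborFinset_eq_degree]
    refine Finset.card_pos.2 ⟨⟨c, hc'⟩, ?_⟩
    rw [mem_neighborFinset]
    exact hc
  have hlow : 2 * (Fintype.card S - 1) + 1 ≤ ∑ v, Γ.degree v := by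
    rw [← Finset.add_sum_erase Finset.univ _ (Finset.mem_univ (⟨a, a_mem⟩ : S))]
    have h3 : ∑ v ∈ Finset.univ.erase (⟨a, a_mem⟩ : S), 2 ≤
        ∑ v ∈ Finset.univ.erase (⟨a, a_mem⟩ : S), Γ.degree v :=
      Finset.sum_le_sum fun v hv => hdeg v (Finset.ne_of_mem_erase hv)
    have hcu : (Finset.univ.erase (⟨a, a_mem⟩ : S)).card = Fintype.card S - 1 := by
      rw [Finset.card_erase_of_mem (Finset.mem_univ _)]
      rfl
    rw [Finset.sum_const, hcu, smul_eq_mul] at h3
    omega
  have hpos : 0 < Fintype.card S := Fintype.card_pos_iff.2 ⟨⟨a, a_mem⟩⟩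
  omega

/-- connectivity after adding an ear -/
theorem conn_ear {B : Set U} (hB : (G.induce B).Connected) {n : ℕ} {u : Fin (n + 1) → U}
    (hadj : ∀ (j : ℕ) (hj : j + 1 < n + 1), G.Adj (u ⟨j, by omega⟩) (u ⟨j + 1, hj⟩))
    {b1 : U} (h1 : b1 ∈ B) (ha1 : G.Adj (u 0) b1) :
    (G.induce (B ∪ Set.range u)).Connected := by
  have hsub : B ⊆ B ∪ Set.range u := Set.subset_union_left
  have hum : ∀ i, u i ∈ B ∪ Set.range u := fun i => Or.inr ⟨i, rfl⟩
  have key : ∀ w : (B ∪ Set.range u : Set U), (G.induce (B ∪ Set.range u)).Reachable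
      ⟨b1, hsub h1⟩ w := by
    rintro ⟨w, hw⟩
    rcases hw with hw | ⟨i, rfl⟩
    · obtain ⟨p⟩ := hB.preconnected ⟨b1, h1⟩ ⟨w, hw⟩
      exact ⟨p.map (induceHomOfLE G hsub).toHom⟩
    · obtain ⟨i, hi⟩ := i
      induction i with
      | zero =>
        refine Adj.reachable ?_
        exact ha1.symm
      | succ i ih =>
        refine (ih (by omega)).trans (Adj.reachable ?_)
        exact hadj i hi
  have hne : Nonempty (B ∪ Set.range u : Set U) := ⟨⟨b1, hsub h1⟩⟩
  exact ⟨fun v w => (key v).symm.trans (key w)⟩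

/-- a body contained in another type -/
theorem body_map {U' W : Type} [Finite U] [Finite U'] [Finite W] {H : SimpleGraph W}
    {G' : SimpleGraph U'} {B : Set U} {B' : Set U'} {k : ℕ} (f : B ≃ B')
    (hf : ∀ v w, (G.induce B).Adj v w → (G'.induce B').Adj (f v) (f w))
    (h : Mu 0 k ((G.induce B) □ H)) : Mu 0 k ((G'.induce B') □ H) := by
  refine h.pull (Equiv.prodCongr f.symm (Equiv.refl W)) ?_
  rintro ⟨a, x⟩ ⟨b, y⟩ hab
  rcases hab with ⟨h1, h2⟩ | ⟨h1, h2⟩
  · exact Or.inl ⟨hf a b h1, h2⟩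
  · have h2 : a = b := h2
    subst h2
    exact Or.inr ⟨h1, rfl⟩

/-- connectivity of a body contained in another type -/
theorem body_conn {U' : Type} {G' : SimpleGraph U'} {B : Set U} {B' : Set U'} (f : B ≃ B')
    (hf : ∀ v w, (G.induce B).Adj v w → (G'.induce B').Adj (f v) (f w))
    (h : (G.induce B).Connected) : (G'.induce B').Connected := by
  have := h.nonempty
  have hne : Nonempty B' := ⟨f this.some⟩
  refine ⟨fun v w => ?_⟩
  obtain ⟨p⟩ := h.preconnected (f.symm v) (f.symm w)
  have h1 : (G'.induce B').Reachable (f (f.symm v)) (f (f.symm w)) :=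
    ⟨p.map ⟨f, fun {a b} hab => hf a b hab⟩⟩
  rwa [f.apply_symm_apply, f.apply_symm_apply] at h1

/-- **A small leafless set of vertices added to a rigid part.** -/
theorem body_ext {W : Type} [Fintype W] {H : SimpleGraph W} (hH : GenRigid 2 H)
    (hW : 3 ≤ Fintype.card W) : ∀ (n : ℕ) (U : Type) [Fintype U] (G : SimpleGraph U) (B : Set U),
      Bᶜ.ncard = n → G.Connected → (G.induce B).Connected → (∀ v, v ∉ B → Two G v) →
      3 * n ≤ Fintype.card W → Mu 0 6 ((G.induce B) □ H) → Mu 0 6 (G □ H) := by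
  classical
  intro n
  induction n using Nat.strong_induction_on with
  | _ n ih =>
  intro U _ G B hn hG hBc h2 hWn hB
  by_cases hBu : B = Set.univ
  · subst hBu
    refine hB.pull (Equiv.prodCongr (Equiv.Set.univ U).symm (Equiv.refl W)) ?_
    rintro ⟨a, x⟩ ⟨b, y⟩ hab
    rcases hab with ⟨h1, h3⟩ | ⟨h1, h3⟩
    · exact Or.inl ⟨h1, h3⟩
    · have h3 : a = b := h3
      subst h3
      exact Or.inr ⟨h1, rfl⟩
  -- an edge from the body to the rest
  obtain ⟨b, hb, x, hx, hbx⟩ : ∃ b ∈ B, ∃ x, x ∉ B ∧ G.Adj b x := by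
    obtain ⟨b0, hb0⟩ := hBc.nonempty
    obtain ⟨z, hz⟩ := (Set.ne_univ_iff_exists_notMem B).1 hBu
    obtain ⟨p⟩ := hG.preconnected b0 z
    by_contra hno
    push Not at hno
    have key : ∀ u v, ∀ p : G.Walk u v, u ∈ B → v ∈ B := by
      intro u v p
      induction p with
      | nil => exact id
      | cons h p ihp =>
        rename_i u v w
        intro hu
        refine ihp ?_
        by_contra hv
        exact hno _ hu _ hv h
    exact hz (key _ _ p hb0)
  by_cases hbr : x ∈ sd G b x
  · -- an ear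
    have hreach : (G0 G b x).Reachable x b := Reachable.symm hbr
    obtain ⟨p, hp⟩ := hreach.exists_isPath
    have hex : ∃ k, p.getVert k ∈ B := ⟨p.length, by rw [p.getVert_length]; exact hb⟩
    obtain ⟨k, hk, hmin⟩ : ∃ k, p.getVert k ∈ B ∧ ∀ j < k, p.getVert j ∉ B :=
      ⟨Nat.find hex, Nat.find_spec hex, fun j hj => Nat.find_min hex hj⟩
    have hk0 : k ≠ 0 := by
      rintro rfl
      rw [p.getVert_zero] at hk
      exact hx hk
    have hkl : k ≤ p.length := by
      by_contra hcon
      exact hmin p.length (by omega) (by rw [p.getVert_length]; exact hb)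
    obtain ⟨m, rfl⟩ : ∃ m, k = m + 1 := ⟨k - 1, by omega⟩
    have hlast := p.adj_getVert_succ (i := m) (by omega)
    rcases Nat.eq_zero_or_pos m with hm | hm
    · subst hm
      rw [p.getVert_zero, zero_add] at hlast
      rw [zero_add] at hk
      have h3 := G0_adj.1 hlast
      have hne : b ≠ p.getVert 1 := by
        intro h
        apply h3.2
        rw [← h, Sym2.eq_swap]
      have hB' := point_step hH hW hB hx hb hk hne hbx.symm h3.1
      have hconn : (G.induce (B ∪ {x})).Connected := by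
        have h4 := conn_ear (n := 0) (u := fun _ => x) hBc (fun j hj => by omega) hb hbx.symm
        rwa [Set.range_const] at h4
      have hcard : ((B ∪ {x})ᶜ).ncard < n := by
        rw [← hn]
        refine Set.ncard_lt_ncard ?_ (Set.toFinite _)
        refine ⟨fun v hv hvB => hv (Or.inl hvB), fun h => ?_⟩
        exact h hx (Or.inr rfl)
      refine ih _ hcard U G (B ∪ {x}) rfl hG hconn (fun v hv => h2 v fun hvB => hv (Or.inl hvB))
        (by omega) hB'
    · set u : Fin (m + 1) → U := fun i => p.getVert i with hu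
      have huinj : Function.Injective u := by
        intro i j hij
        have h4 := hp.getVert_injOn (by rw [Set.mem_ofPred_eq]; omega)
          (by rw [Set.mem_ofPred_eq]; omega) hij
        exact Fin.ext h4
      have huB : ∀ i, u i ∉ B := fun i => hmin i i.2
      have hadj : ∀ (j : ℕ) (hj : j + 1 < m + 1), G.Adj (u ⟨j, by omega⟩) (u ⟨j + 1, hj⟩) := by
        intro j hj
        exact (G0_adj.1 (p.adj_getVert_succ (i := j) (by omega))).1
      have hu0 : u 0 = x := p.getVert_zero
      have ha1 : G.Adj (u 0) b := by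
        rw [hu0]
        exact hbx.symm
      have ha2 : G.Adj (u (Fin.last m)) (p.getVert (m + 1)) := (G0_adj.1 hlast).1
      have hmn : m + 1 ≤ n := by
        have h4 : Set.range u ⊆ Bᶜ := by
          rintro _ ⟨i, rfl⟩
          exact huB i
        have h5 := Set.ncard_le_ncard h4 (Set.toFinite _)
        rw [hn, ← Set.image_univ, Set.ncard_image_of_injective _ huinj, Set.ncard_univ,
          Nat.card_eq_fintype_card, Fintype.card_fin] at h5
        exact h5
      have hB' := ear_step hH hm (by omega) hB huinj huB hadj hb hk ha1 ha2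
      have hconn := conn_ear hBc hadj hb ha1
      have hcard : ((B ∪ Set.range u)ᶜ).ncard < n := by
        rw [← hn]
        refine Set.ncard_lt_ncard ?_ (Set.toFinite _)
        refine ⟨fun v hv hvB => hv (Or.inl hvB), fun h => ?_⟩
        exact h hx (Or.inr ⟨0, hu0⟩)
      exact ih _ hcard U G (B ∪ Set.range u) rfl hG hconn
        (fun v hv => h2 v fun hvB => hv (Or.inl hvB)) (by omega) hB'
  · -- a bridge
    have hbx' : b ≠ x := hbx.ne
    have hBA : ∀ v ∈ B, v ∈ sd G b x := by
      intro v hv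
      obtain ⟨p⟩ := hBc.preconnected ⟨b, hb⟩ ⟨v, hv⟩
      refine ⟨p.map (⟨Subtype.val, fun {c d} hcd => ?_⟩ : G.induce B →g G0 G b x)⟩
      refine G0_adj.2 ⟨hcd, fun h => ?_⟩
      rcases Sym2.eq_iff.1 h with ⟨-, h⟩ | ⟨h, -⟩
      · exact hx (h ▸ d.2)
      · exact hx (h ▸ c.2)
    have hnpos : 0 < n := by
      rw [← hn]
      exact (Set.ncard_pos (Set.toFinite _)).2 ⟨x, hx⟩
    have hxc : (Bᶜ \ {x}).ncard = n - 1 := by
      rw [Set.ncard_sdiff_singleton_of_mem (show x ∈ Bᶜ from hx), hn]
    -- the side of the body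
    have k1 : Mu 0 6 ((G.induce (sd G b x)) □ H) := by
      let B1 : Set (sd G b x) := {v | v.1 ∈ B}
      let f : B ≃ B1 :=
        { toFun := fun v => ⟨⟨v.1, hBA _ v.2⟩, v.2⟩
          invFun := fun v => ⟨v.1.1, v.2⟩
          left_inv := fun _ => rfl
          right_inv := fun _ => rfl }
      have hf : ∀ v w, (G.induce B).Adj v w → ((G.induce (sd G b x)).induce B1).Adj (f v) (f w) :=
        fun v w h => h
      have hc1 : B1ᶜ.ncard ≤ n - 1 := by
        rw [← hxc, ← Set.ncard_image_of_injective B1ᶜ Subtype.val_injective]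
        refine Set.ncard_le_ncard ?_ (Set.toFinite _)
        rintro _ ⟨v, hv, rfl⟩
        refine ⟨hv, fun h => ?_⟩
        have h : v.1 = x := h
        have h4 : v.1 ∈ sd G b x := v.2
        rw [h] at h4
        exact hbr h4
      refine ih _ (by omega) (sd G b x) (G.induce (sd G b x)) B1 rfl (side_conn hbr)
        (body_conn f hf hBc) (fun v hv => ?_) (by omega) (body_map f hf hB)
      obtain ⟨y, z, hyz, hy, hz⟩ := h2 v.1 hv
      have hst : ∀ w, G.Adj v.1 w → w ∈ sd G b x := by
        intro w hw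
        refine (side_iff (G0_adj.2 ⟨hw, fun h => ?_⟩)).1 v.2
        rcases Sym2.eq_iff.1 h with ⟨h, -⟩ | ⟨h, -⟩
        · apply hv
          show v.1 ∈ B
          rw [h]
          exact hb
        · have h4 : v.1 ∈ sd G b x := v.2
          rw [h] at h4
          exact hbr h4
      exact ⟨⟨y, hst y hy⟩, ⟨z, hst z hz⟩, fun h => hyz (congrArg Subtype.val h), hy, hz⟩
    -- the other side
    have hbr' : b ∉ sd G x b := by
      intro h
      apply hbr
      have h : (G0 G x b).Reachable x b := h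
      rw [G0_comm] at h
      exact h.symm
    have hcs := compl_sd hG hbr
    have hnotB : ∀ v ∈ sd G x b, v ∉ B := by
      intro v hv hvB
      have h4 := hBA v hvB
      rw [← hcs] at hv
      exact hv h4
    have hc2 : Fintype.card ((sd G b x)ᶜ : Set U) ≤ n := by
      rw [← Nat.card_eq_fintype_card, Nat.card_coe_set_eq, ← hn]
      refine Set.ncard_le_ncard ?_ (Set.toFinite _)
      intro v hv hvB
      exact hv (hBA v hvB)
    have k2 : Mu 0 (3 * Fintype.card ((sd G b x)ᶜ : Set U)) ((G.induce (sd G b x)ᶜ) □ H) := by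
      have s3 := unicyclic_bound (side_conn hbr')
        (side_cycle' hbr' fun v hv => h2 v (hnotB v hv)) hH hW
      have e : Fintype.card ((sd G b x)ᶜ : Set U) = Fintype.card (sd G x b) := by
        simp only [hcs]
      rw [e]
      rw [hcs]
      exact s3
    -- the contracted graph
    have hc : Mu 0 6 ((Gc G hbx') □ H) := by
      let B2 : Set {u : U // u ≠ x} := {v | v.1 ∈ B}
      have hne : ∀ v ∈ B, v ≠ x := fun v hv h => hx (h ▸ hv)
      let f : B ≃ B2 :=
        { toFun := fun v => ⟨⟨v.1, hne _ v.2⟩, v.2⟩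
          invFun := fun v => ⟨v.1.1, v.2⟩
          left_inv := fun _ => rfl
          right_inv := fun _ => rfl }
      have hf : ∀ v w, (G.induce B).Adj v w → ((Gc G hbx').induce B2).Adj (f v) (f w) := by
        intro v w h
        refine ⟨fun he => h.ne (Subtype.ext (show v.1 = w.1 from
          congrArg (fun t : {u : U // u ≠ x} => t.1) he)), v.1, w.1,
          fab_ne hbx' (hne _ v.2), fab_ne hbx' (hne _ w.2), h⟩
      have hc1 : B2ᶜ.ncard ≤ n - 1 := by
        rw [← hxc, ← Set.ncard_image_of_injective B2ᶜ Subtype.val_injective]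
        refine Set.ncard_le_ncard ?_ (Set.toFinite _)
        rintro _ ⟨v, hv, rfl⟩
        exact ⟨hv, fun h => v.2 h⟩
      refine ih _ (by omega) {u : U // u ≠ x} (Gc G hbx') B2 rfl (gc_conn hG hbx')
        (body_conn f hf hBc) (fun v hv => ?_) (by omega) (body_map f hf hB)
      obtain ⟨v, hvx⟩ := v
      have hv : v ∉ B := hv
      have hvb : v ≠ b := fun h => hv (h ▸ hb)
      obtain ⟨y, z, hyz, hy, hz⟩ := h2 v hv
      exact ⟨fab hbx' y, fab hbx' z, fab_inj_nb hbx' hbr hy hz hyz, gc_adj_of hbx' hvb hvx hy,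
        gc_adj_of hbx' hvb hvx hz⟩
    exact bridge_step hbx' hbx hbr hH hW (by omega) k1 k2 hc

end Pool.Agent.J4H92.NC
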