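import Pool.Agent.J4H92.NC.PinC

/-!
# Contraction of a bridge
-/

set_option autoImplicit false

namespace Pool.Agent.J4H92.NC

open Module SimpleGraph Pool.Agent.H283R2.DR Pool.Agent.H283R2.DR.TA Pool.Agent.J4H92.CP
  Pool.Agent.H789R5

variable {U W : Type} {G : SimpleGraph U} {H : SimpleGraph W}

/-- the graph without the edge -/
def G0 (G : SimpleGraph U) (a b : U) : SimpleGraph U := G.deleteEdges {s(a, b)}

theorem G0_adj {a b u v : U} : (G0 G a b).Adj u v ↔ G.Adj u v ∧ s(u, v) ≠ s(a, b) := by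
  rw [G0, deleteEdges_adj, Set.mem_singleton_iff]

/-- the side of `a` -/
def sd (G : SimpleGraph U) (a b : U) : Set U := {u | (G0 G a b).Reachable a u}

open Classical in
/-- identification of `b` with `a` -/
noncomputable def fab {a b : U} (hab : a ≠ b) (u : U) : {u : U // u ≠ b} :=
  if h : u = b then ⟨a, hab⟩ else ⟨u, h⟩

theorem fab_b {a b : U} (hab : a ≠ b) : fab hab b = ⟨a, hab⟩ := by simp [fab]

theorem fab_ne {a b : U} (hab : a ≠ b) {u : U} (hu : u ≠ b) : fab hab u = ⟨u, hu⟩ := by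
  simp [fab, hu]

theorem fab_a {a b : U} (hab : a ≠ b) : fab hab a = ⟨a, hab⟩ := fab_ne hab hab

theorem fab_eq {a b : U} (hab : a ≠ b) {u v : U} (h : fab hab u = fab hab v) (huv : u ≠ v) :
    s(u, v) = s(a, b) := by
  by_cases hu : u = b
  · subst hu
    rw [fab_b, fab_ne hab huv.symm] at h
    have : a = v := congrArg Subtype.val h
    rw [this, Sym2.eq_swap]
  · by_cases hv : v = b
    · subst hv
      rw [fab_b, fab_ne hab hu] at h
      have : u = a := congrArg Subtype.val h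
      rw [this]
    · rw [fab_ne hab hu, fab_ne hab hv] at h
      exact absurd (congrArg Subtype.val h) huv

/-- the contracted graph -/
def Gc (G : SimpleGraph U) {a b : U} (hab : a ≠ b) : SimpleGraph {u : U // u ≠ b} where
  Adj x y := x ≠ y ∧ ∃ u v, fab hab u = x ∧ fab hab v = y ∧ G.Adj u v
  symm := ⟨fun _ _ ⟨h, u, v, hu, hv, huv⟩ => ⟨h.symm, v, u, hv, hu, huv.symm⟩⟩
  loopless := ⟨fun _ h => h.1 rfl⟩

theorem side_iff {a b u v : U} (h : (G0 G a b).Adj u v) : u ∈ sd G a b ↔ v ∈ sd G a b :=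
  ⟨fun hu => hu.trans h.reachable, fun hv => hv.trans h.symm.reachable⟩

/-- the linear map to the directions of a pulled back placement -/
noncomputable def Lp {V V' : Type} (c : V → V') : (V' → Fin 3 → ℝ) →ₗ[ℝ]
    ((V → V → Fin 3 → ℝ) × (V → Fin 0 → Fin 3 → ℝ)) where
  toFun q := (df fun v => q (c v), 0)
  map_add' e e' := by
    refine Prod.ext ?_ ?_
    · funext u v
      simp only [df, Prod.fst_add, Pi.add_apply]
      abel
    · simp
  map_smul' c e := by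
    refine Prod.ext ?_ ?_
    · funext u v
      simp only [df, Prod.smul_fst, Pi.smul_apply, RingHom.id_apply, smul_sub]
    · simp

/-- at most `k` degrees of freedom for a pulled back placement -/
def Bd {V V' : Type} (Γ : SimpleGraph V) (c : V → V') (k : ℕ) (q : V' → Fin 3 → ℝ) : Prop :=
  finrank ℝ (Sol Γ (df fun v => q (c v)) (0 : V → Fin 0 → Fin 3 → ℝ)) ≤ k

theorem good_Bd {V V' : Type} [Finite V] (Γ : SimpleGraph V) (c : V → V') (k : ℕ) :
    Good (Bd Γ c k) := good_sol Γ (Lp c) k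

theorem exists_Bd {V V' : Type} {Γ : SimpleGraph V} {c : V → V'} (hc : Function.Injective c)
    {k : ℕ} (h : Mu 0 k Γ) : ∃ q, Bd Γ c k q := by
  obtain ⟨p, d, h⟩ := h
  have hd : d = 0 := Subsingleton.elim _ _
  refine ⟨Function.extend c p 0, ?_⟩
  have : (fun v => Function.extend c p 0 (c v)) = p := by
    funext v
    rw [hc.extend_apply]
  unfold Bd
  rw [this, ← hd]
  exact h

theorem six_le_sol {V : Type} [Fintype V] (Γ : SimpleGraph V) (h3 : 3 ≤ Fintype.card V)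
    (q : V → Fin 3 → ℝ) : 6 ≤ finrank ℝ (Sol Γ (df q) (0 : V → Fin 0 → Fin 3 → ℝ)) := by
  obtain ⟨p, hp⟩ := exists_mg V 3
  have h1 := Pool.Agent.TH349.Rig.six_le hp h3 Γ
  have h2 := hp.min Γ q
  have h3 : Mot Γ q ≤ Sol Γ (df q) (0 : V → Fin 0 → Fin 3 → ℝ) := by
    intro m hm
    rw [mem_mot] at hm
    exact ⟨hm, fun v i => i.elim0⟩
  have h4 := Submodule.finrank_mono h3
  have h5 : finrank ℝ (Mot Γ q) = mo Γ q := rfl
  omega

theorem a_mem {a b : U} : a ∈ sd G a b := Reachable.refl a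

/-- edges inside a side -/
theorem G0_of {a b u v : U} (hbr : b ∉ sd G a b) (huv : G.Adj u v)
    (h : u ∈ sd G a b ↔ v ∈ sd G a b) : (G0 G a b).Adj u v := by
  rw [G0_adj]
  refine ⟨huv, fun he => ?_⟩
  rcases Sym2.eq_iff.1 he with ⟨rfl, rfl⟩ | ⟨rfl, rfl⟩
  · exact hbr (h.1 a_mem)
  · exact hbr (h.2 a_mem)

/-- the two sides -/
theorem sides_le [Fintype U] [Fintype W] {a b : U} (hbr : b ∉ sd G a b) {V' : Type}
    (c : U × W → V') (q : V' → Fin 3 → ℝ) {k1 k2 : ℕ}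
    (h1 : Bd ((G.induce (sd G a b)) □ H) (fun v => c (v.1.1, v.2)) k1 q)
    (h2 : Bd ((G.induce (sd G a b)ᶜ) □ H) (fun v => c (v.1.1, v.2)) k2 q) :
    Bd ((G0 G a b) □ H) c (k1 + k2) q := by
  classical
  unfold Bd at *
  set S1 := Sol ((G.induce (sd G a b)) □ H) (df fun v => q (c (v.1.1, v.2)))
    (0 : (sd G a b) × W → Fin 0 → Fin 3 → ℝ) with hS1
  set S2 := Sol ((G.induce (sd G a b)ᶜ) □ H) (df fun v => q (c (v.1.1, v.2)))
    (0 : ((sd G a b)ᶜ : Set U) × W → Fin 0 → Fin 3 → ℝ) with hS2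
  set N := Sol ((G0 G a b) □ H) (df fun v => q (c v)) (0 : U × W → Fin 0 → Fin 3 → ℝ) with hN
  have hm1 : ∀ M ∈ N, (fun v : (sd G a b) × W => M (v.1.1, v.2)) ∈ S1 := by
    rintro M ⟨hM, -⟩
    refine ⟨fun u v huv => ?_, fun v i => i.elim0⟩
    refine hM (u.1.1, u.2) (v.1.1, v.2) ?_
    rcases huv with ⟨h, h'⟩ | ⟨h, h'⟩
    · exact Or.inl ⟨G0_of hbr h ⟨fun _ => v.1.2, fun _ => u.1.2⟩, h'⟩
    · exact Or.inr ⟨h, congrArg Subtype.val h'⟩
  have hm2 : ∀ M ∈ N, (fun v : ((sd G a b)ᶜ : Set U) × W => M (v.1.1, v.2)) ∈ S2 := by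
    rintro M ⟨hM, -⟩
    refine ⟨fun u v huv => ?_, fun v i => i.elim0⟩
    refine hM (u.1.1, u.2) (v.1.1, v.2) ?_
    rcases huv with ⟨h, h'⟩ | ⟨h, h'⟩
    · exact Or.inl ⟨G0_of hbr h ⟨fun h => absurd h u.1.2, fun h => absurd h v.1.2⟩, h'⟩
    · exact Or.inr ⟨h, congrArg Subtype.val h'⟩
  let R1 : (U × W → Fin 3 → ℝ) →ₗ[ℝ] ((sd G a b) × W → Fin 3 → ℝ) :=
    LinearMap.funLeft ℝ (Fin 3 → ℝ) (fun v => (v.1.1, v.2))
  let R2 : (U × W → Fin 3 → ℝ) →ₗ[ℝ] (((sd G a b)ᶜ : Set U) × W → Fin 3 → ℝ) :=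
    LinearMap.funLeft ℝ (Fin 3 → ℝ) (fun v => (v.1.1, v.2))
  let F : N →ₗ[ℝ] (S1 × S2) :=
    LinearMap.prod ((R1.domRestrict N).codRestrict S1 (fun M => hm1 M M.2))
      ((R2.domRestrict N).codRestrict S2 (fun M => hm2 M M.2))
  have hinj : Function.Injective F := by
    rw [injective_iff_map_eq_zero]
    rintro ⟨M, hM⟩ h
    rw [Prod.ext_iff] at h
    have e1 : R1 M = 0 := congrArg Subtype.val h.1
    have e2 : R2 M = 0 := congrArg Subtype.val h.2
    rw [Subtype.ext_iff]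
    show M = 0
    funext v
    obtain ⟨u, w⟩ := v
    by_cases hu : u ∈ sd G a b
    · exact congrFun e1 (⟨u, hu⟩, w)
    · exact congrFun e2 (⟨u, hu⟩, w)
  have h3 := LinearMap.finrank_le_finrank_of_injective hinj
  rw [Module.finrank_prod] at h3
  omega

/-- parameters of the bridge lemma -/
abbrev EB (U' W : Type) : Type := (U' × W → Fin 3 → ℝ) × (W → Fin 3 → ℝ) ×
  (W → Fin 3 → Fin 3 → ℝ)

/-- the parameters of the layer -/
noncomputable def Ly {U' : Type} (x : U') : EB U' W →ₗ[ℝ] EC W where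
  toFun e := (fun w => e.1 (x, w), e.2.1, e.2.2)
  map_add' _ _ := rfl
  map_smul' _ _ := rfl

/-- **Contraction of a bridge.** -/
theorem bridge_step [Fintype U] [Fintype W] {a b : U} (hab : a ≠ b) (hadj : G.Adj a b)
    (hbr : b ∉ sd G a b) (hH : GenRigid 2 H) (hW3 : 3 ≤ Fintype.card W)
    {k1 k2 : ℕ} (hk : k1 + k2 ≤ Fintype.card W + 6)
    (h1 : Mu 0 k1 ((G.induce (sd G a b)) □ H)) (h2' : Mu 0 k2 ((G.induce (sd G a b)ᶜ) □ H))
    (hc : Mu 0 6 ((Gc G hab) □ H)) : Mu 0 6 (G □ H) := by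
  classical
  have h2 : 2 ≤ Fintype.card W := by omega
  have h3 : 3 ≤ Fintype.card ({u : U // u ≠ b} × W) := by
    rw [Fintype.card_prod]
    have : 0 < Fintype.card {u : U // u ≠ b} := Fintype.card_pos_iff.2 ⟨⟨a, hab⟩⟩
    nlinarith
  set f := fab hab with hf
  let c : U × W → {u : U // u ≠ b} × W := fun v => (f v.1, v.2)
  have hinj1 : Function.Injective (fun v : (sd G a b) × W => c (v.1.1, v.2)) := by
    rintro ⟨⟨u, hu⟩, w⟩ ⟨⟨v, hv⟩, w'⟩ h
    rw [Prod.ext_iff] at h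
    obtain ⟨e1, e2⟩ := h
    have e1 : f u = f v := e1
    have e2 : w = w' := e2
    subst e2
    by_cases huv : u = v
    · subst huv
      rfl
    · have e3 : s(u, v) = s(a, b) := fab_eq hab e1 huv
      rcases Sym2.eq_iff.1 e3 with ⟨-, h⟩ | ⟨h, -⟩
      · rw [h] at hv
        exact absurd hv hbr
      · rw [h] at hu
        exact absurd hu hbr
  have hinj2 : Function.Injective (fun v : ((sd G a b)ᶜ : Set U) × W => c (v.1.1, v.2)) := by
    rintro ⟨⟨u, hu⟩, w⟩ ⟨⟨v, hv⟩, w'⟩ h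
    rw [Prod.ext_iff] at h
    obtain ⟨e1, e2⟩ := h
    have e1 : f u = f v := e1
    have e2 : w = w' := e2
    subst e2
    by_cases huv : u = v
    · subst huv
      rfl
    · have e3 : s(u, v) = s(a, b) := fab_eq hab e1 huv
      rcases Sym2.eq_iff.1 e3 with ⟨h, -⟩ | ⟨-, h⟩
      · rw [h] at hu
        exact absurd a_mem hu
      · rw [h] at hv
        exact absurd a_mem hv
  -- a common choice of the parameters
  let Lq : EB {u : U // u ≠ b} W →ₗ[ℝ] ({u : U // u ≠ b} × W → Fin 3 → ℝ) :=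
    LinearMap.fst ℝ _ _
  have lift : ∀ {P : ({u : U // u ≠ b} × W → Fin 3 → ℝ) → Prop}, (∃ q, P q) →
      ∃ e : EB {u : U // u ≠ b} W, P (Lq e) := by
    rintro P ⟨q, hq⟩
    exact ⟨(q, 0, 0), hq⟩
  have g1 := good_comp (good_Bd ((G.induce (sd G a b)) □ H) (fun v => c (v.1.1, v.2)) k1) Lq
  have g2 := good_comp (good_Bd ((G.induce (sd G a b)ᶜ) □ H) (fun v => c (v.1.1, v.2)) k2) Lq
  have g3 := good_comp (good_Bd ((Gc G hab) □ H) id 6) Lq
  have g4 := good_comp (good_PN (H := H)) (Ly (W := W) (⟨a, hab⟩ : {u : U // u ≠ b}))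
  obtain ⟨e12, he12⟩ := good_two g1 g2 (lift (exists_Bd hinj1 h1)) (lift (exists_Bd hinj2 h2'))
  obtain ⟨e123, he123⟩ := good_two (good_and g1 g2) g3 ⟨e12, he12⟩
    (lift (exists_Bd Function.injective_id hc))
  obtain ⟨⟨q, n0, d⟩, ⟨⟨hb1, hb2⟩, hb3⟩, hb4⟩ := good_two (good_and (good_and g1 g2) g3) g4
    ⟨e123, he123⟩ (by
      obtain ⟨⟨p, n, d⟩, h⟩ := exists_PN hH h2
      refine ⟨(fun v => p v.2, n, d), h⟩)
  have hb1 : Bd ((G.induce (sd G a b)) □ H) (fun v => c (v.1.1, v.2)) k1 q := hb1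
  have hb2 : Bd ((G.induce (sd G a b)ᶜ) □ H) (fun v => c (v.1.1, v.2)) k2 q := hb2
  have hb3 : finrank ℝ (Sol ((Gc G hab) □ H) (df q) (0 : ({u : U // u ≠ b} × W) → Fin 0 → Fin 3 → ℝ)) ≤ 6 := hb3
  have hb4 : PN H (fun w => q (⟨a, hab⟩, w), n0, d) := hb4
  have hb := sides_le hbr c q hb1 hb2
  -- the motions without the bridge
  set N := Sol ((G0 G a b) □ H) (df fun v => q (c v)) (0 : U × W → Fin 0 → Fin 3 → ℝ) with hN
  have hNfin : finrank ℝ N ≤ k1 + k2 := hb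
  let D0 : (U × W → Fin 3 → ℝ) →ₗ[ℝ] (W → Fin 3 → ℝ) :=
    { toFun := fun M w => M (b, w) - M (a, w)
      map_add' := by
        intro M M'
        funext w
        simp only [Pi.add_apply]
        abel
      map_smul' := by
        intro s M
        funext w
        simp only [Pi.smul_apply, smul_sub, RingHom.id_apply] }
  let D : N →ₗ[ℝ] (W → Fin 3 → ℝ) := D0.comp N.subtype
  have hDker : 6 ≤ finrank ℝ (LinearMap.ker D) := by
    -- pull back the motions of the contracted product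
    have h6 := six_le_sol ((Gc G hab) □ H) h3 q
    let T : ({u : U // u ≠ b} × W → Fin 3 → ℝ) →ₗ[ℝ] (U × W → Fin 3 → ℝ) :=
      LinearMap.funLeft ℝ (Fin 3 → ℝ) c
    have hT : ∀ M ∈ Sol ((Gc G hab) □ H) (df q) (0 : ({u : U // u ≠ b} × W) → Fin 0 → Fin 3 → ℝ), T M ∈ N := by
      rintro M ⟨hM, -⟩
      refine ⟨fun u v huv => ?_, fun v i => i.elim0⟩
      refine hM (c u) (c v) ?_
      rcases huv with ⟨h, h'⟩ | ⟨h, h'⟩
      · refine Or.inl ⟨⟨fun he => ?_, u.1, v.1, rfl, rfl, (G0_adj.1 h).1⟩, h'⟩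
        exact (G0_adj.1 h).2 (fab_eq hab he h.ne)
      · exact Or.inr ⟨h, congrArg f h'⟩
    let T' : Sol ((Gc G hab) □ H) (df q) (0 : ({u : U // u ≠ b} × W) → Fin 0 → Fin 3 → ℝ) →ₗ[ℝ] N :=
      (T.domRestrict _).codRestrict N (fun M => hT M M.2)
    have hT'inj : Function.Injective T' := by
      rw [injective_iff_map_eq_zero]
      rintro ⟨M, hM⟩ h
      have h' : T M = 0 := congrArg Subtype.val h
      rw [Subtype.ext_iff]
      show M = 0
      funext v
      obtain ⟨⟨u, hu⟩, w⟩ := v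
      have h5 := congrFun h' (u, w)
      have h6 : M (f u, w) = 0 := h5
      rw [hf, fab_ne hab hu] at h6
      exact h6
    have hle : LinearMap.range T' ≤ LinearMap.ker D := by
      rintro _ ⟨M, rfl⟩
      rw [LinearMap.mem_ker]
      funext w
      show M.1 (f b, w) - M.1 (f a, w) = 0
      rw [hf, fab_b, fab_a, sub_self]
    have h7 := Submodule.finrank_mono hle
    rw [LinearMap.finrank_range_of_inj hT'inj] at h7
    omega
  obtain ⟨n, hn, hfin⟩ := sel D (by omega) (fun n => PN H (fun w => q (⟨a, hab⟩, w), n, d))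
    (good_PN_slice _ d) ⟨n0, hb4⟩ (by
      intro n hn M hM y y' hyy hy hy'
      refine (hn.1 ⟨(y, y'), hyy⟩).zero (fun x x' hx => ?_) hM hy hy'
      have e1 := M.2.1 (b, x) (b, x') (Or.inr ⟨hx, rfl⟩)
      have e2 := M.2.1 (a, x) (a, x') (Or.inr ⟨hx, rfl⟩)
      have e1 : (q (f b, x) - q (f b, x')) ⬝ᵥ (M.1 (b, x) - M.1 (b, x')) = 0 := e1
      have e2 : (q (f a, x) - q (f a, x')) ⬝ᵥ (M.1 (a, x) - M.1 (a, x')) = 0 := e2
      rw [hf, fab_b] at e1
      rw [hf, fab_a] at e2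
      show (q (⟨a, hab⟩, x) - q (⟨a, hab⟩, x')) ⬝ᵥ
        ((M.1 (b, x) - M.1 (a, x)) - (M.1 (b, x') - M.1 (a, x'))) = 0
      have : (M.1 (b, x) - M.1 (a, x)) - (M.1 (b, x') - M.1 (a, x')) =
        (M.1 (b, x) - M.1 (b, x')) - (M.1 (a, x) - M.1 (a, x')) := by abel
      rw [this, dotProduct_sub, e1, e2, sub_zero]) (by
      intro n hn y
      refine ⟨⟨fun v => if v.1 ∈ sd G a b then 0 else n y, ?_⟩, ?_⟩
      · refine ⟨fun u v huv => ?_, fun v i => i.elim0⟩
        have : u.1 ∈ sd G a b ↔ v.1 ∈ sd G a b := by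
          rcases huv with ⟨h, -⟩ | ⟨-, h⟩
          · exact side_iff h
          · rw [h]
        show _ ⬝ᵥ ((if u.1 ∈ sd G a b then 0 else n y) - (if v.1 ∈ sd G a b then 0 else n y)) = 0
        by_cases hu : u.1 ∈ sd G a b
        · rw [if_pos hu, if_pos (this.1 hu), sub_self, dotProduct_zero]
        · rw [if_neg hu, if_neg (fun h => hu (this.2 h)), sub_self, dotProduct_zero]
      · show n y ⬝ᵥ ((if b ∈ sd G a b then 0 else n y) - (if a ∈ sd G a b then 0 else n y)) ≠ 0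
        rw [if_neg hbr, if_pos a_mem, sub_zero, Ne, dotProduct_self_eq_zero]
        exact hn.2 y)
  -- the limit placement
  refine mu_of_lim c q (fun v => if v.1 = a then n v.2 else 0)
    (0 : U × W → Fin 0 → Fin 3 → ℝ) ?_
  set L := Sol (G □ H) (lim c q (fun v => if v.1 = a then n v.2 else 0))
    (0 : U × W → Fin 0 → Fin 3 → ℝ) with hL
  have hLN : ∀ M ∈ L, M ∈ N := by
    rintro M ⟨hM, -⟩
    refine ⟨fun u v huv => ?_, fun v i => i.elim0⟩
    have hne : c u ≠ c v := by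
      intro he
      rw [Prod.ext_iff] at he
      rcases huv with ⟨h, h'⟩ | ⟨h, h'⟩
      · exact (G0_adj.1 h).2 (fab_eq hab he.1 h.ne)
      · exact h.ne he.2
    have h5 := hM u v (by
      rcases huv with ⟨h, h'⟩ | ⟨h, h'⟩
      · exact Or.inl ⟨(G0_adj.1 h).1, h'⟩
      · exact Or.inr ⟨h, h'⟩)
    rw [lim_ne _ _ hne] at h5
    exact h5
  have hLD : ∀ M ∈ L, ∀ w, M (b, w) = M (a, w) := by
    intro M hM
    have h5 := hfin ⟨M, hLN M hM⟩ (by
      intro w
      have h6 := hM.1 (a, w) (b, w) (Or.inl ⟨hadj, rfl⟩)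
      have heq : c (a, w) = c (b, w) := by
        show (f a, w) = (f b, w)
        rw [hf, fab_a, fab_b]
      rw [lim_eq _ _ heq] at h6
      simp only [if_true, if_neg hab.symm, sub_zero] at h6
      show n w ⬝ᵥ (M (b, w) - M (a, w)) = 0
      rw [← neg_sub, dotProduct_neg, h6, neg_zero])
    intro w
    exact sub_eq_zero.1 (congrFun h5 w)
  -- restriction to the contracted product
  let R : (U × W → Fin 3 → ℝ) →ₗ[ℝ] ({u : U // u ≠ b} × W → Fin 3 → ℝ) :=
    LinearMap.funLeft ℝ (Fin 3 → ℝ) (fun v => (v.1.1, v.2))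
  have hval : ∀ M ∈ L, ∀ u w, M ((f u).1, w) = M (u, w) := by
    intro M hM u w
    by_cases hu : u = b
    · rw [hu, hf, fab_b]
      exact (hLD M hM w).symm
    · rw [hf, fab_ne hab hu]
  have hR : ∀ M ∈ L, R M ∈ Sol ((Gc G hab) □ H) (df q) (0 : ({u : U // u ≠ b} × W) → Fin 0 → Fin 3 → ℝ) := by
    intro M hM
    refine ⟨?_, fun v i => i.elim0⟩
    rintro ⟨x, w⟩ ⟨y, w'⟩ hxy
    show (q (x, w) - q (y, w')) ⬝ᵥ (M (x.1, w) - M (y.1, w')) = 0
    rcases hxy with ⟨⟨hne, u, v, rfl, rfl, huv⟩, h'⟩ | ⟨h, h'⟩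
    · have h' : w = w' := h'
      subst h'
      have h5 := hM.1 (u, w) (v, w) (Or.inl ⟨huv, rfl⟩)
      rw [lim_ne _ _ (fun he => hne (Prod.ext_iff.1 he).1)] at h5
      have e1 := hval M hM u w
      have e2 := hval M hM v w
      rw [hf] at e1 e2
      rw [e1, e2]
      exact h5
    · have h' : x = y := h'
      have h : H.Adj w w' := h
      subst h'
      have h5 := hM.1 (x.1, w) (x.1, w') (Or.inr ⟨h, rfl⟩)
      have hne : c (x.1, w) ≠ c (x.1, w') := fun he => h.ne (Prod.ext_iff.1 he).2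
      rw [lim_ne _ _ hne] at h5
      have e1 : f x.1 = x := fab_ne hab x.2
      have h6 : (q (f x.1, w) - q (f x.1, w')) ⬝ᵥ (M (x.1, w) - M (x.1, w')) = 0 := h5
      rw [e1] at h6
      exact h6
  have hinj : Function.Injective ((R.domRestrict L).codRestrict
      (Sol ((Gc G hab) □ H) (df q) (0 : ({u : U // u ≠ b} × W) → Fin 0 → Fin 3 → ℝ)) (fun M => hR M M.2)) := by
    rw [injective_iff_map_eq_zero]
    rintro ⟨M, hM⟩ h
    have h' : R M = 0 := congrArg Subtype.val h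
    rw [Subtype.ext_iff]
    show M = 0
    funext v
    obtain ⟨u, w⟩ := v
    rw [← hval M hM u w]
    exact congrFun h' (f u, w)
  exact (LinearMap.finrank_le_finrank_of_injective hinj).trans hb3

end Pool.Agent.J4H92.NC
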