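import Pool.Agent.J4H92.NC.Abs

/-!
# One column of a nearly collapsed placement
-/

set_option autoImplicit false

namespace Pool.Agent.J4H92.NC

open Module

variable {U : Type} {G : SimpleGraph U} {t : U → ℝ}

/-- heights of the layers -/
def lam (t : U → ℝ) (u : U) (q : Fin 2 → ℝ) : ℝ := t u ^ 2 * q 0 + t u ^ 3 * q 1 + t u

/-- velocities of the planar motion `ι u` at the point `q` -/
def ya (ι : U → Fin 3 → ℝ) (q : Fin 2 → ℝ) (u : U) : ℝ := ι u 0 - ι u 2 * q 1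

def yb (ι : U → Fin 3 → ℝ) (q : Fin 2 → ℝ) (u : U) : ℝ := ι u 1 + ι u 2 * q 0

/-- the equation of an edge in a column -/
def CE (t : U → ℝ) (q : Fin 2 → ℝ) (r : U → Fin 2 → ℝ) (ι : U → Fin 3 → ℝ) (z : ℝ) (ζ : U → ℝ)
    (u v : U) : ℝ :=
  (r u 0 - r v 0) * ((ya ι q u - ya ι q v) - (t u ^ 2 - t v ^ 2) * z) +
  (r u 1 - r v 1) * ((yb ι q u - yb ι q v) - (t u ^ 3 - t v ^ 3) * z) +
  (lam t u q - lam t v q) * (ζ u - ζ v)

/-- the planar motions which extend to the column -/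
def Adm (G : SimpleGraph U) (t : U → ℝ) (q : Fin 2 → ℝ) (r : U → Fin 2 → ℝ) :
    Submodule ℝ (U → Fin 3 → ℝ) where
  carrier := {ι | ∃ z ζ, ∀ u v, G.Adj u v → CE t q r ι z ζ u v = 0}
  zero_mem' := ⟨0, 0, fun u v _ => by simp [CE, ya, yb]⟩
  add_mem' := by
    rintro ι ι' ⟨z, ζ, h⟩ ⟨z', ζ', h'⟩
    refine ⟨z + z', ζ + ζ', fun u v huv => ?_⟩
    have h1 := h u v huv
    have h2 := h' u v huv
    simp only [CE, ya, yb, Pi.add_apply] at *
    linear_combination h1 + h2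
  smul_mem' := by
    rintro c ι ⟨z, ζ, h⟩
    refine ⟨c * z, c • ζ, fun u v huv => ?_⟩
    have h1 := h u v huv
    simp only [CE, ya, yb, Pi.smul_apply, smul_eq_mul] at *
    linear_combination c * h1

/-- the column is not degenerate -/
def ND (G : SimpleGraph U) (t : U → ℝ) (q : Fin 2 → ℝ) (r : U → Fin 2 → ℝ) : Prop :=
  ∀ z ζ, (∀ u v, G.Adj u v → CE t q r 0 z ζ u v = 0) → z = 0 ∧ ∀ u v, G.Adj u v → ζ u = ζ v

/-- the trivial motions -/
def tr (t : U → ℝ) : (Fin 6 → ℝ) →ₗ[ℝ] (U → Fin 3 → ℝ) where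
  toFun c u := ![c 0 * t u ^ 2 - c 1 * t u + c 3, c 0 * t u ^ 3 - c 2 * t u + c 4,
    c 1 * t u ^ 3 - c 2 * t u ^ 2 + c 5]
  map_add' c c' := by
    funext u i
    fin_cases i <;> simp <;> ring
  map_smul' a c := by
    funext u i
    fin_cases i <;> simp <;> ring

@[simp] theorem tr_zero (c : Fin 6 → ℝ) (u : U) :
    tr t c u 0 = c 0 * t u ^ 2 - c 1 * t u + c 3 := rfl
@[simp] theorem tr_one (c : Fin 6 → ℝ) (u : U) :
    tr t c u 1 = c 0 * t u ^ 3 - c 2 * t u + c 4 := rfl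
@[simp] theorem tr_two (c : Fin 6 → ℝ) (u : U) :
    tr t c u 2 = c 1 * t u ^ 3 - c 2 * t u ^ 2 + c 5 := rfl

theorem ce_tr (q : Fin 2 → ℝ) (r : U → Fin 2 → ℝ) (c : Fin 6 → ℝ) (u v : U) :
    CE t q r (tr t c) (c 0 + c 1 * q 0 + c 2 * q 1) (fun u => c 1 * r u 0 + c 2 * r u 1) u v
      = 0 := by
  simp only [CE, ya, yb, tr_zero, tr_one, tr_two, lam]
  ring

theorem tr_le (q : Fin 2 → ℝ) (r : U → Fin 2 → ℝ) : LinearMap.range (tr t) ≤ Adm G t q r := by
  rintro _ ⟨c, rfl⟩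
  exact ⟨_, _, fun u v _ => ce_tr q r c u v⟩

/-! ### Corners -/

/-- two edges at `v` whose other ends are joined by a path which avoids `v` -/
def Cor (G : SimpleGraph U) (v u w : U) : Prop :=
  u ≠ w ∧ G.Adj v u ∧ G.Adj v w ∧ (G.deleteIncidenceSet v).Reachable u w

/-- coboundaries -/
def cob (G : SimpleGraph U) : Submodule ℝ (U → U → ℝ) where
  carrier := {c | ∃ ζ : U → ℝ, ∀ u v, G.Adj u v → c u v = ζ u - ζ v}
  zero_mem' := ⟨0, fun u v _ => by simp⟩
  add_mem' := by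
    rintro c c' ⟨ζ, h⟩ ⟨ζ', h'⟩
    refine ⟨ζ + ζ', fun u v huv => ?_⟩
    simp only [Pi.add_apply, h u v huv, h' u v huv]
    ring
  smul_mem' := by
    rintro a c ⟨ζ, h⟩
    refine ⟨a • ζ, fun u v huv => ?_⟩
    simp only [Pi.smul_apply, h u v huv, smul_eq_mul]
    ring

/-- the cochains given by weights in the plane -/
def wt (X Y : U → U → ℝ) : (U → Fin 2 → ℝ) →ₗ[ℝ] (U → U → ℝ) where
  toFun r u v := (r u 0 - r v 0) * X u v + (r u 1 - r v 1) * Y u v
  map_add' r r' := by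
    funext u v
    simp only [Pi.add_apply]
    ring
  map_smul' a r := by
    funext u v
    simp only [Pi.smul_apply, smul_eq_mul, RingHom.id_apply]
    ring

theorem star [DecidableEq U] {X Y : U → U → ℝ} {v : U} {e : Fin 2 → ℝ}
    (h : wt X Y (Pi.single v e) ∈ cob G) {u w : U} (hc : Cor G v u w) :
    e 0 * X v u + e 1 * Y v u = e 0 * X v w + e 1 * Y v w := by
  obtain ⟨ζ, hζ⟩ := h
  obtain ⟨-, h1, h2, h3⟩ := hc
  have key : ∀ a b, (G.deleteIncidenceSet v).Reachable a b → ζ a = ζ b := by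
    rintro a b ⟨p⟩
    induction p with
    | nil => rfl
    | cons hab p ih =>
      rename_i a b c
      rw [SimpleGraph.deleteIncidenceSet_adj] at hab
      obtain ⟨hab, ha, hb⟩ := hab
      have h5 := hζ _ _ hab
      have h6 : wt X Y (Pi.single v e) a b = 0 := by
        simp [wt, Pi.single_eq_of_ne ha, Pi.single_eq_of_ne hb]
      rw [h6] at h5
      rw [← ih]
      linarith
  have h4 := key u w h3
  have h5 := hζ v u h1
  have h6 := hζ v w h2
  have e1 : wt X Y (Pi.single v e) v u = e 0 * X v u + e 1 * Y v u := by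
    simp [wt, Pi.single_eq_of_ne h1.ne']
  have e2 : wt X Y (Pi.single v e) v w = e 0 * X v w + e 1 * Y v w := by
    simp [wt, Pi.single_eq_of_ne h2.ne']
  rw [e1] at h5
  rw [e2] at h6
  linarith

end Pool.Agent.J4H92.NC
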