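import Pool.Agent.J4H92.NC.Span2
import Pool.Agent.H283R2.DR.GenExists

/-!
# Choice of the columns
-/

set_option autoImplicit false

namespace Pool.Agent.J4H92.NC

open Module

variable {U W : Type} {G : SimpleGraph U} {t : U → ℝ}

theorem tr_inj (ht0 : ∀ u, 0 < t u) (htinj : Function.Injective t) {v u w : U} (hu : v ≠ u)
    (hw : v ≠ w) (huw : u ≠ w) : Function.Injective (tr t) := by
  rw [injective_iff_map_eq_zero]
  intro c hc
  have h : ∀ a i, tr t c a i = 0 := fun a i => by rw [hc]; rfl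
  have g : ∀ a b : U, a ≠ b → t a - t b ≠ 0 := fun a b hab =>
    sub_ne_zero.2 fun h => hab (htinj h)
  have p1 := ht0 v
  have p2 := ht0 u
  have p3 := ht0 w
  have v2 := h v 2
  have u2 := h u 2
  have w2 := h w 2
  have v0 := h v 0
  have u0 := h u 0
  have v1 := h v 1
  simp only [tr_zero, tr_one, tr_two] at v2 u2 w2 v0 u0 v1
  set Δ : ℝ := (t v ^ 2 - t u ^ 2) * (t v ^ 3 - t w ^ 3) -
    (t v ^ 3 - t u ^ 3) * (t v ^ 2 - t w ^ 2) with hΔ
  have hne : Δ ≠ 0 := by
    have e : Δ = (t v - t u) * (t v - t w) * (t w - t u) *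
        (t v * (t w + t u) + t u * t w) := by
      rw [hΔ]
      ring
    rw [e]
    exact mul_ne_zero (mul_ne_zero (mul_ne_zero (g _ _ hu) (g _ _ hw)) (g _ _ huw.symm))
      (by positivity)
  have c1 : c 1 = 0 := by
    have : c 1 * Δ = 0 := by
      rw [hΔ]
      linear_combination (t v ^ 2 - t u ^ 2) * (v2 - w2) - (t v ^ 2 - t w ^ 2) * (v2 - u2)
    exact (mul_eq_zero.1 this).resolve_right hne
  have c2 : c 2 = 0 := by
    have : c 2 * Δ = 0 := by
      rw [hΔ]
      linear_combination (t v ^ 3 - t u ^ 3) * (v2 - w2) - (t v ^ 3 - t w ^ 3) * (v2 - u2)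
    exact (mul_eq_zero.1 this).resolve_right hne
  have c5 : c 5 = 0 := by
    rw [c1, c2] at v2
    linarith
  have c0 : c 0 = 0 := by
    rw [c1] at v0 u0
    have e : c 0 * ((t v - t u) * (t v + t u)) = 0 := by linear_combination v0 - u0
    exact (mul_eq_zero.1 e).resolve_right (mul_ne_zero (g _ _ hu) (by positivity))
  have c3 : c 3 = 0 := by
    rw [c1, c0] at v0
    linarith
  have c4 : c 4 = 0 := by
    rw [c2, c0] at v1
    linarith
  funext i
  fin_cases i
  · exact c0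
  · exact c1
  · exact c2
  · exact c3
  · exact c4
  · exact c5

/-- the assumptions on the graph -/
structure Fat (G : SimpleGraph U) : Prop where
  conn : G.Connected
  corner : ∀ v u, G.Adj v u → ∃ w, Cor G v u w
  deg : ∃ v a b c : U, a ≠ b ∧ a ≠ c ∧ b ≠ c ∧ G.Adj v a ∧ G.Adj v b ∧ G.Adj v c

/-- the assumptions on the numbers -/
structure Sid (t : U → ℝ) : Prop where
  pos : ∀ u, 0 < t u
  inj : Function.Injective t
  sid : ∀ a b c d, t a + t b = t c + t d → a ≠ b → c ≠ d → (a = c ∨ a = d)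

theorem Fat.two [DecidableEq U] (hG : Fat G) (ht : Sid t) : ∃ v0 u0 w0 u1 w1, Cor G v0 u0 w0 ∧
    Cor G v0 u1 w1 ∧ t u0 + t w0 ≠ t u1 + t w1 := by
  obtain ⟨v, a, b, c, hab, hac, hbc, ha, hb, hc⟩ := hG.deg
  obtain ⟨w, hw⟩ := hG.corner v a ha
  -- a third neighbour
  obtain ⟨d, hd, hda, hdw⟩ : ∃ d, G.Adj v d ∧ d ≠ a ∧ d ≠ w := by
    by_cases h : b = w
    · refine ⟨c, hc, hac.symm, ?_⟩
      rw [← h]
      exact hbc.symm
    · exact ⟨b, hb, hab.symm, h⟩
  obtain ⟨w', hw'⟩ := hG.corner v d hd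
  refine ⟨v, a, w, d, w', hw, hw', fun h => ?_⟩
  rcases ht.sid d w' a w h.symm hw'.1 hw.1 with h1 | h1
  · exact hda h1
  · exact hdw h1

/-- **Choice of the columns.** -/
theorem exists_cols [Fintype U] [Fintype W] (hG : Fat G) (ht : Sid t)
    (hW : 3 * Fintype.card U ≤ Fintype.card W + 6) :
    ∃ (q : W → Fin 2 → ℝ) (r : W → U → Fin 2 → ℝ), (∀ x, ND G t (q x) (r x)) ∧
      ∀ ι, (∀ x, ι ∈ Adm G t (q x) (r x)) → ι ∈ LinearMap.range (tr t) := by
  classical
  obtain ⟨v0, u0, w0, u1, w1, hc0, hc1, hS⟩ := hG.two ht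
  have hspan : ∀ ι : U → Fin 3 → ℝ, (∀ q r, ND G t q r → ι ∈ Adm G t q r) →
      ι ∈ LinearMap.range (tr t) := fun ι h =>
    span_lemma ht.pos ht.inj hG.conn hG.corner hc0 hc1 hS h
  have hinj := tr_inj ht.pos ht.inj (v := v0) (u := u0) (w := w0) hc0.2.1.ne hc0.2.2.1.ne hc0.1
  have hT : finrank ℝ (LinearMap.range (tr t)) = 6 := by
    rw [LinearMap.finrank_range_of_inj hinj]
    simp
  have hY : finrank ℝ (U → Fin 3 → ℝ) = 3 * Fintype.card U := by
    rw [Module.finrank_pi_fintype]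
    simp [mul_comm]
  let I := {p : (Fin 2 → ℝ) × (U → Fin 2 → ℝ) // ND G t p.1 p.2}
  have hcard : 4 ≤ Fintype.card U := by
    obtain ⟨v, a, b, c, hab, hac, hbc, ha, hb, hc⟩ := hG.deg
    have h1 : ({v, a, b, c} : Finset U).card = 4 := by
      rw [Finset.card_insert_of_notMem, Finset.card_insert_of_notMem,
        Finset.card_insert_of_notMem, Finset.card_singleton]
      · simpa using hbc
      · simp [hab, hac]
      · simp [ha.ne, hb.ne, hc.ne]
    rw [← h1]
    exact Finset.card_le_univ _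
  have : Nonempty I := by
    by_contra hne
    have h1 : ∀ ι : U → Fin 3 → ℝ, ι ∈ LinearMap.range (tr t) := fun ι =>
      hspan ι fun q r h => absurd ⟨⟨(q, r), h⟩⟩ hne
    have h2 : LinearMap.range (tr t) = ⊤ := Submodule.eq_top_iff'.2 h1
    rw [h2, finrank_top, hY] at hT
    omega
  obtain ⟨f, hf⟩ := greedy_fin (I := I) (W := W) (LinearMap.range (tr t))
    (fun i => Adm G t i.1.1 i.1.2) (fun i => tr_le _ _) (by
      intro y hy
      by_contra hcon
      push Not at hcon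
      exact hy (hspan y fun q r h => hcon ⟨(q, r), h⟩)) (by rw [hT, hY]; omega)
  exact ⟨fun x => (f x).1.1, fun x => (f x).1.2, fun x => (f x).2, hf⟩

end Pool.Agent.J4H92.NC
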