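import Pool.Agent.J4H92.NC.Leafless

/-!
# Necessary conditions
-/

set_option autoImplicit false

namespace Pool.Agent.J4H92.NC

open SimpleGraph hiding between

open Module Pool.Agent.H283R2.DR Pool.Agent.H789R5 Pool.Agent.J4H92.CP

variable {U W : Type} [Fintype U] [Fintype W] {G : SimpleGraph U} {H : SimpleGraph W}

omit [Fintype U] in
theorem layer_le (p : W → Fin 3 → ℝ) (H : SimpleGraph W) :
    3 * Fintype.card W ≤ genRank 3 H + mo H p := by
  obtain ⟨p0, hp0⟩ := exists_mg W 3
  have h1 := genRank_add hp0 H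
  have h2 := hp0.min H p
  omega

/-- motions of separate layers -/
theorem layers_le (p : U × W → Fin 3 → ℝ) :
    Fintype.card U * (3 * Fintype.card W - genRank 3 H) ≤
      mo ((⊥ : SimpleGraph U) □ H) p := by
  classical
  let F : (∀ u : U, Mot H (fun x => p (u, x))) →ₗ[ℝ] (U × W → Fin 3 → ℝ) :=
    { toFun := fun m v => (m v.1).1 v.2
      map_add' := fun _ _ => rfl
      map_smul' := fun _ _ => rfl }
  have hF : ∀ m, F m ∈ Mot ((⊥ : SimpleGraph U) □ H) p := by
    intro m
    rw [mem_mot]
    rintro ⟨u, x⟩ ⟨v, y⟩ h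
    rcases h with ⟨h, -⟩ | ⟨h, h'⟩
    · exact absurd h (by simp)
    · have h' : u = v := h'
      subst h'
      exact (mem_mot _ _ _).1 (m u).2 x y h
  have hinj : Function.Injective (F.codRestrict _ hF) := by
    rw [injective_iff_map_eq_zero]
    intro m h
    rw [Subtype.ext_iff] at h
    have h : F m = 0 := h
    funext u
    refine Subtype.ext ?_
    funext x
    exact congrFun h (u, x)
  have h1 := LinearMap.finrank_le_finrank_of_injective hinj
  rw [Module.finrank_pi_fintype] at h1
  have h2 : ∀ u : U, 3 * Fintype.card W - genRank 3 H ≤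
      finrank ℝ (Mot H (fun x => p (u, x))) := by
    intro u
    have := layer_le (fun x => p (u, x)) H
    have h3 : mo H (fun x => p (u, x)) = finrank ℝ (Mot H (fun x => p (u, x))) := rfl
    omega
  have h3 := Finset.sum_le_sum (s := Finset.univ) (fun u _ => h2 u)
  rw [Finset.sum_const, Finset.card_univ, smul_eq_mul] at h3
  exact h3.trans h1

/-- a rigid product with few edges in the first factor -/
theorem unicyclic_flex (hr : GenRigid 3 (G □ H)) (hU : 7 ≤ Fintype.card U)
    (hW : 1 ≤ Fintype.card W) (he : G.edgeSet.ncard ≤ Fintype.card U) :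
    2 * Fintype.card W ≤ genRank 3 H := by
  classical
  obtain ⟨p, hp⟩ := exists_mg (U × W) 3
  have hcard : 3 ≤ Fintype.card (U × W) := by
    rw [Fintype.card_prod]
    nlinarith
  have h1 := (genRigid_iff hp hcard _).1 hr
  norm_num at h1
  have h2 := layers_le (H := H) p
  have h3 := mo_le_add (G := (⊥ : SimpleGraph U) □ H) (G' := G □ H) p
  have h4 : ((G □ H).edgeSet \ ((⊥ : SimpleGraph U) □ H).edgeSet).ncard ≤
      (G □ (⊥ : SimpleGraph W)).edgeSet.ncard := by
    refine Set.ncard_le_ncard ?_ (Set.toFinite _)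
    intro e he
    induction e using Sym2.ind with | _ v w => ?_
    obtain ⟨h5, h6⟩ := he
    rw [mem_edgeSet] at h5 h6 ⊢
    rcases h5 with h5 | h5
    · exact Or.inl h5
    · exact absurd (Or.inr h5) h6
  rw [ncard_boxProd] at h4
  simp only [edgeSet_bot, Set.ncard_empty, mul_zero, Nat.card_eq_fintype_card] at h4
  by_contra hcon
  push Not at hcon
  have h5 : Fintype.card U * (Fintype.card W + 1) ≤
      Fintype.card U * (3 * Fintype.card W - genRank 3 H) :=
    Nat.mul_le_mul_left _ (by omega)
  have h6 : Fintype.card W * G.edgeSet.ncard ≤ Fintype.card W * Fintype.card U :=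
    Nat.mul_le_mul_left _ he
  nlinarith

end Pool.Agent.J4H92.NC
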