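import Pool.Agent.J4H92.NC.F2

/-!
# Contraction of a vertex of degree two, general rank
-/

set_option autoImplicit false

namespace Pool.Agent.J4H92.NC

open SimpleGraph hiding between

open Module Matrix Pool.Agent.H283R2.DR Pool.Agent.H283R2.DR.TA Pool.Agent.J4H92.CP Pool.Agent.H789R5

variable {U W : Type} {G : SimpleGraph U} {H : SimpleGraph W}

/-- a placement of large rank with generic directions -/
theorem exists_big [Fintype W] (hH : GenRigid 2 H) (h2 : 2 ≤ Fintype.card W) {d : ℕ}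
    (hr : 2 * Fintype.card W ≤ genRank 3 H + d) :
    ∃ e : EC W, finrank ℝ (Sol H (df e.1) (0 : W → Fin 0 → Fin 3 → ℝ)) ≤ Fintype.card W + d ∧
      PN H e := by
  refine good_two (E := EC W)
    (P := fun e => finrank ℝ (Sol H (df e.1) (0 : W → Fin 0 → Fin 3 → ℝ)) ≤ Fintype.card W + d)
    (Q := PN H) (by
      have h := good_sol H (E := EC W) (j := 0)
        { toFun := fun e => (df e.1, (0 : W → Fin 0 → Fin 3 → ℝ))
          map_add' := by
            intro e e'
            refine Prod.ext ?_ ?_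
            · funext u v
              simp only [df, Prod.fst_add, Pi.add_apply]
              abel
            · simp
          map_smul' := by
            intro c e
            refine Prod.ext ?_ ?_
            · funext u v
              simp only [df, Prod.smul_fst, Pi.smul_apply, RingHom.id_apply, smul_sub]
            · simp } (Fintype.card W + d)
      exact h) good_PN (by
      obtain ⟨p, d', h⟩ := mu_of_rank (G := H) (k := Fintype.card W + d) (by omega)
      refine ⟨(p, 0, 0), ?_⟩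
      have : d' = 0 := Subsingleton.elim _ _
      rw [this] at h
      exact h) (exists_PN hH h2)

/-- **One pin at each vertex.** -/
theorem mu_one [Fintype W] (hH : GenRigid 2 H) (h2 : 2 ≤ Fintype.card W) {d : ℕ}
    (hr : 2 * Fintype.card W ≤ genRank 3 H + d) : Mu 1 d H := by
  obtain ⟨⟨p, n, d'⟩, hP, hN⟩ := exists_big hH h2 hr
  have hP : finrank ℝ (Sol H (df p) (0 : W → Fin 0 → Fin 3 → ℝ)) ≤ Fintype.card W + d := hP
  set N := Sol H (df p) (0 : W → Fin 0 → Fin 3 → ℝ) with hNdef
  obtain ⟨n', hn', hfin⟩ := sel' (N := N) N.subtype (fun n => PN H (p, n, d'))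
    (good_PN_slice p d') ⟨n, hN⟩ (by
      intro n hn M hM y y' hyy hy hy'
      exact (hn.1 ⟨(y, y'), hyy⟩).zero (fun x x' hx => M.2.1 x x' hx) hM hy hy') (by
      intro n hn y
      refine ⟨⟨fun _ => n y, ?_⟩, ?_⟩
      · rw [hNdef, mem_sol]
        refine ⟨fun u v _ => ?_, fun v i => i.elim0⟩
        rw [sub_self, dotProduct_zero]
      · show n y ⬝ᵥ n y ≠ 0
        rw [Ne, dotProduct_self_eq_zero]
        exact hn.2 y)
  refine ⟨p, fun x _ => n' x, ?_⟩
  have hsub : ∀ M ∈ Sol H (df p) (fun x (_ : Fin 1) => n' x), M ∈ N := by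
    rintro M ⟨h1, -⟩
    rw [hNdef, mem_sol]
    exact ⟨h1, fun v i => i.elim0⟩
  rcases hfin with hfin | hfin
  · have hker : finrank ℝ (LinearMap.ker (cmp (N := N) N.subtype n')) ≤ d := by omega
    refine le_trans ?_ hker
    let ι : Sol H (df p) (fun x (_ : Fin 1) => n' x) →ₗ[ℝ]
        LinearMap.ker (cmp (N := N) N.subtype n') :=
      { toFun := fun M => ⟨⟨M.1, hsub M.1 M.2⟩, by
          rw [LinearMap.mem_ker]
          funext x
          exact M.2.2 x 0⟩
        map_add' := fun _ _ => rfl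
        map_smul' := fun _ _ => rfl }
    refine LinearMap.finrank_le_finrank_of_injective (f := ι) ?_
    rw [injective_iff_map_eq_zero]
    rintro ⟨M, hM⟩ h
    have h' : M = 0 := congrArg (fun z => z.1.1) h
    rw [Subtype.ext_iff]
    exact h'
  · have : Sol H (df p) (fun x (_ : Fin 1) => n' x) = ⊥ := by
      rw [eq_bot_iff]
      intro M hM
      exact hfin ⟨M, hsub M hM⟩ (fun x => hM.2 x 0)
    rw [this, finrank_bot]
    exact Nat.zero_le d

/-- at least `d` motions with one pin at each vertex -/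
theorem d_le [Fintype W] {d : ℕ} (hr : genRank 3 H + d ≤ 2 * Fintype.card W)
    (q m : W → Fin 3 → ℝ) :
    d ≤ finrank ℝ (Sol H (df q) (fun x (_ : Fin 1) => m x)) := by
  have h1 := layer_le q H
  let φ : Mot H q →ₗ[ℝ] (W → ℝ) :=
    { toFun := fun M x => m x ⬝ᵥ M.1 x
      map_add' := by
        intro M M'
        funext x
        simp [dotProduct_add]
      map_smul' := by
        intro s M
        funext x
        simp [dotProduct_smul] }
  have h3 := LinearMap.finrank_range_add_finrank_ker φ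
  have h4 : finrank ℝ (LinearMap.range φ) ≤ Fintype.card W := by
    refine (Submodule.finrank_le _).trans ?_
    rw [Module.finrank_fintype_fun_eq_card]
  have h5 : finrank ℝ (Mot H q) = mo H q := rfl
  let ι : LinearMap.ker φ →ₗ[ℝ] Sol H (df q) (fun x (_ : Fin 1) => m x) :=
    (((Mot H q).subtype).comp (LinearMap.ker φ).subtype).codRestrict _ (by
      rintro ⟨⟨M, hM⟩, hk⟩
      rw [mem_mot] at hM
      refine ⟨hM, fun x i => ?_⟩
      exact congrFun (LinearMap.mem_ker.1 hk) x)
  have h6 : finrank ℝ (LinearMap.ker φ) ≤ finrank ℝ (Sol H (df q) (fun x (_ : Fin 1) => m x)) := by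
    refine LinearMap.finrank_le_finrank_of_injective (f := ι) ?_
    intro M M' hMM
    have h5 : (ι M).1 = (ι M').1 := by rw [hMM]
    exact Subtype.ext (Subtype.ext h5)
  omega

theorem exists_cross_ne {a : Fin 3 → ℝ} (ha : a ≠ 0) : ∃ u : Fin 3 → ℝ, crossProduct a u ≠ 0 := by
  by_contra hcon
  push Not at hcon
  apply ha
  have h0 := hcon ![1, 0, 0]
  have h1 := hcon ![0, 1, 0]
  rw [cross_apply] at h0 h1
  have e1 := congrFun h0 1
  have e2 := congrFun h0 2
  have e3 := congrFun h1 2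
  simp at e1 e2 e3
  funext i
  fin_cases i
  · exact e3
  · exact e2
  · exact e1

/-- **A fixed vertex and one pin at each other vertex.** -/
theorem exists_PZ [Fintype W] (hH : GenRigid 2 H) (h2 : 2 ≤ Fintype.card W) {d : ℕ} (hd : 1 ≤ d)
    (hr : 2 * Fintype.card W ≤ genRank 3 H + d) (y : W) :
    ∃ e : EC W, finrank ℝ (Sol H (LC y y e).1 (LC y y e).2) ≤ d - 1 := by
  classical
  obtain ⟨⟨p, n, d'⟩, ⟨hP, hN⟩, hne⟩ := good_two (E := EC W)
    (P := fun e => finrank ℝ (Sol H (df e.1) (0 : W → Fin 0 → Fin 3 → ℝ)) ≤ Fintype.card W + d ∧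
      PN H e)
    (Q := fun e => ∀ x : {x : W // x ≠ y}, e.1 x.1 - e.1 y ≠ 0) (good_and (by
      have h := good_sol H (E := EC W) (j := 0)
        { toFun := fun e => (df e.1, (0 : W → Fin 0 → Fin 3 → ℝ))
          map_add' := by
            intro e e'
            refine Prod.ext ?_ ?_
            · funext u v
              simp only [df, Prod.fst_add, Pi.add_apply]
              abel
            · simp
          map_smul' := by
            intro c e
            refine Prod.ext ?_ ?_
            · funext u v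
              simp only [df, Prod.smul_fst, Pi.smul_apply, RingHom.id_apply, smul_sub]
            · simp } (Fintype.card W + d)
      exact h) good_PN) (good_all fun x => by
      exact good_ne (E := EC W)
        { toFun := fun e => e.1 x.1 - e.1 y
          map_add' := by
            intro e e'
            simp only [Prod.fst_add, Pi.add_apply]
            abel
          map_smul' := by
            intro c e
            simp only [Prod.smul_fst, Pi.smul_apply, RingHom.id_apply, smul_sub] })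
    (exists_big hH h2 hr) ⟨(fun x => if x = y then 0 else ![1, 0, 0], 0, 0), fun x h => by
      have h1 := congrFun h 0
      simp [x.2] at h1⟩
  have hP : finrank ℝ (Sol H (df p) (0 : W → Fin 0 → Fin 3 → ℝ)) ≤ Fintype.card W + d := hP
  have hne : ∀ x : {x : W // x ≠ y}, p x.1 - p y ≠ 0 := hne
  set N := Sol H (df p) (0 : W → Fin 0 → Fin 3 → ℝ) with hNdef
  let ev : N →ₗ[ℝ] (Fin 3 → ℝ) :=
    { toFun := fun M => M.1 y
      map_add' := fun _ _ => rfl
      map_smul' := fun _ _ => rfl }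
  have hev : LinearMap.range ev = ⊤ := by
    rw [LinearMap.range_eq_top]
    intro b
    refine ⟨⟨fun _ => b, ?_⟩, rfl⟩
    rw [hNdef, mem_sol]
    refine ⟨fun u v _ => ?_, fun v i => i.elim0⟩
    rw [sub_self, dotProduct_zero]
  have hK := LinearMap.finrank_range_add_finrank_ker ev
  rw [hev, finrank_top, Module.finrank_fin_fun] at hK
  set K : Submodule ℝ (W → Fin 3 → ℝ) := N ⊓ LinearMap.ker
    (LinearMap.proj (R := ℝ) (φ := fun _ : W => Fin 3 → ℝ) y) with hKdef
  have hmK : ∀ M ∈ K, M ∈ N ∧ M y = 0 := fun M hM => ⟨hM.1, LinearMap.mem_ker.1 hM.2⟩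
  have hKle : finrank ℝ K ≤ finrank ℝ (LinearMap.ker ev) := by
    let j : K →ₗ[ℝ] LinearMap.ker ev :=
      { toFun := fun M => ⟨⟨M.1, (hmK M.1 M.2).1⟩, (hmK M.1 M.2).2⟩
        map_add' := fun _ _ => rfl
        map_smul' := fun _ _ => rfl }
    refine LinearMap.finrank_le_finrank_of_injective (f := j) ?_
    intro M M' h
    exact Subtype.ext (congrArg (fun z => z.1.1) h)
  let D : K →ₗ[ℝ] ({x : W // x ≠ y} → Fin 3 → ℝ) :=
    { toFun := fun M x => M.1 x.1
      map_add' := fun _ _ => rfl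
      map_smul' := fun _ _ => rfl }
  let ext : ({x : W // x ≠ y} → Fin 3 → ℝ) → W → Fin 3 → ℝ := fun n' x =>
    if h : x = y then n y else n' ⟨x, h⟩
  have hext : ∀ n' (x : {x : W // x ≠ y}), ext n' x.1 = n' x := fun n' x => dif_neg x.2
  have hextn : ext (fun x => n x.1) = n := by
    funext x
    by_cases h : x = y
    · show (if h : x = y then n y else n x) = n x
      rw [dif_pos h, h]
    · show (if h : x = y then n y else n x) = n x
      rw [dif_neg h]
  have g1 : Good (fun n' : {x : W // x ≠ y} → Fin 3 → ℝ => PN H (p, ext n', d')) := by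
    intro n0 n1 h0
    refine (good_PN (H := H) (p, ext n0, d') (p, ext n1, d') h0).subset ?_
    intro s hs
    rw [Set.mem_ofPred_eq] at hs ⊢
    have : ((p, ext n0, d') + s • ((p, ext n1, d') - (p, ext n0, d')) : EC W) =
        (p, ext (n0 + s • (n1 - n0)), d') := by
      refine Prod.ext ?_ (Prod.ext ?_ ?_)
      · simp
      · funext x
        show ext n0 x + s • (ext n1 x - ext n0 x) = ext (n0 + s • (n1 - n0)) x
        by_cases h : x = y
        · subst h
          have e : ∀ n', ext n' x = n x := fun n' => dif_pos rfl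
          rw [e, e, e, sub_self, smul_zero, add_zero]
        · have e : ∀ n', ext n' x = n' ⟨x, h⟩ := fun n' => dif_neg h
          rw [e, e, e]
          rfl
      · simp
    rw [this]
    exact hs
  have g2 : Good (fun n' : {x : W // x ≠ y} → Fin 3 → ℝ =>
      ∀ x : {x : W // x ≠ y}, crossProduct (p x.1 - p y) (n' x) ≠ 0) :=
    good_all fun x => good_ne (E := {x : W // x ≠ y} → Fin 3 → ℝ)
      ((crossProduct (p x.1 - p y)).comp (LinearMap.proj (R := ℝ) (φ := fun _ => Fin 3 → ℝ) x))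
  obtain ⟨n0, hn0⟩ := good_two g1 g2 ⟨fun x => n x.1, by rw [hextn]; exact hN⟩ (by
    choose u hu using fun x : {x : W // x ≠ y} => exists_cross_ne (hne x)
    exact ⟨u, hu⟩)
  obtain ⟨n', hn', hfin⟩ := sel' (N := K) D (fun n' => PN H (p, ext n', d') ∧
      ∀ x : {x : W // x ≠ y}, crossProduct (p x.1 - p y) (n' x) ≠ 0) (good_and g1 g2) ⟨n0, hn0⟩ (by
      intro n1 hn1 M hM x x' hxx hx hx'
      have hMy : M.1 y = 0 := (hmK M.1 M.2).2
      have hz : M.1 = 0 := by
        refine (hn1.1.1 ⟨(y, x.1), fun h => x.2 h.symm⟩).zero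
          (fun a b hab => (hmK M.1 M.2).1.1 a b hab) (fun a => ?_) hMy hx
        show ext n1 a ⬝ᵥ M.1 a = 0
        by_cases ha : a = y
        · rw [ha, hMy, dotProduct_zero]
        · rw [hext n1 ⟨a, ha⟩]
          exact hM ⟨a, ha⟩
      funext a
      show M.1 a.1 = 0
      rw [hz]
      rfl) (by
      intro n1 hn1 x
      set w := crossProduct (p x.1 - p y) (n1 x) with hw
      refine ⟨⟨fun z => crossProduct w (p z - p y), ?_, ?_⟩, ?_⟩
      · rw [SetLike.mem_coe, hNdef, mem_sol]
        refine ⟨fun u v _ => ?_, fun v i => i.elim0⟩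
        show (p u - p v) ⬝ᵥ (crossProduct w (p u - p y) - crossProduct w (p v - p y)) = 0
        rw [← map_sub, sub_sub_sub_cancel_right]
        exact dot_cross_self _ _
      · rw [SetLike.mem_coe, LinearMap.mem_ker]
        show crossProduct w (p y - p y) = 0
        rw [sub_self, map_zero]
      · show n1 x ⬝ᵥ crossProduct w (p x.1 - p y) ≠ 0
        rw [triple_product_permutation, ← hw, Ne, dotProduct_self_eq_zero]
        exact hn1.2 x)
  refine ⟨(p, ext n', fun _ i => Pi.single i 1), ?_⟩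
  have hy0 : ∀ M ∈ Sol H (LC y y (p, ext n', fun _ i => Pi.single i 1)).1
      (LC y y (p, ext n', fun _ i => Pi.single i 1)).2, M y = 0 := by
    rintro M ⟨-, hM⟩
    funext i
    have h5 := hM y i.succ
    have h6 : (if y = y ∨ y = y then (Pi.single i 1 : Fin 3 → ℝ) else 0) ⬝ᵥ M y = 0 := h5
    rw [if_pos (Or.inl rfl), single_dotProduct, one_mul] at h6
    exact h6
  have hpin : ∀ M ∈ Sol H (LC y y (p, ext n', fun _ i => Pi.single i 1)).1
      (LC y y (p, ext n', fun _ i => Pi.single i 1)).2, ∀ x : {x : W // x ≠ y},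
      n' x ⬝ᵥ M x.1 = 0 := by
    rintro M ⟨-, hM⟩ x
    have h5 : ext n' x.1 ⬝ᵥ M x.1 = 0 := hM x.1 0
    rw [hext] at h5
    exact h5
  have hMK : ∀ M ∈ Sol H (LC y y (p, ext n', fun _ i => Pi.single i 1)).1
      (LC y y (p, ext n', fun _ i => Pi.single i 1)).2, M ∈ K := by
    intro M hM
    exact ⟨⟨hM.1, fun v i => i.elim0⟩, LinearMap.mem_ker.2 (hy0 M hM)⟩
  let ι : Sol H (LC y y (p, ext n', fun _ i => Pi.single i 1)).1
      (LC y y (p, ext n', fun _ i => Pi.single i 1)).2 →ₗ[ℝ]
        ↥(LinearMap.ker (cmp (N := K) D n')) :=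
    { toFun := fun M => ⟨⟨M.1, hMK M.1 M.2⟩, by
        rw [LinearMap.mem_ker]
        funext x
        exact hpin M.1 M.2 x⟩
      map_add' := fun _ _ => rfl
      map_smul' := fun _ _ => rfl }
  have hι : Function.Injective ι := by
    intro M M' h
    exact Subtype.ext (congrArg (fun z => z.1.1) h)
  refine (LinearMap.finrank_le_finrank_of_injective hι).trans ?_
  have hcW : Fintype.card {x : W // x ≠ y} + 1 = Fintype.card W := by
    rw [Fintype.card_subtype_compl, Fintype.card_subtype_eq]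
    omega
  rcases hfin with h | h
  · omega
  · have hbot : LinearMap.ker (cmp (N := K) D n') = ⊥ := by
      rw [eq_bot_iff]
      intro M hM
      have h5 := h M fun x => congrFun (LinearMap.mem_ker.1 hM) x
      have hMy : M.1 y = 0 := (hmK M.1 M.2).2
      rw [Submodule.mem_bot, Subtype.ext_iff]
      show M.1 = 0
      funext x
      by_cases hx : x = y
      · rw [hx]
        exact hMy
      · exact congrFun h5 ⟨x, hx⟩
    rw [hbot, finrank_bot]
    exact Nat.zero_le _

/-- the parameters of the layer of `v` -/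
noncomputable def L6 {U' : Type} (a b : U') : EB U' W →ₗ[ℝ] EC W where
  toFun e := (fun w => e.1 (a, w), fun w => e.1 (a, w) - e.1 (b, w), e.2.2)
  map_add' e e' := by
    refine Prod.ext rfl (Prod.ext ?_ rfl)
    funext x
    simp only [Prod.fst_add, Prod.snd_add, Pi.add_apply]
    abel
  map_smul' c e := by
    refine Prod.ext rfl (Prod.ext ?_ rfl)
    funext x
    simp only [Prod.smul_fst, Prod.smul_snd, Pi.smul_apply, RingHom.id_apply, smul_sub]

/-- **Contraction of a vertex of degree two.** -/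
theorem mu_split' [Fintype U] [Fintype W] {v a b : U} (hab : a ≠ b) (hva : G.Adj v a)
    (hvb : G.Adj v b) (hdeg : ∀ u, G.Adj v u → u = a ∨ u = b) (hH : GenRigid 2 H)
    (hW3 : 3 ≤ Fintype.card W) {dd : ℕ} (hd1 : 1 ≤ dd)
    (hr1 : 2 * Fintype.card W ≤ genRank 3 H + dd) (hr2 : genRank 3 H + dd ≤ 2 * Fintype.card W)
    {k1 k2 N : ℕ} (hk1 : k1 ≤ N) (hk2 : k2 + dd ≤ N + Fintype.card W)
    (h1 : Mu 0 k1 ((Sp G v a b) □ H)) (h2 : Mu 0 k2 ((G.induce {u | u ≠ v}) □ H)) :
    Mu 0 N (G □ H) := by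
  classical
  have hW2 : 2 ≤ Fintype.card W := by omega
  have hav : a ≠ v := hva.ne'
  have hbv : b ≠ v := hvb.ne'
  set a' : {u : U // u ≠ v} := ⟨a, hav⟩ with ha'
  set b' : {u : U // u ≠ v} := ⟨b, hbv⟩ with hb'
  have hab' : a' ≠ b' := fun h => hab (congrArg Subtype.val h)
  set f := fab hav with hf
  let c : U × W → {u : U // u ≠ v} × W := fun z => (f z.1, z.2)
  let cv : ({u | u ≠ v} : Set U) × W → {u : U // u ≠ v} × W := fun z => (⟨z.1.1, z.1.2⟩, z.2)
  have hcv : Function.Injective cv := by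
    rintro ⟨⟨u, hu⟩, w⟩ ⟨⟨u', hu'⟩, w'⟩ h
    rw [Prod.ext_iff] at h
    obtain ⟨e1, e2⟩ := h
    have e1 : u = u' := congrArg Subtype.val e1
    have e2 : w = w' := e2
    subst e1
    subst e2
    rfl
  let Lq : EB {u : U // u ≠ v} W →ₗ[ℝ] ({u : U // u ≠ v} × W → Fin 3 → ℝ) :=
    LinearMap.fst ℝ _ _
  have lift : ∀ {P : ({u : U // u ≠ v} × W → Fin 3 → ℝ) → Prop}, (∃ q, P q) →
      ∃ e : EB {u : U // u ≠ v} W, P (Lq e) := by
    rintro P ⟨q, hq⟩
    exact ⟨(q, 0, 0), hq⟩
  have g1 := good_comp (good_Bd ((Sp G v a b) □ H) id k1) Lq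
  have g2 := good_comp (good_Bd ((G.induce {u | u ≠ v}) □ H) cv k2) Lq
  have g3 := good_sol H (L3 (W := W) a' b') dd
  have g4 := good_comp (good_PN (H := H)) (Ly (W := W) a')
  have g5 : Good (fun e : EB {u : U // u ≠ v} W => ∀ y,
      finrank ℝ (Sol H (LC y y (L6 a' b' e)).1 (LC y y (L6 a' b' e)).2) ≤ dd - 1) :=
    good_all fun y => good_sol H ((LC y y).comp (L6 (W := W) a' b')) (dd - 1)
  have mk : ∀ p m : W → Fin 3 → ℝ, ∃ q : {u : U // u ≠ v} × W → Fin 3 → ℝ,
      (∀ w, q (a', w) = p w) ∧ ∀ w, q (a', w) - q (b', w) = m w := by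
    intro p m
    refine ⟨fun z => if z.1 = a' then p z.2 else p z.2 - m z.2, fun w => ?_, fun w => ?_⟩
    · simp
    · simp only [if_true, if_neg hab'.symm]
      abel
  obtain ⟨e12, he12⟩ := good_two g1 g2 (lift (exists_Bd Function.injective_id h1))
    (lift (exists_Bd hcv h2))
  obtain ⟨e123, he123⟩ := good_two (good_and g1 g2) g3 ⟨e12, he12⟩ (by
    obtain ⟨p, d, hd⟩ := mu_one hH hW2 hr1
    obtain ⟨q, hq1, hq2⟩ := mk p (fun w => d w 0)
    refine ⟨(q, 0, 0), ?_⟩
    have e1 : (L3 (W := W) a' b' (q, 0, 0)).1 = df p := by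
      show df (fun w => q (a', w)) = df p
      rw [funext hq1]
    have e2 : (L3 (W := W) a' b' (q, 0, 0)).2 = d := by
      funext w i
      show q (a', w) - q (b', w) = d w i
      rw [hq2, Subsingleton.elim i 0]
    rw [e1, e2]
    exact hd)
  obtain ⟨e1234, he1234⟩ := good_two (good_and (good_and g1 g2) g3) g4 ⟨e123, he123⟩ (by
    obtain ⟨⟨p, n, d⟩, h⟩ := exists_PN hH hW2
    exact ⟨(fun z => p z.2, n, d), h⟩)
  obtain ⟨⟨q, n0, d⟩, ⟨⟨⟨hb1, hb2⟩, hb3⟩, hb4⟩, hb5⟩ :=
    good_two (good_and (good_and (good_and g1 g2) g3) g4) g5 ⟨e1234, he1234⟩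
      (good_family (E := EB {u : U // u ≠ v} W) (ι := W) (fun y e =>
        finrank ℝ (Sol H (LC y y (L6 a' b' e)).1 (LC y y (L6 a' b' e)).2) ≤ dd - 1)
        (fun y => good_sol H ((LC y y).comp (L6 (W := W) a' b')) (dd - 1)) (fun y => by
      obtain ⟨⟨p, m, d⟩, h⟩ := exists_PZ hH hW2 hd1 hr1 y
      obtain ⟨q, hq1, hq2⟩ := mk p m
      refine ⟨(q, 0, d), ?_⟩
      have e1 : L6 a' b' (q, 0, d) = ((p, m, d) : EC W) := by
        refine Prod.ext ?_ (Prod.ext ?_ rfl)
        · exact funext hq1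
        · exact funext hq2
      rw [e1]
      exact h))
  have hb1 : finrank ℝ (Sol ((Sp G v a b) □ H) (df q)
    (0 : ({u : U // u ≠ v} × W) → Fin 0 → Fin 3 → ℝ)) ≤ k1 := hb1
  have hb2 : finrank ℝ (Sol ((G.induce {u | u ≠ v}) □ H) (df fun z => q (cv z))
    (0 : (({u | u ≠ v} : Set U) × W) → Fin 0 → Fin 3 → ℝ)) ≤ k2 := hb2
  have hb3 : finrank ℝ (Sol H (df fun w => q (a', w))
    (fun w (_ : Fin 1) => q (a', w) - q (b', w))) ≤ dd := hb3
  have hb4 : PN H (fun w => q (a', w), n0, d) := hb4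
  have hfv : f v = a' := fab_b hav
  have hfa : f a = a' := fab_a hav
  have hfb : f b = b' := fab_ne hav hbv
  have hfu : ∀ u (hu : u ≠ v), f u = ⟨u, hu⟩ := fun u hu => fab_ne hav hu
  set S2 := Sol ((G.induce {u | u ≠ v}) □ H) (df fun z => q (cv z))
    (0 : (({u | u ≠ v} : Set U) × W) → Fin 0 → Fin 3 → ℝ) with hS2
  set S3 := Sol H (df fun w => q (a', w)) (fun w (_ : Fin 1) => q (a', w) - q (b', w)) with hS3
  -- the motions without the edge
  set N' := Sol ((G0 G a v) □ H) (df fun z => q (c z)) (0 : U × W → Fin 0 → Fin 3 → ℝ) with hN'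
  have hadj0 : (G0 G a v).Adj v b := by
    rw [G0_adj]
    refine ⟨hvb, fun h => ?_⟩
    rcases Sym2.eq_iff.1 h with ⟨h, -⟩ | ⟨-, h⟩
    · exact hav h.symm
    · exact hab h.symm
  have hNfin : finrank ℝ N' ≤ k2 + dd := by
    let R : (U × W → Fin 3 → ℝ) →ₗ[ℝ] (({u | u ≠ v} : Set U) × W → Fin 3 → ℝ) :=
      LinearMap.funLeft ℝ (Fin 3 → ℝ) (fun z => (z.1.1, z.2))
    have hR : ∀ M ∈ N', R M ∈ S2 := by
      rintro M ⟨hM, -⟩
      refine ⟨fun z z' hzz => ?_, fun v i => i.elim0⟩
      have h3 := hM (z.1.1, z.2) (z'.1.1, z'.2) (by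
        rcases hzz with ⟨h, h'⟩ | ⟨h, h'⟩
        · refine Or.inl ⟨G0_adj.2 ⟨h, fun he => ?_⟩, h'⟩
          rcases Sym2.eq_iff.1 he with ⟨-, h⟩ | ⟨h, -⟩
          · exact z'.1.2 h
          · exact z.1.2 h
        · exact Or.inr ⟨h, congrArg Subtype.val h'⟩)
      have e1 : c (z.1.1, z.2) = cv z := by
        show (f z.1.1, z.2) = _
        rw [hfu z.1.1 z.1.2]
      have e2 : c (z'.1.1, z'.2) = cv z' := by
        show (f z'.1.1, z'.2) = _
        rw [hfu z'.1.1 z'.1.2]
      have h4 : (q (c (z.1.1, z.2)) - q (c (z'.1.1, z'.2))) ⬝ᵥ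
        (M (z.1.1, z.2) - M (z'.1.1, z'.2)) = 0 := h3
      rw [e1, e2] at h4
      exact h4
    let F := (R.domRestrict N').codRestrict S2 (fun M => hR M.1 M.2)
    have h2 := LinearMap.finrank_range_add_finrank_ker F
    have h3 : finrank ℝ (LinearMap.range F) ≤ k2 := (Submodule.finrank_le _).trans hb2
    have h4 : finrank ℝ (LinearMap.ker F) ≤ dd := by
      refine le_trans ?_ hb3
      let R3 : (U × W → Fin 3 → ℝ) →ₗ[ℝ] (W → Fin 3 → ℝ) :=
        LinearMap.funLeft ℝ (Fin 3 → ℝ) (fun w => (v, w))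
      have hsub : ∀ M : LinearMap.ker F, R3 (M.1.1 : U × W → Fin 3 → ℝ) ∈ S3 := by
        rintro ⟨⟨M, hM⟩, hk⟩
        have h' : R M = 0 := congrArg Subtype.val (LinearMap.mem_ker.1 hk)
        refine ⟨fun x y hxy => ?_, fun y i => ?_⟩
        · have h5 : (q (f v, x) - q (f v, y)) ⬝ᵥ (M (v, x) - M (v, y)) = 0 :=
            hM.1 (v, x) (v, y) (Or.inr ⟨hxy, rfl⟩)
          rw [hfv] at h5
          exact h5
        · have h5 : (q (f v, y) - q (f b, y)) ⬝ᵥ (M (v, y) - M (b, y)) = 0 :=
            hM.1 (v, y) (b, y) (Or.inl ⟨hadj0, rfl⟩)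
          have h6 : M (b, y) = 0 := congrFun h' (⟨b, hbv⟩, y)
          rw [hfv, hfb, h6, sub_zero] at h5
          exact h5
      let ι : LinearMap.ker F →ₗ[ℝ] S3 :=
        ((R3.comp (N'.subtype)).comp (LinearMap.ker F).subtype).codRestrict _ hsub
      refine LinearMap.finrank_le_finrank_of_injective (f := ι) ?_
      rw [injective_iff_map_eq_zero]
      rintro ⟨⟨M, hM⟩, hk⟩ h
      have h' : R M = 0 := congrArg Subtype.val (LinearMap.mem_ker.1 hk)
      have h3 : R3 M = 0 := congrArg Subtype.val h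
      rw [Subtype.ext_iff, Subtype.ext_iff]
      show M = 0
      funext ⟨u, w⟩
      by_cases hu : u = v
      · rw [hu]
        exact congrFun h3 w
      · exact congrFun h' (⟨u, hu⟩, w)
    omega
  let D0 : (U × W → Fin 3 → ℝ) →ₗ[ℝ] (W → Fin 3 → ℝ) :=
    { toFun := fun M w => M (v, w) - M (a, w)
      map_add' := by
        intro M M'
        funext w
        simp only [Pi.add_apply]
        abel
      map_smul' := by
        intro s M
        funext w
        simp only [Pi.smul_apply, smul_sub, RingHom.id_apply] }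
  let D : N' →ₗ[ℝ] (W → Fin 3 → ℝ) := D0.comp N'.subtype
  have hDker : finrank ℝ (LinearMap.ker D) ≤ k1 := by
    refine le_trans ?_ hb1
    let R : (U × W → Fin 3 → ℝ) →ₗ[ℝ] ({u : U // u ≠ v} × W → Fin 3 → ℝ) :=
      LinearMap.funLeft ℝ (Fin 3 → ℝ) (fun z => (z.1.1, z.2))
    have hsub : ∀ M : LinearMap.ker D, R (M.1.1 : U × W → Fin 3 → ℝ) ∈
        Sol ((Sp G v a b) □ H) (df q) (0 : ({u : U // u ≠ v} × W) → Fin 0 → Fin 3 → ℝ) := by
      rintro ⟨⟨M, hM⟩, hk⟩
      have hva' : ∀ w, M (v, w) = M (a, w) := fun w =>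
        sub_eq_zero.1 (congrFun (LinearMap.mem_ker.1 hk) w)
      have hvb' : ∀ w, (q (a', w) - q (b', w)) ⬝ᵥ (M (a, w) - M (b, w)) = 0 := by
        intro w
        have h5 : (q (f v, w) - q (f b, w)) ⬝ᵥ (M (v, w) - M (b, w)) = 0 :=
          hM.1 (v, w) (b, w) (Or.inl ⟨hadj0, rfl⟩)
        rw [hfv, hfb, hva'] at h5
        exact h5
      refine ⟨?_, fun v i => i.elim0⟩
      rintro ⟨x, w⟩ ⟨y, w'⟩ hxy
      show (q (x, w) - q (y, w')) ⬝ᵥ (M (x.1, w) - M (y.1, w')) = 0
      rcases hxy with ⟨⟨hne, h | h⟩, h'⟩ | ⟨h, h'⟩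
      · have h' : w = w' := h'
        subst h'
        have h5 : (q (f x.1, w) - q (f y.1, w)) ⬝ᵥ (M (x.1, w) - M (y.1, w)) = 0 :=
          hM.1 (x.1, w) (y.1, w) (Or.inl ⟨G0_adj.2 ⟨h, fun he => by
            rcases Sym2.eq_iff.1 he with ⟨-, h⟩ | ⟨h, -⟩
            · exact y.2 h
            · exact x.2 h⟩, rfl⟩)
        rw [hfu x.1 x.2, hfu y.1 y.2] at h5
        exact h5
      · have h' : w = w' := h'
        subst h'
        rcases Sym2.eq_iff.1 h with ⟨e1, e2⟩ | ⟨e1, e2⟩
        · have e1' : x = a' := Subtype.ext e1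
          have e2' : y = b' := Subtype.ext e2
          rw [e1', e2']
          exact hvb' w
        · have e1' : x = b' := Subtype.ext e1
          have e2' : y = a' := Subtype.ext e2
          rw [e1', e2']
          have h5 := hvb' w
          rw [← neg_sub (q (b', w)), ← neg_sub (M (b, w)), neg_dotProduct_neg] at h5
          exact h5
      · have h' : x = y := h'
        have h : H.Adj w w' := h
        subst h'
        have h5 : (q (f x.1, w) - q (f x.1, w')) ⬝ᵥ (M (x.1, w) - M (x.1, w')) = 0 :=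
          hM.1 (x.1, w) (x.1, w') (Or.inr ⟨h, rfl⟩)
        rw [hfu x.1 x.2] at h5
        exact h5
    let ι : LinearMap.ker D →ₗ[ℝ] Sol ((Sp G v a b) □ H) (df q)
        (0 : ({u : U // u ≠ v} × W) → Fin 0 → Fin 3 → ℝ) :=
      ((R.comp (N'.subtype)).comp (LinearMap.ker D).subtype).codRestrict _ hsub
    refine LinearMap.finrank_le_finrank_of_injective (f := ι) ?_
    rw [injective_iff_map_eq_zero]
    rintro ⟨⟨M, hM⟩, hk⟩ h
    have hva' : ∀ w, M (v, w) = M (a, w) := fun w =>
      sub_eq_zero.1 (congrFun (LinearMap.mem_ker.1 hk) w)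
    have h3 : R M = 0 := congrArg Subtype.val h
    rw [Subtype.ext_iff, Subtype.ext_iff]
    show M = 0
    funext ⟨u, w⟩
    by_cases hu : u = v
    · rw [hu, hva']
      exact congrFun h3 (a', w)
    · exact congrFun h3 (⟨u, hu⟩, w)
  have hmf : ∀ y : W, ∃ m ∈ S3, m y ≠ 0 := by
    intro y
    by_contra hcon
    push Not at hcon
    have h3 := d_le hr2 (fun w => q (a', w)) (fun w => q (a', w) - q (b', w))
    have h5 : S3 ≤ Sol H (LC y y (L6 a' b' (q, n0, d))).1 (LC y y (L6 a' b' (q, n0, d))).2 := by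
      intro m hm
      have hmy := hcon m hm
      refine ⟨hm.1, fun x i => ?_⟩
      refine Fin.cases ?_ (fun i => ?_) i
      · exact hm.2 x 0
      · show (if x = y ∨ x = y then d x i else 0) ⬝ᵥ m x = 0
        by_cases hx : x = y
        · rw [hx, hmy, dotProduct_zero]
        · rw [if_neg (fun h => hx (h.elim id id)), zero_dotProduct]
    have h6 := Submodule.finrank_mono h5
    have h7 : dd ≤ finrank ℝ S3 := h3
    have h8 := hb5 y
    omega
  choose mf hmf1 hmf2 using hmf
  have gq : Good (fun n : W → Fin 3 → ℝ => ∀ y, n y ⬝ᵥ mf y y ≠ 0) :=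
    good_all fun y => good_ne (E := W → Fin 3 → ℝ) (F := ℝ)
      { toFun := fun n => n y ⬝ᵥ mf y y
        map_add' := fun n n' => add_dotProduct _ _ _
        map_smul' := fun c n => by simp [smul_dotProduct] }
  obtain ⟨n1, hn1⟩ := good_two (good_PN_slice (H := H) (fun w => q (a', w)) d) gq ⟨n0, hb4⟩
    ⟨fun y => mf y y, fun y => by
      rw [Ne, dotProduct_self_eq_zero]
      exact hmf2 y⟩
  obtain ⟨n, hn, hfin⟩ := sel' D (fun n => PN H (fun w => q (a', w), n, d) ∧
      ∀ y, n y ⬝ᵥ mf y y ≠ 0)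
    (good_and (good_PN_slice _ d) gq) ⟨n1, hn1⟩ (by
      intro n hn M hM y y' hyy hy hy'
      refine (hn.1.1 ⟨(y, y'), hyy⟩).zero (fun x x' hx => ?_) hM hy hy'
      have e1 : (q (f v, x) - q (f v, x')) ⬝ᵥ (M.1 (v, x) - M.1 (v, x')) = 0 :=
        M.2.1 (v, x) (v, x') (Or.inr ⟨hx, rfl⟩)
      have e2 : (q (f a, x) - q (f a, x')) ⬝ᵥ (M.1 (a, x) - M.1 (a, x')) = 0 :=
        M.2.1 (a, x) (a, x') (Or.inr ⟨hx, rfl⟩)
      rw [hfv] at e1
      rw [hfa] at e2
      show (q (a', x) - q (a', x')) ⬝ᵥ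
        ((M.1 (v, x) - M.1 (a, x)) - (M.1 (v, x') - M.1 (a, x'))) = 0
      have : (M.1 (v, x) - M.1 (a, x)) - (M.1 (v, x') - M.1 (a, x')) =
        (M.1 (v, x) - M.1 (v, x')) - (M.1 (a, x) - M.1 (a, x')) := by abel
      rw [this, dotProduct_sub, e1, e2, sub_zero]) (by
      intro n hn y
      refine ⟨⟨fun z => if z.1 = v then mf y z.2 else 0, ?_, fun v i => i.elim0⟩, ?_⟩
      · rintro ⟨s, x⟩ ⟨t, y'⟩ hst
        show (q (f s, x) - q (f t, y')) ⬝ᵥ
          ((if s = v then mf y x else 0) - (if t = v then mf y y' else 0)) = 0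
        obtain ⟨hm1, hm2⟩ := hmf1 y
        rcases hst with ⟨h, h'⟩ | ⟨h, h'⟩
        · have h' : x = y' := h'
          subst h'
          have hnb : ∀ u, (G0 G a v).Adj v u → u = b := by
            intro u hu
            rw [G0_adj] at hu
            rcases hdeg u hu.1 with rfl | rfl
            · exact absurd Sym2.eq_swap hu.2
            · rfl
          by_cases hs : s = v
          · subst hs
            have ht := hnb t h
            rw [if_pos rfl, ht, if_neg hbv, sub_zero, hfv, hfb]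
            exact hm2 x 0
          · by_cases ht : t = v
            · subst ht
              have hs' := hnb s h.symm
              rw [if_pos rfl, hs', if_neg hbv, zero_sub, hfv, hfb, ← neg_sub, neg_dotProduct_neg]
              exact hm2 x 0
            · rw [if_neg hs, if_neg ht, sub_zero, dotProduct_zero]
        · have h' : s = t := h'
          subst h'
          by_cases hs : s = v
          · rw [if_pos hs, if_pos hs, hs, hfv]
            exact hm1 x y' h
          · rw [if_neg hs, if_neg hs, sub_zero, dotProduct_zero]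
      · show n y ⬝ᵥ ((if v = v then mf y y else 0) - (if a = v then mf y y else 0)) ≠ 0
        rw [if_pos rfl, if_neg hav, sub_zero]
        exact hn.2 y)
  -- the limit placement
  refine mu_of_lim c q (fun z => if z.1 = a then n z.2 else 0)
    (0 : U × W → Fin 0 → Fin 3 → ℝ) ?_
  set L := Sol (G □ H) (lim c q (fun z => if z.1 = a then n z.2 else 0))
    (0 : U × W → Fin 0 → Fin 3 → ℝ) with hL
  have hLN : ∀ M ∈ L, M ∈ N' := by
    rintro M ⟨hM, -⟩
    refine ⟨fun z z' hzz => ?_, fun v i => i.elim0⟩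
    have hne : c z ≠ c z' := by
      intro he
      rw [Prod.ext_iff] at he
      rcases hzz with ⟨h, h'⟩ | ⟨h, h'⟩
      · exact (G0_adj.1 h).2 (fab_eq hav he.1 h.ne)
      · exact h.ne he.2
    have h5 := hM z z' (by
      rcases hzz with ⟨h, h'⟩ | ⟨h, h'⟩
      · exact Or.inl ⟨(G0_adj.1 h).1, h'⟩
      · exact Or.inr ⟨h, h'⟩)
    rw [lim_ne _ _ hne] at h5
    exact h5
  have hLk : ∀ M (hM : M ∈ L), (⟨M, hLN M hM⟩ : N') ∈ LinearMap.ker (cmp D n) := by
    intro M hM
    rw [LinearMap.mem_ker]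
    funext w
    have h6 := hM.1 (a, w) (v, w) (Or.inl ⟨hva.symm, rfl⟩)
    have heq : c (a, w) = c (v, w) := by
      show (f a, w) = (f v, w)
      rw [hfa, hfv]
    rw [lim_eq _ _ heq] at h6
    simp only [if_true, if_neg hav.symm, sub_zero] at h6
    show n w ⬝ᵥ (M (v, w) - M (a, w)) = 0
    rw [← neg_sub, dotProduct_neg, h6, neg_zero]
  have hLfin : finrank ℝ L ≤ finrank ℝ (LinearMap.ker (cmp D n)) := by
    let ι : L →ₗ[ℝ] LinearMap.ker (cmp D n) :=
      { toFun := fun M => ⟨⟨M.1, hLN M.1 M.2⟩, hLk M.1 M.2⟩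
        map_add' := fun _ _ => rfl
        map_smul' := fun _ _ => rfl }
    refine LinearMap.finrank_le_finrank_of_injective (f := ι) ?_
    rw [injective_iff_map_eq_zero]
    rintro ⟨M, hM⟩ h
    have h' : M = 0 := congrArg (fun z => z.1.1) h
    rw [Subtype.ext_iff]
    exact h'
  refine hLfin.trans ?_
  rcases hfin with h | h
  · omega
  · refine le_trans (Submodule.finrank_mono ?_) (hDker.trans hk1)
    intro M hM
    rw [LinearMap.mem_ker] at hM ⊢
    exact h M fun x => congrFun hM x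

end Pool.Agent.J4H92.NC
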