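import Pool.Agent.J4H92.NC.F4
import Pool.Agent.J4H92.NC.E2

/-!
# Values of colourings, general rank
-/

set_option autoImplicit false

namespace Pool.Agent.J4H92.NC

open SimpleGraph hiding between

open Module Pool.Agent.H283R2.DR Pool.Agent.H283R2.DR.TA Pool.Agent.J4H92.CP Pool.Agent.H789R5

variable {U W : Type} {G : SimpleGraph U} {H : SimpleGraph W}

/-- the value of a colouring -/
noncomputable def vl (h d : ℕ) (G : SimpleGraph U) (f : U → ℕ) : ℤ :=
  6 * (Set.range f).ncard + ((h : ℤ) + d - 6) * (Sg f).ncard - h * (Cf G f).edgeSet.ncard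

theorem vl_ge [Finite U] {f : U → ℕ} {h d : ℕ} {k s c : ℤ} (h6 : 6 ≤ h)
    (hK : k ≤ (Set.range f).ncard) (hS : s ≤ (Sg f).ncard)
    (hC : ((Cr G f).ncard : ℤ) ≤ 2 * c) : 6 * k + ((h : ℤ) + d - 6) * s - h * c ≤ vl h d G f := by
  rw [cr_two] at hC
  push_cast at hC
  have hC : ((Cf G f).edgeSet.ncard : ℤ) ≤ c := by linarith
  have h6' : (6 : ℤ) ≤ h := by exact_mod_cast h6
  have hd' : (0 : ℤ) ≤ d := by positivity
  have e1 := mul_le_mul_of_nonneg_left hS (by linarith : (0 : ℤ) ≤ (h : ℤ) + d - 6)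
  have e2 := mul_le_mul_of_nonneg_left hC (by linarith : (0 : ℤ) ≤ (h : ℤ))
  unfold vl
  linarith

/-- **Uniting the classes that meet a rigid part.** -/
theorem vl_mrg [Finite U] {Q : Type} [Finite Q] {Γ : SimpleGraph Q} {ι : Q → U}
    (hι : Function.Injective ι) (hadj : ∀ a b, Γ.Adj a b → G.Adj (ι a) (ι b)) (z : Q)
    {f : U → ℕ} {h d : ℕ} (h6 : 6 ≤ h) (hΓ : vl h d Γ (fun q => f (ι q)) ≤ 6) :
    vl h d G f ≤ vl h d G (mrg ι z f) := by
  classical
  set X0 := Set.range (fun q => f (ι q)) with hX0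
  set f1 : Q → ℕ := fun q => f (ι q) with hf1
  set f' := mrg ι z f with hf'
  have hz0 : f (ι z) ∈ X0 := ⟨z, rfl⟩
  have hsub0 : X0 ⊆ Set.range f := by
    rintro _ ⟨q, rfl⟩
    exact ⟨ι q, rfl⟩
  have hK : ((Set.range f).ncard : ℤ) - X0.ncard + 1 ≤ (Set.range f').ncard := by
    have h1 : insert (f (ι z)) (Set.range f \ X0) ⊆ Set.range f' := by
      intro c hc
      rcases hc with rfl | ⟨⟨u, rfl⟩, hu⟩
      · exact ⟨ι z, mrg_in hz0⟩
      · exact ⟨u, mrg_out hu⟩
    have h2 := Set.ncard_le_ncard h1 (Set.toFinite _)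
    rw [Set.ncard_insert_of_notMem (fun hc => hc.2 hz0)] at h2
    have h4 := Set.ncard_sdiff_add_ncard_of_subset hsub0 (Set.toFinite _)
    omega
  have hS : ((Sg f).ncard : ℤ) - (Sg f1).ncard ≤ (Sg f').ncard := by
    have h1 : Sg f \ Set.range ι ⊆ Sg f' := by
      rintro u ⟨hu, hur⟩ w hw
      have hu0 : f u ∉ X0 := by
        rintro ⟨q, hq⟩
        exact hur ⟨q, hu _ hq⟩
      have e1 : f' u = f u := mrg_out hu0
      rw [e1] at hw
      by_cases hw0 : f w ∈ X0
      · have e2 : f' w = f (ι z) := mrg_in hw0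
        rw [e2] at hw
        exact absurd (hw ▸ hz0) hu0
      · have e2 : f' w = f w := mrg_out hw0
        rw [e2] at hw
        exact hu w hw
    have h2 : Sg f ∩ Set.range ι ⊆ ι '' Sg f1 := by
      rintro _ ⟨hu, ⟨q, rfl⟩⟩
      exact ⟨q, fun w hw => hι (hu _ hw), rfl⟩
    have h3 := Set.ncard_le_ncard h1 (Set.toFinite _)
    have h4 := Set.ncard_le_ncard h2 (Set.toFinite _)
    rw [Set.ncard_image_of_injective _ hι] at h4
    have h5 := Set.ncard_inter_add_ncard_sdiff_eq_ncard (Sg f) (Set.range ι) (Set.toFinite _)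
    omega
  have hC : ((Cr G f').ncard : ℤ) ≤ 2 * (((Cf G f).edgeSet.ncard : ℤ) -
      (Cf Γ f1).edgeSet.ncard) := by
    have h1 : Prod.map ι ι '' Cr Γ f1 ⊆ Cr G f := by
      rintro _ ⟨⟨a, b⟩, ⟨hab, hf⟩, rfl⟩
      exact ⟨hadj a b hab, hf⟩
    have h2 : Cr G f' ⊆ Cr G f \ (Prod.map ι ι '' Cr Γ f1) := by
      rintro ⟨u, w⟩ ⟨huw, hf⟩
      have hf : f' u ≠ f' w := hf
      refine ⟨⟨huw, fun he => hf ?_⟩, ?_⟩
      · have he : f u = f w := he
        show mrg ι z f u = mrg ι z f w
        unfold mrg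
        rw [he]
      · rintro ⟨⟨a, b⟩, -, hab⟩
        have e1 : ι a = u := congrArg Prod.fst hab
        have e2 : ι b = w := congrArg Prod.snd hab
        apply hf
        have e3 : f' u = f (ι z) := mrg_in ⟨a, congrArg f e1⟩
        have e4 : f' w = f (ι z) := mrg_in ⟨b, congrArg f e2⟩
        rw [e3, e4]
    have h3 := Set.ncard_le_ncard h2 (Set.toFinite _)
    have h4 := Set.ncard_sdiff_add_ncard_of_subset h1 (Set.toFinite _)
    rw [Set.ncard_image_of_injective _ (hι.prodMap hι)] at h4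
    rw [cr_two f, cr_two f1] at h4
    omega
  have := vl_ge (d := d) h6 hK hS hC
  have e : vl h d G f = 6 * (Set.range f).ncard + ((h : ℤ) + d - 6) * (Sg f).ncard -
    h * (Cf G f).edgeSet.ncard := rfl
  have e' : vl h d Γ f1 = 6 * X0.ncard + ((h : ℤ) + d - 6) * (Sg f1).ncard -
    h * (Cf Γ f1).edgeSet.ncard := rfl
  rw [e'] at hΓ
  rw [e]
  linarith

/-- **Refining a class.** -/
theorem e_refine [Finite U] {f : U → ℕ} {c : ℕ} {X : Set U} (hX : ∀ u, u ∈ X ↔ f u = c)
    (h2 : 2 ≤ X.ncard) (f1 : X → ℕ) {h d : ℕ} (h6 : 6 ≤ h) :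
    ∃ f' : U → ℕ, vl h d G f + vl h d (G.induce X) f1 - 6 ≤ vl h d G f' ∧
      ∀ u ∈ X, ∀ w, w ∉ X → f' u ≠ f' w := by
  classical
  obtain ⟨B, hB⟩ := exists_bound f
  let f' : U → ℕ := fun u => if h : u ∈ X then f1 ⟨u, h⟩ + B else f u
  have hin : ∀ u (hu : u ∈ X), f' u = f1 ⟨u, hu⟩ + B := fun u hu => dif_pos hu
  have hout : ∀ u, u ∉ X → f' u = f u := fun u hu => dif_neg hu
  have hc : ∀ u ∈ X, ∀ w, w ∉ X → f' u ≠ f' w := by
    intro u hu w hw he
    rw [hin u hu, hout w hw] at he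
    have := hB w
    omega
  refine ⟨f', ?_, hc⟩
  obtain ⟨x0, hx0, x1, hx1, hx01⟩ := (Set.one_lt_ncard (Set.toFinite _)).1 (by omega : 1 < X.ncard)
  have hK : ((Set.range f).ncard : ℤ) - 1 + (Set.range f1).ncard ≤ (Set.range f').ncard := by
    have h1 : (Set.range f \ {c}) ∪ ((fun n => n + B) '' Set.range f1) ⊆ Set.range f' := by
      rintro n (⟨⟨u, rfl⟩, hu⟩ | ⟨_, ⟨q, rfl⟩, rfl⟩)
      · exact ⟨u, hout u fun hx => hu ((hX u).1 hx)⟩
      · exact ⟨q.1, hin q.1 q.2⟩
    have h2 := Set.ncard_le_ncard h1 (Set.toFinite _)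
    rw [Set.ncard_union_eq (by
      rw [Set.disjoint_left]
      rintro n ⟨⟨u, rfl⟩, -⟩ ⟨_, -, he⟩
      have he : _ + B = f u := he
      have := hB u
      omega) (Set.toFinite _) (Set.toFinite _), Set.ncard_image_of_injective _ (by
        intro a b hab
        have hab : a + B = b + B := hab
        omega)] at h2
    have hcr : ({c} : Set ℕ) ⊆ Set.range f := by
      rintro _ rfl
      exact ⟨x0, (hX x0).1 hx0⟩
    have h4 := Set.ncard_sdiff_add_ncard_of_subset hcr (Set.toFinite _)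
    rw [Set.ncard_singleton] at h4
    omega
  have hS : ((Sg f).ncard : ℤ) + (Sg f1).ncard ≤ (Sg f').ncard := by
    have hSX : ∀ u ∈ Sg f, u ∉ X := by
      intro u hu hx
      have e0 := hu x0 (((hX x0).1 hx0).trans ((hX u).1 hx).symm)
      have e1 := hu x1 (((hX x1).1 hx1).trans ((hX u).1 hx).symm)
      exact hx01 (e0.trans e1.symm)
    have h1 : Sg f ∪ (Subtype.val '' Sg f1) ⊆ Sg f' := by
      rintro u (hu | ⟨q, hq, rfl⟩) w hw
      · have hx := hSX u hu
        rw [hout u hx] at hw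
        by_cases hwX : w ∈ X
        · rw [hin w hwX] at hw
          have := hB u
          omega
        · rw [hout w hwX] at hw
          exact hu w hw
      · rw [hin q.1 q.2] at hw
        by_cases hwX : w ∈ X
        · rw [hin w hwX] at hw
          have h5 := hq ⟨w, hwX⟩ (by
            show f1 ⟨w, hwX⟩ = f1 ⟨q.1, q.2⟩
            omega)
          exact congrArg Subtype.val h5
        · rw [hout w hwX] at hw
          have := hB w
          omega
    have h2 := Set.ncard_le_ncard h1 (Set.toFinite _)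
    rw [Set.ncard_union_eq (by
      rw [Set.disjoint_left]
      rintro u hu ⟨q, -, rfl⟩
      exact hSX _ hu q.2) (Set.toFinite _) (Set.toFinite _),
      Set.ncard_image_of_injective _ Subtype.val_injective] at h2
    omega
  have hC : ((Cr G f').ncard : ℤ) ≤ 2 * (((Cf G f).edgeSet.ncard : ℤ) +
      (Cf (G.induce X) f1).edgeSet.ncard) := by
    have h1 : Cr G f' ⊆ Cr G f ∪ Prod.map Subtype.val Subtype.val '' Cr (G.induce X) f1 := by
      rintro ⟨u, w⟩ ⟨huw, hf⟩
      have hf : f' u ≠ f' w := hf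
      by_cases hu : u ∈ X
      · by_cases hw : w ∈ X
        · refine Or.inr ⟨(⟨u, hu⟩, ⟨w, hw⟩), ⟨huw, fun he => hf ?_⟩, rfl⟩
          rw [hin u hu, hin w hw]
          have he : f1 ⟨u, hu⟩ = f1 ⟨w, hw⟩ := he
          rw [he]
        · refine Or.inl ⟨huw, fun he => hw ?_⟩
          have he : f u = f w := he
          rw [hX, ← he]
          exact (hX u).1 hu
      · by_cases hw : w ∈ X
        · refine Or.inl ⟨huw, fun he => hu ?_⟩
          have he : f u = f w := he
          rw [hX, he]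
          exact (hX w).1 hw
        · refine Or.inl ⟨huw, ?_⟩
          rw [hout u hu, hout w hw] at hf
          exact hf
    have h2 := Set.ncard_le_ncard h1 (Set.toFinite _)
    have h4 := Set.ncard_union_le (Cr G f)
      (Prod.map Subtype.val Subtype.val '' Cr (G.induce X) f1)
    rw [Set.ncard_image_of_injective _ (Subtype.val_injective.prodMap
      Subtype.val_injective), cr_two f, cr_two f1] at h4
    omega
  have := vl_ge (d := d) h6 hK hS hC
  have e : vl h d G f = 6 * (Set.range f).ncard + ((h : ℤ) + d - 6) * (Sg f).ncard -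
    h * (Cf G f).edgeSet.ncard := rfl
  have e' : vl h d (G.induce X) f1 = 6 * (Set.range f1).ncard + ((h : ℤ) + d - 6) * (Sg f1).ncard -
    h * (Cf (G.induce X) f1).edgeSet.ncard := rfl
  rw [e, e']
  linarith

/-- **Two separate parts.** -/
theorem e_glue [Finite U] {A : Set U} (hA : ∀ u ∈ A, ∀ w, w ∉ A → ¬ G.Adj u w)
    (f1 : A → ℕ) (f2 : (Aᶜ : Set U) → ℕ) {h d : ℕ} (h6 : 6 ≤ h) :
    ∃ f : U → ℕ, vl h d (G.induce A) f1 + vl h d (G.induce Aᶜ) f2 ≤ vl h d G f := by
  classical
  obtain ⟨B, hB⟩ := exists_bound f2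
  let f' : U → ℕ := fun u => if h : u ∈ A then f1 ⟨u, h⟩ + B else f2 ⟨u, h⟩
  have hin : ∀ u (hu : u ∈ A), f' u = f1 ⟨u, hu⟩ + B := fun u hu => dif_pos hu
  have hout : ∀ u (hu : u ∉ A), f' u = f2 ⟨u, hu⟩ := fun u hu => dif_neg hu
  refine ⟨f', ?_⟩
  have hK : ((Set.range f1).ncard : ℤ) + (Set.range f2).ncard ≤ (Set.range f').ncard := by
    have h1 : Set.range f2 ∪ ((fun n => n + B) '' Set.range f1) ⊆ Set.range f' := by
      rintro n (⟨q, rfl⟩ | ⟨_, ⟨q, rfl⟩, rfl⟩)
      · exact ⟨q.1, hout q.1 q.2⟩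
      · exact ⟨q.1, hin q.1 q.2⟩
    have h2 := Set.ncard_le_ncard h1 (Set.toFinite _)
    rw [Set.ncard_union_eq (by
      rw [Set.disjoint_left]
      rintro n ⟨q, rfl⟩ ⟨_, -, he⟩
      have he : _ + B = f2 q := he
      have := hB q
      omega) (Set.toFinite _) (Set.toFinite _), Set.ncard_image_of_injective _ (by
        intro a b hab
        have hab : a + B = b + B := hab
        omega)] at h2
    omega
  have hS : ((Sg f1).ncard : ℤ) + (Sg f2).ncard ≤ (Sg f').ncard := by
    have h1 : (Subtype.val '' Sg f1) ∪ (Subtype.val '' Sg f2) ⊆ Sg f' := by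
      rintro _ (⟨q, hq, rfl⟩ | ⟨q, hq, rfl⟩) w hw
      · rw [hin q.1 q.2] at hw
        by_cases hwX : w ∈ A
        · rw [hin w hwX] at hw
          have h5 := hq ⟨w, hwX⟩ (by
            show f1 ⟨w, hwX⟩ = f1 ⟨q.1, q.2⟩
            omega)
          exact congrArg Subtype.val h5
        · rw [hout w hwX] at hw
          have := hB ⟨w, hwX⟩
          omega
      · rw [hout q.1 q.2] at hw
        by_cases hwX : w ∈ A
        · rw [hin w hwX] at hw
          have := hB ⟨q.1, q.2⟩
          omega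
        · rw [hout w hwX] at hw
          have h5 := hq ⟨w, hwX⟩ hw
          exact congrArg Subtype.val h5
    have h2 := Set.ncard_le_ncard h1 (Set.toFinite _)
    rw [Set.ncard_union_eq (by
      rw [Set.disjoint_left]
      rintro _ ⟨q, -, rfl⟩ ⟨q', -, he⟩
      exact q'.2 (he ▸ q.2)) (Set.toFinite _) (Set.toFinite _),
      Set.ncard_image_of_injective _ Subtype.val_injective,
      Set.ncard_image_of_injective _ Subtype.val_injective] at h2
    omega
  have hC : ((Cr G f').ncard : ℤ) ≤ 2 * (((Cf (G.induce A) f1).edgeSet.ncard : ℤ) +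
      (Cf (G.induce Aᶜ) f2).edgeSet.ncard) := by
    have h1 : Cr G f' ⊆ Prod.map Subtype.val Subtype.val '' Cr (G.induce A) f1 ∪
        Prod.map Subtype.val Subtype.val '' Cr (G.induce Aᶜ) f2 := by
      rintro ⟨u, w⟩ ⟨huw, hf⟩
      have hf : f' u ≠ f' w := hf
      have huw : G.Adj u w := huw
      by_cases hu : u ∈ A
      · by_cases hw : w ∈ A
        · refine Or.inl ⟨(⟨u, hu⟩, ⟨w, hw⟩), ⟨huw, fun he => hf ?_⟩, rfl⟩
          rw [hin u hu, hin w hw]
          have he : f1 ⟨u, hu⟩ = f1 ⟨w, hw⟩ := he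
          rw [he]
        · exact absurd huw (hA u hu w hw)
      · by_cases hw : w ∈ A
        · exact absurd huw.symm (hA w hw u hu)
        · refine Or.inr ⟨(⟨u, hu⟩, ⟨w, hw⟩), ⟨huw, fun he => hf ?_⟩, rfl⟩
          rw [hout u hu, hout w hw]
          exact he
    have h2 := Set.ncard_le_ncard h1 (Set.toFinite _)
    have h4 := Set.ncard_union_le (Prod.map Subtype.val Subtype.val '' Cr (G.induce A) f1)
      (Prod.map Subtype.val Subtype.val '' Cr (G.induce Aᶜ) f2)
    rw [Set.ncard_image_of_injective _ (Subtype.val_injective.prodMap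
      Subtype.val_injective),
      Set.ncard_image_of_injective _ (Subtype.val_injective.prodMap
      Subtype.val_injective), cr_two f1, cr_two f2] at h4
    omega
  have := vl_ge (d := d) h6 hK hS hC
  unfold vl at this ⊢
  linarith

/-- **A new class with one vertex.** -/
theorem e_new [Finite U] {v : U} (f : {u : U // u ≠ v} → ℕ) {g : ℕ}
    (hd : {p : U × U | G.Adj p.1 p.2 ∧ (p.1 = v ∨ p.2 = v)}.ncard ≤ 2 * g) {h d : ℕ}
    (h6 : 6 ≤ h) : ∃ f' : U → ℕ, vl h d (G.induce {u | u ≠ v}) f + h + d - h * g ≤ vl h d G f' := by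
  classical
  obtain ⟨B, hB⟩ := exists_bound f
  let f' : U → ℕ := fun u => if h : u = v then B else f ⟨u, h⟩
  have hin : f' v = B := dif_pos rfl
  have hout : ∀ u (hu : u ≠ v), f' u = f ⟨u, hu⟩ := fun u hu => dif_neg hu
  refine ⟨f', ?_⟩
  have hK : ((Set.range f).ncard : ℤ) + 1 ≤ (Set.range f').ncard := by
    have h1 : insert B (Set.range f) ⊆ Set.range f' := by
      rintro n (rfl | ⟨q, rfl⟩)
      · exact ⟨v, hin⟩
      · exact ⟨q.1, hout q.1 q.2⟩
    have h2 := Set.ncard_le_ncard h1 (Set.toFinite _)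
    rw [Set.ncard_insert_of_notMem (by
      rintro ⟨q, hq⟩
      have := hB q
      omega)] at h2
    omega
  have hS : ((Sg f).ncard : ℤ) + 1 ≤ (Sg f').ncard := by
    have h1 : insert v (Subtype.val '' Sg f) ⊆ Sg f' := by
      rintro _ (rfl | ⟨q, hq, rfl⟩) w hw
      · rw [hin] at hw
        by_contra hne
        rw [hout w hne] at hw
        have := hB ⟨w, hne⟩
        omega
      · rw [hout q.1 q.2] at hw
        by_cases hwv : w = v
        · rw [hwv, hin] at hw
          have := hB ⟨q.1, q.2⟩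
          omega
        · rw [hout w hwv] at hw
          exact congrArg Subtype.val (hq ⟨w, hwv⟩ hw)
    have h2 := Set.ncard_le_ncard h1 (Set.toFinite _)
    rw [Set.ncard_insert_of_notMem (by
      rintro ⟨q, -, hq⟩
      exact q.2 hq), Set.ncard_image_of_injective _ Subtype.val_injective] at h2
    omega
  have hC : ((Cr G f').ncard : ℤ) ≤ 2 * (((Cf (G.induce {u | u ≠ v}) f).edgeSet.ncard : ℤ) + g) := by
    have h1 : Cr G f' ⊆ Prod.map Subtype.val Subtype.val '' Cr (G.induce {u | u ≠ v}) f ∪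
        {p : U × U | G.Adj p.1 p.2 ∧ (p.1 = v ∨ p.2 = v)} := by
      rintro ⟨u, w⟩ ⟨huw, hf⟩
      have hf : f' u ≠ f' w := hf
      have huw : G.Adj u w := huw
      by_cases hu : u = v
      · exact Or.inr ⟨huw, Or.inl hu⟩
      · by_cases hw : w = v
        · exact Or.inr ⟨huw, Or.inr hw⟩
        · refine Or.inl ⟨(⟨u, hu⟩, ⟨w, hw⟩), ⟨huw, fun he => hf ?_⟩, rfl⟩
          rw [hout u hu, hout w hw]
          exact he
    have h2 := Set.ncard_le_ncard h1 (Set.toFinite _)
    have h4 := Set.ncard_union_le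
      (Prod.map Subtype.val Subtype.val '' Cr (G.induce {u | u ≠ v}) f)
      {p : U × U | G.Adj p.1 p.2 ∧ (p.1 = v ∨ p.2 = v)}
    rw [Set.ncard_image_of_injective _ (Subtype.val_injective.prodMap
      Subtype.val_injective)] at h4
    have h5 := cr_two (G := G.induce {u | u ≠ v}) f
    omega
  have := vl_ge (d := d) h6 hK hS hC
  unfold vl at this ⊢
  linarith

/-- removing an edge inside a class -/
theorem vl_del_eq [Finite U] {a b : U} (f : U → ℕ) (hab : f a = f b) {h d : ℕ} (h6 : 6 ≤ h) :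
    vl h d (G0 G a b) f ≤ vl h d G f := by
  have hC : ((Cr G f).ncard : ℤ) ≤ 2 * ((Cf (G0 G a b) f).edgeSet.ncard : ℤ) := by
    have h1 : Cr G f ⊆ Cr (G0 G a b) f := by
      rintro ⟨u, w⟩ ⟨huw, hf⟩
      refine ⟨G0_adj.2 ⟨huw, fun he => ?_⟩, hf⟩
      have hf : f u ≠ f w := hf
      rcases Sym2.eq_iff.1 he with ⟨e1, e2⟩ | ⟨e1, e2⟩
      · have e1 : u = a := e1
        have e2 : w = b := e2
        rw [e1, e2] at hf
        exact hf hab
      · have e1 : u = b := e1
        have e2 : w = a := e2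
        rw [e1, e2] at hf
        exact hf hab.symm
    have h2 := Set.ncard_le_ncard h1 (Set.toFinite _)
    rw [cr_two (G := G0 G a b) f] at h2
    exact_mod_cast h2
  have := vl_ge (d := d) h6 le_rfl le_rfl hC
  unfold vl at this ⊢
  linarith

/-- removing an edge between two classes -/
theorem vl_del_ne [Finite U] {a b : U} (f : U → ℕ) {h d : ℕ} (h6 : 6 ≤ h) :
    vl h d (G0 G a b) f ≤ vl h d G f + h := by
  have hC : ((Cr G f).ncard : ℤ) ≤ 2 * (((Cf (G0 G a b) f).edgeSet.ncard : ℤ) + 1) := by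
    have h1 : Cr G f ⊆ Cr (G0 G a b) f ∪ {(a, b), (b, a)} := by
      rintro ⟨u, w⟩ ⟨huw, hf⟩
      by_cases he : s(u, w) = s(a, b)
      · right
        rcases Sym2.eq_iff.1 he with ⟨e1, e2⟩ | ⟨e1, e2⟩
        · left
          rw [e1, e2]
        · right
          show (u, w) = (b, a)
          rw [e1, e2]
      · exact Or.inl ⟨G0_adj.2 ⟨huw, he⟩, hf⟩
    have h2 := Set.ncard_le_ncard h1 (Set.toFinite _)
    have h4 := Set.ncard_union_le (Cr (G0 G a b) f) {(a, b), (b, a)}
    have h5 : ({(a, b), (b, a)} : Set (U × U)).ncard ≤ 2 := by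
      refine (Set.ncard_insert_le _ _).trans ?_
      rw [Set.ncard_singleton]
    rw [cr_two (G := G0 G a b) f] at h4
    omega
  have := vl_ge (d := d) h6 le_rfl le_rfl hC
  unfold vl at this ⊢
  linarith

/-- constant colourings -/
theorem vl_const [Finite U] (h2 : 2 ≤ Nat.card U) {f : U → ℕ} (hf : ∀ u w, f u = f w) (h d : ℕ) :
    vl h d G f = 6 := by
  have hne : Nonempty U := by
    by_contra hcon
    rw [not_nonempty_iff] at hcon
    rw [Nat.card_of_isEmpty] at h2
    omega
  have hS : Sg f = ∅ := by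
    rw [Set.eq_empty_iff_forall_notMem]
    intro u hu
    have h1 : (Set.univ : Set U).ncard ≤ 1 := by
      rw [Set.ncard_le_one (Set.toFinite _)]
      intro a _ b _
      rw [hu a (hf a u), hu b (hf b u)]
    rw [Set.ncard_univ] at h1
    omega
  unfold vl
  rw [cf_const hf, range_const hf, hS, Set.ncard_empty]
  simp

theorem vl_one [Finite U] (h1 : Nat.card U = 1) (f : U → ℕ) (h d : ℕ) :
    vl h d G f = h + d := by
  have hss : Subsingleton U := by
    rw [Nat.card_eq_one_iff_unique] at h1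
    exact h1.1
  have hne : Nonempty U := by
    rw [Nat.card_eq_one_iff_unique] at h1
    exact h1.2
  have hf : ∀ u w, f u = f w := fun u w => by rw [Subsingleton.elim u w]
  have hS : Sg f = Set.univ := by
    rw [Set.eq_univ_iff_forall]
    intro u w _
    exact Subsingleton.elim _ _
  unfold vl
  rw [cf_const hf, range_const hf, hS, Set.ncard_univ, h1]
  push_cast
  ring

/-- the contracted vertex in the common class of its neighbours -/
theorem vl_sp_eq [Finite U] {v a b : U} (hav : a ≠ v) (hbv : b ≠ v) (hab : a ≠ b)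
    (hdeg : ∀ u, G.Adj v u → u = a ∨ u = b) (f : {u : U // u ≠ v} → ℕ)
    (hf : f ⟨a, hav⟩ = f ⟨b, hbv⟩) {h d : ℕ} (h6 : 6 ≤ h) :
    ∃ f' : U → ℕ, vl h d (Sp G v a b) f ≤ vl h d G f' := by
  classical
  let f' : U → ℕ := fun u => if h : u = v then f ⟨a, hav⟩ else f ⟨u, h⟩
  have hin : f' v = f ⟨a, hav⟩ := dif_pos rfl
  have hout : ∀ u (hu : u ≠ v), f' u = f ⟨u, hu⟩ := fun u hu => dif_neg hu
  refine ⟨f', ?_⟩
  have hK : ((Set.range f).ncard : ℤ) ≤ (Set.range f').ncard := by
    have h1 : Set.range f ⊆ Set.range f' := by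
      rintro _ ⟨q, rfl⟩
      exact ⟨q.1, hout q.1 q.2⟩
    exact_mod_cast Set.ncard_le_ncard h1 (Set.toFinite _)
  have hS : ((Sg f).ncard : ℤ) ≤ (Sg f').ncard := by
    have h1 : Subtype.val '' Sg f ⊆ Sg f' := by
      rintro _ ⟨q, hq, rfl⟩ w hw
      rw [hout q.1 q.2] at hw
      by_cases hwv : w = v
      · rw [hwv, hin] at hw
        have e1 := hq ⟨a, hav⟩ hw
        have e2 := hq ⟨b, hbv⟩ (hf ▸ hw)
        exact absurd (congrArg Subtype.val (e1.trans e2.symm)) hab
      · rw [hout w hwv] at hw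
        exact congrArg Subtype.val (hq ⟨w, hwv⟩ hw)
    have h2 := Set.ncard_le_ncard h1 (Set.toFinite _)
    rw [Set.ncard_image_of_injective _ Subtype.val_injective] at h2
    exact_mod_cast h2
  have hC : ((Cr G f').ncard : ℤ) ≤ 2 * ((Cf (Sp G v a b) f).edgeSet.ncard : ℤ) := by
    have hv : ∀ w, G.Adj v w → f' v = f' w := by
      intro w hw
      have hwv : w ≠ v := hw.ne'
      rw [hin, hout w hwv]
      rcases hdeg w hw with rfl | rfl
      · rfl
      · exact hf
    have h1 : Cr G f' ⊆ Prod.map Subtype.val Subtype.val '' Cr (Sp G v a b) f := by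
      rintro ⟨u, w⟩ ⟨huw, hf⟩
      have hf : f' u ≠ f' w := hf
      have huw : G.Adj u w := huw
      by_cases hu : u = v
      · subst hu
        exact absurd (hv w huw) hf
      · by_cases hw : w = v
        · subst hw
          exact absurd (hv u huw.symm).symm hf
        · refine ⟨(⟨u, hu⟩, ⟨w, hw⟩), ⟨⟨fun he => huw.ne (congrArg Subtype.val he), Or.inl huw⟩,
            fun he => hf ?_⟩, rfl⟩
          rw [hout u hu, hout w hw]
          exact he
    have h2 := Set.ncard_le_ncard h1 (Set.toFinite _)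
    rw [Set.ncard_image_of_injective _ (Subtype.val_injective.prodMap Subtype.val_injective),
      cr_two (G := Sp G v a b) f] at h2
    exact_mod_cast h2
  have := vl_ge (d := d) h6 hK hS hC
  unfold vl at this ⊢
  linarith

/-- the contracted vertex between two classes -/
theorem vl_sp_ne [Finite U] {v a b : U} (hav : a ≠ v) (hbv : b ≠ v)
    (hnab : ¬ G.Adj a b) (f : {u : U // u ≠ v} → ℕ)
    (hf : f ⟨a, hav⟩ ≠ f ⟨b, hbv⟩) {h d : ℕ} (h6 : 6 ≤ h) :
    vl h d (Sp G v a b) f + h ≤ vl h d (G.induce {u | u ≠ v}) f := by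
  classical
  have hne : (⟨a, hav⟩ : {u : U // u ≠ v}) ≠ ⟨b, hbv⟩ := fun h => hf (by rw [h])
  have hC : ((Cr (G.induce {u | u ≠ v}) f).ncard : ℤ) ≤
      2 * (((Cf (Sp G v a b) f).edgeSet.ncard : ℤ) - 1) := by
    set T : Set ({u : U // u ≠ v} × {u : U // u ≠ v}) :=
      {(⟨a, hav⟩, ⟨b, hbv⟩), (⟨b, hbv⟩, ⟨a, hav⟩)} with hT
    have h1 : T ⊆ Cr (Sp G v a b) f := by
      rintro p (rfl | rfl)
      · exact ⟨⟨hne, Or.inr rfl⟩, hf⟩
      · exact ⟨⟨hne.symm, Or.inr Sym2.eq_swap⟩, hf.symm⟩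
    have h2 : (Cr (G.induce {u | u ≠ v}) f : Set ({u : U // u ≠ v} × {u : U // u ≠ v})) ⊆
        Cr (Sp G v a b) f \ T := by
      rintro ⟨u, w⟩ ⟨huw, hf'⟩
      have huw : G.Adj u.1 w.1 := huw
      refine ⟨⟨⟨fun he => huw.ne (congrArg Subtype.val he), Or.inl huw⟩, hf'⟩, ?_⟩
      rintro (he | he)
      · have e1 : u = ⟨a, hav⟩ := congrArg Prod.fst he
        have e2 : w = ⟨b, hbv⟩ := congrArg Prod.snd he
        rw [e1, e2] at huw
        exact hnab huw
      · have e1 : u = ⟨b, hbv⟩ := congrArg Prod.fst he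
        have e2 : w = ⟨a, hav⟩ := congrArg Prod.snd he
        rw [e1, e2] at huw
        exact hnab huw.symm
    have h4 := Set.ncard_le_ncard h2 (Set.toFinite _)
    have h5 := Set.ncard_sdiff_add_ncard_of_subset h1 (Set.toFinite _)
    have h6 : T.ncard = 2 := Set.ncard_pair (fun he => hne (congrArg Prod.fst he))
    have h7 := cr_two (G := Sp G v a b) f
    omega
  have := vl_ge (d := d) (G := G.induce {u | u ≠ v}) (f := f) h6 le_rfl le_rfl hC
  unfold vl at this ⊢
  linarith

/-- the replaced part -/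
theorem e_rp [Finite U] {X : Set U} (hX2 : 2 ≤ X.ncard)
    (h1 : ∀ u, u ∉ X → ∀ x ∈ X, ∀ y ∈ X, G.Adj u x → G.Adj u y → x = y)
    (f : ({u // u ∉ X} ⊕ Fin 4) → ℕ) (hf : ∀ i, f (Sum.inr i) = f (Sum.inr 0)) {h d : ℕ}
    (h6 : 6 ≤ h) : ∃ f' : U → ℕ, vl h d (Rp G X) f ≤ vl h d G f' := by
  classical
  let c : U → ({u // u ∉ X} ⊕ Fin 4) := fun u => if h : u ∈ X then Sum.inr 0 else Sum.inl ⟨u, h⟩
  have hin : ∀ u (_ : u ∈ X), c u = Sum.inr 0 := fun u hu => dif_pos hu
  have hout : ∀ u (hu : u ∉ X), c u = Sum.inl ⟨u, hu⟩ := fun u hu => dif_neg hu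
  let f' : U → ℕ := fun u => f (c u)
  obtain ⟨x0, hx0, x1, hx1, hx01⟩ := (Set.one_lt_ncard (Set.toFinite _)).1 (by omega : 1 < X.ncard)
  refine ⟨f', ?_⟩
  have hK : ((Set.range f).ncard : ℤ) ≤ (Set.range f').ncard := by
    have h1 : Set.range f ⊆ Set.range f' := by
      rintro _ ⟨q | i, rfl⟩
      · exact ⟨q.1, congrArg f (hout q.1 q.2)⟩
      · exact ⟨x0, (congrArg f (hin x0 hx0)).trans (hf i).symm⟩
    exact_mod_cast Set.ncard_le_ncard h1 (Set.toFinite _)
  have hS : ((Sg f).ncard : ℤ) ≤ (Sg f').ncard := by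
    have hsub : Sg f ⊆ c '' Sg f' := by
      rintro (q | i) hq
      · refine ⟨q.1, fun w hw => ?_, hout q.1 q.2⟩
        have hw : f (c w) = f (c q.1) := hw
        rw [hout q.1 q.2] at hw
        by_cases hwX : w ∈ X
        · rw [hin w hwX] at hw
          have := hq _ hw
          exact absurd this (by simp)
        · rw [hout w hwX] at hw
          have := Sum.inl_injective (hq _ hw)
          exact congrArg Subtype.val this
      · have e1 := hq (Sum.inr 0) (hf i).symm
        have e2 := hq (Sum.inr 1) ((hf 1).trans (hf i).symm)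
        have := Sum.inr_injective (e1.trans e2.symm)
        exact absurd this (by decide)
    have h2 := Set.ncard_le_ncard hsub (Set.toFinite _)
    have h4 := Set.ncard_image_le (f := c) (s := Sg f') (Set.toFinite _)
    exact_mod_cast h2.trans h4
  have hC : ((Cr G f').ncard : ℤ) ≤ 2 * ((Cf (Rp G X) f).edgeSet.ncard : ℤ) := by
    have h2 : (Cr G f').ncard ≤ (Cr (Rp G X) f).ncard := by
      refine Set.ncard_le_ncard_of_injOn (fun p => (c p.1, c p.2)) ?_ ?_ (Set.toFinite _)
      · rintro ⟨u, w⟩ ⟨huw, hf'⟩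
        have hf' : f (c u) ≠ f (c w) := hf'
        have huw : G.Adj u w := huw
        refine ⟨?_, hf'⟩
        show (Rp G X).Adj (c u) (c w)
        by_cases hu : u ∈ X
        · by_cases hw : w ∈ X
          · rw [hin u hu, hin w hw] at hf'
            exact absurd rfl hf'
          · rw [hin u hu, hout w hw]
            exact ⟨rfl, u, hu, huw.symm⟩
        · by_cases hw : w ∈ X
          · rw [hout u hu, hin w hw]
            exact ⟨rfl, w, hw, huw⟩
          · rw [hout u hu, hout w hw]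
            exact huw
      · rintro ⟨u, w⟩ ⟨huw, hf'⟩ ⟨u', w'⟩ ⟨huw', hf''⟩ he
        have hf' : f (c u) ≠ f (c w) := hf'
        have huw : G.Adj u w := huw
        have huw' : G.Adj u' w' := huw'
        have e1 : c u = c u' := congrArg Prod.fst he
        have e2 : c w = c w' := congrArg Prod.snd he
        have key : ∀ s t, s ∉ X → c s = c t → s = t := by
          intro s t hs he
          rw [hout s hs] at he
          by_cases ht : t ∈ X
          · rw [hin t ht] at he
            exact absurd he (by simp)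
          · rw [hout t ht] at he
            exact congrArg Subtype.val (Sum.inl_injective he)
        have key2 : ∀ s t, s ∈ X → c s = c t → t ∈ X := by
          intro s t hs he
          by_contra ht
          rw [hin s hs, hout t ht] at he
          exact absurd he (by simp)
        by_cases hu : u ∈ X
        · by_cases hw : w ∈ X
          · rw [hin u hu, hin w hw] at hf'
            exact absurd rfl hf'
          · have e3 := key w w' hw e2
            subst e3
            have e4 := h1 w hw u hu u' (key2 u u' hu e1) huw.symm huw'.symm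
            rw [e4]
        · have e3 := key u u' hu e1
          subst e3
          by_cases hw : w ∈ X
          · have e4 := h1 u hu w hw w' (key2 w w' hw e2) huw huw'
            rw [e4]
          · rw [key w w' hw e2]
    rw [cr_two (G := Rp G X) f] at h2
    exact_mod_cast h2
  have := vl_ge (d := d) h6 hK hS hC
  unfold vl at this ⊢
  linarith

theorem cls_le' [Fintype U] [Fintype W] {d : ℕ} (hr2 : genRank 3 H + d ≤ 2 * Fintype.card W)
    (h6 : 6 ≤ Fintype.card W) (p : U × W → Fin 3 → ℝ) (f : U → ℕ) :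
    6 * (Set.range f).ncard + (Fintype.card W + d - 6) * (Sg f).ncard ≤ mo ((Ci G f) □ H) p := by
  classical
  let S : ∀ c : Set.range f, Submodule ℝ (({u | f u = c.1} : Set U) × W → Fin 3 → ℝ) := fun c =>
    Sol ((G.induce {u | f u = c.1}) □ H) (df fun z => p (z.1.1, z.2)) 
      (0 : ({u | f u = c.1} : Set U) × W → Fin 0 → Fin 3 → ℝ)
  let F : (∀ c : Set.range f, S c) →ₗ[ℝ] (U × W → Fin 3 → ℝ) :=
    { toFun := fun m z => (m ⟨f z.1, z.1, rfl⟩).1 (⟨z.1, rfl⟩, z.2)
      map_add' := fun _ _ => rfl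
      map_smul' := fun _ _ => rfl }
  have hFv : ∀ m (c : Set.range f) (u : U) (hu : f u = c.1) (x : W),
      F m (u, x) = (m c).1 (⟨u, hu⟩, x) := by
    rintro m ⟨c, hc⟩ u hu x
    have hu : f u = c := hu
    subst hu
    rfl
  have hF : ∀ m, F m ∈ Mot ((Ci G f) □ H) p := by
    intro m
    rw [mem_mot]
    rintro ⟨u, x⟩ ⟨v, y⟩ h
    rcases h with ⟨⟨h, h2⟩, h'⟩ | ⟨h, h'⟩
    · have h' : x = y := h'
      have hvu : f v = f u := h2.symm
      subst h'
      rw [hFv m ⟨f u, u, rfl⟩ u rfl, hFv m ⟨f u, u, rfl⟩ v hvu]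
      exact (m ⟨f u, u, rfl⟩).2.1 (⟨u, rfl⟩, x) (⟨v, hvu⟩, x) (Or.inl ⟨h, rfl⟩)
    · have h' : u = v := h'
      subst h'
      exact (m ⟨f u, u, rfl⟩).2.1 (⟨u, rfl⟩, x) (⟨u, rfl⟩, y) (Or.inr ⟨h, rfl⟩)
  have hinj : Function.Injective (F.codRestrict _ hF) := by
    rw [injective_iff_map_eq_zero]
    intro m h
    rw [Subtype.ext_iff] at h
    have h : F m = 0 := h
    funext c
    refine Subtype.ext ?_
    funext ⟨⟨u, hu⟩, x⟩
    have h5 := hFv m c u hu x
    rw [h] at h5
    exact h5.symm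
  have h1 := LinearMap.finrank_le_finrank_of_injective hinj
  rw [Module.finrank_pi_fintype] at h1
  have h2 : ∀ c : Set.range f, 6 + (if c.1 ∈ f '' Sg f then (Fintype.card W + d - 6) else 0) ≤
      finrank ℝ (S c) := by
    rintro ⟨c, u0, hu0⟩
    subst hu0
    by_cases hc : f u0 ∈ f '' Sg f
    · rw [if_pos hc]
      obtain ⟨u, hu, hfu⟩ := hc
      have hu' : ∀ w, f w = f u0 → w = u := fun w hw => hu w (hw.trans hfu.symm)
      have h5 := layer_le (fun x => p (u, x)) H
      let ι : Mot H (fun x => p (u, x)) →ₗ[ℝ] S ⟨f u0, u0, rfl⟩ :=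
        { toFun := fun m => ⟨fun z => m.1 z.2, by
            refine ⟨?_, fun v i => i.elim0⟩
            rintro ⟨⟨a, ha⟩, x⟩ ⟨⟨b, hb⟩, y⟩ h
            have ea := hu' a ha
            have eb := hu' b hb
            subst ea
            subst eb
            rcases h with ⟨h, h'⟩ | ⟨h, h'⟩
            · exact absurd h (SimpleGraph.irrefl _)
            · exact (mem_mot _ _ _).1 m.2 x y h⟩
          map_add' := fun _ _ => rfl
          map_smul' := fun _ _ => rfl }
      have hι : Function.Injective ι := by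
        rw [injective_iff_map_eq_zero]
        intro m h
        refine Subtype.ext ?_
        funext x
        have h7 : (ι m).1 (⟨u0, rfl⟩, x) = 0 := by rw [h]; rfl
        exact h7
      have h8 := LinearMap.finrank_le_finrank_of_injective hι
      have h9 : mo H (fun x => p (u, x)) = finrank ℝ (Mot H (fun x => p (u, x))) := rfl
      omega
    · rw [if_neg hc, add_zero]
      refine six_le_sol _ ?_ _
      rw [Fintype.card_prod]
      have : 0 < Fintype.card ({u | f u = f u0} : Set U) := Fintype.card_pos_iff.2 ⟨⟨u0, rfl⟩⟩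
      nlinarith
  have h3 := Finset.sum_le_sum (s := Finset.univ) (fun c _ => h2 c)
  rw [Finset.sum_add_distrib, Finset.sum_const, Finset.card_univ, smul_eq_mul,
    ← Finset.sum_filter, Finset.sum_const, smul_eq_mul] at h3
  have h4 : (Set.range f).ncard = Fintype.card (Set.range f) := by
    rw [← Nat.card_coe_set_eq, Nat.card_eq_fintype_card]
  have h5 : (Sg f).ncard ≤ (Finset.univ.filter fun c : Set.range f => c.1 ∈ f '' Sg f).card := by
    have h6 : (f '' Sg f).ncard = (Sg f).ncard :=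
      Set.ncard_image_of_injOn fun u hu w hw he => hw u he
    have h7 : (f '' Sg f).ncard ≤
        ((Finset.univ.filter fun c : Set.range f => c.1 ∈ f '' Sg f).image Subtype.val).card := by
      rw [← Set.ncard_coe_finset]
      refine Set.ncard_le_ncard ?_ (Set.toFinite _)
      rintro c hc
      rw [Finset.mem_coe, Finset.mem_image]
      obtain ⟨u, hu, rfl⟩ := hc
      exact ⟨⟨f u, u, rfl⟩, Finset.mem_filter.2 ⟨Finset.mem_univ _, u, hu, rfl⟩, rfl⟩
    have h8 : ((Finset.univ.filter fun c : Set.range f =>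
        c.1 ∈ f '' Sg f).image Subtype.val).card ≤
        (Finset.univ.filter fun c : Set.range f => c.1 ∈ f '' Sg f).card := Finset.card_image_le
    omega
  have h6 : mo ((Ci G f) □ H) p = finrank ℝ (Mot ((Ci G f) □ H) p) := rfl
  have h7 := Nat.mul_le_mul_left (Fintype.card W + d - 6) h5
  rw [h6, h4]
  refine le_trans ?_ (h3.trans h1)
  rw [mul_comm 6, mul_comm (Finset.card _)]
  exact Nat.add_le_add_left h7 _

/-- **The value of a colouring is a lower bound.** -/
theorem vl_le [Fintype U] [Fintype W] {d : ℕ} (hr2 : genRank 3 H + d ≤ 2 * Fintype.card W)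
    (h6 : 6 ≤ Fintype.card W) {N : ℕ} (hm : Mu 0 N (G □ H)) (f : U → ℕ) :
    vl (Fintype.card W) d G f ≤ N := by
  classical
  obtain ⟨p, hp⟩ := exists_mg (U × W) 3
  have hmo : mo (G □ H) p ≤ N := by
    obtain ⟨p', d, h⟩ := hm
    refine (hp.min (G □ H) p').trans (le_trans ?_ h)
    refine Submodule.finrank_mono ?_
    intro q hq
    rw [mem_mot] at hq
    exact ⟨fun u v huv => hq u v huv, fun v i => i.elim0⟩
  have h1 := mo_le_add (G := (Ci G f) □ H) (G' := G □ H) p
  have h2 := cls_le' (G := G) hr2 h6 p f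
  have h4 : ((G □ H).edgeSet \ ((Ci G f) □ H).edgeSet).ncard ≤
      ((Cf G f) □ (⊥ : SimpleGraph W)).edgeSet.ncard := by
    refine Set.ncard_le_ncard ?_ (Set.toFinite _)
    intro e he
    induction e using Sym2.ind with | _ v w => ?_
    obtain ⟨h5, h6⟩ := he
    rw [mem_edgeSet] at h5 h6 ⊢
    rcases h5 with h5 | h5
    · refine Or.inl ⟨⟨h5.1, fun hh => h6 (Or.inl ⟨⟨h5.1, hh⟩, h5.2⟩)⟩, h5.2⟩
    · exact absurd (Or.inr h5) h6
  rw [ncard_boxProd] at h4
  simp only [edgeSet_bot, Set.ncard_empty, mul_zero, add_zero] at h4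
  rw [mul_comm] at h4
  unfold vl
  have h5 : ((Fintype.card W + d - 6 : ℕ) : ℤ) = (Fintype.card W : ℤ) + d - 6 := by
    push_cast [show 6 ≤ Fintype.card W + d by omega]
    ring
  rw [← h5]
  have h6 : 6 * (Set.range f).ncard + (Fintype.card W + d - 6) * (Sg f).ncard ≤
      N + Fintype.card W * (Cf G f).edgeSet.ncard := by
    omega
  have h7 : (6 * ((Set.range f).ncard : ℤ) + ((Fintype.card W + d - 6 : ℕ) : ℤ) * (Sg f).ncard) ≤
      N + (Fintype.card W : ℤ) * (Cf G f).edgeSet.ncard := by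
    exact_mod_cast h6
  linarith

end Pool.Agent.J4H92.NC
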