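import Pool.Agent.J4H92.NC.F5
import Pool.Agent.J4H92.NC.E3

/-!
# Reductions of a minimal counterexample, general rank
-/

set_option autoImplicit false

namespace Pool.Agent.J4H92.NC

open SimpleGraph hiding between

open Module Pool.Agent.H283R2.DR Pool.Agent.H283R2.DR.TA Pool.Agent.J4H92.CP Pool.Agent.H789R5

variable {U W : Type} {G : SimpleGraph U} {H : SimpleGraph W} {d : ℕ}

/-- The number of degrees of freedom is at most the maximal value of a colouring. -/
def Tg [Fintype W] (d : ℕ) (H : SimpleGraph W) (G : SimpleGraph U) : Prop :=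
  ∀ N : ℕ, (∀ f : U → ℕ, vl (Fintype.card W) d G f ≤ N) → Mu 0 N (G □ H)

theorem mu_layer' [Fintype W] (hr : genRank 3 H + d = 2 * Fintype.card W) :
    Mu 0 (Fintype.card W + d) H := mu_of_rank (by omega)

theorem tg_one [Fintype U] [Fintype W] (hr : genRank 3 H + d = 2 * Fintype.card W)
    (h1 : Nat.card U = 1) : Tg d H G := by
  intro N hN
  have h2 := hN (fun _ => 0)
  rw [vl_one h1] at h2
  have h3 : Fintype.card W + d ≤ N := by exact_mod_cast h2
  obtain ⟨hs, ⟨u0⟩⟩ := Nat.card_eq_one_iff_unique.1 h1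
  let e : U × W ≃ W :=
    { toFun := Prod.snd
      invFun := fun w => (u0, w)
      left_inv := fun z => Prod.ext (Subsingleton.elim _ _) rfl
      right_inv := fun _ => rfl }
  exact ((mu_layer' hr).pull (G := G □ H) e (fun a b hab => Or.inr ⟨hab, rfl⟩)).mono h3

theorem vl_const_nonneg [Finite U] (hne : Nonempty U) (h d : ℕ) :
    0 ≤ vl h d G (fun _ => 0) := by
  have h1 : 0 < Nat.card U := Nat.card_pos
  by_cases h2 : 2 ≤ Nat.card U
  · rw [vl_const h2 (fun _ _ => rfl)]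
    norm_num
  · rw [vl_one (by omega)]
    positivity

/-- **A disconnected graph.** -/
theorem tg_disc [Fintype U] [Fintype W] (h6 : 6 ≤ Fintype.card W) (hne : Nonempty U)
    (hG : ¬ G.Connected)
    (hI : ∀ A : Set U, A.Nonempty → A ≠ Set.univ → Tg d H (G.induce A)) : Tg d H G := by
  classical
  intro N hN
  have hG' : ¬ G.Preconnected := fun h => hG ⟨h⟩
  unfold Preconnected at hG'
  push Not at hG'
  obtain ⟨u, w, huw⟩ := hG'
  set A : Set U := {x | G.Reachable u x} with hAdef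
  have huA : u ∈ A := Reachable.refl u
  have hwA : w ∉ A := huw
  have hA : ∀ x ∈ A, ∀ y, y ∉ A → ¬ G.Adj x y := fun x hx y hy hxy => hy (hx.trans hxy.reachable)
  have hneA : Nonempty A := ⟨⟨u, huA⟩⟩
  have hneB : Nonempty (Aᶜ : Set U) := ⟨⟨w, hwA⟩⟩
  have hP : ∃ n : ℕ, ∀ f1 : A → ℕ, vl (Fintype.card W) d (G.induce A) f1 ≤ n := by
    refine ⟨N, fun f1 => ?_⟩
    obtain ⟨f, hf⟩ := e_glue hA f1 (fun _ => 0) h6
    have h4 := vl_const_nonneg (G := G.induce Aᶜ) hneB (Fintype.card W) d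
    have h5 := hN f
    linarith
  set n0 := Nat.find hP with hn0
  have hn1 : ∀ f1 : A → ℕ, vl (Fintype.card W) d (G.induce A) f1 ≤ n0 := Nat.find_spec hP
  obtain ⟨f1, hf1⟩ : ∃ f1 : A → ℕ, (n0 : ℤ) ≤ vl (Fintype.card W) d (G.induce A) f1 := by
    by_cases h0 : n0 = 0
    · refine ⟨fun _ => 0, ?_⟩
      rw [h0]
      exact vl_const_nonneg hneA _ _
    · have h5 := Nat.find_min hP (m := n0 - 1) (by omega)
      push Not at h5
      obtain ⟨f1, h7⟩ := h5
      refine ⟨f1, ?_⟩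
      have : ((n0 - 1 : ℕ) : ℤ) = (n0 : ℤ) - 1 := by
        have : 1 ≤ n0 := by omega
        push_cast [this]
        ring
      rw [this] at h7
      linarith
  have hle : n0 ≤ N := by
    obtain ⟨f, hf⟩ := e_glue hA f1 (fun _ => 0) h6
    have h4 := vl_const_nonneg (G := G.induce Aᶜ) hneB (Fintype.card W) d
    have h5 := hN f
    have : (n0 : ℤ) ≤ N := by linarith
    exact_mod_cast this
  have hA1 := hI A ⟨u, huA⟩ (fun h => hwA (h ▸ Set.mem_univ w)) n0 hn1
  have hA2 := hI Aᶜ ⟨w, hwA⟩ (fun h => by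
    have : u ∈ Aᶜ := h ▸ Set.mem_univ u
    exact this huA) (N - n0) (fun f2 => by
      obtain ⟨f, hf⟩ := e_glue hA f1 f2 h6
      have h5 := hN f
      push_cast [hle]
      linarith)
  exact (mu_add hA1 hA2).mono (by omega)

/-- **An edge that is not critical.** -/
theorem tg_crit [Fintype U] [Fintype W] (h6 : 6 ≤ Fintype.card W) {a b : U} {N : ℕ}
    (hI : Tg d H (G0 G a b)) (hN : ∀ f : U → ℕ, vl (Fintype.card W) d G f ≤ N)
    (hno : ∀ f : U → ℕ, f a ≠ f b → vl (Fintype.card W) d G f + Fintype.card W ≤ N) :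
    Mu 0 N (G □ H) := by
  refine Mu.mono_graph ?_ (hI N fun f => ?_)
  · rintro ⟨u, x⟩ ⟨w, y⟩ (⟨h, h'⟩ | h)
    · exact Or.inl ⟨(G0_adj.1 h).1, h'⟩
    · exact Or.inr h
  · by_cases hf : f a = f b
    · exact (vl_del_eq f hf h6).trans (hN f)
    · exact (vl_del_ne f h6).trans (hno f hf)

/-- **A vertex of degree one.** -/
theorem tg_leaf [Fintype U] [Fintype W] (h6 : 6 ≤ Fintype.card W) (hH : GenRigid 2 H)
    (hr : genRank 3 H + d = 2 * Fintype.card W) (hd6 : d ≤ 6) {v a : U} {N : ℕ} (hva : G.Adj v a) (hdeg : ∀ u, G.Adj v u → u = a)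
    (hI : Tg d H (G.induce {u | u ≠ v})) (hN : ∀ f : U → ℕ, vl (Fintype.card W) d G f ≤ N)
    (hN6 : 6 ≤ N) : Mu 0 N (G □ H) := by
  classical
  have hd : {p : U × U | G.Adj p.1 p.2 ∧ (p.1 = v ∨ p.2 = v)}.ncard ≤ 2 * 1 := by
    have h1 : {p : U × U | G.Adj p.1 p.2 ∧ (p.1 = v ∨ p.2 = v)} ⊆ {(v, a), (a, v)} := by
      rintro ⟨x, y⟩ ⟨hxy, h⟩
      have hxy : G.Adj x y := hxy
      rcases h with h | h
      · have h : x = v := h
        subst h
        rw [hdeg y hxy]
        exact Or.inl rfl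
      · have h : y = v := h
        subst h
        rw [hdeg x hxy.symm]
        exact Or.inr rfl
    refine (Set.ncard_le_ncard h1 (Set.toFinite _)).trans ((Set.ncard_insert_le _ _).trans ?_)
    rw [Set.ncard_singleton]
  have h1 := hI (N - d) (fun f => by
    obtain ⟨f', hf'⟩ := e_new (d := d) (G := G) (v := v) f hd h6
    have h5 := hN f'
    have : d ≤ N := by omega
    push_cast [this] at hf' ⊢
    linarith)
  exact (mu_leaf hva h1 (mu_one hH (by omega) hr.ge)).mono (by omega)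

/-- **A vertex of degree two whose neighbours are not adjacent.** -/
theorem tg_split [Fintype U] [Fintype W] (h6 : 6 ≤ Fintype.card W) (hH : GenRigid 2 H)
    (hr : genRank 3 H + d = 2 * Fintype.card W) (hd1 : 1 ≤ d) (hd6 : d ≤ 6)
    {v a b : U} {N : ℕ} (hab : a ≠ b) (hva : G.Adj v a) (hvb : G.Adj v b)
    (hdeg : ∀ u, G.Adj v u → u = a ∨ u = b) (hnab : ¬ G.Adj a b)
    (hI1 : Tg d H (Sp G v a b)) (hI2 : Tg d H (G.induce {u | u ≠ v}))
    (hN : ∀ f : U → ℕ, vl (Fintype.card W) d G f ≤ N) : Mu 0 N (G □ H) := by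
  classical
  have hd : {p : U × U | G.Adj p.1 p.2 ∧ (p.1 = v ∨ p.2 = v)}.ncard ≤ 2 * 2 := by
    have h1 : {p : U × U | G.Adj p.1 p.2 ∧ (p.1 = v ∨ p.2 = v)} ⊆
        {(v, a), (a, v), (v, b), (b, v)} := by
      rintro ⟨x, y⟩ ⟨hxy, h⟩
      have hxy : G.Adj x y := hxy
      rcases h with h | h
      · have h : x = v := h
        subst h
        rcases hdeg y hxy with rfl | rfl
        · exact Or.inl rfl
        · exact Or.inr (Or.inr (Or.inl rfl))
      · have h : y = v := h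
        subst h
        rcases hdeg x hxy.symm with rfl | rfl
        · exact Or.inr (Or.inl rfl)
        · exact Or.inr (Or.inr (Or.inr rfl))
    refine (Set.ncard_le_ncard h1 (Set.toFinite _)).trans ?_
    have e1 := Set.ncard_insert_le (v, a) {(a, v), (v, b), (b, v)}
    have e2 := Set.ncard_insert_le (a, v) {(v, b), (b, v)}
    have e3 := Set.ncard_insert_le (v, b) {(b, v)}
    rw [Set.ncard_singleton] at e3
    omega
  have hnew : ∀ f : {u : U // u ≠ v} → ℕ, vl (Fintype.card W) d (G.induce {u | u ≠ v}) f + d ≤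
      N + Fintype.card W := by
    intro f
    obtain ⟨f', hf'⟩ := e_new (d := d) (G := G) (v := v) f hd h6
    have h5 := hN f'
    push_cast at hf'
    linarith
  have hdN : d ≤ N + Fintype.card W := by
    omega
  have h1 := hI2 (N + Fintype.card W - d) (fun f => by
    have h5 := hnew f
    have : d ≤ N + Fintype.card W := hdN
    push_cast [this]
    linarith)
  have h2 := hI1 N (fun f => by
    by_cases hf : f ⟨a, hva.ne'⟩ = f ⟨b, hvb.ne'⟩
    · obtain ⟨f', hf'⟩ := vl_sp_eq hva.ne' hvb.ne' hab hdeg f hf h6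
      exact hf'.trans (hN f')
    · have h5 := vl_sp_ne (d := d) hva.ne' hvb.ne' hnab f hf h6
      have h7 := hnew f
      have h8 : (0 : ℤ) ≤ d := by positivity
      linarith)
  exact mu_split' hab hva hvb hdeg hH (by omega) hd1 hr.ge hr.le le_rfl (by omega) h2 h1

/-- **A large rigid part.** -/
theorem tg_replace [Fintype U] [Fintype W] (h6 : 6 ≤ Fintype.card W) (hH : GenRigid 2 H)
    (hr : genRank 3 H + d = 2 * Fintype.card W) {X : Set U} {N : ℕ}
    (hX2 : 2 ≤ X.ncard) (hX : Mu 0 6 ((G.induce X) □ H))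
    (h1 : ∀ u, u ∉ X → ∀ x ∈ X, ∀ y ∈ X, G.Adj u x → G.Adj u y → x = y)
    (hI : Tg d H (Rp G X)) (hN : ∀ f : U → ℕ, vl (Fintype.card W) d G f ≤ N) :
    Mu 0 N (G □ H) := by
  classical
  refine mu_replace (by omega) hX (hI N fun f => ?_)
  have h2 := vl_mrg (G := Rp G X) (Γ := (⊤ : SimpleGraph (Fin 4))) (ι := Sum.inr)
    Sum.inr_injective (fun a b hab => hab.ne) 0 (f := f) (h := Fintype.card W) (by omega)
    (vl_le hr.le h6 (k4_rigid h6 hH) _)
  obtain ⟨f', hf'⟩ := e_rp hX2 h1 (mrg Sum.inr 0 f) (fun i => by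
    rw [mrg_in ⟨i, rfl⟩, mrg_in ⟨0, rfl⟩]) (h := Fintype.card W) (by omega)
  exact h2.trans (hf'.trans (hN f'))

end Pool.Agent.J4H92.NC
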