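import Pool.Agent.J4H92.NC.E6
import Pool.Agent.J4H92.NC.F8

/-!
# A minimal counterexample is small, general rank
-/

set_option autoImplicit false

namespace Pool.Agent.J4H92.NC

open SimpleGraph hiding between

open Module Pool.Agent.H283R2.DR Pool.Agent.H283R2.DR.TA Pool.Agent.J4H92.CP Pool.Agent.H789R5

variable {U W : Type} {G : SimpleGraph U} {H : SimpleGraph W} {d : ℕ}

/-- **A minimal counterexample is small.** -/
theorem count_le' [Fintype U] [Fintype W] (h30 : 30 ≤ Fintype.card W) (hH : GenRigid 2 H)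
    (hr0 : genRank 3 H + d = 2 * Fintype.card W) (hd3 : d ≤ 3)
    (hG : G.Connected) (h2 : ∀ v, Two G v) (h3 : Three G)
    (htri : ∀ v a b, a ≠ b → G.Adj v a → G.Adj v b → (∀ u, G.Adj v u → u = a ∨ u = b) → G.Adj a b)
    (hR4 : ∀ X : Set U, X ≠ Set.univ → 2 ≤ X.ncard → Mu 0 6 ((G.induce X) □ H) → X.ncard ≤ 4)
    (hnr : ¬ Mu 0 6 (G □ H)) {N : ℕ} (hN6 : 6 ≤ N) {f : U → ℕ} (hf : Ncg d H G N f)
    (hM : Mono H G f) : 3 * Fintype.card U ≤ Fintype.card W + 6 := by
  classical
  set R3 : Finset U := Finset.univ.filter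
    (fun v => v ∈ Sg f ∧ 3 ≤ (Finset.univ.filter (G.Adj v ·)).card) with hR3d
  set R2 : Finset U := Finset.univ.filter
    (fun v => v ∈ Sg f ∧ ¬ 3 ≤ (Finset.univ.filter (G.Adj v ·)).card) with hR2d
  set R0 : Finset U := Finset.univ.filter (fun v => v ∉ Sg f) with hR0d
  have m3 : ∀ v, v ∈ R3 ↔ v ∈ Sg f ∧ 3 ≤ (Finset.univ.filter (G.Adj v ·)).card := by
    intro v
    rw [hR3d, Finset.mem_filter]
    simp
  have m2 : ∀ v, v ∈ R2 ↔ v ∈ Sg f ∧ ¬ 3 ≤ (Finset.univ.filter (G.Adj v ·)).card := by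
    intro v
    rw [hR2d, Finset.mem_filter]
    simp
  have m0 : ∀ v, v ∈ R0 ↔ v ∉ Sg f := by
    intro v
    rw [hR0d, Finset.mem_filter]
    simp
  set C0 := R0.image f with hC0
  -- triangles
  have hφe : ∀ v, ∃ w x, v ∈ R2 → (w ∈ R3 ∧ G.Adj v w ∧ G.Adj v x ∧ G.Adj w x) := by
    intro v
    by_cases hv : v ∈ R2
    swap
    · exact ⟨v, v, fun h => absurd h hv⟩
    obtain ⟨hvs, hvd⟩ := (m2 v).1 hv
    obtain ⟨a, b, hab, hva, hvb⟩ := h2 v
    have hdeg := nb_two hab hva hvb hvd
    have hadj := htri v a b hab hva hvb hdeg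
    by_cases hd2 : d ≤ 2
    · exact (no_rigid hnr hM (X := {v, a, b}) (u := v) (w := a) (Or.inl rfl)
        (Or.inr (Or.inl rfl)) (fun h => hva.ne' (hvs a h.symm))
        (tri_rig (by omega) hH (by omega) hva hvb hadj)).elim
    have ha := tri_sg' (by omega) hH hf.cl hnr hM hva hvb hadj hvs
    have hb := tri_sg' (by omega) hH hf.cl hnr hM hvb hva hadj.symm hvs
    by_cases h3a : 3 ≤ (Finset.univ.filter (G.Adj a ·)).card
    · exact ⟨a, b, fun _ => ⟨(m3 a).2 ⟨ha, h3a⟩, hva, hvb, hadj⟩⟩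
    by_cases h3b : 3 ≤ (Finset.univ.filter (G.Adj b ·)).card
    · exact ⟨b, a, fun _ => ⟨(m3 b).2 ⟨hb, h3b⟩, hvb, hva, hadj.symm⟩⟩
    exact (no_tri hG h3 hdeg (nb_two hvb.ne hva.symm hadj h3a)
      (nb_two hva.ne hvb.symm hadj.symm h3b)).elim
  choose φ ψ hφ using hφe
  have hr : R2.card ≤ 2 * R3.card := by
    refine Finset.card_le_mul_card_image_of_maps_to (f := φ) (fun v hv => (hφ v hv).1) 2 ?_
    intro w hw
    by_cases hemp : (R2.filter (fun v => φ v = w)) = ∅
    · rw [hemp]
      simp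
    obtain ⟨v0, hv0⟩ := Finset.nonempty_iff_ne_empty.2 hemp
    have hsub : R2.filter (fun v => φ v = w) ⊆ {v0, ψ v0} := by
      intro v' hv'
      by_contra hcon
      rw [Finset.mem_insert, Finset.mem_singleton, not_or] at hcon
      obtain ⟨hv0, e0⟩ := Finset.mem_filter.1 hv0
      obtain ⟨hv', e'⟩ := Finset.mem_filter.1 hv'
      obtain ⟨-, p1, p2, p3⟩ := hφ v0 hv0
      obtain ⟨-, q1, q2, q3⟩ := hφ v' hv'
      rw [e0] at p1 p3
      rw [e'] at q1 q3
      have h5 := two_tri (by omega) hH p1.symm p3 p2 q1.symm q3 q2 hcon.1 hcon.2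
      have hws := ((m3 w).1 hw).1
      refine no_rigid hnr hM (X := {w, v0, ψ v0, v', ψ v'}) (u := w) (w := v0) (Or.inl rfl)
        (Or.inr (Or.inl rfl)) (fun h => ?_) h5
      exact p1.ne (hws v0 h.symm)
    exact (Finset.card_le_card hsub).trans Finset.card_le_two
  -- representatives of the large classes
  have hte : ∀ c, ∃ b, c ∈ C0 → (f b = c ∧ b ∉ Sg f ∧ ∃ x, G.Adj b x ∧ f b ≠ f x) := by
    intro c
    by_cases hc : c ∈ C0
    swap
    · exact ⟨(h3.choose), fun h => absurd h hc⟩
    obtain ⟨u, hu, rfl⟩ := Finset.mem_image.1 hc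
    have hus := (m0 u).1 hu
    obtain ⟨b, hb, x, hx, hbx⟩ := exists_cross hG (B := {w | f w = f u}) ⟨u, rfl⟩
      (cls_ne_univ hf.ne (f u))
    have hb : f b = f u := hb
    have hx : f x ≠ f u := hx
    refine ⟨b, fun _ => ⟨hb, fun hbs => hus ?_, x, hbx, fun h => hx (h ▸ hb)⟩⟩
    rw [hbs u hb.symm]
    exact hbs
  choose t ht using hte
  set T := C0.image t with hT
  have hTc : T.card = C0.card := by
    refine Finset.card_image_of_injOn fun c hc c' hc' h => ?_
    rw [← (ht c hc).1, ← (ht c' hc').1, h]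
  have mT : ∀ v ∈ T, v ∉ Sg f ∧ ∃ x, G.Adj v x ∧ f v ≠ f x := by
    intro v hv
    obtain ⟨c, hc, rfl⟩ := Finset.mem_image.1 hv
    exact (ht c hc).2
  -- the number of crossing pairs
  let cd : U → ℕ := fun v => (Finset.univ.filter fun w => G.Adj v w ∧ f v ≠ f w).card
  have hCr : (Cr G f).ncard = ∑ v, cd v := by
    have h5 : Cr G f = ↑(Finset.univ.filter (fun p : U × U => G.Adj p.1 p.2 ∧ f p.1 ≠ f p.2)) := by
      ext p
      simp [Cr]
    rw [h5, Set.ncard_coe_finset, Finset.card_filter, Fintype.sum_prod_type]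
    refine Finset.sum_congr rfl fun v _ => ?_
    show (∑ w, if G.Adj v w ∧ f v ≠ f w then 1 else 0) =
      (Finset.univ.filter fun w => G.Adj v w ∧ f v ≠ f w).card
    rw [Finset.card_filter]
  have hlow : 3 * R3.card + 2 * R2.card + T.card ≤ ∑ v, cd v := by
    have h5 : ∀ v, ((if v ∈ R3 then 3 else 0) + (if v ∈ R2 then 2 else 0)) +
        (if v ∈ T then 1 else 0) ≤ cd v := by
      intro v
      by_cases hvs : v ∈ Sg f
      · have hvT : v ∉ T := fun h => (mT v h).1 hvs
        have hcd : cd v = (Finset.univ.filter (G.Adj v ·)).card := by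
          show (Finset.univ.filter fun w => G.Adj v w ∧ f v ≠ f w).card = _
          congr 1
          refine Finset.filter_congr fun w _ => ?_
          exact ⟨fun h => h.1, fun h => ⟨h, fun hh => h.ne' (hvs w hh.symm)⟩⟩
        rw [hcd, if_neg hvT, add_zero]
        by_cases h6 : 3 ≤ (Finset.univ.filter (G.Adj v ·)).card
        · rw [if_pos ((m3 v).2 ⟨hvs, h6⟩), if_neg (fun h => ((m2 v).1 h).2 h6), add_zero]
          exact h6
        · rw [if_neg (fun h => h6 ((m3 v).1 h).2), if_pos ((m2 v).2 ⟨hvs, h6⟩), zero_add]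
          obtain ⟨a, b, hab, hva, hvb⟩ := h2 v
          have h7 : ({a, b} : Finset U) ⊆ Finset.univ.filter (G.Adj v ·) := by
            intro y hy
            rw [Finset.mem_insert, Finset.mem_singleton] at hy
            rw [Finset.mem_filter]
            rcases hy with rfl | rfl
            · exact ⟨Finset.mem_univ _, hva⟩
            · exact ⟨Finset.mem_univ _, hvb⟩
          have h8 := Finset.card_le_card h7
          rw [Finset.card_pair hab] at h8
          exact h8
      · rw [if_neg (fun h => hvs ((m3 v).1 h).1), if_neg (fun h => hvs ((m2 v).1 h).1)]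
        by_cases hvT : v ∈ T
        · rw [if_pos hvT]
          obtain ⟨-, x, hx, hxf⟩ := mT v hvT
          have : 0 < cd v := Finset.card_pos.2 ⟨x, Finset.mem_filter.2 ⟨Finset.mem_univ _, hx, hxf⟩⟩
          omega
        · rw [if_neg hvT]
          omega
    have h6 := Finset.sum_le_sum (s := Finset.univ) (fun v _ => h5 v)
    rw [Finset.sum_add_distrib, Finset.sum_add_distrib, Finset.sum_ite_mem, Finset.sum_ite_mem,
      Finset.sum_ite_mem, Finset.univ_inter, Finset.univ_inter, Finset.univ_inter,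
      Finset.sum_const, Finset.sum_const, Finset.sum_const, smul_eq_mul, smul_eq_mul,
      smul_eq_mul] at h6
    omega
  have hK : (Set.range f).ncard ≤ R2.card + R3.card + C0.card := by
    have h5 : Set.range f ⊆ ↑(R2.image f ∪ R3.image f ∪ C0) := by
      rintro _ ⟨u, rfl⟩
      rw [Finset.mem_coe, Finset.mem_union, Finset.mem_union]
      by_cases hus : u ∈ Sg f
      · by_cases h6 : 3 ≤ (Finset.univ.filter (G.Adj u ·)).card
        · exact Or.inl (Or.inr (Finset.mem_image_of_mem _ ((m3 u).2 ⟨hus, h6⟩)))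
        · exact Or.inl (Or.inl (Finset.mem_image_of_mem _ ((m2 u).2 ⟨hus, h6⟩)))
      · exact Or.inr (Finset.mem_image_of_mem _ ((m0 u).2 hus))
    have h6 := Set.ncard_le_ncard h5 (Set.toFinite _)
    rw [Set.ncard_coe_finset] at h6
    have h7 := Finset.card_union_le (R2.image f ∪ R3.image f) C0
    have h8 := Finset.card_union_le (R2.image f) (R3.image f)
    have h9 : (R2.image f).card ≤ R2.card := Finset.card_image_le
    have h10 : (R3.image f).card ≤ R3.card := Finset.card_image_le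
    omega
  have hcov : ∀ u ∈ Sg f, u ∈ R2 ∪ R3 := by
    intro u hus
    rw [Finset.mem_union]
    by_cases h6 : 3 ≤ (Finset.univ.filter (G.Adj u ·)).card
    · exact Or.inr ((m3 u).2 ⟨hus, h6⟩)
    · exact Or.inl ((m2 u).2 ⟨hus, h6⟩)
  have hS : (Sg f).ncard ≤ R2.card + R3.card := by
    have h5 : Sg f ⊆ ↑(R2 ∪ R3) := fun u hu => hcov u hu
    have h6 := Set.ncard_le_ncard h5 (Set.toFinite _)
    rw [Set.ncard_coe_finset] at h6
    exact h6.trans (Finset.card_union_le _ _)
  have hU : Fintype.card U ≤ R2.card + R3.card + 4 * C0.card := by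
    have h5 : R0.card ≤ 4 * C0.card := by
      refine Finset.card_le_mul_card_image R0 4 fun c hc => ?_
      obtain ⟨u, hu, rfl⟩ := Finset.mem_image.1 hc
      have hus := (m0 u).1 hu
      have h6 := hR4 _ (cls_ne_univ hf.ne (f u)) (two_of_not_sg hus) (hf.cl u hus)
      have h7 : (↑(R0.filter (fun x => f x = f u)) : Set U) ⊆ {w | f w = f u} := by
        intro x hx
        exact (Finset.mem_filter.1 (Finset.mem_coe.1 hx)).2
      have h8 := Set.ncard_le_ncard h7 (Set.toFinite _)
      rw [Set.ncard_coe_finset] at h8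
      omega
    have h6 : (Finset.univ : Finset U) ⊆ (R2 ∪ R3) ∪ R0 := by
      intro u _
      rw [Finset.mem_union]
      by_cases hus : u ∈ Sg f
      · exact Or.inl (hcov u hus)
      · exact Or.inr ((m0 u).2 hus)
    have h7 := Finset.card_le_card h6
    rw [Finset.card_univ] at h7
    have h8 := Finset.card_union_le (R2 ∪ R3) R0
    have h9 := Finset.card_union_le R2 R3
    omega
  have hv := hf.bd
  unfold vl at hv
  have hmul : ((Fintype.card W : ℤ) + d - 6) * (Sg f).ncard ≤
      ((Fintype.card W : ℤ) - 3) * (Sg f).ncard := by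
    refine mul_le_mul_of_nonneg_right ?_ (by positivity)
    have : (d : ℤ) ≤ 3 := by exact_mod_cast hd3
    linarith
  have h5 := arith (h := Fintype.card W) (r2 := R2.card) (r3 := R3.card) (t := C0.card)
    (S := (Sg f).ncard) (K := (Set.range f).ncard) (C := (Cf G f).edgeSet.ncard)
    (by exact_mod_cast h30) (by positivity) (by positivity) (by positivity)
    (by exact_mod_cast hr) (by exact_mod_cast hS) (by exact_mod_cast hK) (by
      have h6 := cr_two (G := G) f
      rw [hCr] at h6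
      have h7 : 2 * R2.card + 3 * R3.card + C0.card ≤ 2 * (Cf G f).edgeSet.ncard := by omega
      exact_mod_cast h7) (by
      have : (6 : ℤ) ≤ N := by exact_mod_cast hN6
      linarith)
  have h6 : 3 * (R2.card + R3.card + 4 * C0.card) ≤ Fintype.card W + 6 := by exact_mod_cast h5
  omega

end Pool.Agent.J4H92.NC
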