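import Pool.Agent.J4H92.NC.PinC

/-!
# A path of layers with both ends on a fixed layer
-/

set_option autoImplicit false

namespace Pool.Agent.J4H92.NC

open Module SimpleGraph Pool.Agent.H283R2.DR Pool.Agent.H283R2.DR.TA Pool.Agent.J4H92.CP
  Pool.Agent.H789R5

variable {W : Type} {H : SimpleGraph W} {n : ℕ}

/-- the component in the direction `e` of a planar motion at `q` -/
def ev (e q : Fin 2 → ℝ) (c : Fin 3 → ℝ) : ℝ := e 0 * (c 0 - c 2 * q 1) + e 1 * (c 1 + c 2 * q 0)

/-- the condition of one column -/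
def fc (q e : Fin 2 → ℝ) (k : Fin n) (τ : ℝ) : (Fin (n + 1) → Fin 3 → ℝ) →ₗ[ℝ] ℝ where
  toFun c := ((k : ℕ) + 1 - τ) * ev e q (c k.castSucc) - ((k : ℕ) - τ) * ev e q (c k.succ)
  map_add' c c' := by
    simp only [ev, Pi.add_apply]
    ring
  map_smul' s c := by
    simp only [ev, Pi.smul_apply, smul_eq_mul, RingHom.id_apply]
    ring

/-- the types of columns -/
abbrev CT (n : ℕ) : Type := (Fin 2 → ℝ) × (Fin 2 → ℝ) × Fin n × Bool

/-- the height of the fixed point -/
def hgt (b : Bool) : ℝ := if b then -1 else -2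

theorem hgt_neg (b : Bool) : hgt b < 0 := by
  unfold hgt
  split <;> norm_num

theorem fc_all {c : Fin (n + 1) → Fin 3 → ℝ} (hn : 0 < n)
    (h : ∀ i : CT n, fc i.1 i.2.1 i.2.2.1 (hgt i.2.2.2) c = 0) : c = 0 := by
  have key : ∀ (k : Fin n) (e q : Fin 2 → ℝ), ev e q (c k.castSucc) = 0 ∧
      ev e q (c k.succ) = 0 := by
    intro k e q
    have h1 := h (q, e, k, true)
    have h2 := h (q, e, k, false)
    simp only [fc, hgt, LinearMap.coe_mk, AddHom.coe_mk, if_true, Bool.false_eq_true,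
      if_false] at h1 h2
    set a := ev e q (c k.castSucc)
    set b := ev e q (c k.succ)
    have ha : a = 0 := by linear_combination (((k : ℕ) : ℝ) + 2) * h1 - (((k : ℕ) : ℝ) + 1) * h2
    refine ⟨ha, ?_⟩
    rw [ha] at h1
    have h3 : (((k : ℕ) : ℝ) + 1) * b = 0 := by linear_combination - h1
    have h4 : (((k : ℕ) : ℝ) + 1) ≠ 0 := by positivity
    exact (mul_eq_zero.1 h3).resolve_left h4
  have key2 : ∀ (j : Fin (n + 1)) (e q : Fin 2 → ℝ), ev e q (c j) = 0 := by
    intro j e q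
    by_cases hj : (j : ℕ) < n
    · exact (key ⟨j, hj⟩ e q).1
    · have h1 := (key ⟨n - 1, by omega⟩ e q).2
      have h2 : (⟨n - 1, by omega⟩ : Fin n).succ = j := by
        apply Fin.ext
        show n - 1 + 1 = (j : ℕ)
        omega
      rwa [h2] at h1
  funext j i
  have h1 := key2 j ![1, 0] ![0, 0]
  have h2 := key2 j ![0, 1] ![0, 0]
  have h3 := key2 j ![0, 1] ![1, 0]
  simp only [ev, Matrix.cons_val_zero, Matrix.cons_val_one] at h1 h2 h3
  fin_cases i
  · show c j 0 = 0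
    linarith
  · show c j 1 = 0
    linarith
  · show c j 2 = 0
    linarith

/-- all columns -/
def Fc (e : W → Fin 2 → ℝ) (k : W → Fin n) (τ : W → ℝ) (q : W → Fin 2 → ℝ) :
    (Fin (n + 1) → Fin 3 → ℝ) →ₗ[ℝ] (W → ℝ) :=
  LinearMap.pi fun y => fc (q y) (e y) (k y) (τ y)

theorem Fc_line (e : W → Fin 2 → ℝ) (k : W → Fin n) (τ : W → ℝ) (q0 q1 : W → Fin 2 → ℝ) (s : ℝ) :
    Fc e k τ (q0 + s • (q1 - q0)) = Fc e k τ q0 + s • (Fc e k τ q1 - Fc e k τ q0) := by
  refine LinearMap.ext fun c => ?_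
  funext y
  simp only [Fc, LinearMap.pi_apply, fc, ev, LinearMap.coe_mk, AddHom.coe_mk, Pi.add_apply,
    Pi.smul_apply, Pi.sub_apply, smul_eq_mul, LinearMap.add_apply, LinearMap.smul_apply,
    LinearMap.sub_apply]
  ring

/-- the choice of the columns and of the planar placement -/
theorem exists_Fc [Fintype W] (hH : GenRigid 2 H) (hn : 0 < n)
    (hW : 3 * (n + 1) ≤ Fintype.card W) :
    ∃ (q e : W → Fin 2 → ℝ) (k : W → Fin n) (τ : W → ℝ), (∀ y, τ y < 0) ∧ InfRigid H q ∧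
      ∀ c, Fc e k τ q c = 0 → c = 0 := by
  classical
  have : Nonempty (CT n) := ⟨(0, 0, ⟨0, hn⟩, true)⟩
  obtain ⟨f, hf⟩ := greedy_fin (Y := Fin (n + 1) → Fin 3 → ℝ) (I := CT n) (W := W) ⊥
    (fun i => LinearMap.ker (fc i.1 i.2.1 i.2.2.1 (hgt i.2.2.2))) (fun _ => bot_le) (by
      intro c hc
      by_contra hcon
      push Not at hcon
      exact hc (fc_all hn fun i => LinearMap.mem_ker.1 (hcon i))) (by
      rw [finrank_bot, Module.finrank_pi_fintype]
      simp only [Module.finrank_fin_fun, Finset.sum_const, Finset.card_univ, Fintype.card_fin,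
        smul_eq_mul]
      omega)
  set q0 : W → Fin 2 → ℝ := fun y => (f y).1
  set e : W → Fin 2 → ℝ := fun y => (f y).2.1
  set k : W → Fin n := fun y => (f y).2.2.1
  set τ : W → ℝ := fun y => hgt (f y).2.2.2
  have h0 : finrank ℝ (LinearMap.ker (Fc e k τ q0)) ≤ 0 := by
    have : LinearMap.ker (Fc e k τ q0) = ⊥ := by
      rw [eq_bot_iff]
      intro c hc
      rw [LinearMap.mem_ker] at hc
      exact hf c fun y => LinearMap.mem_ker.2 (congrFun hc y)
    rw [this, finrank_bot]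
  obtain ⟨q1, hq1⟩ := hH
  have f1 := good_ker (E := (Fin (n + 1) → Fin 3 → ℝ) →ₗ[ℝ] (W → ℝ)) LinearMap.id 0
    (Fc e k τ q0) (Fc e k τ q1) h0
  have f2 := (infRigid_good H q1 q0 hq1).preimage (f := fun s : ℝ => 1 - s)
    (fun a _ b _ hab => by simpa using hab)
  obtain ⟨s, hs⟩ := (f1.union f2).infinite_compl.nonempty
  rw [Set.mem_compl_iff, Set.mem_union, not_or, Set.mem_ofPred_eq, not_not,
    Set.mem_preimage, Set.mem_ofPred_eq, not_not] at hs
  refine ⟨q0 + s • (q1 - q0), e, k, τ, fun y => hgt_neg _, ?_, fun c hc => ?_⟩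
  · have e : q1 + (1 - s) • (q0 - q1) = q0 + s • (q1 - q0) := by
      rw [sub_smul, one_smul, smul_sub, smul_sub]
      abel
    rw [← e]
    exact hs.2
  · refine eq_zero_of_finrank_le hs.1 ?_
    rw [LinearMap.mem_ker]
    show (Fc e k τ q0 + s • (Fc e k τ q1 - Fc e k τ q0)) c = 0
    rw [← Fc_line]
    exact hc

/-! ### The system -/

/-- the planar shifts -/
noncomputable def xx (e : W → Fin 2 → ℝ) (k : W → Fin n) (τ : W → ℝ) (v : Fin (n + 1) × W) :
    Fin 2 → ℝ :=
  if (v.1 : ℕ) ≤ k v.2 then (((v.1 : ℕ) : ℝ) - τ v.2) • e v.2 else 0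

/-- a vector with given planar part and height -/
def pl (a : Fin 2 → ℝ) (z : ℝ) : Fin 3 → ℝ := ![a 0, a 1, z]

theorem pl_dot (a : Fin 2 → ℝ) (z : ℝ) (m : Fin 3 → ℝ) :
    pl a z ⬝ᵥ m = a 0 * m 0 + a 1 * m 1 + z * m 2 := by
  simp [pl, dotProduct, Fin.sum_univ_three]

/-- the directions in the limit -/
noncomputable def D0 (e : W → Fin 2 → ℝ) (k : W → Fin n) (τ : W → ℝ) (q : W → Fin 2 → ℝ)
    (u v : Fin (n + 1) × W) : Fin 3 → ℝ :=
  if u.1 = v.1 then pl (q u.2 - q v.2) 0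
  else pl (xx e k τ u - xx e k τ v) (((u.1 : ℕ) : ℝ) - ((v.1 : ℕ) : ℝ))

/-- the first order term of the directions -/
noncomputable def D1 (e : W → Fin 2 → ℝ) (k : W → Fin n) (τ : W → ℝ)
    (u v : Fin (n + 1) × W) : Fin 3 → ℝ :=
  if u.1 = v.1 then pl (xx e k τ u - xx e k τ v) 0 else 0

/-- the pins -/
noncomputable def dd (e : W → Fin 2 → ℝ) (k : W → Fin n) (τ : W → ℝ)
    (v : Fin (n + 1) × W) (i : Fin 2) : Fin 3 → ℝ :=
  if v.1 = (if i = 0 then 0 else Fin.last n) then pl (xx e k τ v) (((v.1 : ℕ) : ℝ) - τ v.2) else 0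

theorem ear_zero {e : W → Fin 2 → ℝ} {k : W → Fin n} {τ : W → ℝ} {q : W → Fin 2 → ℝ}
    (hτ : ∀ y, τ y < 0) (hq : InfRigid H q) (hc : ∀ c, Fc e k τ q c = 0 → c = 0)
    {M : Fin (n + 1) × W → Fin 3 → ℝ} (hM : M ∈ Sol (pathGraph (n + 1) □ H)
      (D0 e k τ q) (dd e k τ)) : M = 0 := by
  obtain ⟨h1, h2⟩ := hM
  have hrow : ∀ j : Fin (n + 1), ∃ c : Fin 3 → ℝ, ∀ x, M (j, x) 0 = c 0 - c 2 * q x 1 ∧
      M (j, x) 1 = c 1 + c 2 * q x 0 := by
    intro j
    refine plane_motion hq (a := fun x => M (j, x) 0) (b := fun x => M (j, x) 1) ?_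
    intro x y hxy
    have h3 := h1 (j, x) (j, y) (Or.inr ⟨hxy, rfl⟩)
    rw [D0, if_pos rfl, pl_dot] at h3
    simp only [Pi.sub_apply, zero_mul, add_zero] at h3
    exact h3
  choose c hrow using hrow
  have hA : ∀ y j, ev (e y) (q y) (c j) = e y 0 * M (j, y) 0 + e y 1 * M (j, y) 1 := by
    intro y j
    rw [(hrow j y).1, (hrow j y).2]
    rfl
  have hbar : ∀ y (j : ℕ) (hj : j + 1 < n + 1),
      (xx e k τ (⟨j, by omega⟩, y) 0 - xx e k τ (⟨j + 1, hj⟩, y) 0) *
        (M (⟨j, by omega⟩, y) 0 - M (⟨j + 1, hj⟩, y) 0) +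
      (xx e k τ (⟨j, by omega⟩, y) 1 - xx e k τ (⟨j + 1, hj⟩, y) 1) *
        (M (⟨j, by omega⟩, y) 1 - M (⟨j + 1, hj⟩, y) 1) -
        (M (⟨j, by omega⟩, y) 2 - M (⟨j + 1, hj⟩, y) 2) = 0 := by
    intro y j hj
    have h3 := h1 (⟨j, by omega⟩, y) (⟨j + 1, hj⟩, y) (Or.inl ⟨by
      rw [pathGraph_adj]
      exact Or.inl rfl, rfl⟩)
    rw [D0, if_neg (by
      intro h
      have := congrArg Fin.val h
      simp at this), pl_dot] at h3
    simp only [Pi.sub_apply] at h3
    push_cast at h3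
    linarith
  have hlow : ∀ y (j : ℕ) (hj : j < n + 1), j ≤ k y →
      M (⟨j, hj⟩, y) 2 = - ev (e y) (q y) (c ⟨j, hj⟩) := by
    intro y j
    induction j with
    | zero =>
      intro hj hk
      have h3 := h2 (⟨0, hj⟩, y) 0
      rw [dd, if_pos (by rfl), pl_dot] at h3
      simp only [xx, hk, if_true, Pi.smul_apply, smul_eq_mul] at h3
      have h4 : ((0 : ℕ) : ℝ) - τ y ≠ 0 := by
        have := hτ y
        push_cast
        linarith
      rw [hA]
      have h5 : (((0 : ℕ) : ℝ) - τ y) * (e y 0 * M (⟨0, hj⟩, y) 0 + e y 1 * M (⟨0, hj⟩, y) 1 +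
        M (⟨0, hj⟩, y) 2) = 0 := by linear_combination h3
      have h6 := (mul_eq_zero.1 h5).resolve_left h4
      linarith
    | succ j ih =>
      intro hj hk
      have h3 := hbar y j hj
      have h4 := ih (by omega) (by omega)
      have h5 : j ≤ k y := by omega
      simp only [xx, hk, h5, if_true, Pi.smul_apply, smul_eq_mul] at h3
      rw [hA] at h4 ⊢
      push_cast at h3
      linear_combination h4 + h3
  have hhigh : ∀ y (i : ℕ) (hi : i ≤ n), k y < n - i → M (⟨n - i, by omega⟩, y) 2 = 0 := by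
    intro y i
    induction i with
    | zero =>
      intro hi hk
      have h3 := h2 (Fin.last n, y) 1
      rw [dd, if_pos (by rfl), pl_dot] at h3
      have h5 : ¬ (((Fin.last n : Fin (n + 1)) : ℕ) ≤ k y) := by
        rw [Fin.val_last]
        omega
      simp only [xx, h5, if_false, Pi.zero_apply, zero_mul, zero_add] at h3
      have h4 : (((Fin.last n : Fin (n + 1)) : ℕ) : ℝ) - τ y ≠ 0 := by
        have h6 := hτ y
        have h7 : (0 : ℝ) ≤ (((Fin.last n : Fin (n + 1)) : ℕ) : ℝ) := Nat.cast_nonneg _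
        linarith
      exact (mul_eq_zero.1 h3).resolve_left h4
    | succ i ih =>
      intro hi hk
      have h3 := hbar y (n - (i + 1)) (by omega)
      have h4 := ih (by omega) (by omega)
      have h5 : ¬ (n - (i + 1) ≤ k y) := by omega
      have h6 : ¬ (n - (i + 1) + 1 ≤ k y) := by omega
      simp only [xx, h5, h6, if_false, Pi.zero_apply, sub_zero, zero_mul, zero_add] at h3
      have h7 : (⟨n - (i + 1) + 1, by omega⟩ : Fin (n + 1)) = ⟨n - i, by omega⟩ := by
        apply Fin.ext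
        show n - (i + 1) + 1 = n - i
        omega
      rw [h7, h4] at h3
      linarith
  have hhigh' : ∀ y (j : ℕ) (hj : j < n + 1), k y < j → M (⟨j, hj⟩, y) 2 = 0 := by
    intro y j hj hk
    have h3 := hhigh y (n - j) (by omega) (by omega)
    have h4 : (⟨n - (n - j), by omega⟩ : Fin (n + 1)) = ⟨j, hj⟩ := by
      apply Fin.ext
      show n - (n - j) = j
      omega
    rwa [h4] at h3
  have hc0 : c = 0 := by
    refine hc c ?_
    funext y
    show fc (q y) (e y) (k y) (τ y) c = 0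
    have hk := (k y).2
    have h3 := hbar y (k y) (by omega)
    have h4 := hlow y (k y) (by omega) le_rfl
    have h5 := hhigh' y (k y + 1) (by omega) (by omega)
    have h6 : ¬ ((k y : ℕ) + 1 ≤ k y) := by omega
    simp only [xx, le_refl, h6, if_true, if_false, Pi.zero_apply, sub_zero, Pi.smul_apply,
      smul_eq_mul] at h3
    rw [h5, h4, hA] at h3
    have h7 : (k y).castSucc = ⟨k y, by omega⟩ := rfl
    have h8 : (k y).succ = ⟨k y + 1, by omega⟩ := rfl
    simp only [fc, LinearMap.coe_mk, AddHom.coe_mk]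
    rw [hA, hA, h7, h8]
    linear_combination h3
  funext ⟨j, y⟩ i
  have h3 := hrow j y
  rw [hc0] at h3
  simp only [Pi.zero_apply, zero_mul, sub_zero, add_zero] at h3
  have h4 : M (j, y) 2 = 0 := by
    by_cases hk : (j : ℕ) ≤ k y
    · have h5 := hlow y j j.2 hk
      rw [hc0] at h5
      simp only [ev, Pi.zero_apply, zero_mul, sub_zero, add_zero, mul_zero, neg_zero] at h5
      exact h5
    · exact hhigh' y j j.2 (by omega)
  fin_cases i
  · exact h3.1
  · exact h3.2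
  · exact h4

/-- **A path of layers with both ends on a fixed layer.** -/
theorem exists_ear [Fintype W] (hH : GenRigid 2 H) (hn : 0 < n)
    (hW : 3 * (n + 1) ≤ Fintype.card W) :
    ∃ (p : Fin (n + 1) → W → Fin 3 → ℝ) (P : W → Fin 3 → ℝ), ∀ M : Fin (n + 1) → W → Fin 3 → ℝ,
      (∀ j x y, H.Adj x y → (p j x - p j y) ⬝ᵥ (M j x - M j y) = 0) →
      (∀ (j : ℕ) (hj : j + 1 < n + 1) y, (p ⟨j, by omega⟩ y - p ⟨j + 1, hj⟩ y) ⬝ᵥ
        (M ⟨j, by omega⟩ y - M ⟨j + 1, hj⟩ y) = 0) →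
      (∀ y, (p 0 y - P y) ⬝ᵥ M 0 y = 0) → (∀ y, (p (Fin.last n) y - P y) ⬝ᵥ M (Fin.last n) y = 0) →
      M = 0 := by
  classical
  obtain ⟨q, e, k, τ, hτ, hq, hc⟩ := exists_Fc hH hn hW
  have h0 : finrank ℝ (Sol (pathGraph (n + 1) □ H) (D0 e k τ q) (dd e k τ)) ≤ 0 := by
    have : Sol (pathGraph (n + 1) □ H) (D0 e k τ q) (dd e k τ) = ⊥ := by
      rw [eq_bot_iff]
      intro M hM
      exact ear_zero hτ hq hc hM
    rw [this, finrank_bot]
  have hg := good_sol (pathGraph (n + 1) □ H) (j := 2)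
    (E := (Fin (n + 1) × W → Fin (n + 1) × W → Fin 3 → ℝ) × (Fin (n + 1) × W → Fin 2 → Fin 3 → ℝ))
    LinearMap.id 0 (D0 e k τ q, dd e k τ) (D0 e k τ q + D1 e k τ, dd e k τ) h0
  obtain ⟨ε, hε⟩ := (hg.union (Set.finite_singleton (0 : ℝ))).infinite_compl.nonempty
  rw [Set.mem_compl_iff, Set.mem_union, not_or, Set.mem_singleton_iff, Set.mem_ofPred_eq,
    not_not] at hε
  obtain ⟨hε1, hε0⟩ := hε
  have hε2 : finrank ℝ (Sol (pathGraph (n + 1) □ H)
      (D0 e k τ q + ε • (D0 e k τ q + D1 e k τ - D0 e k τ q))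
      (dd e k τ + ε • (dd e k τ - dd e k τ))) ≤ 0 := hε1
  have e1 : D0 e k τ q + ε • (D0 e k τ q + D1 e k τ - D0 e k τ q) =
      D0 e k τ q + ε • D1 e k τ := by
    rw [add_sub_cancel_left]
  have e2 : dd e k τ + ε • (dd e k τ - dd e k τ) = dd e k τ := by
    rw [sub_self, smul_zero, add_zero]
  rw [e1, e2] at hε2
  refine ⟨fun j y => pl (q y + ε • xx e k τ (j, y)) ((j : ℕ) : ℝ), fun y => pl (q y) (τ y), ?_⟩
  intro M h1 h2 h3 h4
  have hN : (fun v : Fin (n + 1) × W => (![M v.1 v.2 0, M v.1 v.2 1, M v.1 v.2 2 / ε] :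
      Fin 3 → ℝ)) ∈ Sol (pathGraph (n + 1) □ H) (D0 e k τ q + ε • D1 e k τ) (dd e k τ) := by
    have hstep : ∀ (j j' : Fin (n + 1)) y, j ≠ j' →
        (pl (q y + ε • xx e k τ (j, y)) ((j : ℕ) : ℝ) - pl (q y + ε • xx e k τ (j', y)) ((j' : ℕ) : ℝ)) ⬝ᵥ
        (M j y - M j' y) = 0 →
        (D0 e k τ q + ε • D1 e k τ) (j, y) (j', y) ⬝ᵥ ((![M j y 0, M j y 1, M j y 2 / ε] :
          Fin 3 → ℝ) - ![M j' y 0, M j' y 1, M j' y 2 / ε]) = 0 := by
      intro j j' y hj h
      have h5 : (D0 e k τ q + ε • D1 e k τ) (j, y) (j', y) =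
          pl (xx e k τ (j, y) - xx e k τ (j', y)) (((j : ℕ) : ℝ) - ((j' : ℕ) : ℝ)) := by
        show D0 e k τ q (j, y) (j', y) + ε • D1 e k τ (j, y) (j', y) = _
        rw [D0, D1, if_neg hj, if_neg hj, smul_zero, add_zero]
      rw [h5, pl_dot]
      simp only [pl, dotProduct, Fin.sum_univ_three, Pi.sub_apply, Pi.add_apply, Pi.smul_apply,
        smul_eq_mul, Matrix.cons_val_zero, Matrix.cons_val_one, Matrix.cons_val_two,
        Matrix.head_cons, Matrix.tail_cons] at h ⊢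
      field_simp
      linear_combination h
    refine ⟨?_, ?_⟩
    · rintro ⟨j, x⟩ ⟨j', y⟩ hadj
      rcases hadj with ⟨h, h'⟩ | ⟨h, h'⟩
      · have h' : x = y := h'
        subst h'
        have h : (pathGraph (n + 1)).Adj j j' := h
        refine hstep j j' x h.ne ?_
        rw [pathGraph_adj] at h
        rcases h with h | h
        · have h6 := h2 (j : ℕ) (by omega) x
          have h7 : (⟨(j : ℕ) + 1, by omega⟩ : Fin (n + 1)) = j' := Fin.ext h
          rw [h7] at h6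
          exact h6
        · have h6 := h2 (j' : ℕ) (by omega) x
          have h7 : (⟨(j' : ℕ) + 1, by omega⟩ : Fin (n + 1)) = j := Fin.ext h
          rw [h7] at h6
          rw [← neg_sub, neg_dotProduct, ← neg_sub (M j' x), dotProduct_neg, neg_neg]
          exact h6
      · have h' : j = j' := h'
        subst h'
        have h5 : (D0 e k τ q + ε • D1 e k τ) (j, x) (j, y) =
            pl (q x - q y + ε • (xx e k τ (j, x) - xx e k τ (j, y))) 0 := by
          show D0 e k τ q (j, x) (j, y) + ε • D1 e k τ (j, x) (j, y) = _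
          rw [D0, D1, if_pos rfl, if_pos rfl]
          funext i
          fin_cases i <;> simp [pl]
        have h6 := h1 j x y h
        rw [h5, pl_dot]
        simp only [pl, dotProduct, Fin.sum_univ_three, Pi.sub_apply, Pi.add_apply, Pi.smul_apply,
          smul_eq_mul, Matrix.cons_val_zero, Matrix.cons_val_one, Matrix.cons_val_two,
          Matrix.head_cons, Matrix.tail_cons] at h6 ⊢
        linear_combination h6
    · rintro ⟨j, y⟩ i
      have hpin : (pl (q y + ε • xx e k τ (j, y)) ((j : ℕ) : ℝ) - pl (q y) (τ y)) ⬝ᵥ M j y = 0 →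
          pl (xx e k τ (j, y)) (((j : ℕ) : ℝ) - τ y) ⬝ᵥ
            (![M j y 0, M j y 1, M j y 2 / ε] : Fin 3 → ℝ) = 0 := by
        intro h
        rw [pl_dot]
        simp only [pl, dotProduct, Fin.sum_univ_three, Pi.sub_apply, Pi.add_apply, Pi.smul_apply,
          smul_eq_mul, Matrix.cons_val_zero, Matrix.cons_val_one, Matrix.cons_val_two,
          Matrix.head_cons, Matrix.tail_cons] at h ⊢
        field_simp
        linear_combination h
      unfold dd
      by_cases hj : j = (if i = 0 then 0 else Fin.last n)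
      · rw [if_pos hj]
        refine hpin ?_
        by_cases hi : i = 0
        · rw [if_pos hi] at hj
          subst hj
          exact h3 y
        · rw [if_neg hi] at hj
          subst hj
          exact h4 y
      · rw [if_neg hj, zero_dotProduct]
  have hN0 := eq_zero_of_finrank_le hε2 hN
  funext j y i
  have h5 := congrFun hN0 (j, y)
  have a0 := congrFun h5 0
  have a1 := congrFun h5 1
  have a2 := congrFun h5 2
  simp only [Matrix.cons_val_zero, Matrix.cons_val_one, Matrix.cons_val, Pi.zero_apply] at a0 a1 a2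
  fin_cases i
  · exact a0
  · exact a1
  · exact (div_eq_zero_iff.1 a2).resolve_right hε0

end Pool.Agent.J4H92.NC
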