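import Pool.Agent.J4H92.NC.Ear
import Pool.Agent.J4H92.NC.Bridge
import Pool.Agent.J4H92.PL.Two

/-!
# Adding an ear to a rigid part
-/

set_option autoImplicit false

namespace Pool.Agent.J4H92.NC

open Module SimpleGraph Pool.Agent.H283R2.DR Pool.Agent.H283R2.DR.TA Pool.Agent.J4H92.CP
  Pool.Agent.H789R5

/-- the parameters of the extension lemma -/
noncomputable def LX1 {S V : Type} (φ : S → V) : ((V → Fin 3 → ℝ) × ℝ) →ₗ[ℝ]
    ((V → V → Fin 3 → ℝ) × (V → Fin 3 → Fin 3 → ℝ)) := by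
  classical
  exact
  { toFun := fun e => (df e.1, fun v i => if v ∈ Set.range φ then e.2 • Pi.single i 1 else 0)
    map_add' := by
      intro e e'
      refine Prod.ext ?_ ?_
      · funext u v
        simp only [df, Prod.fst_add, Pi.add_apply]
        abel
      · funext v i
        by_cases h : v ∈ Set.range φ
        · simp only [h, if_true, Prod.snd_add, Pi.add_apply, add_smul]
        · simp only [h, if_false, Prod.snd_add, Pi.add_apply, add_zero]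
    map_smul' := by
      intro s e
      refine Prod.ext ?_ ?_
      · funext u v
        simp only [df, Prod.smul_fst, Pi.smul_apply, RingHom.id_apply, smul_sub]
      · funext v i
        by_cases h : v ∈ Set.range φ
        · simp only [h, if_true, Prod.smul_snd, Pi.smul_apply, RingHom.id_apply,
            smul_eq_mul, mul_smul]
        · simp only [h, if_false, Prod.smul_snd, Pi.smul_apply, RingHom.id_apply, smul_zero] }

/-- **Extension of a rigid part.** -/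
theorem mu_extend {S V : Type} [Finite S] [Finite V] {Γ : SimpleGraph V} {Γ' : SimpleGraph S}
    {φ : S → V} (hφ : Function.Injective φ) (hadj : ∀ a b, Γ'.Adj a b → Γ.Adj (φ a) (φ b))
    {k : ℕ} (h : Mu 0 k Γ') (h1 : ∃ p : V → Fin 3 → ℝ, ∀ M : V → Fin 3 → ℝ,
      (∀ u v, Γ.Adj u v → (p u - p v) ⬝ᵥ (M u - M v) = 0) → (∀ s, M (φ s) = 0) → M = 0) :
    Mu 0 k Γ := by
  classical
  have g1 : Good (fun e : (V → Fin 3 → ℝ) × ℝ =>
      finrank ℝ (Sol Γ (LX1 φ e).1 (LX1 φ e).2) ≤ 0) := good_sol Γ (LX1 φ) 0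
  have g2 : Good (fun e : (V → Fin 3 → ℝ) × ℝ => Bd Γ' φ k e.1) :=
    good_comp (good_Bd Γ' φ k) (LinearMap.fst ℝ (V → Fin 3 → ℝ) ℝ)
  obtain ⟨⟨p, r⟩, hp1, hp2⟩ := good_two g1 g2 (by
    obtain ⟨p, hp⟩ := h1
    refine ⟨(p, 1), ?_⟩
    have : Sol Γ (LX1 φ (p, 1)).1 (LX1 φ (p, 1)).2 = ⊥ := by
      rw [eq_bot_iff]
      rintro M ⟨hM1, hM2⟩
      refine hp M hM1 fun s => ?_
      funext i
      have h3 : (if φ s ∈ Set.range φ then (1 : ℝ) • (Pi.single i 1 : Fin 3 → ℝ) else 0) ⬝ᵥ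
        M (φ s) = 0 := hM2 (φ s) i
      rw [if_pos ⟨s, rfl⟩, one_smul, single_dotProduct, one_mul] at h3
      exact h3
    rw [this, finrank_bot]) (by
    obtain ⟨q, hq⟩ := exists_Bd hφ h
    exact ⟨(q, 0), hq⟩)
  refine ⟨p, fun _ i => i.elim0, ?_⟩
  have hp2 : finrank ℝ (Sol Γ' (df fun v => p (φ v)) (0 : S → Fin 0 → Fin 3 → ℝ)) ≤ k := hp2
  refine le_trans ?_ hp2
  let R : (V → Fin 3 → ℝ) →ₗ[ℝ] (S → Fin 3 → ℝ) := LinearMap.funLeft ℝ (Fin 3 → ℝ) φ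
  have hR : ∀ M ∈ Sol Γ (df p) (fun _ i => i.elim0 : V → Fin 0 → Fin 3 → ℝ),
      R M ∈ Sol Γ' (df fun v => p (φ v)) (0 : S → Fin 0 → Fin 3 → ℝ) := by
    rintro M ⟨hM, -⟩
    exact ⟨fun a b hab => hM _ _ (hadj a b hab), fun v i => i.elim0⟩
  have hinj : Function.Injective ((R.domRestrict _).codRestrict
      (Sol Γ' (df fun v => p (φ v)) (0 : S → Fin 0 → Fin 3 → ℝ)) (fun M => hR M.1 M.2)) := by
    rw [injective_iff_map_eq_zero]
    rintro ⟨M, hM⟩ h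
    have h' : R M = 0 := congrArg Subtype.val h
    rw [Subtype.ext_iff]
    show M = 0
    refine eq_zero_of_finrank_le hp1 ⟨hM.1, fun v i => ?_⟩
    show (if v ∈ Set.range φ then r • (Pi.single i 1 : Fin 3 → ℝ) else 0) ⬝ᵥ M v = 0
    by_cases hv : v ∈ Set.range φ
    · obtain ⟨s, rfl⟩ := hv
      have h3 : M (φ s) = 0 := congrFun h' s
      rw [h3, dotProduct_zero]
    · rw [if_neg hv, zero_dotProduct]
  exact LinearMap.finrank_le_finrank_of_injective hinj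

variable {U W : Type} {G : SimpleGraph U} {H : SimpleGraph W}

/-- the inclusion of a part in a larger one -/
def inc {B B' : Set U} (h : B ⊆ B') : (B × W) → (B' × W) := fun v => (⟨v.1.1, h v.1.2⟩, v.2)

theorem inc_inj {B B' : Set U} (h : B ⊆ B') : Function.Injective (inc (W := W) h) := by
  rintro ⟨⟨a, ha⟩, x⟩ ⟨⟨b, hb⟩, y⟩ hab
  rw [Prod.ext_iff] at hab
  obtain ⟨h1, h2⟩ := hab
  have h1 : a = b := congrArg Subtype.val h1
  have h2 : x = y := h2
  subst h1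
  subst h2
  rfl

theorem inc_adj {B B' : Set U} (h : B ⊆ B') (a b : B × W)
    (hab : ((G.induce B) □ H).Adj a b) : ((G.induce B') □ H).Adj (inc h a) (inc h b) := by
  rcases hab with ⟨h1, h2⟩ | ⟨h1, h2⟩
  · exact Or.inl ⟨h1, h2⟩
  · refine Or.inr ⟨h1, ?_⟩
    have h3 : a.1 = b.1 := h2
    show (⟨a.1.1, h a.1.2⟩ : B') = ⟨b.1.1, h b.1.2⟩
    have h5 : (a.1 : U) = (b.1 : U) := congrArg Subtype.val h3
    exact Subtype.ext h5

/-- **A new layer joined to two layers.** -/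
theorem point_step [Finite U] [Fintype W] (hH : GenRigid 2 H) (hW : 3 ≤ Fintype.card W)
    {B : Set U} {k : ℕ} (hB : Mu 0 k ((G.induce B) □ H)) {v b1 b2 : U} (hv : v ∉ B)
    (h1 : b1 ∈ B) (h2 : b2 ∈ B) (h12 : b1 ≠ b2) (ha1 : G.Adj v b1) (ha2 : G.Adj v b2) :
    Mu 0 k ((G.induce (B ∪ {v})) □ H) := by
  classical
  have hsub : B ⊆ B ∪ {v} := Set.subset_union_left
  refine mu_extend (inc_inj hsub) (inc_adj hsub) hB ?_
  obtain ⟨p, d, hd⟩ := Pool.Agent.J4H92.PL.pin_plane H hH hW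
  refine ⟨fun w => if w.1.1 = v then p w.2 else if w.1.1 = b1 then p w.2 - d w.2 0 else
    p w.2 - d w.2 1, fun M h3 h4 => ?_⟩
  have hvb1 : b1 ≠ v := fun h => hv (h ▸ h1)
  have hvb2 : b2 ≠ v := fun h => hv (h ▸ h2)
  have hvm : v ∈ B ∪ {v} := Or.inr rfl
  have h5 : (fun y => M (⟨v, hvm⟩, y)) = 0 := by
    refine eq_zero_of_finrank_le hd ⟨fun x y hxy => ?_, fun y i => ?_⟩
    · have h6 := h3 (⟨v, hvm⟩, x) (⟨v, hvm⟩, y) (Or.inr ⟨hxy, rfl⟩)
      simp only [if_true] at h6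
      exact h6
    · fin_cases i
      · have h6 := h3 (⟨v, hvm⟩, y) (⟨b1, hsub h1⟩, y) (Or.inl ⟨ha1, rfl⟩)
        have h7 : M (⟨b1, hsub h1⟩, y) = 0 := h4 (⟨b1, h1⟩, y)
        simp only [if_true, if_neg hvb1, h7, sub_zero, sub_sub_cancel] at h6
        exact h6
      · have h6 := h3 (⟨v, hvm⟩, y) (⟨b2, hsub h2⟩, y) (Or.inl ⟨ha2, rfl⟩)
        have h7 : M (⟨b2, hsub h2⟩, y) = 0 := h4 (⟨b2, h2⟩, y)
        simp only [if_true, if_neg hvb2, if_neg h12.symm, h7, sub_zero, sub_sub_cancel] at h6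
        exact h6
  funext ⟨⟨w, hw⟩, y⟩
  rcases hw with hw | hw
  · exact h4 (⟨w, hw⟩, y)
  · have hw : w = v := hw
    subst hw
    exact congrFun h5 y

/-- **Adding an ear.** -/
theorem ear_step [Finite U] [Fintype W] (hH : GenRigid 2 H) {n : ℕ} (hn : 0 < n)
    (hW : 3 * (n + 1) ≤ Fintype.card W) {B : Set U} {k : ℕ} (hB : Mu 0 k ((G.induce B) □ H))
    {u : Fin (n + 1) → U} (hu : Function.Injective u) (huB : ∀ i, u i ∉ B)
    (hadj : ∀ (j : ℕ) (hj : j + 1 < n + 1), G.Adj (u ⟨j, by omega⟩) (u ⟨j + 1, hj⟩))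
    {b1 b2 : U} (h1 : b1 ∈ B) (h2 : b2 ∈ B) (ha1 : G.Adj (u 0) b1)
    (ha2 : G.Adj (u (Fin.last n)) b2) : Mu 0 k ((G.induce (B ∪ Set.range u)) □ H) := by
  classical
  have hsub : B ⊆ B ∪ Set.range u := Set.subset_union_left
  refine mu_extend (inc_inj hsub) (inc_adj hsub) hB ?_
  obtain ⟨p, P, hp⟩ := exists_ear hH hn hW
  refine ⟨fun w => Function.extend u p (fun _ => P) w.1.1 w.2, fun M h3 h4 => ?_⟩
  have hum : ∀ i, u i ∈ B ∪ Set.range u := fun i => Or.inr ⟨i, rfl⟩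
  have hext : ∀ i, Function.extend u p (fun _ => P) (u i) = p i := fun i => hu.extend_apply _ _ _
  have hext' : ∀ b ∈ B, Function.extend u p (fun _ => P) b = P := by
    intro b hb
    rw [Function.extend_apply']
    rintro ⟨i, rfl⟩
    exact huB i hb
  have h5 : (fun i y => M (⟨u i, hum i⟩, y)) = 0 := by
    refine hp _ (fun j x y hxy => ?_) (fun j hj y => ?_) (fun y => ?_) (fun y => ?_)
    · have h6 := h3 (⟨u j, hum j⟩, x) (⟨u j, hum j⟩, y) (Or.inr ⟨hxy, rfl⟩)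
      simp only [hext] at h6
      exact h6
    · have h6 := h3 (⟨u ⟨j, by omega⟩, hum _⟩, y) (⟨u ⟨j + 1, hj⟩, hum _⟩, y)
        (Or.inl ⟨hadj j hj, rfl⟩)
      simp only [hext] at h6
      exact h6
    · have h6 := h3 (⟨u 0, hum 0⟩, y) (⟨b1, hsub h1⟩, y) (Or.inl ⟨ha1, rfl⟩)
      have h7 : M (⟨b1, hsub h1⟩, y) = 0 := h4 (⟨b1, h1⟩, y)
      simp only [hext, hext' b1 h1, h7, sub_zero] at h6
      exact h6
    · have h6 := h3 (⟨u (Fin.last n), hum _⟩, y) (⟨b2, hsub h2⟩, y) (Or.inl ⟨ha2, rfl⟩)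
      have h7 : M (⟨b2, hsub h2⟩, y) = 0 := h4 (⟨b2, h2⟩, y)
      simp only [hext, hext' b2 h2, h7, sub_zero] at h6
      exact h6
  funext ⟨⟨w, hw⟩, y⟩
  rcases hw with hw | ⟨i, rfl⟩
  · exact h4 (⟨w, hw⟩, y)
  · exact congrFun (congrFun h5 i) y

end Pool.Agent.J4H92.NC
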