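import Pool.Agent.J4H92.NC.Body
import Pool.Agent.J4H92.NC.Conv

/-!
# Extension lemmas for the number of degrees of freedom
-/

set_option autoImplicit false

namespace Pool.Agent.J4H92.NC

open SimpleGraph hiding between

open Module Matrix Pool.Agent.H283R2.DR Pool.Agent.H283R2.DR.TA Pool.Agent.J4H92.CP Pool.Agent.H789R5
  Pool.Agent.TH349.Rig

/-- **Extension of a part.** -/
theorem mu_extend' {S V : Type} [Finite S] [Finite V] {Γ : SimpleGraph V} {Γ' : SimpleGraph S}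
    {φ : S → V} (hφ : Function.Injective φ) (hadj : ∀ a b, Γ'.Adj a b → Γ.Adj (φ a) (φ b))
    {k l : ℕ} (h : Mu 0 k Γ') (h1 : ∃ (p : V → Fin 3 → ℝ) (P : Submodule ℝ (V → Fin 3 → ℝ)),
      finrank ℝ P ≤ l ∧ ∀ M : V → Fin 3 → ℝ,
      (∀ u v, Γ.Adj u v → (p u - p v) ⬝ᵥ (M u - M v) = 0) → (∀ s, M (φ s) = 0) → M ∈ P) :
    Mu 0 (k + l) Γ := by
  classical
  have g1 : Good (fun e : (V → Fin 3 → ℝ) × ℝ =>
      finrank ℝ (Sol Γ (LX1 φ e).1 (LX1 φ e).2) ≤ l) := good_sol Γ (LX1 φ) l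
  have g2 : Good (fun e : (V → Fin 3 → ℝ) × ℝ => Bd Γ' φ k e.1) :=
    good_comp (good_Bd Γ' φ k) (LinearMap.fst ℝ (V → Fin 3 → ℝ) ℝ)
  obtain ⟨⟨p, r⟩, hp1, hp2⟩ := good_two g1 g2 (by
    obtain ⟨p, P, hP, hp⟩ := h1
    refine ⟨(p, 1), ?_⟩
    refine le_trans (Submodule.finrank_mono ?_) hP
    rintro M ⟨hM1, hM2⟩
    refine hp M hM1 fun s => ?_
    funext i
    have h3 : (if φ s ∈ Set.range φ then (1 : ℝ) • (Pi.single i 1 : Fin 3 → ℝ) else 0) ⬝ᵥ
      M (φ s) = 0 := hM2 (φ s) i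
    rw [if_pos ⟨s, rfl⟩, one_smul, single_dotProduct, one_mul] at h3
    exact h3) (by
    obtain ⟨q, hq⟩ := exists_Bd hφ h
    exact ⟨(q, 0), hq⟩)
  refine ⟨p, fun _ i => i.elim0, ?_⟩
  have hp2 : finrank ℝ (Sol Γ' (df fun v => p (φ v)) (0 : S → Fin 0 → Fin 3 → ℝ)) ≤ k := hp2
  let R : (V → Fin 3 → ℝ) →ₗ[ℝ] (S → Fin 3 → ℝ) := LinearMap.funLeft ℝ (Fin 3 → ℝ) φ
  set L := Sol Γ (df p) (fun _ i => i.elim0 : V → Fin 0 → Fin 3 → ℝ) with hL
  have hR : ∀ M ∈ L, R M ∈ Sol Γ' (df fun v => p (φ v)) (0 : S → Fin 0 → Fin 3 → ℝ) := by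
    rintro M ⟨hM, -⟩
    exact ⟨fun a b hab => hM _ _ (hadj a b hab), fun v i => i.elim0⟩
  let F := (R.domRestrict L).codRestrict
      (Sol Γ' (df fun v => p (φ v)) (0 : S → Fin 0 → Fin 3 → ℝ)) (fun M => hR M.1 M.2)
  have h2 := LinearMap.finrank_range_add_finrank_ker F
  have h3 : finrank ℝ (LinearMap.range F) ≤ k := (Submodule.finrank_le _).trans hp2
  have h4 : finrank ℝ (LinearMap.ker F) ≤ l := by
    refine le_trans ?_ hp1
    have hsub : ∀ M : LinearMap.ker F, (M.1.1 : V → Fin 3 → ℝ) ∈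
        Sol Γ (LX1 φ (p, r)).1 (LX1 φ (p, r)).2 := by
      rintro ⟨⟨M, hM⟩, hk⟩
      have h' : R M = 0 := congrArg Subtype.val (LinearMap.mem_ker.1 hk)
      refine ⟨hM.1, fun v i => ?_⟩
      show (if v ∈ Set.range φ then r • (Pi.single i 1 : Fin 3 → ℝ) else 0) ⬝ᵥ M v = 0
      by_cases hv : v ∈ Set.range φ
      · obtain ⟨s, rfl⟩ := hv
        have h3 : M (φ s) = 0 := congrFun h' s
        rw [h3, dotProduct_zero]
      · rw [if_neg hv, zero_dotProduct]
    let ι : LinearMap.ker F →ₗ[ℝ] Sol Γ (LX1 φ (p, r)).1 (LX1 φ (p, r)).2 :=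
      ((L.subtype).comp (LinearMap.ker F).subtype).codRestrict _ hsub
    refine LinearMap.finrank_le_finrank_of_injective (f := ι) ?_
    intro M M' hMM
    have h5 : (ι M).1 = (ι M').1 := by rw [hMM]
    exact Subtype.ext (Subtype.ext h5)
  omega

variable {U W : Type} {G : SimpleGraph U} {H : SimpleGraph W}

/-- **Two parts.** -/
theorem mu_add [Finite U] [Finite W] {A : Set U} {k l : ℕ} (h1 : Mu 0 k ((G.induce A) □ H)) (h2 : Mu 0 l ((G.induce Aᶜ) □ H)) :
    Mu 0 (k + l) (G □ H) := by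
  classical
  have hφ : Function.Injective (fun v : A × W => ((v.1.1, v.2) : U × W)) := by
    rintro ⟨⟨a, ha⟩, x⟩ ⟨⟨b, hb⟩, y⟩ hab
    rw [Prod.ext_iff] at hab
    obtain ⟨e1, e2⟩ := hab
    have e1 : a = b := e1
    have e2 : x = y := e2
    subst e1
    subst e2
    rfl
  refine mu_extend' (Γ := G □ H) hφ (fun a b hab => ?_) h1 ?_
  · rcases hab with ⟨h, h'⟩ | ⟨h, h'⟩
    · exact Or.inl ⟨h, h'⟩
    · exact Or.inr ⟨h, congrArg Subtype.val h'⟩
  · obtain ⟨p, d, hd⟩ := h2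
    set Sp := Sol ((G.induce Aᶜ) □ H) (df p) d with hSp
    let E : ((Aᶜ : Set U) × W → Fin 3 → ℝ) →ₗ[ℝ] (U × W → Fin 3 → ℝ) :=
      { toFun := fun m z => if h : z.1 ∈ A then 0 else m (⟨z.1, h⟩, z.2)
        map_add' := by
          intro m m'
          funext z
          by_cases h : z.1 ∈ A <;> simp [h]
        map_smul' := by
          intro s m
          funext z
          by_cases h : z.1 ∈ A <;> simp [h] }
    refine ⟨fun z => if h : z.1 ∈ A then 0 else p (⟨z.1, h⟩, z.2), Sp.map E,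
      (Submodule.finrank_map_le _ _).trans hd, fun M hM hM0 => ?_⟩
    refine ⟨fun z => M (z.1.1, z.2), ⟨fun u v huv => ?_, fun v i => i.elim0⟩, ?_⟩
    · have h3 := hM (u.1.1, u.2) (v.1.1, v.2) (by
        rcases huv with ⟨h, h'⟩ | ⟨h, h'⟩
        · exact Or.inl ⟨h, h'⟩
        · exact Or.inr ⟨h, congrArg Subtype.val h'⟩)
      have hu : u.1.1 ∉ A := u.1.2
      have hv : v.1.1 ∉ A := v.1.2
      simp only [dif_neg hu, dif_neg hv] at h3
      exact h3
    · funext z
      by_cases h : z.1 ∈ A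
      · show (if h : z.1 ∈ A then 0 else M (z.1, z.2)) = M z
        rw [dif_pos h]
        exact (hM0 (⟨z.1, h⟩, z.2)).symm
      · show (if h : z.1 ∈ A then 0 else M (z.1, z.2)) = M z
        rw [dif_neg h]

/-- **A vertex with one neighbour.** -/
theorem mu_leaf [Finite U] [Finite W] {v a : U} (hav : G.Adj v a) {k l : ℕ}
    (h1 : Mu 0 k ((G.induce {u | u ≠ v}) □ H)) (h2 : Mu 1 l H) : Mu 0 (k + l) (G □ H) := by
  classical
  have hφ : Function.Injective (fun z : {u | u ≠ v} × W => ((z.1.1, z.2) : U × W)) := by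
    rintro ⟨⟨a, ha⟩, x⟩ ⟨⟨b, hb⟩, y⟩ hab
    rw [Prod.ext_iff] at hab
    obtain ⟨e1, e2⟩ := hab
    have e1 : a = b := e1
    have e2 : x = y := e2
    subst e1
    subst e2
    rfl
  refine mu_extend' (Γ := G □ H) hφ (fun a b hab => ?_) h1 ?_
  · rcases hab with ⟨h, h'⟩ | ⟨h, h'⟩
    · exact Or.inl ⟨h, h'⟩
    · exact Or.inr ⟨h, congrArg Subtype.val h'⟩
  · obtain ⟨p, d, hd⟩ := h2
    set Sp := Sol H (df p) d with hSp
    let E : (W → Fin 3 → ℝ) →ₗ[ℝ] (U × W → Fin 3 → ℝ) :=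
      { toFun := fun m z => if z.1 = v then m z.2 else 0
        map_add' := by
          intro m m'
          funext z
          by_cases h : z.1 = v <;> simp [h]
        map_smul' := by
          intro s m
          funext z
          by_cases h : z.1 = v <;> simp [h] }
    have hne : a ≠ v := hav.ne'
    refine ⟨fun z => if z.1 = v then p z.2 else p z.2 - d z.2 0, Sp.map E,
      (Submodule.finrank_map_le _ _).trans hd, fun M hM hM0 => ?_⟩
    refine ⟨fun y => M (v, y), ⟨fun x y hxy => ?_, fun y i => ?_⟩, ?_⟩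
    · have h3 := hM (v, x) (v, y) (Or.inr ⟨hxy, rfl⟩)
      simp only [if_true] at h3
      exact h3
    · fin_cases i
      have h3 := hM (v, y) (a, y) (Or.inl ⟨hav, rfl⟩)
      have h4 : M (a, y) = 0 := hM0 (⟨a, hne⟩, y)
      simp only [if_true, if_neg hne, h4, sub_zero, sub_sub_cancel] at h3
      exact h3
    · funext z
      by_cases h : z.1 = v
      · show (if z.1 = v then M (v, z.2) else 0) = M z
        rw [if_pos h, ← h]
      · show (if z.1 = v then M (v, z.2) else 0) = M z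
        rw [if_neg h]
        exact (hM0 (⟨z.1, h⟩, z.2)).symm

/-! ### Replacing a rigid part by a complete graph with four vertices -/

/-- the part `X` is replaced by a complete graph with four vertices -/
def Rp (G : SimpleGraph U) (X : Set U) : SimpleGraph ({u // u ∉ X} ⊕ Fin 4) where
  Adj a b := match a, b with
    | Sum.inl u, Sum.inl v => G.Adj u v
    | Sum.inl u, Sum.inr i => i = 0 ∧ ∃ x ∈ X, G.Adj u x
    | Sum.inr i, Sum.inl u => i = 0 ∧ ∃ x ∈ X, G.Adj u x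
    | Sum.inr i, Sum.inr j => i ≠ j
  symm := ⟨fun a b h => by
    rcases a with u | i <;> rcases b with v | j
    · exact SimpleGraph.Adj.symm h
    · exact h
    · exact h
    · exact Ne.symm h⟩
  loopless := ⟨fun a h => by
    rcases a with u | i
    · exact G.irrefl h
    · exact h rfl⟩

theorem mu_replace [Fintype U] [Fintype W] {X : Set U} (hW : 3 ≤ Fintype.card W)
    (hX : Mu 0 6 ((G.induce X) □ H)) {N : ℕ} (h : Mu 0 N ((Rp G X) □ H)) : Mu 0 N (G □ H) := by
  classical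
  have hφ : Function.Injective (fun v : X × W => ((v.1.1, v.2) : U × W)) := by
    rintro ⟨⟨a, ha⟩, x⟩ ⟨⟨b, hb⟩, y⟩ hab
    rw [Prod.ext_iff] at hab
    obtain ⟨e1, e2⟩ := hab
    have e1 : a = b := e1
    have e2 : x = y := e2
    subst e1
    subst e2
    rfl
  -- at most `N - 6` motions of the new product vanish on the new part
  set Γ := (Rp G X) □ H with hΓ
  obtain ⟨p, hp⟩ := exists_mg (({u // u ∉ X} ⊕ Fin 4) × W) 3
  have hcard : 3 ≤ Fintype.card (Fin 4 × W) := by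
    rw [Fintype.card_prod, Fintype.card_fin]
    omega
  have hmo : mo Γ p ≤ N := by
    obtain ⟨p', d, h⟩ := h
    refine (hp.min Γ p').trans (le_trans ?_ h)
    refine Submodule.finrank_mono ?_
    intro q hq
    rw [mem_mot] at hq
    exact ⟨fun u v huv => hq u v huv, fun v i => i.elim0⟩
  let inr' : Fin 4 × W → ({u // u ∉ X} ⊕ Fin 4) × W := fun z => (Sum.inr z.1, z.2)
  have hinr : Function.Injective inr' := by
    rintro ⟨a, x⟩ ⟨b, y⟩ hab
    rw [Prod.ext_iff] at hab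
    obtain ⟨e1, e2⟩ := hab
    have e1 : a = b := Sum.inr_injective e1
    have e2 : x = y := e2
    rw [e1, e2]
  let R : (({u // u ∉ X} ⊕ Fin 4) × W → Fin 3 → ℝ) →ₗ[ℝ] (Fin 4 × W → Fin 3 → ℝ) :=
    LinearMap.funLeft ℝ (Fin 3 → ℝ) inr'
  set P0 : Submodule ℝ (({u // u ∉ X} ⊕ Fin 4) × W → Fin 3 → ℝ) := Mot Γ p ⊓ LinearMap.ker R
    with hP0
  have hcard' : 3 ≤ Fintype.card (({u // u ∉ X} ⊕ Fin 4) × W) :=
    hcard.trans (Fintype.card_le_of_injective _ hinr)
  have hT : finrank ℝ (LinearMap.range (triv p)) = 6 := by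
    rw [LinearMap.finrank_range_of_inj (triv_inj hp hcard'), finrank_triv]
  have hinf : P0 ⊓ LinearMap.range (triv p) = ⊥ := by
    rw [eq_bot_iff]
    rintro M ⟨⟨-, hM⟩, ⟨A, b⟩, rfl⟩
    have hM : R (triv p (A, b)) = 0 := hM
    have h3 := triv_unique hp.toGen (S := Finset.univ.image inr')
      (by rw [Finset.card_image_of_injective _ hinr, Finset.card_univ]; exact hcard)
      (A := (A : Matrix (Fin 3) (Fin 3) ℝ)) (A' := 0) (b := b) (b' := 0) A.2 (by simp) (by
        intro v hv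
        obtain ⟨z, -, rfl⟩ := Finset.mem_image.1 hv
        have h4 := congrFun hM z
        simp only [Matrix.zero_mulVec, add_zero]
        exact h4)
    rw [Submodule.mem_bot]
    funext z
    show (A : Matrix (Fin 3) (Fin 3) ℝ) *ᵥ p z + b = 0
    rw [h3.1, h3.2]
    simp
  have hfin : finrank ℝ P0 + 6 ≤ N := by
    have h3 := Submodule.finrank_sup_add_finrank_inf_eq P0 (LinearMap.range (triv p))
    rw [hinf, finrank_bot, hT] at h3
    have h4 : P0 ⊔ LinearMap.range (triv p) ≤ Mot Γ p :=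
      sup_le inf_le_left (range_triv_le Γ p)
    have h5 := Submodule.finrank_mono h4
    have h6 : finrank ℝ (Mot Γ p) = mo Γ p := rfl
    omega
  have hext := mu_extend' (Γ := G □ H) (k := 6) (l := N - 6) hφ (fun a b hab => by
    rcases hab with ⟨h, h'⟩ | ⟨h, h'⟩
    · exact Or.inl ⟨h, h'⟩
    · exact Or.inr ⟨h, congrArg Subtype.val h'⟩) hX (by
    let c : U × W → ({u // u ∉ X} ⊕ Fin 4) × W := fun z =>
      (if h : z.1 ∈ X then Sum.inr 0 else Sum.inl ⟨z.1, h⟩, z.2)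
    refine ⟨fun z => p (c z), P0.map (LinearMap.funLeft ℝ (Fin 3 → ℝ) c),
      (Submodule.finrank_map_le _ _).trans (by omega), fun M hM hM0 => ?_⟩
    have hcX : ∀ u ∈ X, ∀ y, c (u, y) = (Sum.inr 0, y) := by
      intro u hu y
      simp only [c, dif_pos hu]
    have hcU : ∀ u, ∀ (hu : u ∉ X) (y), c (u, y) = (Sum.inl ⟨u, hu⟩, y) := by
      intro u hu y
      simp only [c, dif_neg hu]
    have hM0' : ∀ u ∈ X, ∀ y, M (u, y) = 0 := fun u hu y => hM0 (⟨u, hu⟩, y)
    have hM' : ∀ z z', (G □ H).Adj z z' → (p (c z) - p (c z')) ⬝ᵥ (M z - M z') = 0 := hM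
    refine ⟨fun z => match z.1 with
      | Sum.inl u => M (u.1, z.2)
      | Sum.inr _ => 0, ⟨(mem_mot _ _ _).2 ?_, ?_⟩, ?_⟩
    · rintro ⟨a, x⟩ ⟨b, y⟩ hab
      rcases a with u | i <;> rcases b with v | j
      · rcases hab with ⟨h1, h2⟩ | ⟨h1, h2⟩
        · have h3 := hM' (u.1, x) (v.1, y) (Or.inl ⟨h1, h2⟩)
          rw [hcU u.1 u.2, hcU v.1 v.2] at h3
          exact h3
        · have h2 : u = v := Sum.inl_injective h2
          subst h2
          have h3 := hM' (u.1, x) (u.1, y) (Or.inr ⟨h1, rfl⟩)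
          rw [hcU u.1 u.2, hcU u.1 u.2] at h3
          exact h3
      · rcases hab with ⟨⟨h1, x', hx', h1'⟩, h2⟩ | ⟨h1, h2⟩
        · subst h1
          have h2 : x = y := h2
          subst h2
          have h3 := hM' (u.1, x) (x', x) (Or.inl ⟨h1', rfl⟩)
          rw [hcU u.1 u.2, hcX x' hx', hM0' x' hx'] at h3
          exact h3
        · exact absurd h2 (by simp)
      · rcases hab with ⟨⟨h1, x', hx', h1'⟩, h2⟩ | ⟨h1, h2⟩
        · subst h1
          have h2 : x = y := h2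
          subst h2
          have h3 := hM' (x', x) (v.1, x) (Or.inl ⟨h1'.symm, rfl⟩)
          rw [hcU v.1 v.2, hcX x' hx', hM0' x' hx'] at h3
          exact h3
        · exact absurd h2 (by simp)
      · show _ ⬝ᵥ ((0 : Fin 3 → ℝ) - 0) = 0
        rw [sub_zero, dotProduct_zero]
    · rw [SetLike.mem_coe, LinearMap.mem_ker]
      rfl
    · funext ⟨u, y⟩
      by_cases hu : u ∈ X
      · show (match (c (u, y)).1 with
          | Sum.inl u => M (u.1, (c (u, y)).2)
          | Sum.inr _ => 0) = M (u, y)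
        rw [hcX u hu, hM0' u hu]
      · show (match (c (u, y)).1 with
          | Sum.inl u => M (u.1, (c (u, y)).2)
          | Sum.inr _ => 0) = M (u, y)
        rw [hcU u hu])
  refine hext.mono ?_
  omega

end Pool.Agent.J4H92.NC
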