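import Pool.Agent.J4H92.NC.Body
import Pool.Agent.J4H92.NC.Conv

/-!
# Contraction of a vertex of degree two
-/

set_option autoImplicit false

namespace Pool.Agent.J4H92.NC

open SimpleGraph hiding between

open Module Pool.Agent.H283R2.DR Pool.Agent.H283R2.DR.TA Pool.Agent.J4H92.CP Pool.Agent.H789R5

section Sel

variable {N W : Type*} [AddCommGroup N] [Module ℝ N] [FiniteDimensional ℝ N] [Fintype W]

/-- **Selection of directions.** -/
theorem sel' (D : N →ₗ[ℝ] (W → Fin 3 → ℝ))
    (Q : (W → Fin 3 → ℝ) → Prop) (hg : Good Q) (h0 : ∃ n, Q n)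
    (hC : ∀ n, Q n → ∀ M, (∀ x, n x ⬝ᵥ D M x = 0) → ∀ y y', y ≠ y' → D M y = 0 →
      D M y' = 0 → D M = 0)
    (hN : ∀ n, Q n → ∀ y, ∃ M, n y ⬝ᵥ D M y ≠ 0) :
    ∃ n, Q n ∧ (finrank ℝ (LinearMap.ker (cmp D n)) + Fintype.card W ≤ finrank ℝ N ∨
      ∀ M, (∀ x, n x ⬝ᵥ D M x = 0) → D M = 0) := by
  classical
  obtain ⟨k, ⟨n, hn, rfl⟩, hmin⟩ := (wellFounded_lt (α := ℕ)).has_min
    {k : ℕ | ∃ n, Q n ∧ finrank ℝ (LinearMap.ker (cmp D n)) = k}
    (by obtain ⟨n, hn⟩ := h0; exact ⟨_, n, hn, rfl⟩)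
  refine ⟨n, hn, ?_⟩
  by_contra hcon
  rw [not_or] at hcon
  obtain ⟨hcon1, hcon⟩ := hcon
  push Not at hcon
  obtain ⟨M0, hM0, hD0⟩ := hcon
  have hM0k : M0 ∈ LinearMap.ker (cmp D n) := by
    rw [LinearMap.mem_ker]
    funext x
    exact hM0 x
  have hrk := LinearMap.finrank_range_add_finrank_ker (cmp D n)
  have hrange : LinearMap.range (cmp D n) < ⊤ := by
    rw [lt_top_iff_ne_top]
    intro he
    rw [he, finrank_top] at hrk
    simp only [Module.finrank_fintype_fun_eq_card] at hrk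
    omega
  obtain ⟨f, hf0, hf⟩ := Submodule.exists_le_ker_of_lt_top _ hrange
  have hfM : ∀ M, ∑ x, f (Pi.single x 1) * (n x ⬝ᵥ D M x) = 0 := by
    intro M
    have h1 : f (cmp D n M) = 0 := hf ⟨M, rfl⟩
    have h2 : cmp D n M = ∑ x, (n x ⬝ᵥ D M x) • (Pi.single x (1 : ℝ) : W → ℝ) := by
      funext y
      simp [cmp, Finset.sum_apply, Pi.single_apply]
    rw [h2, map_sum] at h1
    rw [← h1]
    refine Finset.sum_congr rfl fun x _ => ?_
    rw [map_smul, smul_eq_mul, mul_comm]
  obtain ⟨y0, hy0⟩ : ∃ y, f (Pi.single y 1) ≠ 0 := by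
    by_contra hcon
    push Not at hcon
    apply hf0
    refine LinearMap.pi_ext' fun y => LinearMap.ext_ring ?_
    simpa using hcon y
  obtain ⟨y, hy, hDy⟩ : ∃ y, f (Pi.single y 1) ≠ 0 ∧ D M0 y ≠ 0 := by
    by_contra hcon
    push Not at hcon
    by_cases hex : ∃ y', y' ≠ y0 ∧ f (Pi.single y' 1) ≠ 0
    · obtain ⟨y', hne, hy'⟩ := hex
      exact hD0 (hC n hn M0 hM0 y' y0 hne (hcon y' hy') (hcon y0 hy0))
    · push Not at hex
      obtain ⟨M, hM⟩ := hN n hn y0
      have h1 := hfM M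
      rw [Finset.sum_eq_single y0 (fun x _ hx => by rw [hex x hx, zero_mul])
        (fun h => absurd (Finset.mem_univ _) h)] at h1
      exact hM ((mul_eq_zero.1 h1).resolve_left hy0)
  -- change the direction at `y`
  set e := D M0 y with he
  have hee : e ⬝ᵥ e ≠ 0 := by
    rw [Ne, dotProduct_self_eq_zero]
    exact hDy
  set E : W → Fin 3 → ℝ := Pi.single y e with hE
  have hfin := hg n (n + E) hn
  obtain ⟨β, hβ⟩ := (hfin.union (Set.finite_singleton (0 : ℝ))).infinite_compl.nonempty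
  rw [Set.mem_compl_iff, Set.mem_union, not_or, Set.mem_ofPred_eq, not_not,
    Set.mem_singleton_iff, add_sub_cancel_left] at hβ
  obtain ⟨hβ1, hβ0⟩ := hβ
  refine hmin _ ⟨_, hβ1, rfl⟩ ?_
  have hval : ∀ M x, cmp D (n + β • E) M x =
      n x ⬝ᵥ D M x + (if x = y then β * (e ⬝ᵥ D M y) else 0) := by
    intro M x
    show (n + β • E : W → Fin 3 → ℝ) x ⬝ᵥ D M x = _
    by_cases hx : x = y
    · subst hx
      simp [hE, add_dotProduct, smul_dotProduct]
    · simp [hE, hx]
  have hsub : LinearMap.ker (cmp D (n + β • E)) ≤ LinearMap.ker (cmp D n) := by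
    intro M hM
    rw [LinearMap.mem_ker] at hM ⊢
    have h1 : ∀ x, x ≠ y → n x ⬝ᵥ D M x = 0 := by
      intro x hx
      have := congrFun hM x
      rw [hval, if_neg hx, add_zero] at this
      exact this
    have h2 := hfM M
    rw [Finset.sum_eq_single y (fun x _ hx => by rw [h1 x hx, mul_zero])
      (fun h => absurd (Finset.mem_univ _) h)] at h2
    have h3 := (mul_eq_zero.1 h2).resolve_left hy
    funext x
    by_cases hx : x = y
    · rw [hx]
      exact h3
    · exact h1 x hx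
  refine Submodule.finrank_lt_finrank_of_lt (lt_of_le_of_ne hsub fun hh => ?_)
  rw [← hh, LinearMap.mem_ker] at hM0k
  have h1 := congrFun hM0k y
  rw [hval, if_pos rfl, hM0 y, zero_add] at h1
  exact (mul_ne_zero hβ0 hee) h1

end Sel

variable {U W : Type} {G : SimpleGraph U} {H : SimpleGraph W}

/-! ### One pin at each vertex -/

/-- planar motions as spatial vectors -/
def Ψp (q : W → Fin 2 → ℝ) : (Fin 3 → ℝ) →ₗ[ℝ] (W → Fin 3 → ℝ) where
  toFun c x := ![c 0 - c 2 * q x 1, c 1 + c 2 * q x 0, 0]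
  map_add' c c' := by
    funext x i
    fin_cases i <;> simp <;> ring
  map_smul' s c := by
    funext x i
    fin_cases i <;> simp <;> ring

theorem flat_sol {q : W → Fin 2 → ℝ} (hq : InfRigid H q) {M : W → Fin 3 → ℝ}
    (h1 : ∀ x y, H.Adj x y → ((![q x 0, q x 1, 0] : Fin 3 → ℝ) - ![q y 0, q y 1, 0]) ⬝ᵥ
      (M x - M y) = 0) (h2 : ∀ x, (![0, 0, 1] : Fin 3 → ℝ) ⬝ᵥ M x = 0) : ∃ c, Ψp q c = M := by
  obtain ⟨c, hc⟩ := plane_motion hq (a := fun x => M x 0) (b := fun x => M x 1) (by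
    intro x y hxy
    have := h1 x y hxy
    simp only [dotProduct, Fin.sum_univ_three, Pi.sub_apply, Matrix.cons_val_zero,
      Matrix.cons_val_one, Matrix.cons_val] at this
    linarith)
  refine ⟨c, ?_⟩
  funext x i
  have h3 := h2 x
  simp only [dotProduct, Fin.sum_univ_three, Matrix.cons_val_zero, Matrix.cons_val_one,
    Matrix.cons_val] at h3
  fin_cases i
  · exact (hc x).1.symm
  · exact (hc x).2.symm
  · show (0 : ℝ) = M x 2
    linarith

theorem mu_one_three [Finite W] (hH : GenRigid 2 H) : Mu 1 3 H := by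
  obtain ⟨q, hq⟩ := hH
  refine ⟨fun x => ![q x 0, q x 1, 0], fun _ _ => ![0, 0, 1], ?_⟩
  have hle : Sol H (df fun x => (![q x 0, q x 1, 0] : Fin 3 → ℝ))
      (fun (_ : W) (_ : Fin 1) => (![0, 0, 1] : Fin 3 → ℝ)) ≤ LinearMap.range (Ψp q) := by
    rintro M ⟨h1, h2⟩
    exact flat_sol hq h1 fun x => h2 x 0
  refine (Submodule.finrank_mono hle).trans ((LinearMap.finrank_range_le _).trans ?_)
  rw [Module.finrank_fin_fun]

/-- the parameters: placement, pins, directions -/
abbrev EZ (W : Type) : Type := (W → Fin 3 → ℝ) × (W → Fin 3 → ℝ) × (W → Fin 3 → ℝ)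

open Classical in
/-- one pin at each vertex and one more at `y` -/
noncomputable def LZ (y : W) : EZ W →ₗ[ℝ] ((W → W → Fin 3 → ℝ) × (W → Fin 2 → Fin 3 → ℝ)) where
  toFun e := (df e.1, fun x i => if i = 0 then e.2.1 x else if x = y then e.2.2 x else 0)
  map_add' e e' := by
    refine Prod.ext ?_ ?_
    · funext u v
      simp only [df, Prod.fst_add, Pi.add_apply]
      abel
    · funext x i
      by_cases hi : i = 0
      · simp [hi]
      · by_cases h : x = y <;> simp [hi, h]
  map_smul' c e := by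
    refine Prod.ext ?_ ?_
    · funext u v
      simp only [df, Prod.smul_fst, Pi.smul_apply, RingHom.id_apply, smul_sub]
    · funext x i
      by_cases hi : i = 0
      · simp [hi]
      · by_cases h : x = y <;> simp [hi, h]

/-- one pin at each vertex and one more anywhere -/
def NZ (H : SimpleGraph W) (e : EZ W) : Prop :=
  ∀ y, finrank ℝ (Sol H (LZ y e).1 (LZ y e).2) ≤ 2

theorem good_NZ [Finite W] : Good (NZ H) :=
  good_all fun y => good_sol H (LZ y) 2

theorem exists_NZ [Finite W] (hH : GenRigid 2 H) : ∃ e, NZ H e := by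
  classical
  obtain ⟨q, hq⟩ := hH
  refine ⟨(fun x => ![q x 0, q x 1, 0], fun _ => ![0, 0, 1], fun _ => ![1, 0, 0]), fun y => ?_⟩
  let φ : (Fin 3 → ℝ) →ₗ[ℝ] ℝ :=
    { toFun := fun c => c 0 - c 2 * q y 1
      map_add' := by
        intro c c'
        simp only [Pi.add_apply]
        ring
      map_smul' := by
        intro s c
        simp only [Pi.smul_apply, smul_eq_mul, RingHom.id_apply]
        ring }
  have hφ : LinearMap.range φ = ⊤ := by
    rw [LinearMap.range_eq_top]
    intro z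
    refine ⟨![z, 0, 0], ?_⟩
    show (![z, 0, 0] : Fin 3 → ℝ) 0 - (![z, 0, 0] : Fin 3 → ℝ) 2 * q y 1 = z
    simp
  have hk : finrank ℝ (LinearMap.ker φ) = 2 := by
    have := LinearMap.finrank_range_add_finrank_ker φ
    rw [hφ, finrank_top, Module.finrank_self, Module.finrank_fin_fun] at this
    omega
  refine le_trans (Submodule.finrank_mono ?_)
    ((Submodule.finrank_map_le (Ψp q) (LinearMap.ker φ)).trans hk.le)
  rintro M ⟨h1, h2⟩
  obtain ⟨c, hc⟩ := flat_sol hq h1 fun x => by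
    have := h2 x 0
    exact this
  refine ⟨c, ?_, hc⟩
  have h3 := h2 y 1
  have h3 : (![1, 0, 0] : Fin 3 → ℝ) ⬝ᵥ M y = 0 := by
    have h4 : (if (1 : Fin 2) = 0 then (![0, 0, 1] : Fin 3 → ℝ) else if y = y then ![1, 0, 0] else 0) ⬝ᵥ
      M y = 0 := h3
    rw [if_neg (by decide), if_pos rfl] at h4
    exact h4
  rw [← hc] at h3
  simp only [Ψp, LinearMap.coe_mk, AddHom.coe_mk, dotProduct, Fin.sum_univ_three,
    Matrix.cons_val_zero, Matrix.cons_val_one, Matrix.cons_val] at h3
  show c 0 - c 2 * q y 1 = 0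
  linarith

/-- at least three motions with one pin at each vertex -/
theorem three_le [Fintype W] (he : H.edgeSet.ncard + 3 = 2 * Fintype.card W)
    (q m : W → Fin 3 → ℝ) :
    3 ≤ finrank ℝ (Sol H (df q) (fun x (_ : Fin 1) => m x)) := by
  have h1 := layer_le q H
  have h2 := rank_le H
  let φ : Mot H q →ₗ[ℝ] (W → ℝ) :=
    { toFun := fun M x => m x ⬝ᵥ M.1 x
      map_add' := by
        intro M M'
        funext x
        simp [dotProduct_add]
      map_smul' := by
        intro s M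
        funext x
        simp [dotProduct_smul] }
  have h3 := LinearMap.finrank_range_add_finrank_ker φ
  have h4 : finrank ℝ (LinearMap.range φ) ≤ Fintype.card W := by
    refine (Submodule.finrank_le _).trans ?_
    rw [Module.finrank_fintype_fun_eq_card]
  have h5 : finrank ℝ (Mot H q) = mo H q := rfl
  let ι : LinearMap.ker φ →ₗ[ℝ] Sol H (df q) (fun x (_ : Fin 1) => m x) :=
    (((Mot H q).subtype).comp (LinearMap.ker φ).subtype).codRestrict _ (by
      rintro ⟨⟨M, hM⟩, hk⟩
      rw [mem_mot] at hM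
      refine ⟨hM, fun x i => ?_⟩
      exact congrFun (LinearMap.mem_ker.1 hk) x)
  have h6 : finrank ℝ (LinearMap.ker φ) ≤ finrank ℝ (Sol H (df q) (fun x (_ : Fin 1) => m x)) := by
    refine LinearMap.finrank_le_finrank_of_injective (f := ι) ?_
    intro M M' hMM
    have h5 : (ι M).1 = (ι M').1 := by rw [hMM]
    exact Subtype.ext (Subtype.ext h5)
  omega

/-- the directions alone -/
theorem good_NZ_slice [Finite W] (p m : W → Fin 3 → ℝ) :
    Good (fun n : W → Fin 3 → ℝ => NZ H (p, m, n)) := by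
  intro n0 n1 h0
  refine (good_NZ (H := H) (p, m, n0) (p, m, n1) h0).subset ?_
  intro s hs
  rw [Set.mem_ofPred_eq] at hs ⊢
  have : ((p, m, n0) + s • ((p, m, n1) - (p, m, n0)) : EZ W) = (p, m, n0 + s • (n1 - n0)) := by
    refine Prod.ext ?_ (Prod.ext ?_ ?_)
    · simp
    · simp
    · simp
  rw [this]
  exact hs

/-- `v` is removed and the edge `a b` is added -/
def Sp (G : SimpleGraph U) (v a b : U) : SimpleGraph {u : U // u ≠ v} where
  Adj x y := x ≠ y ∧ (G.Adj x.1 y.1 ∨ s(x.1, y.1) = s(a, b))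
  symm := ⟨fun _ _ ⟨h, h'⟩ => ⟨h.symm, h'.elim (fun h => Or.inl h.symm)
    (fun h => Or.inr (by rw [Sym2.eq_swap]; exact h))⟩⟩
  loopless := ⟨fun _ h => h.1 rfl⟩

/-- the pins of the layer of `v` -/
noncomputable def L3 {U' : Type} (a b : U') : EB U' W →ₗ[ℝ]
    ((W → W → Fin 3 → ℝ) × (W → Fin 1 → Fin 3 → ℝ)) where
  toFun e := (df fun w => e.1 (a, w), fun w _ => e.1 (a, w) - e.1 (b, w))
  map_add' e e' := by
    refine Prod.ext ?_ ?_
    · funext u v
      simp only [df, Prod.fst_add, Pi.add_apply]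
      abel
    · funext x i
      simp only [Prod.fst_add, Prod.snd_add, Pi.add_apply]
      abel
  map_smul' c e := by
    refine Prod.ext ?_ ?_
    · funext u v
      simp only [df, Prod.smul_fst, Pi.smul_apply, RingHom.id_apply, smul_sub]
    · funext x i
      simp only [Prod.smul_fst, Prod.smul_snd, Pi.smul_apply, RingHom.id_apply, smul_sub]

/-- the parameters of the layer of `v` -/
noncomputable def L5 {U' : Type} (a b : U') : EB U' W →ₗ[ℝ] EZ W where
  toFun e := (fun w => e.1 (a, w), fun w => e.1 (a, w) - e.1 (b, w), e.2.1)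
  map_add' e e' := by
    refine Prod.ext rfl (Prod.ext ?_ rfl)
    funext x
    simp only [Prod.fst_add, Prod.snd_add, Pi.add_apply]
    abel
  map_smul' c e := by
    refine Prod.ext rfl (Prod.ext ?_ rfl)
    funext x
    simp only [Prod.smul_fst, Prod.smul_snd, Pi.smul_apply, RingHom.id_apply, smul_sub]

/-- **Contraction of a vertex of degree two.** -/
theorem mu_split [Fintype U] [Fintype W] {v a b : U} (hab : a ≠ b) (hva : G.Adj v a)
    (hvb : G.Adj v b) (hdeg : ∀ u, G.Adj v u → u = a ∨ u = b) (hH : GenRigid 2 H)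
    (hW3 : 3 ≤ Fintype.card W) (he : H.edgeSet.ncard + 3 = 2 * Fintype.card W)
    {k1 k2 N : ℕ} (hk1 : k1 ≤ N) (hk2 : k2 + 3 ≤ N + Fintype.card W)
    (h1 : Mu 0 k1 ((Sp G v a b) □ H)) (h2 : Mu 0 k2 ((G.induce {u | u ≠ v}) □ H)) :
    Mu 0 N (G □ H) := by
  classical
  have hW2 : 2 ≤ Fintype.card W := by omega
  have hav : a ≠ v := hva.ne'
  have hbv : b ≠ v := hvb.ne'
  set a' : {u : U // u ≠ v} := ⟨a, hav⟩ with ha'
  set b' : {u : U // u ≠ v} := ⟨b, hbv⟩ with hb'
  have hab' : a' ≠ b' := fun h => hab (congrArg Subtype.val h)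
  set f := fab hav with hf
  let c : U × W → {u : U // u ≠ v} × W := fun z => (f z.1, z.2)
  let cv : ({u | u ≠ v} : Set U) × W → {u : U // u ≠ v} × W := fun z => (⟨z.1.1, z.1.2⟩, z.2)
  have hcv : Function.Injective cv := by
    rintro ⟨⟨u, hu⟩, w⟩ ⟨⟨u', hu'⟩, w'⟩ h
    rw [Prod.ext_iff] at h
    obtain ⟨e1, e2⟩ := h
    have e1 : u = u' := congrArg Subtype.val e1
    have e2 : w = w' := e2
    subst e1
    subst e2
    rfl
  let Lq : EB {u : U // u ≠ v} W →ₗ[ℝ] ({u : U // u ≠ v} × W → Fin 3 → ℝ) :=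
    LinearMap.fst ℝ _ _
  have lift : ∀ {P : ({u : U // u ≠ v} × W → Fin 3 → ℝ) → Prop}, (∃ q, P q) →
      ∃ e : EB {u : U // u ≠ v} W, P (Lq e) := by
    rintro P ⟨q, hq⟩
    exact ⟨(q, 0, 0), hq⟩
  have g1 := good_comp (good_Bd ((Sp G v a b) □ H) id k1) Lq
  have g2 := good_comp (good_Bd ((G.induce {u | u ≠ v}) □ H) cv k2) Lq
  have g3 := good_sol H (L3 (W := W) a' b') 3
  have g4 := good_comp (good_PN (H := H)) (Ly (W := W) a')
  have g5 := good_comp (good_NZ (H := H)) (L5 (W := W) a' b')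
  have mk : ∀ p m : W → Fin 3 → ℝ, ∃ q : {u : U // u ≠ v} × W → Fin 3 → ℝ,
      (∀ w, q (a', w) = p w) ∧ ∀ w, q (a', w) - q (b', w) = m w := by
    intro p m
    refine ⟨fun z => if z.1 = a' then p z.2 else p z.2 - m z.2, fun w => ?_, fun w => ?_⟩
    · simp
    · simp only [if_true, if_neg hab'.symm]
      abel
  obtain ⟨e12, he12⟩ := good_two g1 g2 (lift (exists_Bd Function.injective_id h1))
    (lift (exists_Bd hcv h2))
  obtain ⟨e123, he123⟩ := good_two (good_and g1 g2) g3 ⟨e12, he12⟩ (by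
    obtain ⟨p, d, hd⟩ := mu_one_three hH
    obtain ⟨q, hq1, hq2⟩ := mk p (fun w => d w 0)
    refine ⟨(q, 0, 0), ?_⟩
    have e1 : (L3 (W := W) a' b' (q, 0, 0)).1 = df p := by
      show df (fun w => q (a', w)) = df p
      rw [funext hq1]
    have e2 : (L3 (W := W) a' b' (q, 0, 0)).2 = d := by
      funext w i
      show q (a', w) - q (b', w) = d w i
      rw [hq2, Subsingleton.elim i 0]
    rw [e1, e2]
    exact hd)
  obtain ⟨e1234, he1234⟩ := good_two (good_and (good_and g1 g2) g3) g4 ⟨e123, he123⟩ (by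
    obtain ⟨⟨p, n, d⟩, h⟩ := exists_PN hH hW2
    exact ⟨(fun z => p z.2, n, d), h⟩)
  obtain ⟨⟨q, n0, d⟩, ⟨⟨⟨hb1, hb2⟩, hb3⟩, hb4⟩, hb5⟩ :=
    good_two (good_and (good_and (good_and g1 g2) g3) g4) g5 ⟨e1234, he1234⟩ (by
      obtain ⟨⟨p, m, n⟩, h⟩ := exists_NZ hH
      obtain ⟨q, hq1, hq2⟩ := mk p m
      refine ⟨(q, n, 0), ?_⟩
      show NZ H (fun w => q (a', w), fun w => q (a', w) - q (b', w), n)
      rw [funext hq1, funext hq2]
      exact h)
  have hb1 : finrank ℝ (Sol ((Sp G v a b) □ H) (df q)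
    (0 : ({u : U // u ≠ v} × W) → Fin 0 → Fin 3 → ℝ)) ≤ k1 := hb1
  have hb2 : finrank ℝ (Sol ((G.induce {u | u ≠ v}) □ H) (df fun z => q (cv z))
    (0 : (({u | u ≠ v} : Set U) × W) → Fin 0 → Fin 3 → ℝ)) ≤ k2 := hb2
  have hb3 : finrank ℝ (Sol H (df fun w => q (a', w))
    (fun w (_ : Fin 1) => q (a', w) - q (b', w))) ≤ 3 := hb3
  have hb4 : PN H (fun w => q (a', w), n0, d) := hb4
  have hb5 : NZ H (fun w => q (a', w), fun w => q (a', w) - q (b', w), n0) := hb5
  have hfv : f v = a' := fab_b hav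
  have hfa : f a = a' := fab_a hav
  have hfb : f b = b' := fab_ne hav hbv
  have hfu : ∀ u (hu : u ≠ v), f u = ⟨u, hu⟩ := fun u hu => fab_ne hav hu
  set S2 := Sol ((G.induce {u | u ≠ v}) □ H) (df fun z => q (cv z))
    (0 : (({u | u ≠ v} : Set U) × W) → Fin 0 → Fin 3 → ℝ) with hS2
  set S3 := Sol H (df fun w => q (a', w)) (fun w (_ : Fin 1) => q (a', w) - q (b', w)) with hS3
  -- the motions without the edge
  set N' := Sol ((G0 G a v) □ H) (df fun z => q (c z)) (0 : U × W → Fin 0 → Fin 3 → ℝ) with hN'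
  have hadj0 : (G0 G a v).Adj v b := by
    rw [G0_adj]
    refine ⟨hvb, fun h => ?_⟩
    rcases Sym2.eq_iff.1 h with ⟨h, -⟩ | ⟨-, h⟩
    · exact hav h.symm
    · exact hab h.symm
  have hNfin : finrank ℝ N' ≤ k2 + 3 := by
    let R : (U × W → Fin 3 → ℝ) →ₗ[ℝ] (({u | u ≠ v} : Set U) × W → Fin 3 → ℝ) :=
      LinearMap.funLeft ℝ (Fin 3 → ℝ) (fun z => (z.1.1, z.2))
    have hR : ∀ M ∈ N', R M ∈ S2 := by
      rintro M ⟨hM, -⟩
      refine ⟨fun z z' hzz => ?_, fun v i => i.elim0⟩
      have h3 := hM (z.1.1, z.2) (z'.1.1, z'.2) (by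
        rcases hzz with ⟨h, h'⟩ | ⟨h, h'⟩
        · refine Or.inl ⟨G0_adj.2 ⟨h, fun he => ?_⟩, h'⟩
          rcases Sym2.eq_iff.1 he with ⟨-, h⟩ | ⟨h, -⟩
          · exact z'.1.2 h
          · exact z.1.2 h
        · exact Or.inr ⟨h, congrArg Subtype.val h'⟩)
      have e1 : c (z.1.1, z.2) = cv z := by
        show (f z.1.1, z.2) = _
        rw [hfu z.1.1 z.1.2]
      have e2 : c (z'.1.1, z'.2) = cv z' := by
        show (f z'.1.1, z'.2) = _
        rw [hfu z'.1.1 z'.1.2]
      have h4 : (q (c (z.1.1, z.2)) - q (c (z'.1.1, z'.2))) ⬝ᵥ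
        (M (z.1.1, z.2) - M (z'.1.1, z'.2)) = 0 := h3
      rw [e1, e2] at h4
      exact h4
    let F := (R.domRestrict N').codRestrict S2 (fun M => hR M.1 M.2)
    have h2 := LinearMap.finrank_range_add_finrank_ker F
    have h3 : finrank ℝ (LinearMap.range F) ≤ k2 := (Submodule.finrank_le _).trans hb2
    have h4 : finrank ℝ (LinearMap.ker F) ≤ 3 := by
      refine le_trans ?_ hb3
      let R3 : (U × W → Fin 3 → ℝ) →ₗ[ℝ] (W → Fin 3 → ℝ) :=
        LinearMap.funLeft ℝ (Fin 3 → ℝ) (fun w => (v, w))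
      have hsub : ∀ M : LinearMap.ker F, R3 (M.1.1 : U × W → Fin 3 → ℝ) ∈ S3 := by
        rintro ⟨⟨M, hM⟩, hk⟩
        have h' : R M = 0 := congrArg Subtype.val (LinearMap.mem_ker.1 hk)
        refine ⟨fun x y hxy => ?_, fun y i => ?_⟩
        · have h5 : (q (f v, x) - q (f v, y)) ⬝ᵥ (M (v, x) - M (v, y)) = 0 :=
            hM.1 (v, x) (v, y) (Or.inr ⟨hxy, rfl⟩)
          rw [hfv] at h5
          exact h5
        · have h5 : (q (f v, y) - q (f b, y)) ⬝ᵥ (M (v, y) - M (b, y)) = 0 :=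
            hM.1 (v, y) (b, y) (Or.inl ⟨hadj0, rfl⟩)
          have h6 : M (b, y) = 0 := congrFun h' (⟨b, hbv⟩, y)
          rw [hfv, hfb, h6, sub_zero] at h5
          exact h5
      let ι : LinearMap.ker F →ₗ[ℝ] S3 :=
        ((R3.comp (N'.subtype)).comp (LinearMap.ker F).subtype).codRestrict _ hsub
      refine LinearMap.finrank_le_finrank_of_injective (f := ι) ?_
      rw [injective_iff_map_eq_zero]
      rintro ⟨⟨M, hM⟩, hk⟩ h
      have h' : R M = 0 := congrArg Subtype.val (LinearMap.mem_ker.1 hk)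
      have h3 : R3 M = 0 := congrArg Subtype.val h
      rw [Subtype.ext_iff, Subtype.ext_iff]
      show M = 0
      funext ⟨u, w⟩
      by_cases hu : u = v
      · rw [hu]
        exact congrFun h3 w
      · exact congrFun h' (⟨u, hu⟩, w)
    omega
  let D0 : (U × W → Fin 3 → ℝ) →ₗ[ℝ] (W → Fin 3 → ℝ) :=
    { toFun := fun M w => M (v, w) - M (a, w)
      map_add' := by
        intro M M'
        funext w
        simp only [Pi.add_apply]
        abel
      map_smul' := by
        intro s M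
        funext w
        simp only [Pi.smul_apply, smul_sub, RingHom.id_apply] }
  let D : N' →ₗ[ℝ] (W → Fin 3 → ℝ) := D0.comp N'.subtype
  have hDker : finrank ℝ (LinearMap.ker D) ≤ k1 := by
    refine le_trans ?_ hb1
    let R : (U × W → Fin 3 → ℝ) →ₗ[ℝ] ({u : U // u ≠ v} × W → Fin 3 → ℝ) :=
      LinearMap.funLeft ℝ (Fin 3 → ℝ) (fun z => (z.1.1, z.2))
    have hsub : ∀ M : LinearMap.ker D, R (M.1.1 : U × W → Fin 3 → ℝ) ∈
        Sol ((Sp G v a b) □ H) (df q) (0 : ({u : U // u ≠ v} × W) → Fin 0 → Fin 3 → ℝ) := by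
      rintro ⟨⟨M, hM⟩, hk⟩
      have hva' : ∀ w, M (v, w) = M (a, w) := fun w =>
        sub_eq_zero.1 (congrFun (LinearMap.mem_ker.1 hk) w)
      have hvb' : ∀ w, (q (a', w) - q (b', w)) ⬝ᵥ (M (a, w) - M (b, w)) = 0 := by
        intro w
        have h5 : (q (f v, w) - q (f b, w)) ⬝ᵥ (M (v, w) - M (b, w)) = 0 :=
          hM.1 (v, w) (b, w) (Or.inl ⟨hadj0, rfl⟩)
        rw [hfv, hfb, hva'] at h5
        exact h5
      refine ⟨?_, fun v i => i.elim0⟩
      rintro ⟨x, w⟩ ⟨y, w'⟩ hxy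
      show (q (x, w) - q (y, w')) ⬝ᵥ (M (x.1, w) - M (y.1, w')) = 0
      rcases hxy with ⟨⟨hne, h | h⟩, h'⟩ | ⟨h, h'⟩
      · have h' : w = w' := h'
        subst h'
        have h5 : (q (f x.1, w) - q (f y.1, w)) ⬝ᵥ (M (x.1, w) - M (y.1, w)) = 0 :=
          hM.1 (x.1, w) (y.1, w) (Or.inl ⟨G0_adj.2 ⟨h, fun he => by
            rcases Sym2.eq_iff.1 he with ⟨-, h⟩ | ⟨h, -⟩
            · exact y.2 h
            · exact x.2 h⟩, rfl⟩)
        rw [hfu x.1 x.2, hfu y.1 y.2] at h5
        exact h5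
      · have h' : w = w' := h'
        subst h'
        rcases Sym2.eq_iff.1 h with ⟨e1, e2⟩ | ⟨e1, e2⟩
        · have e1' : x = a' := Subtype.ext e1
          have e2' : y = b' := Subtype.ext e2
          rw [e1', e2']
          exact hvb' w
        · have e1' : x = b' := Subtype.ext e1
          have e2' : y = a' := Subtype.ext e2
          rw [e1', e2']
          have h5 := hvb' w
          rw [← neg_sub (q (b', w)), ← neg_sub (M (b, w)), neg_dotProduct_neg] at h5
          exact h5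
      · have h' : x = y := h'
        have h : H.Adj w w' := h
        subst h'
        have h5 : (q (f x.1, w) - q (f x.1, w')) ⬝ᵥ (M (x.1, w) - M (x.1, w')) = 0 :=
          hM.1 (x.1, w) (x.1, w') (Or.inr ⟨h, rfl⟩)
        rw [hfu x.1 x.2] at h5
        exact h5
    let ι : LinearMap.ker D →ₗ[ℝ] Sol ((Sp G v a b) □ H) (df q)
        (0 : ({u : U // u ≠ v} × W) → Fin 0 → Fin 3 → ℝ) :=
      ((R.comp (N'.subtype)).comp (LinearMap.ker D).subtype).codRestrict _ hsub
    refine LinearMap.finrank_le_finrank_of_injective (f := ι) ?_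
    rw [injective_iff_map_eq_zero]
    rintro ⟨⟨M, hM⟩, hk⟩ h
    have hva' : ∀ w, M (v, w) = M (a, w) := fun w =>
      sub_eq_zero.1 (congrFun (LinearMap.mem_ker.1 hk) w)
    have h3 : R M = 0 := congrArg Subtype.val h
    rw [Subtype.ext_iff, Subtype.ext_iff]
    show M = 0
    funext ⟨u, w⟩
    by_cases hu : u = v
    · rw [hu, hva']
      exact congrFun h3 (a', w)
    · exact congrFun h3 (⟨u, hu⟩, w)
  obtain ⟨n, hn, hfin⟩ := sel' D (fun n => PN H (fun w => q (a', w), n, d) ∧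
      NZ H (fun w => q (a', w), fun w => q (a', w) - q (b', w), n))
    (good_and (good_PN_slice _ d) (good_NZ_slice _ _)) ⟨n0, hb4, hb5⟩ (by
      intro n hn M hM y y' hyy hy hy'
      refine (hn.1.1 ⟨(y, y'), hyy⟩).zero (fun x x' hx => ?_) hM hy hy'
      have e1 : (q (f v, x) - q (f v, x')) ⬝ᵥ (M.1 (v, x) - M.1 (v, x')) = 0 :=
        M.2.1 (v, x) (v, x') (Or.inr ⟨hx, rfl⟩)
      have e2 : (q (f a, x) - q (f a, x')) ⬝ᵥ (M.1 (a, x) - M.1 (a, x')) = 0 :=
        M.2.1 (a, x) (a, x') (Or.inr ⟨hx, rfl⟩)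
      rw [hfv] at e1
      rw [hfa] at e2
      show (q (a', x) - q (a', x')) ⬝ᵥ
        ((M.1 (v, x) - M.1 (a, x)) - (M.1 (v, x') - M.1 (a, x'))) = 0
      have : (M.1 (v, x) - M.1 (a, x)) - (M.1 (v, x') - M.1 (a, x')) =
        (M.1 (v, x) - M.1 (v, x')) - (M.1 (a, x) - M.1 (a, x')) := by abel
      rw [this, dotProduct_sub, e1, e2, sub_zero]) (by
      intro n hn y
      by_contra hcon
      push Not at hcon
      have h3 := three_le he (fun w => q (a', w)) (fun w => q (a', w) - q (b', w))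
      have h4 := hn.2 y
      have h5 : S3 ≤ Sol H (LZ y (fun w => q (a', w), fun w => q (a', w) - q (b', w), n)).1
          (LZ y (fun w => q (a', w), fun w => q (a', w) - q (b', w), n)).2 := by
        rintro m ⟨hm1, hm2⟩
        refine ⟨hm1, fun x i => ?_⟩
        show (if i = 0 then q (a', x) - q (b', x) else if x = y then n x else 0) ⬝ᵥ m x = 0
        by_cases hi : i = 0
        · rw [if_pos hi]
          exact hm2 x 0
        rw [if_neg hi]
        by_cases hx : x = y
        · rw [if_pos hx, hx]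
          have h6 := hcon ⟨fun z => if z.1 = v then m z.2 else 0, ?_, fun v i => i.elim0⟩
          · have h7 : n y ⬝ᵥ ((if v = v then m y else 0) - (if a = v then m y else 0)) = 0 := h6
            rw [if_pos rfl, if_neg hav, sub_zero] at h7
            exact h7
          · rintro ⟨s, x⟩ ⟨t, y'⟩ hst
            show (q (f s, x) - q (f t, y')) ⬝ᵥ
              ((if s = v then m x else 0) - (if t = v then m y' else 0)) = 0
            rcases hst with ⟨h, h'⟩ | ⟨h, h'⟩
            · have h' : x = y' := h'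
              subst h'
              have hnb : ∀ u, (G0 G a v).Adj v u → u = b := by
                intro u hu
                rw [G0_adj] at hu
                rcases hdeg u hu.1 with rfl | rfl
                · exact absurd Sym2.eq_swap hu.2
                · rfl
              by_cases hs : s = v
              · subst hs
                have ht := hnb t h
                rw [if_pos rfl, ht, if_neg hbv, sub_zero, hfv, hfb]
                exact hm2 x 0
              · by_cases ht : t = v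
                · subst ht
                  have hs' := hnb s h.symm
                  rw [if_pos rfl, hs', if_neg hbv, zero_sub, hfv, hfb, ← neg_sub, neg_dotProduct_neg]
                  exact hm2 x 0
                · rw [if_neg hs, if_neg ht, sub_zero, dotProduct_zero]
            · have h' : s = t := h'
              subst h'
              by_cases hs : s = v
              · rw [if_pos hs, if_pos hs, hs, hfv]
                exact hm1 x y' h
              · rw [if_neg hs, if_neg hs, sub_zero, dotProduct_zero]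
        · rw [if_neg hx, zero_dotProduct]
      have h6 := Submodule.finrank_mono h5
      have h7 : 3 ≤ finrank ℝ S3 := h3
      omega)
  -- the limit placement
  refine mu_of_lim c q (fun z => if z.1 = a then n z.2 else 0)
    (0 : U × W → Fin 0 → Fin 3 → ℝ) ?_
  set L := Sol (G □ H) (lim c q (fun z => if z.1 = a then n z.2 else 0))
    (0 : U × W → Fin 0 → Fin 3 → ℝ) with hL
  have hLN : ∀ M ∈ L, M ∈ N' := by
    rintro M ⟨hM, -⟩
    refine ⟨fun z z' hzz => ?_, fun v i => i.elim0⟩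
    have hne : c z ≠ c z' := by
      intro he
      rw [Prod.ext_iff] at he
      rcases hzz with ⟨h, h'⟩ | ⟨h, h'⟩
      · exact (G0_adj.1 h).2 (fab_eq hav he.1 h.ne)
      · exact h.ne he.2
    have h5 := hM z z' (by
      rcases hzz with ⟨h, h'⟩ | ⟨h, h'⟩
      · exact Or.inl ⟨(G0_adj.1 h).1, h'⟩
      · exact Or.inr ⟨h, h'⟩)
    rw [lim_ne _ _ hne] at h5
    exact h5
  have hLk : ∀ M (hM : M ∈ L), (⟨M, hLN M hM⟩ : N') ∈ LinearMap.ker (cmp D n) := by
    intro M hM
    rw [LinearMap.mem_ker]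
    funext w
    have h6 := hM.1 (a, w) (v, w) (Or.inl ⟨hva.symm, rfl⟩)
    have heq : c (a, w) = c (v, w) := by
      show (f a, w) = (f v, w)
      rw [hfa, hfv]
    rw [lim_eq _ _ heq] at h6
    simp only [if_true, if_neg hav.symm, sub_zero] at h6
    show n w ⬝ᵥ (M (v, w) - M (a, w)) = 0
    rw [← neg_sub, dotProduct_neg, h6, neg_zero]
  have hLfin : finrank ℝ L ≤ finrank ℝ (LinearMap.ker (cmp D n)) := by
    let ι : L →ₗ[ℝ] LinearMap.ker (cmp D n) :=
      { toFun := fun M => ⟨⟨M.1, hLN M.1 M.2⟩, hLk M.1 M.2⟩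
        map_add' := fun _ _ => rfl
        map_smul' := fun _ _ => rfl }
    refine LinearMap.finrank_le_finrank_of_injective (f := ι) ?_
    rw [injective_iff_map_eq_zero]
    rintro ⟨M, hM⟩ h
    have h' : M = 0 := congrArg (fun z => z.1.1) h
    rw [Subtype.ext_iff]
    exact h'
  refine hLfin.trans ?_
  rcases hfin with h | h
  · omega
  · refine le_trans (Submodule.finrank_mono ?_) (hDker.trans hk1)
    intro M hM
    rw [LinearMap.mem_ker] at hM ⊢
    exact h M fun x => congrFun hM x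

end Pool.Agent.J4H92.NC
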