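import Pool.Agent.J4H92.NC.F1
import Pool.Agent.J4H92.NC.F2

/-!
# Values of colourings
-/

set_option autoImplicit false

namespace Pool.Agent.J4H92.NC

open SimpleGraph hiding between

open Module Pool.Agent.H283R2.DR Pool.Agent.H283R2.DR.TA Pool.Agent.J4H92.CP Pool.Agent.H789R5

variable {U : Type} {G : SimpleGraph U}

/-- the edges between different classes -/
def Cf (G : SimpleGraph U) (f : U → ℕ) : SimpleGraph U where
  Adj u v := G.Adj u v ∧ f u ≠ f v
  symm := ⟨fun _ _ ⟨h, h'⟩ => ⟨h.symm, h'.symm⟩⟩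
  loopless := ⟨fun _ h => G.irrefl h.1⟩

/-- the vertices that are alone in their class -/
def Sg (f : U → ℕ) : Set U := {u | ∀ w, f w = f u → w = u}

/-- the value of a colouring -/
noncomputable def val (h : ℕ) (G : SimpleGraph U) (f : U → ℕ) : ℤ :=
  6 * (Set.range f).ncard + ((h : ℤ) - 3) * (Sg f).ncard - h * (Cf G f).edgeSet.ncard

/-- ordered pairs of adjacent vertices in different classes -/
def Cr (G : SimpleGraph U) (f : U → ℕ) : Set (U × U) := {p | G.Adj p.1 p.2 ∧ f p.1 ≠ f p.2}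

theorem pairs_two [Finite U] (Γ : SimpleGraph U) :
    {p : U × U | Γ.Adj p.1 p.2}.ncard = 2 * Γ.edgeSet.ncard := by
  classical
  have := Fintype.ofFinite U
  have h1 := Γ.dart_card_eq_twice_card_edges
  have h2 : Γ.edgeSet.ncard = Γ.edgeFinset.card := by
    rw [← Set.ncard_coe_finset, coe_edgeFinset]
  have e : Γ.Dart ≃ {p : U × U | Γ.Adj p.1 p.2} :=
    { toFun := fun d => ⟨d.toProd, d.adj⟩
      invFun := fun p => ⟨p.1, p.2⟩
      left_inv := fun _ => rfl
      right_inv := fun _ => rfl }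
  rw [h2, ← h1, ← Nat.card_coe_set_eq, ← Nat.card_congr e, Nat.card_eq_fintype_card]

theorem cr_two [Finite U] (f : U → ℕ) : (Cr G f).ncard = 2 * (Cf G f).edgeSet.ncard :=
  pairs_two (Cf G f)

theorem val_ge [Finite U] {f : U → ℕ} {h : ℕ} {k s c : ℤ} (h3 : 3 ≤ h)
    (hK : k ≤ (Set.range f).ncard) (hS : s ≤ (Sg f).ncard)
    (hC : ((Cr G f).ncard : ℤ) ≤ 2 * c) : 6 * k + ((h : ℤ) - 3) * s - h * c ≤ val h G f := by
  rw [cr_two] at hC
  push_cast at hC
  have hC : ((Cf G f).edgeSet.ncard : ℤ) ≤ c := by linarith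
  have h3' : (3 : ℤ) ≤ h := by exact_mod_cast h3
  have e1 := mul_le_mul_of_nonneg_left hS (by linarith : (0 : ℤ) ≤ (h : ℤ) - 3)
  have e2 := mul_le_mul_of_nonneg_left hC (by linarith : (0 : ℤ) ≤ (h : ℤ))
  unfold val
  linarith

theorem exists_bound [Finite U] (f : U → ℕ) : ∃ B, ∀ u, f u < B := by
  obtain ⟨B, hB⟩ := (Set.finite_range f).bddAbove
  exact ⟨B + 1, fun u => Nat.lt_succ_of_le (hB ⟨u, rfl⟩)⟩

open Classical in
/-- the classes that meet the image of `ι` are united -/
noncomputable def mrg {Q : Type} (ι : Q → U) (z : Q) (f : U → ℕ) (u : U) : ℕ :=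
  if f u ∈ Set.range (fun q => f (ι q)) then f (ι z) else f u

theorem mrg_in {Q : Type} {ι : Q → U} {z : Q} {f : U → ℕ} {u : U}
    (h : f u ∈ Set.range (fun q => f (ι q))) : mrg ι z f u = f (ι z) := if_pos h

theorem mrg_out {Q : Type} {ι : Q → U} {z : Q} {f : U → ℕ} {u : U}
    (h : f u ∉ Set.range (fun q => f (ι q))) : mrg ι z f u = f u := if_neg h

/-- **Uniting the classes that meet a rigid part.** -/
theorem val_mrg [Finite U] {Q : Type} [Finite Q] {Γ : SimpleGraph Q} {ι : Q → U}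
    (hι : Function.Injective ι) (hadj : ∀ a b, Γ.Adj a b → G.Adj (ι a) (ι b)) (z : Q)
    {f : U → ℕ} {h : ℕ} (h3 : 3 ≤ h) (hΓ : val h Γ (fun q => f (ι q)) ≤ 6) :
    val h G f ≤ val h G (mrg ι z f) := by
  classical
  set X0 := Set.range (fun q => f (ι q)) with hX0
  set f1 : Q → ℕ := fun q => f (ι q) with hf1
  set f' := mrg ι z f with hf'
  have hz0 : f (ι z) ∈ X0 := ⟨z, rfl⟩
  have hsub0 : X0 ⊆ Set.range f := by
    rintro _ ⟨q, rfl⟩
    exact ⟨ι q, rfl⟩
  have hK : ((Set.range f).ncard : ℤ) - X0.ncard + 1 ≤ (Set.range f').ncard := by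
    have h1 : insert (f (ι z)) (Set.range f \ X0) ⊆ Set.range f' := by
      intro c hc
      rcases hc with rfl | ⟨⟨u, rfl⟩, hu⟩
      · exact ⟨ι z, mrg_in hz0⟩
      · exact ⟨u, mrg_out hu⟩
    have h2 := Set.ncard_le_ncard h1 (Set.toFinite _)
    rw [Set.ncard_insert_of_notMem (fun hc => hc.2 hz0)] at h2
    have h4 := Set.ncard_sdiff_add_ncard_of_subset hsub0 (Set.toFinite _)
    omega
  have hS : ((Sg f).ncard : ℤ) - (Sg f1).ncard ≤ (Sg f').ncard := by
    have h1 : Sg f \ Set.range ι ⊆ Sg f' := by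
      rintro u ⟨hu, hur⟩ w hw
      have hu0 : f u ∉ X0 := by
        rintro ⟨q, hq⟩
        exact hur ⟨q, hu _ hq⟩
      have e1 : f' u = f u := mrg_out hu0
      rw [e1] at hw
      by_cases hw0 : f w ∈ X0
      · have e2 : f' w = f (ι z) := mrg_in hw0
        rw [e2] at hw
        exact absurd (hw ▸ hz0) hu0
      · have e2 : f' w = f w := mrg_out hw0
        rw [e2] at hw
        exact hu w hw
    have h2 : Sg f ∩ Set.range ι ⊆ ι '' Sg f1 := by
      rintro _ ⟨hu, ⟨q, rfl⟩⟩
      exact ⟨q, fun w hw => hι (hu _ hw), rfl⟩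
    have h3 := Set.ncard_le_ncard h1 (Set.toFinite _)
    have h4 := Set.ncard_le_ncard h2 (Set.toFinite _)
    rw [Set.ncard_image_of_injective _ hι] at h4
    have h5 := Set.ncard_inter_add_ncard_sdiff_eq_ncard (Sg f) (Set.range ι) (Set.toFinite _)
    omega
  have hC : ((Cr G f').ncard : ℤ) ≤ 2 * (((Cf G f).edgeSet.ncard : ℤ) -
      (Cf Γ f1).edgeSet.ncard) := by
    have h1 : Prod.map ι ι '' Cr Γ f1 ⊆ Cr G f := by
      rintro _ ⟨⟨a, b⟩, ⟨hab, hf⟩, rfl⟩
      exact ⟨hadj a b hab, hf⟩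
    have h2 : Cr G f' ⊆ Cr G f \ (Prod.map ι ι '' Cr Γ f1) := by
      rintro ⟨u, w⟩ ⟨huw, hf⟩
      have hf : f' u ≠ f' w := hf
      refine ⟨⟨huw, fun he => hf ?_⟩, ?_⟩
      · have he : f u = f w := he
        show mrg ι z f u = mrg ι z f w
        unfold mrg
        rw [he]
      · rintro ⟨⟨a, b⟩, -, hab⟩
        have e1 : ι a = u := congrArg Prod.fst hab
        have e2 : ι b = w := congrArg Prod.snd hab
        apply hf
        have e3 : f' u = f (ι z) := mrg_in ⟨a, congrArg f e1⟩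
        have e4 : f' w = f (ι z) := mrg_in ⟨b, congrArg f e2⟩
        rw [e3, e4]
    have h3 := Set.ncard_le_ncard h2 (Set.toFinite _)
    have h4 := Set.ncard_sdiff_add_ncard_of_subset h1 (Set.toFinite _)
    rw [Set.ncard_image_of_injective _ (hι.prodMap hι)] at h4
    rw [cr_two f, cr_two f1] at h4
    omega
  have := val_ge h3 hK hS hC
  have e : val h G f = 6 * (Set.range f).ncard + ((h : ℤ) - 3) * (Sg f).ncard -
    h * (Cf G f).edgeSet.ncard := rfl
  have e' : val h Γ f1 = 6 * X0.ncard + ((h : ℤ) - 3) * (Sg f1).ncard -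
    h * (Cf Γ f1).edgeSet.ncard := rfl
  rw [e'] at hΓ
  rw [e]
  linarith

/-- **Refining a class.** -/
theorem exists_refine [Finite U] {f : U → ℕ} {c : ℕ} {X : Set U} (hX : ∀ u, u ∈ X ↔ f u = c)
    (h2 : 2 ≤ X.ncard) (f1 : X → ℕ) {h : ℕ} (h3 : 3 ≤ h) :
    ∃ f' : U → ℕ, val h G f + val h (G.induce X) f1 - 6 ≤ val h G f' ∧
      ∀ u ∈ X, ∀ w, w ∉ X → f' u ≠ f' w := by
  classical
  obtain ⟨B, hB⟩ := exists_bound f
  let f' : U → ℕ := fun u => if h : u ∈ X then f1 ⟨u, h⟩ + B else f u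
  have hin : ∀ u (hu : u ∈ X), f' u = f1 ⟨u, hu⟩ + B := fun u hu => dif_pos hu
  have hout : ∀ u, u ∉ X → f' u = f u := fun u hu => dif_neg hu
  have hc : ∀ u ∈ X, ∀ w, w ∉ X → f' u ≠ f' w := by
    intro u hu w hw he
    rw [hin u hu, hout w hw] at he
    have := hB w
    omega
  refine ⟨f', ?_, hc⟩
  obtain ⟨x0, hx0, x1, hx1, hx01⟩ := (Set.one_lt_ncard (Set.toFinite _)).1 (by omega : 1 < X.ncard)
  have hK : ((Set.range f).ncard : ℤ) - 1 + (Set.range f1).ncard ≤ (Set.range f').ncard := by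
    have h1 : (Set.range f \ {c}) ∪ ((fun n => n + B) '' Set.range f1) ⊆ Set.range f' := by
      rintro n (⟨⟨u, rfl⟩, hu⟩ | ⟨_, ⟨q, rfl⟩, rfl⟩)
      · exact ⟨u, hout u fun hx => hu ((hX u).1 hx)⟩
      · exact ⟨q.1, hin q.1 q.2⟩
    have h2 := Set.ncard_le_ncard h1 (Set.toFinite _)
    rw [Set.ncard_union_eq (by
      rw [Set.disjoint_left]
      rintro n ⟨⟨u, rfl⟩, -⟩ ⟨_, -, he⟩
      have he : _ + B = f u := he
      have := hB u
      omega) (Set.toFinite _) (Set.toFinite _), Set.ncard_image_of_injective _ (by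
        intro a b hab
        have hab : a + B = b + B := hab
        omega)] at h2
    have hcr : ({c} : Set ℕ) ⊆ Set.range f := by
      rintro _ rfl
      exact ⟨x0, (hX x0).1 hx0⟩
    have h4 := Set.ncard_sdiff_add_ncard_of_subset hcr (Set.toFinite _)
    rw [Set.ncard_singleton] at h4
    omega
  have hS : ((Sg f).ncard : ℤ) + (Sg f1).ncard ≤ (Sg f').ncard := by
    have hSX : ∀ u ∈ Sg f, u ∉ X := by
      intro u hu hx
      have e0 := hu x0 (((hX x0).1 hx0).trans ((hX u).1 hx).symm)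
      have e1 := hu x1 (((hX x1).1 hx1).trans ((hX u).1 hx).symm)
      exact hx01 (e0.trans e1.symm)
    have h1 : Sg f ∪ (Subtype.val '' Sg f1) ⊆ Sg f' := by
      rintro u (hu | ⟨q, hq, rfl⟩) w hw
      · have hx := hSX u hu
        rw [hout u hx] at hw
        by_cases hwX : w ∈ X
        · rw [hin w hwX] at hw
          have := hB u
          omega
        · rw [hout w hwX] at hw
          exact hu w hw
      · rw [hin q.1 q.2] at hw
        by_cases hwX : w ∈ X
        · rw [hin w hwX] at hw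
          have h5 := hq ⟨w, hwX⟩ (by
            show f1 ⟨w, hwX⟩ = f1 ⟨q.1, q.2⟩
            omega)
          exact congrArg Subtype.val h5
        · rw [hout w hwX] at hw
          have := hB w
          omega
    have h2 := Set.ncard_le_ncard h1 (Set.toFinite _)
    rw [Set.ncard_union_eq (by
      rw [Set.disjoint_left]
      rintro u hu ⟨q, -, rfl⟩
      exact hSX _ hu q.2) (Set.toFinite _) (Set.toFinite _),
      Set.ncard_image_of_injective _ Subtype.val_injective] at h2
    omega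
  have hC : ((Cr G f').ncard : ℤ) ≤ 2 * (((Cf G f).edgeSet.ncard : ℤ) +
      (Cf (G.induce X) f1).edgeSet.ncard) := by
    have h1 : Cr G f' ⊆ Cr G f ∪ Prod.map Subtype.val Subtype.val '' Cr (G.induce X) f1 := by
      rintro ⟨u, w⟩ ⟨huw, hf⟩
      have hf : f' u ≠ f' w := hf
      by_cases hu : u ∈ X
      · by_cases hw : w ∈ X
        · refine Or.inr ⟨(⟨u, hu⟩, ⟨w, hw⟩), ⟨huw, fun he => hf ?_⟩, rfl⟩
          rw [hin u hu, hin w hw]
          have he : f1 ⟨u, hu⟩ = f1 ⟨w, hw⟩ := he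
          rw [he]
        · refine Or.inl ⟨huw, fun he => hw ?_⟩
          have he : f u = f w := he
          rw [hX, ← he]
          exact (hX u).1 hu
      · by_cases hw : w ∈ X
        · refine Or.inl ⟨huw, fun he => hu ?_⟩
          have he : f u = f w := he
          rw [hX, he]
          exact (hX w).1 hw
        · refine Or.inl ⟨huw, ?_⟩
          rw [hout u hu, hout w hw] at hf
          exact hf
    have h2 := Set.ncard_le_ncard h1 (Set.toFinite _)
    have h4 := Set.ncard_union_le (Cr G f)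
      (Prod.map Subtype.val Subtype.val '' Cr (G.induce X) f1)
    rw [Set.ncard_image_of_injective _ (Subtype.val_injective.prodMap
      Subtype.val_injective), cr_two f, cr_two f1] at h4
    omega
  have := val_ge h3 hK hS hC
  have e : val h G f = 6 * (Set.range f).ncard + ((h : ℤ) - 3) * (Sg f).ncard -
    h * (Cf G f).edgeSet.ncard := rfl
  have e' : val h (G.induce X) f1 = 6 * (Set.range f1).ncard + ((h : ℤ) - 3) * (Sg f1).ncard -
    h * (Cf (G.induce X) f1).edgeSet.ncard := rfl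
  rw [e, e']
  linarith

/-- **Two separate parts.** -/
theorem exists_glue [Finite U] {A : Set U} (hA : ∀ u ∈ A, ∀ w, w ∉ A → ¬ G.Adj u w)
    (f1 : A → ℕ) (f2 : (Aᶜ : Set U) → ℕ) {h : ℕ} (h3 : 3 ≤ h) :
    ∃ f : U → ℕ, val h (G.induce A) f1 + val h (G.induce Aᶜ) f2 ≤ val h G f := by
  classical
  obtain ⟨B, hB⟩ := exists_bound f2
  let f' : U → ℕ := fun u => if h : u ∈ A then f1 ⟨u, h⟩ + B else f2 ⟨u, h⟩
  have hin : ∀ u (hu : u ∈ A), f' u = f1 ⟨u, hu⟩ + B := fun u hu => dif_pos hu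
  have hout : ∀ u (hu : u ∉ A), f' u = f2 ⟨u, hu⟩ := fun u hu => dif_neg hu
  refine ⟨f', ?_⟩
  have hK : ((Set.range f1).ncard : ℤ) + (Set.range f2).ncard ≤ (Set.range f').ncard := by
    have h1 : Set.range f2 ∪ ((fun n => n + B) '' Set.range f1) ⊆ Set.range f' := by
      rintro n (⟨q, rfl⟩ | ⟨_, ⟨q, rfl⟩, rfl⟩)
      · exact ⟨q.1, hout q.1 q.2⟩
      · exact ⟨q.1, hin q.1 q.2⟩
    have h2 := Set.ncard_le_ncard h1 (Set.toFinite _)
    rw [Set.ncard_union_eq (by
      rw [Set.disjoint_left]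
      rintro n ⟨q, rfl⟩ ⟨_, -, he⟩
      have he : _ + B = f2 q := he
      have := hB q
      omega) (Set.toFinite _) (Set.toFinite _), Set.ncard_image_of_injective _ (by
        intro a b hab
        have hab : a + B = b + B := hab
        omega)] at h2
    omega
  have hS : ((Sg f1).ncard : ℤ) + (Sg f2).ncard ≤ (Sg f').ncard := by
    have h1 : (Subtype.val '' Sg f1) ∪ (Subtype.val '' Sg f2) ⊆ Sg f' := by
      rintro _ (⟨q, hq, rfl⟩ | ⟨q, hq, rfl⟩) w hw
      · rw [hin q.1 q.2] at hw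
        by_cases hwX : w ∈ A
        · rw [hin w hwX] at hw
          have h5 := hq ⟨w, hwX⟩ (by
            show f1 ⟨w, hwX⟩ = f1 ⟨q.1, q.2⟩
            omega)
          exact congrArg Subtype.val h5
        · rw [hout w hwX] at hw
          have := hB ⟨w, hwX⟩
          omega
      · rw [hout q.1 q.2] at hw
        by_cases hwX : w ∈ A
        · rw [hin w hwX] at hw
          have := hB ⟨q.1, q.2⟩
          omega
        · rw [hout w hwX] at hw
          have h5 := hq ⟨w, hwX⟩ hw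
          exact congrArg Subtype.val h5
    have h2 := Set.ncard_le_ncard h1 (Set.toFinite _)
    rw [Set.ncard_union_eq (by
      rw [Set.disjoint_left]
      rintro _ ⟨q, -, rfl⟩ ⟨q', -, he⟩
      exact q'.2 (he ▸ q.2)) (Set.toFinite _) (Set.toFinite _),
      Set.ncard_image_of_injective _ Subtype.val_injective,
      Set.ncard_image_of_injective _ Subtype.val_injective] at h2
    omega
  have hC : ((Cr G f').ncard : ℤ) ≤ 2 * (((Cf (G.induce A) f1).edgeSet.ncard : ℤ) +
      (Cf (G.induce Aᶜ) f2).edgeSet.ncard) := by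
    have h1 : Cr G f' ⊆ Prod.map Subtype.val Subtype.val '' Cr (G.induce A) f1 ∪
        Prod.map Subtype.val Subtype.val '' Cr (G.induce Aᶜ) f2 := by
      rintro ⟨u, w⟩ ⟨huw, hf⟩
      have hf : f' u ≠ f' w := hf
      have huw : G.Adj u w := huw
      by_cases hu : u ∈ A
      · by_cases hw : w ∈ A
        · refine Or.inl ⟨(⟨u, hu⟩, ⟨w, hw⟩), ⟨huw, fun he => hf ?_⟩, rfl⟩
          rw [hin u hu, hin w hw]
          have he : f1 ⟨u, hu⟩ = f1 ⟨w, hw⟩ := he
          rw [he]
        · exact absurd huw (hA u hu w hw)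
      · by_cases hw : w ∈ A
        · exact absurd huw.symm (hA w hw u hu)
        · refine Or.inr ⟨(⟨u, hu⟩, ⟨w, hw⟩), ⟨huw, fun he => hf ?_⟩, rfl⟩
          rw [hout u hu, hout w hw]
          exact he
    have h2 := Set.ncard_le_ncard h1 (Set.toFinite _)
    have h4 := Set.ncard_union_le (Prod.map Subtype.val Subtype.val '' Cr (G.induce A) f1)
      (Prod.map Subtype.val Subtype.val '' Cr (G.induce Aᶜ) f2)
    rw [Set.ncard_image_of_injective _ (Subtype.val_injective.prodMap
      Subtype.val_injective),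
      Set.ncard_image_of_injective _ (Subtype.val_injective.prodMap
      Subtype.val_injective), cr_two f1, cr_two f2] at h4
    omega
  have := val_ge h3 hK hS hC
  unfold val at this ⊢
  linarith

/-- **A new class with one vertex.** -/
theorem exists_new [Finite U] {v : U} (f : {u : U // u ≠ v} → ℕ) {d : ℕ}
    (hd : {p : U × U | G.Adj p.1 p.2 ∧ (p.1 = v ∨ p.2 = v)}.ncard ≤ 2 * d) {h : ℕ}
    (h3 : 3 ≤ h) : ∃ f' : U → ℕ, val h (G.induce {u | u ≠ v}) f + h + 3 - h * d ≤ val h G f' := by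
  classical
  obtain ⟨B, hB⟩ := exists_bound f
  let f' : U → ℕ := fun u => if h : u = v then B else f ⟨u, h⟩
  have hin : f' v = B := dif_pos rfl
  have hout : ∀ u (hu : u ≠ v), f' u = f ⟨u, hu⟩ := fun u hu => dif_neg hu
  refine ⟨f', ?_⟩
  have hK : ((Set.range f).ncard : ℤ) + 1 ≤ (Set.range f').ncard := by
    have h1 : insert B (Set.range f) ⊆ Set.range f' := by
      rintro n (rfl | ⟨q, rfl⟩)
      · exact ⟨v, hin⟩
      · exact ⟨q.1, hout q.1 q.2⟩
    have h2 := Set.ncard_le_ncard h1 (Set.toFinite _)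
    rw [Set.ncard_insert_of_notMem (by
      rintro ⟨q, hq⟩
      have := hB q
      omega)] at h2
    omega
  have hS : ((Sg f).ncard : ℤ) + 1 ≤ (Sg f').ncard := by
    have h1 : insert v (Subtype.val '' Sg f) ⊆ Sg f' := by
      rintro _ (rfl | ⟨q, hq, rfl⟩) w hw
      · rw [hin] at hw
        by_contra hne
        rw [hout w hne] at hw
        have := hB ⟨w, hne⟩
        omega
      · rw [hout q.1 q.2] at hw
        by_cases hwv : w = v
        · rw [hwv, hin] at hw
          have := hB ⟨q.1, q.2⟩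
          omega
        · rw [hout w hwv] at hw
          exact congrArg Subtype.val (hq ⟨w, hwv⟩ hw)
    have h2 := Set.ncard_le_ncard h1 (Set.toFinite _)
    rw [Set.ncard_insert_of_notMem (by
      rintro ⟨q, -, hq⟩
      exact q.2 hq), Set.ncard_image_of_injective _ Subtype.val_injective] at h2
    omega
  have hC : ((Cr G f').ncard : ℤ) ≤ 2 * (((Cf (G.induce {u | u ≠ v}) f).edgeSet.ncard : ℤ) + d) := by
    have h1 : Cr G f' ⊆ Prod.map Subtype.val Subtype.val '' Cr (G.induce {u | u ≠ v}) f ∪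
        {p : U × U | G.Adj p.1 p.2 ∧ (p.1 = v ∨ p.2 = v)} := by
      rintro ⟨u, w⟩ ⟨huw, hf⟩
      have hf : f' u ≠ f' w := hf
      have huw : G.Adj u w := huw
      by_cases hu : u = v
      · exact Or.inr ⟨huw, Or.inl hu⟩
      · by_cases hw : w = v
        · exact Or.inr ⟨huw, Or.inr hw⟩
        · refine Or.inl ⟨(⟨u, hu⟩, ⟨w, hw⟩), ⟨huw, fun he => hf ?_⟩, rfl⟩
          rw [hout u hu, hout w hw]
          exact he
    have h2 := Set.ncard_le_ncard h1 (Set.toFinite _)
    have h4 := Set.ncard_union_le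
      (Prod.map Subtype.val Subtype.val '' Cr (G.induce {u | u ≠ v}) f)
      {p : U × U | G.Adj p.1 p.2 ∧ (p.1 = v ∨ p.2 = v)}
    rw [Set.ncard_image_of_injective _ (Subtype.val_injective.prodMap
      Subtype.val_injective)] at h4
    have h5 := cr_two (G := G.induce {u | u ≠ v}) f
    omega
  have := val_ge h3 hK hS hC
  unfold val at this ⊢
  linarith

/-- removing an edge inside a class -/
theorem val_del_eq [Finite U] {a b : U} (f : U → ℕ) (hab : f a = f b) {h : ℕ} (h3 : 3 ≤ h) :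
    val h (G0 G a b) f ≤ val h G f := by
  have hC : ((Cr G f).ncard : ℤ) ≤ 2 * ((Cf (G0 G a b) f).edgeSet.ncard : ℤ) := by
    have h1 : Cr G f ⊆ Cr (G0 G a b) f := by
      rintro ⟨u, w⟩ ⟨huw, hf⟩
      refine ⟨G0_adj.2 ⟨huw, fun he => ?_⟩, hf⟩
      have hf : f u ≠ f w := hf
      rcases Sym2.eq_iff.1 he with ⟨e1, e2⟩ | ⟨e1, e2⟩
      · have e1 : u = a := e1
        have e2 : w = b := e2
        rw [e1, e2] at hf
        exact hf hab
      · have e1 : u = b := e1
        have e2 : w = a := e2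
        rw [e1, e2] at hf
        exact hf hab.symm
    have h2 := Set.ncard_le_ncard h1 (Set.toFinite _)
    rw [cr_two (G := G0 G a b) f] at h2
    exact_mod_cast h2
  have := val_ge h3 le_rfl le_rfl hC
  unfold val at this ⊢
  linarith

/-- removing an edge between two classes -/
theorem val_del_ne [Finite U] {a b : U} (f : U → ℕ) {h : ℕ} (h3 : 3 ≤ h) :
    val h (G0 G a b) f ≤ val h G f + h := by
  have hC : ((Cr G f).ncard : ℤ) ≤ 2 * (((Cf (G0 G a b) f).edgeSet.ncard : ℤ) + 1) := by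
    have h1 : Cr G f ⊆ Cr (G0 G a b) f ∪ {(a, b), (b, a)} := by
      rintro ⟨u, w⟩ ⟨huw, hf⟩
      by_cases he : s(u, w) = s(a, b)
      · right
        rcases Sym2.eq_iff.1 he with ⟨e1, e2⟩ | ⟨e1, e2⟩
        · left
          rw [e1, e2]
        · right
          show (u, w) = (b, a)
          rw [e1, e2]
      · exact Or.inl ⟨G0_adj.2 ⟨huw, he⟩, hf⟩
    have h2 := Set.ncard_le_ncard h1 (Set.toFinite _)
    have h4 := Set.ncard_union_le (Cr (G0 G a b) f) {(a, b), (b, a)}
    have h5 : ({(a, b), (b, a)} : Set (U × U)).ncard ≤ 2 := by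
      refine (Set.ncard_insert_le _ _).trans ?_
      rw [Set.ncard_singleton]
    rw [cr_two (G := G0 G a b) f] at h4
    omega
  have := val_ge h3 le_rfl le_rfl hC
  unfold val at this ⊢
  linarith

end Pool.Agent.J4H92.NC
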