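import Pool.Agent.J4H92.NC.F3

/-!
# Values of colourings and degrees of freedom
-/

set_option autoImplicit false

namespace Pool.Agent.J4H92.NC

open SimpleGraph hiding between

open Module Pool.Agent.H283R2.DR Pool.Agent.H283R2.DR.TA Pool.Agent.J4H92.CP Pool.Agent.H789R5

variable {U W : Type} {G : SimpleGraph U} {H : SimpleGraph W}

theorem cf_const [Finite U] {f : U → ℕ} (hf : ∀ u w, f u = f w) :
    (Cf G f).edgeSet.ncard = 0 := by
  have : (Cf G f).edgeSet = ∅ := by
    rw [Set.eq_empty_iff_forall_notMem]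
    intro e
    induction e using Sym2.ind with | _ x y => ?_
    intro h
    exact h.2 (hf x y)
  rw [this, Set.ncard_empty]

theorem range_const [Nonempty U] {f : U → ℕ} (hf : ∀ u w, f u = f w) :
    (Set.range f).ncard = 1 := by
  obtain ⟨u0⟩ := ‹Nonempty U›
  rw [Set.ncard_eq_one]
  refine ⟨f u0, ?_⟩
  ext c
  constructor
  · rintro ⟨u, rfl⟩
    exact hf u u0
  · rintro rfl
    exact ⟨u0, rfl⟩

/-- constant colourings -/
theorem val_const [Finite U] (h2 : 2 ≤ Nat.card U) {f : U → ℕ} (hf : ∀ u w, f u = f w) (h : ℕ) :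
    val h G f = 6 := by
  have hne : Nonempty U := by
    by_contra hcon
    rw [not_nonempty_iff] at hcon
    rw [Nat.card_of_isEmpty] at h2
    omega
  have hS : Sg f = ∅ := by
    rw [Set.eq_empty_iff_forall_notMem]
    intro u hu
    have h1 : (Set.univ : Set U).ncard ≤ 1 := by
      rw [Set.ncard_le_one (Set.toFinite _)]
      intro a _ b _
      rw [hu a (hf a u), hu b (hf b u)]
    rw [Set.ncard_univ] at h1
    omega
  unfold val
  rw [cf_const hf, range_const hf, hS, Set.ncard_empty]
  simp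

theorem val_one [Finite U] (h1 : Nat.card U = 1) (f : U → ℕ) (h : ℕ) :
    val h G f = h + 3 := by
  have hss : Subsingleton U := by
    rw [Nat.card_eq_one_iff_unique] at h1
    exact h1.1
  have hne : Nonempty U := by
    rw [Nat.card_eq_one_iff_unique] at h1
    exact h1.2
  have hf : ∀ u w, f u = f w := fun u w => by rw [Subsingleton.elim u w]
  have hS : Sg f = Set.univ := by
    rw [Set.eq_univ_iff_forall]
    intro u w _
    exact Subsingleton.elim _ _
  unfold val
  rw [cf_const hf, range_const hf, hS, Set.ncard_univ, h1]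
  push_cast
  ring

/-- the contracted vertex in the common class of its neighbours -/
theorem val_sp_eq [Finite U] {v a b : U} (hav : a ≠ v) (hbv : b ≠ v) (hab : a ≠ b)
    (hdeg : ∀ u, G.Adj v u → u = a ∨ u = b) (f : {u : U // u ≠ v} → ℕ)
    (hf : f ⟨a, hav⟩ = f ⟨b, hbv⟩) {h : ℕ} (h3 : 3 ≤ h) :
    ∃ f' : U → ℕ, val h (Sp G v a b) f ≤ val h G f' := by
  classical
  let f' : U → ℕ := fun u => if h : u = v then f ⟨a, hav⟩ else f ⟨u, h⟩
  have hin : f' v = f ⟨a, hav⟩ := dif_pos rfl
  have hout : ∀ u (hu : u ≠ v), f' u = f ⟨u, hu⟩ := fun u hu => dif_neg hu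
  refine ⟨f', ?_⟩
  have hK : ((Set.range f).ncard : ℤ) ≤ (Set.range f').ncard := by
    have h1 : Set.range f ⊆ Set.range f' := by
      rintro _ ⟨q, rfl⟩
      exact ⟨q.1, hout q.1 q.2⟩
    exact_mod_cast Set.ncard_le_ncard h1 (Set.toFinite _)
  have hS : ((Sg f).ncard : ℤ) ≤ (Sg f').ncard := by
    have h1 : Subtype.val '' Sg f ⊆ Sg f' := by
      rintro _ ⟨q, hq, rfl⟩ w hw
      rw [hout q.1 q.2] at hw
      by_cases hwv : w = v
      · rw [hwv, hin] at hw
        have e1 := hq ⟨a, hav⟩ hw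
        have e2 := hq ⟨b, hbv⟩ (hf ▸ hw)
        exact absurd (congrArg Subtype.val (e1.trans e2.symm)) hab
      · rw [hout w hwv] at hw
        exact congrArg Subtype.val (hq ⟨w, hwv⟩ hw)
    have h2 := Set.ncard_le_ncard h1 (Set.toFinite _)
    rw [Set.ncard_image_of_injective _ Subtype.val_injective] at h2
    exact_mod_cast h2
  have hC : ((Cr G f').ncard : ℤ) ≤ 2 * ((Cf (Sp G v a b) f).edgeSet.ncard : ℤ) := by
    have hv : ∀ w, G.Adj v w → f' v = f' w := by
      intro w hw
      have hwv : w ≠ v := hw.ne'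
      rw [hin, hout w hwv]
      rcases hdeg w hw with rfl | rfl
      · rfl
      · exact hf
    have h1 : Cr G f' ⊆ Prod.map Subtype.val Subtype.val '' Cr (Sp G v a b) f := by
      rintro ⟨u, w⟩ ⟨huw, hf⟩
      have hf : f' u ≠ f' w := hf
      have huw : G.Adj u w := huw
      by_cases hu : u = v
      · subst hu
        exact absurd (hv w huw) hf
      · by_cases hw : w = v
        · subst hw
          exact absurd (hv u huw.symm).symm hf
        · refine ⟨(⟨u, hu⟩, ⟨w, hw⟩), ⟨⟨fun he => huw.ne (congrArg Subtype.val he), Or.inl huw⟩,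
            fun he => hf ?_⟩, rfl⟩
          rw [hout u hu, hout w hw]
          exact he
    have h2 := Set.ncard_le_ncard h1 (Set.toFinite _)
    rw [Set.ncard_image_of_injective _ (Subtype.val_injective.prodMap Subtype.val_injective),
      cr_two (G := Sp G v a b) f] at h2
    exact_mod_cast h2
  have := val_ge h3 hK hS hC
  unfold val at this ⊢
  linarith

/-- the contracted vertex between two classes -/
theorem val_sp_ne [Finite U] {v a b : U} (hav : a ≠ v) (hbv : b ≠ v)
    (hnab : ¬ G.Adj a b) (f : {u : U // u ≠ v} → ℕ)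
    (hf : f ⟨a, hav⟩ ≠ f ⟨b, hbv⟩) {h : ℕ} (h3 : 3 ≤ h) :
    val h (Sp G v a b) f + h ≤ val h (G.induce {u | u ≠ v}) f := by
  classical
  have hne : (⟨a, hav⟩ : {u : U // u ≠ v}) ≠ ⟨b, hbv⟩ := fun h => hf (by rw [h])
  have hC : ((Cr (G.induce {u | u ≠ v}) f).ncard : ℤ) ≤
      2 * (((Cf (Sp G v a b) f).edgeSet.ncard : ℤ) - 1) := by
    set T : Set ({u : U // u ≠ v} × {u : U // u ≠ v}) :=
      {(⟨a, hav⟩, ⟨b, hbv⟩), (⟨b, hbv⟩, ⟨a, hav⟩)} with hT
    have h1 : T ⊆ Cr (Sp G v a b) f := by
      rintro p (rfl | rfl)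
      · exact ⟨⟨hne, Or.inr rfl⟩, hf⟩
      · exact ⟨⟨hne.symm, Or.inr Sym2.eq_swap⟩, hf.symm⟩
    have h2 : (Cr (G.induce {u | u ≠ v}) f : Set ({u : U // u ≠ v} × {u : U // u ≠ v})) ⊆
        Cr (Sp G v a b) f \ T := by
      rintro ⟨u, w⟩ ⟨huw, hf'⟩
      have huw : G.Adj u.1 w.1 := huw
      refine ⟨⟨⟨fun he => huw.ne (congrArg Subtype.val he), Or.inl huw⟩, hf'⟩, ?_⟩
      rintro (he | he)
      · have e1 : u = ⟨a, hav⟩ := congrArg Prod.fst he
        have e2 : w = ⟨b, hbv⟩ := congrArg Prod.snd he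
        rw [e1, e2] at huw
        exact hnab huw
      · have e1 : u = ⟨b, hbv⟩ := congrArg Prod.fst he
        have e2 : w = ⟨a, hav⟩ := congrArg Prod.snd he
        rw [e1, e2] at huw
        exact hnab huw.symm
    have h4 := Set.ncard_le_ncard h2 (Set.toFinite _)
    have h5 := Set.ncard_sdiff_add_ncard_of_subset h1 (Set.toFinite _)
    have h6 : T.ncard = 2 := Set.ncard_pair (fun he => hne (congrArg Prod.fst he))
    have h7 := cr_two (G := Sp G v a b) f
    omega
  have := val_ge (G := G.induce {u | u ≠ v}) (f := f) h3 le_rfl le_rfl hC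
  unfold val at this ⊢
  linarith

/-- the replaced part -/
theorem exists_rp [Finite U] {X : Set U} (hX2 : 2 ≤ X.ncard)
    (h1 : ∀ u, u ∉ X → ∀ x ∈ X, ∀ y ∈ X, G.Adj u x → G.Adj u y → x = y)
    (f : ({u // u ∉ X} ⊕ Fin 4) → ℕ) (hf : ∀ i, f (Sum.inr i) = f (Sum.inr 0)) {h : ℕ}
    (h3 : 3 ≤ h) : ∃ f' : U → ℕ, val h (Rp G X) f ≤ val h G f' := by
  classical
  let c : U → ({u // u ∉ X} ⊕ Fin 4) := fun u => if h : u ∈ X then Sum.inr 0 else Sum.inl ⟨u, h⟩
  have hin : ∀ u (_ : u ∈ X), c u = Sum.inr 0 := fun u hu => dif_pos hu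
  have hout : ∀ u (hu : u ∉ X), c u = Sum.inl ⟨u, hu⟩ := fun u hu => dif_neg hu
  let f' : U → ℕ := fun u => f (c u)
  obtain ⟨x0, hx0, x1, hx1, hx01⟩ := (Set.one_lt_ncard (Set.toFinite _)).1 (by omega : 1 < X.ncard)
  refine ⟨f', ?_⟩
  have hK : ((Set.range f).ncard : ℤ) ≤ (Set.range f').ncard := by
    have h1 : Set.range f ⊆ Set.range f' := by
      rintro _ ⟨q | i, rfl⟩
      · exact ⟨q.1, congrArg f (hout q.1 q.2)⟩
      · exact ⟨x0, (congrArg f (hin x0 hx0)).trans (hf i).symm⟩
    exact_mod_cast Set.ncard_le_ncard h1 (Set.toFinite _)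
  have hS : ((Sg f).ncard : ℤ) ≤ (Sg f').ncard := by
    have hsub : Sg f ⊆ c '' Sg f' := by
      rintro (q | i) hq
      · refine ⟨q.1, fun w hw => ?_, hout q.1 q.2⟩
        have hw : f (c w) = f (c q.1) := hw
        rw [hout q.1 q.2] at hw
        by_cases hwX : w ∈ X
        · rw [hin w hwX] at hw
          have := hq _ hw
          exact absurd this (by simp)
        · rw [hout w hwX] at hw
          have := Sum.inl_injective (hq _ hw)
          exact congrArg Subtype.val this
      · have e1 := hq (Sum.inr 0) (hf i).symm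
        have e2 := hq (Sum.inr 1) ((hf 1).trans (hf i).symm)
        have := Sum.inr_injective (e1.trans e2.symm)
        exact absurd this (by decide)
    have h2 := Set.ncard_le_ncard hsub (Set.toFinite _)
    have h4 := Set.ncard_image_le (f := c) (s := Sg f') (Set.toFinite _)
    exact_mod_cast h2.trans h4
  have hC : ((Cr G f').ncard : ℤ) ≤ 2 * ((Cf (Rp G X) f).edgeSet.ncard : ℤ) := by
    have h2 : (Cr G f').ncard ≤ (Cr (Rp G X) f).ncard := by
      refine Set.ncard_le_ncard_of_injOn (fun p => (c p.1, c p.2)) ?_ ?_ (Set.toFinite _)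
      · rintro ⟨u, w⟩ ⟨huw, hf'⟩
        have hf' : f (c u) ≠ f (c w) := hf'
        have huw : G.Adj u w := huw
        refine ⟨?_, hf'⟩
        show (Rp G X).Adj (c u) (c w)
        by_cases hu : u ∈ X
        · by_cases hw : w ∈ X
          · rw [hin u hu, hin w hw] at hf'
            exact absurd rfl hf'
          · rw [hin u hu, hout w hw]
            exact ⟨rfl, u, hu, huw.symm⟩
        · by_cases hw : w ∈ X
          · rw [hout u hu, hin w hw]
            exact ⟨rfl, w, hw, huw⟩
          · rw [hout u hu, hout w hw]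
            exact huw
      · rintro ⟨u, w⟩ ⟨huw, hf'⟩ ⟨u', w'⟩ ⟨huw', hf''⟩ he
        have hf' : f (c u) ≠ f (c w) := hf'
        have huw : G.Adj u w := huw
        have huw' : G.Adj u' w' := huw'
        have e1 : c u = c u' := congrArg Prod.fst he
        have e2 : c w = c w' := congrArg Prod.snd he
        have key : ∀ s t, s ∉ X → c s = c t → s = t := by
          intro s t hs he
          rw [hout s hs] at he
          by_cases ht : t ∈ X
          · rw [hin t ht] at he
            exact absurd he (by simp)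
          · rw [hout t ht] at he
            exact congrArg Subtype.val (Sum.inl_injective he)
        have key2 : ∀ s t, s ∈ X → c s = c t → t ∈ X := by
          intro s t hs he
          by_contra ht
          rw [hin s hs, hout t ht] at he
          exact absurd he (by simp)
        by_cases hu : u ∈ X
        · by_cases hw : w ∈ X
          · rw [hin u hu, hin w hw] at hf'
            exact absurd rfl hf'
          · have e3 := key w w' hw e2
            subst e3
            have e4 := h1 w hw u hu u' (key2 u u' hu e1) huw.symm huw'.symm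
            rw [e4]
        · have e3 := key u u' hu e1
          subst e3
          by_cases hw : w ∈ X
          · have e4 := h1 u hu w hw w' (key2 w w' hw e2) huw huw'
            rw [e4]
          · rw [key w w' hw e2]
    rw [cr_two (G := Rp G X) f] at h2
    exact_mod_cast h2
  have := val_ge h3 hK hS hC
  unfold val at this ⊢
  linarith

/-! ### The value is a lower bound for the number of degrees of freedom -/

/-- the edges inside the classes -/
def Ci (G : SimpleGraph U) (f : U → ℕ) : SimpleGraph U where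
  Adj u v := G.Adj u v ∧ f u = f v
  symm := ⟨fun _ _ ⟨h, h'⟩ => ⟨h.symm, h'.symm⟩⟩
  loopless := ⟨fun _ h => G.irrefl h.1⟩

theorem cls_le [Fintype U] [Fintype W] (he : H.edgeSet.ncard + 3 = 2 * Fintype.card W)
    (h3 : 3 ≤ Fintype.card W) (p : U × W → Fin 3 → ℝ) (f : U → ℕ) :
    6 * (Set.range f).ncard + (Fintype.card W - 3) * (Sg f).ncard ≤ mo ((Ci G f) □ H) p := by
  classical
  let S : ∀ c : Set.range f, Submodule ℝ (({u | f u = c.1} : Set U) × W → Fin 3 → ℝ) := fun c =>
    Sol ((G.induce {u | f u = c.1}) □ H) (df fun z => p (z.1.1, z.2)) 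
      (0 : ({u | f u = c.1} : Set U) × W → Fin 0 → Fin 3 → ℝ)
  let F : (∀ c : Set.range f, S c) →ₗ[ℝ] (U × W → Fin 3 → ℝ) :=
    { toFun := fun m z => (m ⟨f z.1, z.1, rfl⟩).1 (⟨z.1, rfl⟩, z.2)
      map_add' := fun _ _ => rfl
      map_smul' := fun _ _ => rfl }
  have hFv : ∀ m (c : Set.range f) (u : U) (hu : f u = c.1) (x : W),
      F m (u, x) = (m c).1 (⟨u, hu⟩, x) := by
    rintro m ⟨c, hc⟩ u hu x
    have hu : f u = c := hu
    subst hu
    rfl
  have hF : ∀ m, F m ∈ Mot ((Ci G f) □ H) p := by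
    intro m
    rw [mem_mot]
    rintro ⟨u, x⟩ ⟨v, y⟩ h
    rcases h with ⟨⟨h, h2⟩, h'⟩ | ⟨h, h'⟩
    · have h' : x = y := h'
      have hvu : f v = f u := h2.symm
      subst h'
      rw [hFv m ⟨f u, u, rfl⟩ u rfl, hFv m ⟨f u, u, rfl⟩ v hvu]
      exact (m ⟨f u, u, rfl⟩).2.1 (⟨u, rfl⟩, x) (⟨v, hvu⟩, x) (Or.inl ⟨h, rfl⟩)
    · have h' : u = v := h'
      subst h'
      exact (m ⟨f u, u, rfl⟩).2.1 (⟨u, rfl⟩, x) (⟨u, rfl⟩, y) (Or.inr ⟨h, rfl⟩)
  have hinj : Function.Injective (F.codRestrict _ hF) := by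
    rw [injective_iff_map_eq_zero]
    intro m h
    rw [Subtype.ext_iff] at h
    have h : F m = 0 := h
    funext c
    refine Subtype.ext ?_
    funext ⟨⟨u, hu⟩, x⟩
    have h5 := hFv m c u hu x
    rw [h] at h5
    exact h5.symm
  have h1 := LinearMap.finrank_le_finrank_of_injective hinj
  rw [Module.finrank_pi_fintype] at h1
  have h2 : ∀ c : Set.range f, 6 + (if c.1 ∈ f '' Sg f then (Fintype.card W - 3) else 0) ≤
      finrank ℝ (S c) := by
    rintro ⟨c, u0, hu0⟩
    subst hu0
    by_cases hc : f u0 ∈ f '' Sg f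
    · rw [if_pos hc]
      obtain ⟨u, hu, hfu⟩ := hc
      have hu' : ∀ w, f w = f u0 → w = u := fun w hw => hu w (hw.trans hfu.symm)
      have h5 := layer_le (fun x => p (u, x)) H
      have h6 := rank_le H
      let ι : Mot H (fun x => p (u, x)) →ₗ[ℝ] S ⟨f u0, u0, rfl⟩ :=
        { toFun := fun m => ⟨fun z => m.1 z.2, by
            refine ⟨?_, fun v i => i.elim0⟩
            rintro ⟨⟨a, ha⟩, x⟩ ⟨⟨b, hb⟩, y⟩ h
            have ea := hu' a ha
            have eb := hu' b hb
            subst ea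
            subst eb
            rcases h with ⟨h, h'⟩ | ⟨h, h'⟩
            · exact absurd h (SimpleGraph.irrefl _)
            · exact (mem_mot _ _ _).1 m.2 x y h⟩
          map_add' := fun _ _ => rfl
          map_smul' := fun _ _ => rfl }
      have hι : Function.Injective ι := by
        rw [injective_iff_map_eq_zero]
        intro m h
        refine Subtype.ext ?_
        funext x
        have h7 : (ι m).1 (⟨u0, rfl⟩, x) = 0 := by rw [h]; rfl
        exact h7
      have h8 := LinearMap.finrank_le_finrank_of_injective hι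
      have h9 : mo H (fun x => p (u, x)) = finrank ℝ (Mot H (fun x => p (u, x))) := rfl
      omega
    · rw [if_neg hc, add_zero]
      refine six_le_sol _ ?_ _
      rw [Fintype.card_prod]
      have : 0 < Fintype.card ({u | f u = f u0} : Set U) := Fintype.card_pos_iff.2 ⟨⟨u0, rfl⟩⟩
      nlinarith
  have h3 := Finset.sum_le_sum (s := Finset.univ) (fun c _ => h2 c)
  rw [Finset.sum_add_distrib, Finset.sum_const, Finset.card_univ, smul_eq_mul,
    ← Finset.sum_filter, Finset.sum_const, smul_eq_mul] at h3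
  have h4 : (Set.range f).ncard = Fintype.card (Set.range f) := by
    rw [← Nat.card_coe_set_eq, Nat.card_eq_fintype_card]
  have h5 : (Sg f).ncard ≤ (Finset.univ.filter fun c : Set.range f => c.1 ∈ f '' Sg f).card := by
    have h6 : (f '' Sg f).ncard = (Sg f).ncard :=
      Set.ncard_image_of_injOn fun u hu w hw he => hw u he
    have h7 : (f '' Sg f).ncard ≤
        ((Finset.univ.filter fun c : Set.range f => c.1 ∈ f '' Sg f).image Subtype.val).card := by
      rw [← Set.ncard_coe_finset]
      refine Set.ncard_le_ncard ?_ (Set.toFinite _)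
      rintro c hc
      rw [Finset.mem_coe, Finset.mem_image]
      obtain ⟨u, hu, rfl⟩ := hc
      exact ⟨⟨f u, u, rfl⟩, Finset.mem_filter.2 ⟨Finset.mem_univ _, u, hu, rfl⟩, rfl⟩
    have h8 : ((Finset.univ.filter fun c : Set.range f =>
        c.1 ∈ f '' Sg f).image Subtype.val).card ≤
        (Finset.univ.filter fun c : Set.range f => c.1 ∈ f '' Sg f).card := Finset.card_image_le
    omega
  have h6 : mo ((Ci G f) □ H) p = finrank ℝ (Mot ((Ci G f) □ H) p) := rfl
  have h7 := Nat.mul_le_mul_left (Fintype.card W - 3) h5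
  rw [h6, h4]
  refine le_trans ?_ (h3.trans h1)
  rw [mul_comm 6, mul_comm (Finset.card _)]
  exact Nat.add_le_add_left h7 _

/-- **The value of a colouring is a lower bound.** -/
theorem val_le [Fintype U] [Fintype W] (he : H.edgeSet.ncard + 3 = 2 * Fintype.card W)
    (h3 : 3 ≤ Fintype.card W) {N : ℕ} (hm : Mu 0 N (G □ H)) (f : U → ℕ) :
    val (Fintype.card W) G f ≤ N := by
  classical
  obtain ⟨p, hp⟩ := exists_mg (U × W) 3
  have hmo : mo (G □ H) p ≤ N := by
    obtain ⟨p', d, h⟩ := hm
    refine (hp.min (G □ H) p').trans (le_trans ?_ h)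
    refine Submodule.finrank_mono ?_
    intro q hq
    rw [mem_mot] at hq
    exact ⟨fun u v huv => hq u v huv, fun v i => i.elim0⟩
  have h1 := mo_le_add (G := (Ci G f) □ H) (G' := G □ H) p
  have h2 := cls_le (G := G) he h3 p f
  have h4 : ((G □ H).edgeSet \ ((Ci G f) □ H).edgeSet).ncard ≤
      ((Cf G f) □ (⊥ : SimpleGraph W)).edgeSet.ncard := by
    refine Set.ncard_le_ncard ?_ (Set.toFinite _)
    intro e he
    induction e using Sym2.ind with | _ v w => ?_
    obtain ⟨h5, h6⟩ := he
    rw [mem_edgeSet] at h5 h6 ⊢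
    rcases h5 with h5 | h5
    · refine Or.inl ⟨⟨h5.1, fun hh => h6 (Or.inl ⟨⟨h5.1, hh⟩, h5.2⟩)⟩, h5.2⟩
    · exact absurd (Or.inr h5) h6
  rw [ncard_boxProd] at h4
  simp only [edgeSet_bot, Set.ncard_empty, mul_zero, add_zero] at h4
  rw [mul_comm] at h4
  unfold val
  have h5 : ((Fintype.card W - 3 : ℕ) : ℤ) = (Fintype.card W : ℤ) - 3 := by
    push_cast [h3]
    ring
  rw [← h5]
  have h6 : 6 * (Set.range f).ncard + (Fintype.card W - 3) * (Sg f).ncard ≤
      N + Fintype.card W * (Cf G f).edgeSet.ncard := by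
    omega
  have h7 : (6 * ((Set.range f).ncard : ℤ) + ((Fintype.card W - 3 : ℕ) : ℤ) * (Sg f).ncard) ≤
      N + (Fintype.card W : ℤ) * (Cf G f).edgeSet.ncard := by
    exact_mod_cast h6
  linarith

end Pool.Agent.J4H92.NC
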