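import Pool.Agent.J4H92.NC.Body

/-!
# Growing a rigid part
-/

set_option autoImplicit false

namespace Pool.Agent.J4H92.NC

open SimpleGraph hiding between

open Module Pool.Agent.H283R2.DR Pool.Agent.H789R5 Pool.Agent.J4H92.CP

variable {U : Type} {G : SimpleGraph U}

/-- two neighbours in the set `A` -/
def In (G : SimpleGraph U) (A : Set U) (v : U) : Prop :=
  ∃ x ∈ A, ∃ y ∈ A, x ≠ y ∧ G.Adj v x ∧ G.Adj v y

theorem In.mono {A B : Set U} {v : U} (h : In G A v) (hAB : A ⊆ B) : In G B v := by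
  obtain ⟨x, hx, y, hy, h⟩ := h
  exact ⟨x, hAB hx, y, hAB hy, h⟩

/-- every proper connected part can be enlarged by at most `l` vertices -/
def Ext (G : SimpleGraph U) (l : ℕ) : Prop :=
  ∀ B : Set U, (G.induce B).Connected → B ≠ Set.univ → ∃ S : Set U, S.Nonempty ∧ Disjoint S B ∧
    S.ncard ≤ l ∧ (G.induce (B ∪ S)).Connected ∧ ∀ v ∈ S, In G (B ∪ S) v

theorem cycle_in {w : U} {c : G.Walk w w} (hc : c.IsCycle) {v : U} (hv : v ∈ c.support) :
    In G {u | u ∈ c.support} v := by
  have h := hc.ncard_neighborSet_toSubgraph_eq_two hv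
  obtain ⟨x, y, hxy, hset⟩ := Set.ncard_eq_two.1 h
  have hx : x ∈ c.toSubgraph.neighborSet v := by rw [hset]; exact Or.inl rfl
  have hy : y ∈ c.toSubgraph.neighborSet v := by rw [hset]; exact Or.inr rfl
  have hx : c.toSubgraph.Adj v x := hx
  have hy : c.toSubgraph.Adj v y := hy
  refine ⟨x, ?_, y, ?_, hxy, hx.adj_sub, hy.adj_sub⟩
  · have := c.toSubgraph.edge_vert hx.symm
    rwa [Walk.mem_verts_toSubgraph] at this
  · have := c.toSubgraph.edge_vert hy.symm
    rwa [Walk.mem_verts_toSubgraph] at this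

/-- an edge from a proper part to the rest -/
theorem exists_cross (hG : G.Connected) {B : Set U} (hB : B.Nonempty) (hBu : B ≠ Set.univ) :
    ∃ b ∈ B, ∃ x, x ∉ B ∧ G.Adj b x := by
  obtain ⟨b0, hb0⟩ := hB
  obtain ⟨z, hz⟩ := (Set.ne_univ_iff_exists_notMem B).1 hBu
  obtain ⟨p⟩ := hG.preconnected b0 z
  by_contra hno
  push Not at hno
  have key : ∀ u v, ∀ p : G.Walk u v, u ∈ B → v ∈ B := by
    intro u v p
    induction p with
    | nil => exact id
    | cons h p ihp =>
      rename_i u v w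
      intro hu
      refine ihp ?_
      by_contra hv
      exact hno _ hu _ hv h
  exact hz (key _ _ p hb0)

/-- a small connected set without leaves -/
theorem exists_leafless [Fintype U] {l : ℕ} (hG : G.Connected) (h2 : ∀ v, Two G v)
    (hE : Ext G l) : ∃ A : Set U, (G.induce A).Connected ∧ A.ncard ≤ l + 1 ∧
      ∀ v ∈ A, In G A v := by
  classical
  obtain ⟨b⟩ := hG.nonempty
  have hb1 : (G.induce {b}).Connected := by
    have : Nonempty ({b} : Set U) := ⟨⟨b, rfl⟩⟩
    refine ⟨fun v w => ?_⟩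
    have : v = w := Subtype.ext (v.2.trans w.2.symm)
    rw [this]
  have hbu : ({b} : Set U) ≠ Set.univ := by
    obtain ⟨x, y, hxy, hx, hy⟩ := h2 b
    intro h
    have : x ∈ ({b} : Set U) := by rw [h]; trivial
    exact hx.ne this.symm
  obtain ⟨S, hS, hd, hl, hconn, hin⟩ := hE {b} hb1 hbu
  set A1 : Set U := {b} ∪ S with hA1
  set Γ := G.induce A1 with hΓ
  have hbS : b ∉ S := fun h => (Set.disjoint_left.1 hd) h rfl
  have hcard : Fintype.card A1 = S.ncard + 1 := by
    rw [← Nat.card_eq_fintype_card, Nat.card_coe_set_eq, hA1, Set.singleton_union,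
      Set.ncard_insert_of_notMem hbS (Set.toFinite _)]
  have hcyc : ¬ Γ.IsAcyclic := by
    intro ha
    have htree : Γ.IsTree := ⟨hconn, ha⟩
    have hc := htree.card_edgeFinset
    have hsum := Γ.sum_degrees_eq_twice_card_edges
    have hbA : b ∈ A1 := Or.inl rfl
    have hdeg : ∀ v : A1, v ≠ ⟨b, hbA⟩ → 2 ≤ Γ.degree v := by
      intro v hv
      have hvb : v.1 ≠ b := fun h => hv (Subtype.ext h)
      have hvS : v.1 ∈ S := by
        rcases v.2 with h | h
        · exact absurd h hvb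
        · exact h
      obtain ⟨x, hx, y, hy, hxy, h1, h3⟩ := hin v.1 hvS
      rw [← card_neighborFinset_eq_degree]
      refine Finset.one_lt_card.2 ⟨⟨x, hx⟩, ?_, ⟨y, hy⟩, ?_,
        fun h => hxy (congrArg Subtype.val h)⟩
      · rw [mem_neighborFinset]
        exact h1
      · rw [mem_neighborFinset]
        exact h3
    have hdegb : 1 ≤ Γ.degree ⟨b, hbA⟩ := by
      obtain ⟨s, hs⟩ := hS
      have hsA : s ∈ A1 := Or.inr hs
      have hne : b ≠ s := fun h => hbS (by rw [h]; exact hs)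
      have key : ∀ u v, ∀ p : Γ.Walk u v, u ≠ v → 1 ≤ Γ.degree u := by
        intro u v p huv
        cases p with
        | nil => exact absurd rfl huv
        | cons h p =>
          rw [← card_neighborFinset_eq_degree]
          exact Finset.card_pos.2 ⟨_, (mem_neighborFinset _ _ _).2 h⟩
      obtain ⟨p⟩ := hconn.preconnected ⟨b, hbA⟩ ⟨s, hsA⟩
      exact key _ _ p fun h => hne (congrArg Subtype.val h)
    have hlow : 2 * (Fintype.card A1 - 1) + 1 ≤ ∑ v, Γ.degree v := by
      rw [← Finset.add_sum_erase Finset.univ _ (Finset.mem_univ (⟨b, hbA⟩ : A1))]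
      have h3 : ∑ v ∈ Finset.univ.erase (⟨b, hbA⟩ : A1), 2 ≤
          ∑ v ∈ Finset.univ.erase (⟨b, hbA⟩ : A1), Γ.degree v :=
        Finset.sum_le_sum fun v hv => hdeg v (Finset.ne_of_mem_erase hv)
      have hcu : (Finset.univ.erase (⟨b, hbA⟩ : A1)).card = Fintype.card A1 - 1 := by
        rw [Finset.card_erase_of_mem (Finset.mem_univ _)]
        rfl
      rw [Finset.sum_const, hcu, smul_eq_mul] at h3
      omega
    omega
  rw [IsAcyclic] at hcyc
  push Not at hcyc
  obtain ⟨v, c, hc⟩ := hcyc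
  let φ : Γ ↪g G := Embedding.induce A1
  have hc' : (c.map φ.toHom).IsCycle := hc.map φ.injective
  refine ⟨{u | u ∈ (c.map φ.toHom).support}, Walk.connected_induce_support _, ?_,
    fun v hv => cycle_in hc' hv⟩
  have hsub : {u | u ∈ (c.map φ.toHom).support} ⊆ A1 := by
    intro u hu
    rw [Set.mem_ofPred_eq, Walk.support_map, List.mem_map] at hu
    obtain ⟨z, -, rfl⟩ := hu
    exact z.2
  refine (Set.ncard_le_ncard hsub (Set.toFinite _)).trans ?_
  rw [← Nat.card_coe_set_eq, Nat.card_eq_fintype_card, hcard]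
  omega

theorem three_of_union {A S : Set U} (hconn : (G.induce (A ∪ S)).Connected) (hA : A.Nonempty)
    (hS : S.Nonempty) (hd : Disjoint S A) (hAin : ∀ v ∈ A, In G A v) :
    Three (G.induce (A ∪ S)) := by
  have hne : ({v | v.1 ∈ A} : Set (A ∪ S : Set U)) ≠ Set.univ := by
    obtain ⟨s, hs⟩ := hS
    intro h
    have h1 : (⟨s, Or.inr hs⟩ : (A ∪ S : Set U)) ∈ ({v | v.1 ∈ A} : Set (A ∪ S : Set U)) := by
      rw [h]
      trivial
    exact (Set.disjoint_left.1 hd) hs h1
  obtain ⟨a, ha, x, hx, hax⟩ := exists_cross hconn (by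
    obtain ⟨a, ha⟩ := hA
    exact ⟨⟨a, Or.inl ha⟩, ha⟩) hne
  have ha : a.1 ∈ A := ha
  have hx : x.1 ∉ A := hx
  obtain ⟨y, hy, z, hz, hyz, h1, h2⟩ := hAin a.1 ha
  refine ⟨a, ⟨y, Or.inl hy⟩, ⟨z, Or.inl hz⟩, x, fun h => hyz (congrArg Subtype.val h), ?_, ?_,
    h1, h2, hax⟩
  · intro h
    apply hx
    rw [← h]
    exact hy
  · intro h
    apply hx
    rw [← h]
    exact hz

theorem mu_univ {W : Type} [Fintype W] [Fintype U] {H : SimpleGraph W} {k : ℕ}
    (hB : Mu 0 k ((G.induce (Set.univ : Set U)) □ H)) : Mu 0 k (G □ H) := by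
  refine hB.pull (Equiv.prodCongr (Equiv.Set.univ U).symm (Equiv.refl W)) ?_
  rintro ⟨a, x⟩ ⟨b, y⟩ hab
  rcases hab with ⟨h1, h3⟩ | ⟨h1, h3⟩
  · exact Or.inl ⟨h1, h3⟩
  · have h3 : a = b := h3
    subst h3
    exact Or.inr ⟨h1, rfl⟩

/-- one enlargement -/
theorem step_rigid {W : Type} [Fintype W] [Fintype U] {H : SimpleGraph W} (hH : GenRigid 2 H)
    (hW : 3 ≤ Fintype.card W) {B S : Set U} (hBc : (G.induce B).Connected)
    (hconn : (G.induce (B ∪ S)).Connected) (hl : 3 * S.ncard ≤ Fintype.card W)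
    (hin : ∀ v ∈ S, In G (B ∪ S) v) (hB : Mu 0 6 ((G.induce B) □ H)) :
    Mu 0 6 ((G.induce (B ∪ S)) □ H) := by
  classical
  let B1 : Set (B ∪ S : Set U) := {v | v.1 ∈ B}
  let f : B ≃ B1 :=
    { toFun := fun v => ⟨⟨v.1, Or.inl v.2⟩, v.2⟩
      invFun := fun v => ⟨v.1.1, v.2⟩
      left_inv := fun _ => rfl
      right_inv := fun _ => rfl }
  have hf : ∀ v w, (G.induce B).Adj v w → ((G.induce (B ∪ S)).induce B1).Adj (f v) (f w) :=
    fun v w h => h
  have hc1 : B1ᶜ.ncard ≤ S.ncard := by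
    rw [← Set.ncard_image_of_injective B1ᶜ Subtype.val_injective]
    refine Set.ncard_le_ncard ?_ (Set.toFinite _)
    rintro _ ⟨v, hv, rfl⟩
    rcases v.2 with h | h
    · exact absurd h hv
    · exact h
  refine body_ext hH hW _ (B ∪ S : Set U) (G.induce (B ∪ S)) B1 rfl hconn
    (body_conn f hf hBc) (fun v hv => ?_) (by omega) (body_map f hf hB)
  have hvS : v.1 ∈ S := by
    rcases v.2 with h | h
    · exact absurd h hv
    · exact h
  obtain ⟨x, hx, y, hy, hxy, h1, h2⟩ := hin v.1 hvS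
  exact ⟨⟨x, hx⟩, ⟨y, hy⟩, fun h => hxy (congrArg Subtype.val h), h1, h2⟩

/-- **Growing a rigid part to the whole graph.** -/
theorem grow_rigid {W : Type} [Fintype W] [Fintype U] {H : SimpleGraph W} (hH : GenRigid 2 H)
    (hW : 3 ≤ Fintype.card W) {l : ℕ} (hE : Ext G l) (hl : 3 * l ≤ Fintype.card W) :
    ∀ (n : ℕ) (B : Set U), Bᶜ.ncard = n → (G.induce B).Connected →
      Mu 0 6 ((G.induce B) □ H) → Mu 0 6 (G □ H) := by
  intro n
  induction n using Nat.strong_induction_on with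
  | _ n ih =>
  intro B hn hBc hB
  by_cases hBu : B = Set.univ
  · subst hBu
    exact mu_univ hB
  · obtain ⟨S, hS, hd, hSl, hconn, hin⟩ := hE B hBc hBu
    have h1 := step_rigid hH hW hBc hconn (by omega) hin hB
    refine ih _ ?_ (B ∪ S) rfl hconn h1
    rw [← hn]
    refine Set.ncard_lt_ncard ?_ (Set.toFinite _)
    refine ⟨fun v hv hvB => hv (Or.inl hvB), fun h => ?_⟩
    obtain ⟨s, hs⟩ := hS
    exact h ((Set.disjoint_left.1 hd) hs) (Or.inr hs)

/-- **Graphs in which every proper part has a small enlargement.** -/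
theorem ext_rigid {W : Type} [Fintype W] [Fintype U] {H : SimpleGraph W} (hH : GenRigid 2 H)
    (hW : 3 ≤ Fintype.card W) (hG : G.Connected) (h2 : ∀ v, Two G v) (h3 : Three G) {l : ℕ}
    (hE : Ext G l) (hl : 6 * l ≤ Fintype.card W + 3) : Mu 0 6 (G □ H) := by
  classical
  obtain ⟨A, hAc, hAl, hAin⟩ := exists_leafless hG h2 hE
  have hAn : A.Nonempty := by
    obtain ⟨a, ha⟩ := hAc.nonempty
    exact ⟨a, ha⟩
  by_cases hA : A = Set.univ
  · refine leafless_rigid hH _ U G rfl hG h2 h3 ?_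
    rw [hA, Set.ncard_univ, Nat.card_eq_fintype_card] at hAl
    omega
  · obtain ⟨S, hS, hd, hSl, hconn, hin⟩ := hE A hAc hA
    have hcard : Fintype.card (A ∪ S : Set U) ≤ 2 * l + 1 := by
      rw [← Nat.card_eq_fintype_card, Nat.card_coe_set_eq]
      refine (Set.ncard_union_le A S).trans ?_
      omega
    have hbase : Mu 0 6 ((G.induce (A ∪ S)) □ H) := by
      refine leafless_rigid hH _ (A ∪ S : Set U) (G.induce (A ∪ S)) rfl hconn (fun v => ?_)
        (three_of_union hconn hAn hS hd hAin) (by omega)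
      have h4 : In G (A ∪ S) v.1 := by
        rcases v.2 with h | h
        · exact (hAin v.1 h).mono Set.subset_union_left
        · exact hin v.1 h
      obtain ⟨x, hx, y, hy, hxy, h1, h5⟩ := h4
      exact ⟨⟨x, hx⟩, ⟨y, hy⟩, fun h => hxy (congrArg Subtype.val h), h1, h5⟩
    exact grow_rigid hH hW hE (by omega) _ (A ∪ S) rfl hconn hbase

/-! ### Short cycles -/

theorem ncard_support_le {w : U} {c : G.Walk w w} (hc : c.IsCycle) :
    {u | u ∈ c.support}.ncard ≤ c.length := by
  classical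
  have h1 : {u | u ∈ c.support} ⊆ (c.support.tail.toFinset : Set U) := by
    intro u hu
    rw [Set.mem_ofPred_eq, Walk.mem_support_iff] at hu
    rw [Finset.mem_coe, List.mem_toFinset]
    rcases hu with rfl | hu
    · exact Walk.end_mem_tail_support hc.not_nil
    · exact hu
  refine (Set.ncard_le_ncard h1 (Finset.finite_toSet _)).trans ?_
  rw [Set.ncard_coe_finset]
  refine (List.toFinset_card_le _).trans ?_
  rw [List.length_tail, Walk.length_support]
  omega

/-- every edge lies on a cycle of length at most `l` -/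
def ShortCycles (G : SimpleGraph U) (l : ℕ) : Prop :=
  ∀ a b, G.Adj a b → ∃ (v : U) (c : G.Walk v v), c.IsCycle ∧ s(a, b) ∈ c.edges ∧ c.length ≤ l

theorem ext_of_short [Fintype U] (hG : G.Connected) {l : ℕ} (h : ShortCycles G l) :
    Ext G (l - 1) := by
  classical
  intro B hBc hBu
  have hBn : B.Nonempty := by
    obtain ⟨b, hb⟩ := hBc.nonempty
    exact ⟨b, hb⟩
  obtain ⟨b, hb, x, hx, hbx⟩ := exists_cross hG hBn hBu
  obtain ⟨v, c, hc, he, hlen⟩ := h b x hbx
  have hbs : b ∈ c.support := c.fst_mem_support_of_mem_edges he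
  have hxs : x ∈ c.support := c.snd_mem_support_of_mem_edges he
  have hun : B ∪ ({u | u ∈ c.support} \ B) = B ∪ {u | u ∈ c.support} := Set.union_sdiff_self
  refine ⟨{u | u ∈ c.support} \ B, ⟨x, hxs, hx⟩, Set.disjoint_sdiff_left, ?_, ?_, ?_⟩
  · have h1 : ({u | u ∈ c.support} \ B) ⊆ {u | u ∈ c.support} \ {b} :=
      Set.sdiff_subset_sdiff_right (Set.singleton_subset_iff.2 hb)
    have h2 := Set.ncard_le_ncard h1 (Set.toFinite _)
    rw [Set.ncard_sdiff_singleton_of_mem (show b ∈ {u | u ∈ c.support} from hbs)] at h2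
    have h3 := ncard_support_le hc
    omega
  · rw [hun]
    exact induce_union_connected hBc.preconnected c.connected_induce_support.preconnected
      ⟨b, hb, hbs⟩
  · intro w hw
    rw [hun]
    exact (cycle_in hc hw.1).mono Set.subset_union_right

/-- **Graphs all of whose edges lie on short cycles.** -/
theorem short_rigid {W : Type} [Fintype W] [Fintype U] {H : SimpleGraph W} (hH : GenRigid 2 H)
    (hW : 3 ≤ Fintype.card W) (hG : G.Connected) (h2 : ∀ v, Two G v) (h3 : Three G) {l : ℕ}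
    (h : ShortCycles G l) (hl : 6 * l ≤ Fintype.card W + 9) : Mu 0 6 (G □ H) :=
  ext_rigid hH hW hG h2 h3 (ext_of_short hG h) (by omega)

end Pool.Agent.J4H92.NC
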