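import Pool.Agent.J4H92.NC.F5
import Pool.Agent.J4H92.NC.Grow

/-!
# Colourings with rigid classes
-/

set_option autoImplicit false

namespace Pool.Agent.J4H92.NC

open SimpleGraph hiding between

open Module Matrix Pool.Agent.H283R2.DR Pool.Agent.H283R2.DR.TA Pool.Agent.J4H92.CP Pool.Agent.H789R5
  Pool.Agent.TH349.Rig

variable {U W : Type} {G : SimpleGraph U} {H : SimpleGraph W}

/-- **Two rigid parts with a common vertex.** -/
theorem mu_union [Fintype U] [Fintype W] (h3 : 3 ≤ Fintype.card W) {A B : Set U} {z : U}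
    (hzA : z ∈ A) (hzB : z ∈ B) (hA : Mu 0 6 ((G.induce A) □ H))
    (hB : Mu 0 6 ((G.induce B) □ H)) : Mu 0 6 ((G.induce (A ∪ B)) □ H) := by
  classical
  have hsub : A ⊆ A ∪ B := Set.subset_union_left
  refine mu_extend (inc_inj hsub) (inc_adj hsub) hA ?_
  obtain ⟨p, hp⟩ := exists_mg (B × W) 3
  have hmo : mo ((G.induce B) □ H) p ≤ 6 := by
    obtain ⟨p', d, h⟩ := hB
    refine (hp.min _ p').trans (le_trans ?_ h)
    refine Submodule.finrank_mono ?_
    intro q hq
    rw [mem_mot] at hq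
    exact ⟨fun u v huv => hq u v huv, fun v i => i.elim0⟩
  let ly : W → B × W := fun w => (⟨z, hzB⟩, w)
  have hly : Function.Injective ly := fun a b h => (Prod.ext_iff.1 h).2
  have hcard : 3 ≤ Fintype.card (B × W) := h3.trans (Fintype.card_le_of_injective _ hly)
  have hT : finrank ℝ (LinearMap.range (triv p)) = 6 := by
    rw [LinearMap.finrank_range_of_inj (triv_inj hp hcard), finrank_triv]
  have hrange : LinearMap.range (triv p) = Mot ((G.induce B) □ H) p := by
    refine Submodule.eq_of_le_of_finrank_le (range_triv_le _ p) ?_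
    rw [hT]
    exact hmo
  refine ⟨fun v => if h : v.1.1 ∈ B then p (⟨v.1.1, h⟩, v.2) else 0, fun M hM hM0 => ?_⟩
  have hMB : (fun v : B × W => M (⟨v.1.1, Or.inr v.1.2⟩, v.2)) ∈ Mot ((G.induce B) □ H) p := by
    rw [mem_mot]
    rintro ⟨a, x⟩ ⟨b, y⟩ hab
    have h5 := hM (⟨a.1, Or.inr a.2⟩, x) (⟨b.1, Or.inr b.2⟩, y) (by
      rcases hab with ⟨h, h'⟩ | ⟨h, h'⟩
      · exact Or.inl ⟨h, h'⟩
      · refine Or.inr ⟨h, ?_⟩
        have h' : a = b := h'
        subst h'
        rfl)
    have ea : a.1 ∈ B := a.2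
    have eb : b.1 ∈ B := b.2
    simp only [dif_pos ea, dif_pos eb] at h5
    exact h5
  rw [← hrange] at hMB
  obtain ⟨⟨S, b⟩, hSb⟩ := hMB
  have h4 := triv_unique hp.toGen (S := Finset.univ.image ly)
      (by rw [Finset.card_image_of_injective _ hly, Finset.card_univ]; exact h3)
      (A := (S : Matrix (Fin 3) (Fin 3) ℝ)) (A' := 0) (b := b) (b' := 0) S.2 (by simp) (by
        intro v hv
        obtain ⟨w, -, rfl⟩ := Finset.mem_image.1 hv
        have h5 := congrFun hSb (ly w)
        have h6 : M (⟨z, Or.inl hzA⟩, w) = 0 := hM0 (⟨z, hzA⟩, w)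
        simp only [Matrix.zero_mulVec, add_zero]
        have h7 : (S : Matrix (Fin 3) (Fin 3) ℝ) *ᵥ p (ly w) + b = M (⟨z, Or.inl hzA⟩, w) := h5
        rw [h7, h6])
  funext ⟨⟨u, hu⟩, w⟩
  by_cases huB : u ∈ B
  · have h5 := congrFun hSb (⟨u, huB⟩, w)
    have h7 : (S : Matrix (Fin 3) (Fin 3) ℝ) *ᵥ p (⟨u, huB⟩, w) + b = M (⟨u, hu⟩, w) := h5
    rw [← h7, h4.1, h4.2]
    simp
  · have huA : u ∈ A := by
      rcases hu with h | h
      · exact h
      · exact absurd h huB
    exact hM0 (⟨u, huA⟩, w)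

/-- rigid products have at least four layers -/
theorem four_le [Fintype U] [Fintype W] (he : H.edgeSet.ncard + 3 = 2 * Fintype.card W)
    (h3 : 3 ≤ Fintype.card W) (h2 : 2 ≤ Fintype.card U) (hm : Mu 0 6 (G □ H)) :
    4 ≤ Fintype.card U := by
  classical
  by_contra hcon
  push Not at hcon
  let f : U → ℕ := fun u => (Fintype.equivFin U u).1
  have hf : Function.Injective f := fun a b h =>
    (Fintype.equivFin U).injective (Fin.ext h)
  have h1 := val_le he h3 hm f
  have hK : (Set.range f).ncard = Fintype.card U := by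
    rw [← Set.image_univ, Set.ncard_image_of_injective _ hf, Set.ncard_univ,
      Nat.card_eq_fintype_card]
  have hS : Sg f = Set.univ := by
    rw [Set.eq_univ_iff_forall]
    exact fun u w hw => hf hw
  have hC : (Cf G f).edgeSet.ncard ≤ (Fintype.card U).choose 2 := by
    have := (Cf G f).card_edgeFinset_le_card_choose_two
    have h5 : (Cf G f).edgeSet.ncard = (Cf G f).edgeFinset.card := by
      rw [← Set.ncard_coe_finset, coe_edgeFinset]
    omega
  unfold val at h1
  rw [hK, hS, Set.ncard_univ, Nat.card_eq_fintype_card] at h1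
  have h3' : (3 : ℤ) ≤ Fintype.card W := by exact_mod_cast h3
  have h4 : Fintype.card U = 2 ∨ Fintype.card U = 3 := by omega
  rcases h4 with h4 | h4
  · rw [h4] at h1 hC
    have h5 : (Nat.choose 2 2) = 1 := by decide
    rw [h5] at hC
    have h6 : ((Cf G f).edgeSet.ncard : ℤ) ≤ 1 := by exact_mod_cast hC
    push_cast at h1
    nlinarith
  · rw [h4] at h1 hC
    have h5 : (Nat.choose 3 2) = 3 := by decide
    rw [h5] at hC
    have h6 : ((Cf G f).edgeSet.ncard : ℤ) ≤ 3 := by exact_mod_cast hC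
    push_cast at h1
    nlinarith

theorem four_le' [Fintype U] [Fintype W] (he : H.edgeSet.ncard + 3 = 2 * Fintype.card W)
    (h3 : 3 ≤ Fintype.card W) {X : Set U} (h2 : 2 ≤ X.ncard) (hm : Mu 0 6 ((G.induce X) □ H)) :
    4 ≤ X.ncard := by
  classical
  rw [← Nat.card_coe_set_eq, Nat.card_eq_fintype_card] at h2 ⊢
  exact four_le he h3 h2 hm

/-- a colouring all of whose classes are single vertices or rigid parts -/
structure Ncl [Fintype W] (H : SimpleGraph W) (G : SimpleGraph U) (N : ℕ) (f : U → ℕ) :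
    Prop where
  ne : ∃ a b, f a ≠ f b
  vl : (N : ℤ) + 1 ≤ val (Fintype.card W) G f + Fintype.card W
  cl : ∀ u, u ∉ Sg f → Mu 0 6 ((G.induce {w | f w = f u}) □ H)

theorem two_of_not_sg [Finite U] {f : U → ℕ} {u : U} (hu : u ∉ Sg f) :
    2 ≤ ({w | f w = f u} : Set U).ncard := by
  have h1 : ∃ w, f w = f u ∧ w ≠ u := by
    by_contra hcon
    push Not at hcon
    exact hu fun w hw => hcon w hw
  obtain ⟨w, hw, hwu⟩ := h1
  have := (Set.one_lt_ncard (s := ({w | f w = f u} : Set U)) (Set.toFinite _)).2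
    ⟨w, hw, u, rfl, hwu⟩
  omega

theorem cls_ne_univ {f : U → ℕ} (hne : ∃ a b, f a ≠ f b) (c : ℕ) :
    ({w | f w = c} : Set U) ≠ Set.univ := by
  obtain ⟨a, b, hab⟩ := hne
  intro h
  have ha : a ∈ ({w | f w = c} : Set U) := h ▸ Set.mem_univ a
  have hb : b ∈ ({w | f w = c} : Set U) := h ▸ Set.mem_univ b
  exact hab (Eq.trans ha (Eq.symm hb))

theorem exists_nice [Fintype U] [Fintype W] (h3 : 3 ≤ Fintype.card W) {N : ℕ}
    (hI : ∀ A : Set U, A.Nonempty → A ≠ Set.univ → Tf H (G.induce A))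
    (hN : ∀ f : U → ℕ, val (Fintype.card W) G f ≤ N)
    (hf : ∃ f : U → ℕ, (∃ a b, f a ≠ f b) ∧
      (N : ℤ) + 1 ≤ val (Fintype.card W) G f + Fintype.card W) : ∃ f, Ncl H G N f := by
  classical
  obtain ⟨n, ⟨f, ⟨hf1, hf2⟩, rfl⟩, hmin⟩ := (wellFounded_lt (α := ℕ)).has_min
    {n : ℕ | ∃ f : U → ℕ, ((∃ a b, f a ≠ f b) ∧
      (N : ℤ) + 1 ≤ val (Fintype.card W) G f + Fintype.card W) ∧
      ((N : ℤ) - val (Fintype.card W) G f).toNat = n}
    (by obtain ⟨f, hf⟩ := hf; exact ⟨_, f, hf, rfl⟩)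
  refine ⟨f, hf1, hf2, fun u hu => ?_⟩
  by_contra hcon
  have h2 := two_of_not_sg hu
  have hne := cls_ne_univ hf1 (f u)
  obtain ⟨f1, hf1'⟩ : ∃ f1 : ({w | f w = f u} : Set U) → ℕ,
      6 < val (Fintype.card W) (G.induce {w | f w = f u}) f1 := by
    by_contra hno
    push Not at hno
    exact hcon (hI {w | f w = f u} ⟨u, rfl⟩ hne 6 (fun f1 => by exact_mod_cast hno f1))
  obtain ⟨f', hf', hsep⟩ := exists_refine (G := G) (f := f) (c := f u) (X := {w | f w = f u})
    (fun _ => Iff.rfl) h2 f1 h3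
  obtain ⟨w, hw⟩ := (Set.ne_univ_iff_exists_notMem _).1 hne
  refine hmin _ ⟨f', ⟨⟨u, w, hsep u rfl w hw⟩, by linarith⟩, rfl⟩ ?_
  have h4 := hN f'
  have h5 := hN f
  omega

theorem exists_nice_min [Fintype U] [Fintype W] (h3 : 3 ≤ Fintype.card W)
    (he : H.edgeSet.ncard + 3 = 2 * Fintype.card W) {N : ℕ}
    (hR4 : ∀ X : Set U, X ≠ Set.univ → 2 ≤ X.ncard → Mu 0 6 ((G.induce X) □ H) → X.ncard ≤ 4)
    (hnr : ¬ Mu 0 6 (G □ H)) (hf : ∃ f, Ncl H G N f) :
    ∃ f, Ncl H G N f ∧ ∀ X : Set U, X ≠ Set.univ → 2 ≤ X.ncard →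
      Mu 0 6 ((G.induce X) □ H) → ∀ x ∈ X, ∀ y ∈ X, f x = f y := by
  classical
  obtain ⟨n, ⟨f, hf, rfl⟩, hmin⟩ := (wellFounded_lt (α := ℕ)).has_min
    {n : ℕ | ∃ f : U → ℕ, Ncl H G N f ∧ (Set.range f).ncard = n}
    (by obtain ⟨f, hf⟩ := hf; exact ⟨_, f, hf, rfl⟩)
  refine ⟨f, hf, fun X hXu hX2 hX x hx y hy => ?_⟩
  by_contra hxy
  have hX4 := four_le' he h3 hX2 hX
  -- all vertices of `X` are single
  have hs : ∀ z ∈ X, z ∈ Sg f := by
    intro z hz
    by_contra hzs
    have hA := hf.cl z hzs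
    have hA2 := two_of_not_sg hzs
    have hA4 := four_le' he h3 hA2 hA
    have hun := mu_union h3 (show z ∈ ({w | f w = f z} : Set U) from rfl) hz hA hX
    by_cases hU : ({w | f w = f z} : Set U) ∪ X = Set.univ
    · rw [hU] at hun
      exact hnr (mu_univ hun)
    · have h5 := hR4 _ hU (hA2.trans (Set.ncard_le_ncard Set.subset_union_left
        (Set.toFinite _))) hun
      have h6 : ({w | f w = f z} : Set U) ⊂ ({w | f w = f z} : Set U) ∪ X := by
        refine ⟨Set.subset_union_left, fun hsub => hxy ?_⟩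
        have e1 : f x = f z := hsub (Or.inr hx)
        have e2 : f y = f z := hsub (Or.inr hy)
        rw [e1, e2]
      have h7 := Set.ncard_lt_ncard h6 (Set.toFinite _)
      omega
  set ι : X → U := Subtype.val with hι
  set f' := mrg ι ⟨x, hx⟩ f with hf'
  have hin : ∀ u ∈ X, f' u = f x := fun u hu => mrg_in ⟨⟨u, hu⟩, rfl⟩
  have hout : ∀ u, u ∉ X → f' u = f u := by
    intro u hu
    refine mrg_out ?_
    rintro ⟨q, hq⟩
    have hq : f q.1 = f u := hq
    have h5 : u = q.1 := hs q.1 q.2 u hq.symm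
    exact hu (h5 ▸ q.2)
  have hval : val (Fintype.card W) G f ≤ val (Fintype.card W) G f' :=
    val_mrg (Γ := G.induce X) Subtype.val_injective (fun a b hab => hab) ⟨x, hx⟩ h3
      (val_le he h3 hX _)
  have hcl : ∀ u, u ∉ X → ({w | f' w = f' u} : Set U) = {w | f w = f u} := by
    intro u hu
    ext w
    show f' w = f' u ↔ f w = f u
    rw [hout u hu]
    by_cases hw : w ∈ X
    · rw [hin w hw]
      constructor
      · intro h
        have := hs x hx u h.symm
        exact absurd (this ▸ hx) hu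
      · intro h
        have := hs w hw u h.symm
        exact absurd (this ▸ hw) hu
    · rw [hout w hw]
  obtain ⟨u0, hu0⟩ := (Set.ne_univ_iff_exists_notMem _).1 hXu
  refine hmin _ ⟨f', ⟨⟨u0, x, ?_⟩, ?_, fun u hu => ?_⟩, rfl⟩ ?_
  · rw [hout u0 hu0, hin x hx]
    intro h
    have := hs x hx u0 h
    exact hu0 (this ▸ hx)
  · have := hf.vl
    linarith
  · by_cases huX : u ∈ X
    · have hset : ({w | f' w = f' u} : Set U) = X := by
        ext w
        show f' w = f' u ↔ w ∈ X
        rw [hin u huX]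
        constructor
        · intro h
          by_contra hw
          rw [hout w hw] at h
          have := hs x hx w h
          exact hw (this ▸ hx)
        · intro hw
          exact hin w hw
      rw [hset]
      exact hX
    · rw [hcl u huX]
      refine hf.cl u fun hsg => hu fun w hw => ?_
      have h5 : w ∈ ({w | f' w = f' u} : Set U) := hw
      rw [hcl u huX] at h5
      exact hsg w h5
  · have hsub : Set.range f' ⊂ Set.range f := by
      refine ⟨?_, fun hh => ?_⟩
      · rintro _ ⟨u, rfl⟩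
        by_cases hu : u ∈ X
        · rw [hin u hu]
          exact ⟨x, rfl⟩
        · rw [hout u hu]
          exact ⟨u, rfl⟩
      · obtain ⟨u, hu⟩ := hh ⟨y, rfl⟩
        by_cases huX : u ∈ X
        · rw [hin u huX] at hu
          exact hxy hu
        · rw [hout u huX] at hu
          have := hs y hy u hu
          exact huX (this ▸ hy)
    exact Set.ncard_lt_ncard hsub (Set.toFinite _)

end Pool.Agent.J4H92.NC
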