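import Pool.Agent.J4H92.NC.F8

/-!
# The number of degrees of freedom
-/

set_option autoImplicit false

namespace Pool.Agent.J4H92.NC

open SimpleGraph hiding between

open Module Pool.Agent.H283R2.DR Pool.Agent.H283R2.DR.TA Pool.Agent.J4H92.CP Pool.Agent.H789R5

variable {U W : Type} {G : SimpleGraph U} {H : SimpleGraph W}

/-- the value of the colouring with different colours -/
theorem val_inj [Fintype U] {f : U → ℕ} (hf : Function.Injective f) {h c : ℕ}
    (hc : G.edgeSet.ncard ≤ c) :
    ((h : ℤ) + 3) * Fintype.card U - h * c ≤ val h G f := by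
  have hK : (Set.range f).ncard = Fintype.card U := by
    rw [← Set.image_univ, Set.ncard_image_of_injective _ hf, Set.ncard_univ,
      Nat.card_eq_fintype_card]
  have hS : Sg f = Set.univ := by
    rw [Set.eq_univ_iff_forall]
    exact fun u w hw => hf hw
  have hC : (Cf G f).edgeSet.ncard ≤ c := by
    refine (Set.ncard_le_ncard ?_ (Set.toFinite _)).trans hc
    intro e
    induction e using Sym2.ind with | _ x y => ?_
    exact fun h => h.1
  unfold val
  rw [hK, hS, Set.ncard_univ, Nat.card_eq_fintype_card]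
  have h5 : ((Cf G f).edgeSet.ncard : ℤ) ≤ c := by exact_mod_cast hC
  have h6 := mul_le_mul_of_nonneg_left h5 (by positivity : (0 : ℤ) ≤ (h : ℤ))
  linarith

theorem tri_closed (hG : G.Connected) {v a b : U}
    (hv : ∀ u, G.Adj v u → u = a ∨ u = b) (ha : ∀ u, G.Adj a u → u = v ∨ u = b)
    (hb : ∀ u, G.Adj b u → u = v ∨ u = a) : ({v, a, b} : Set U) = Set.univ := by
  by_contra hB
  obtain ⟨c, hc, x, hx, hcx⟩ := exists_cross hG ⟨v, Or.inl rfl⟩ hB
  apply hx
  rcases hc with rfl | rfl | hc
  · rcases hv x hcx with rfl | rfl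
    · exact Or.inr (Or.inl rfl)
    · exact Or.inr (Or.inr rfl)
  · rcases ha x hcx with rfl | rfl
    · exact Or.inl rfl
    · exact Or.inr (Or.inr rfl)
  · have hc : c = b := hc
    subst hc
    rcases hb x hcx with rfl | rfl
    · exact Or.inl rfl
    · exact Or.inr (Or.inl rfl)

/-- the triangle -/
theorem tf_tri [Fintype U] [Fintype W] (h3 : 3 ≤ Fintype.card W) (hH : GenRigid 2 H)
    (hG : G.Connected) {v a b : U} {N : ℕ} (hva : G.Adj v a) (hvb : G.Adj v b) (hab : G.Adj a b)
    (hset : ({v, a, b} : Set U) = Set.univ)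
    (hN : ∀ f : U → ℕ, val (Fintype.card W) G f ≤ N) : Mu 0 N (G □ H) := by
  classical
  have hcard : Fintype.card U = 3 := by
    rw [← Nat.card_eq_fintype_card, ← Set.ncard_univ, ← hset,
      Set.ncard_insert_of_notMem, Set.ncard_pair hab.ne]
    rintro (h | h)
    · exact hva.ne h
    · exact hvb.ne h
  have hac : ¬ G.IsAcyclic := by
    intro h
    refine h (Walk.cons hva (Walk.cons hab (Walk.cons hvb.symm Walk.nil))) ?_
    rw [Walk.cons_isCycle_iff]
    refine ⟨?_, ?_⟩
    · simp [Walk.cons_isPath_iff, hab.ne, hvb.ne', hva.ne']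
    · simp [hab.ne, hvb.ne, hva.ne, hva.ne']
  have h1 := unicyclic_bound hG hac hH h3
  refine h1.mono ?_
  let f : U → ℕ := fun u => (Fintype.equivFin U u).1
  have hf : Function.Injective f := fun a b h =>
    (Fintype.equivFin U).injective (Fin.ext h)
  have hC : G.edgeSet.ncard ≤ 3 := by
    have := G.card_edgeFinset_le_card_choose_two
    have h5 : G.edgeSet.ncard = G.edgeFinset.card := by
      rw [← Set.ncard_coe_finset, coe_edgeFinset]
    rw [hcard] at this
    have h6 : Nat.choose 3 2 = 3 := by decide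
    omega
  have h5 := val_inj (h := Fintype.card W) hf hC
  have h6 := hN f
  rw [hcard] at h5 ⊢
  push_cast at h5
  have : (9 : ℤ) ≤ N := by linarith
  have : 9 ≤ N := by exact_mod_cast this
  omega

/-- **The number of degrees of freedom is at most the maximal value.** -/
theorem tf_all [Fintype W] (h30 : 30 ≤ Fintype.card W) (hH : GenRigid 2 H)
    (he : H.edgeSet.ncard + 3 = 2 * Fintype.card W) :
    ∀ (n : ℕ) (U : Type) [Fintype U], Fintype.card U = n → Nonempty U →
      ∀ (m : ℕ) (G : SimpleGraph U), G.edgeSet.ncard = m → Tf H G := by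
  classical
  intro n
  induction n using Nat.strong_induction_on with
  | _ n ihn =>
  intro U _ hUn hne m
  induction m using Nat.strong_induction_on with
  | _ m ihm =>
  intro G hGm N hN
  have h3 : 3 ≤ Fintype.card W := by omega
  have hIs : ∀ (U' : Type) [Fintype U'] (G' : SimpleGraph U'), Nonempty U' →
      Fintype.card U' < Fintype.card U → Tf H G' := by
    intro U' _ G' hne' hlt
    exact ihn _ (by omega) U' rfl hne' _ G' rfl
  by_cases h1 : Nat.card U = 1
  · exact tf_one hH h1 N hN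
  have hU2 : 2 ≤ Nat.card U := by
    have : 0 < Nat.card U := Nat.card_pos
    omega
  have hN6 : 6 ≤ N := by
    have h5 := hN (fun _ => 0)
    rw [val_const hU2 (fun _ _ => rfl)] at h5
    exact_mod_cast h5
  have hIA : ∀ A : Set U, A.Nonempty → A ≠ Set.univ → Tf H (G.induce A) := by
    rintro A ⟨a, ha⟩ hA
    refine hIs A (G.induce A) ⟨⟨a, ha⟩⟩ ?_
    rw [← Nat.card_eq_fintype_card, ← Nat.card_eq_fintype_card, Nat.card_coe_set_eq,
      ← Set.ncard_univ]
    refine Set.ncard_lt_ncard ?_ (Set.toFinite _)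
    exact ⟨Set.subset_univ _, fun h => hA (Set.eq_univ_of_univ_subset h)⟩
  by_cases hG : G.Connected
  swap
  · exact tf_disc h3 hne hG hIA N hN
  by_cases hnr : Mu 0 6 (G □ H)
  · exact hnr.mono hN6
  by_contra hgoal
  have hnb : ∀ v, ∃ a, G.Adj v a := by
    intro v
    have hvu : ({v} : Set U) ≠ Set.univ := by
      intro h
      have : ({v} : Set U).ncard = Nat.card U := by rw [h, Set.ncard_univ]
      rw [Set.ncard_singleton] at this
      omega
    obtain ⟨b, hb, x, hx, hbx⟩ := exists_cross hG (Set.singleton_nonempty v) hvu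
    have hb : b = v := hb
    subst hb
    exact ⟨x, hbx⟩
  have hdel : ∀ v, Tf H (G.induce {u | u ≠ v}) := by
    intro v
    obtain ⟨a, ha⟩ := hnb v
    exact hIA _ ⟨a, ha.ne'⟩ (fun h => by
      have : v ∈ ({u | u ≠ v} : Set U) := h ▸ Set.mem_univ v
      exact this rfl)
  have h2 : ∀ v, Two G v := by
    intro v
    obtain ⟨a, hva⟩ := hnb v
    by_contra hnt
    refine hgoal (tf_leaf h3 hH hva (fun u hu => ?_) (hdel v) hN hN6)
    by_contra hne
    exact hnt ⟨u, a, hne, hu, hva⟩
  have htri : ∀ v a b, a ≠ b → G.Adj v a → G.Adj v b → (∀ u, G.Adj v u → u = a ∨ u = b) →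
      G.Adj a b := by
    intro v a b hab hva hvb hdeg
    by_contra hnab
    refine hgoal (tf_split h3 hH he hab hva hvb hdeg hnab
      (hIs {u : U // u ≠ v} (Sp G v a b) ⟨⟨a, hva.ne'⟩⟩ ?_) (hdel v) hN)
    exact Fintype.card_subtype_lt (x := v) (by simp)
  have hThree : Three G := by
    by_contra hn3
    obtain ⟨v⟩ := hne
    obtain ⟨a, b, hab, hva, hvb⟩ := h2 v
    have nb : ∀ u s t, s ≠ t → G.Adj u s → G.Adj u t → ∀ z, G.Adj u z → z = s ∨ z = t := by
      intro u s t hst hs ht z hz
      by_contra hcon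
      push Not at hcon
      exact hn3 ⟨u, s, t, z, hst, hcon.1.symm, hcon.2.symm, hs, ht, hz⟩
    have hdeg := nb v a b hab hva hvb
    have hadj := htri v a b hab hva hvb hdeg
    have hset := tri_closed hG hdeg (nb a v b hvb.ne hva.symm hadj)
      (nb b v a hva.ne hvb.symm hadj.symm)
    exact hgoal (tf_tri h3 hH hG hva hvb hadj hset hN)
  have hR4 : ∀ X : Set U, X ≠ Set.univ → 2 ≤ X.ncard → Mu 0 6 ((G.induce X) □ H) →
      X.ncard ≤ 4 := by
    by_contra hcon
    push Not at hcon
    obtain ⟨X0, hX0u, -, hX0r, hX0⟩ := hcon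
    obtain ⟨k, ⟨X, ⟨hXu, hX5, hX⟩, rfl⟩, hmin⟩ := (wellFounded_lt (α := ℕ)).has_min
      {k : ℕ | ∃ X : Set U, (X ≠ Set.univ ∧ 5 ≤ X.ncard ∧ Mu 0 6 ((G.induce X) □ H)) ∧
        Nat.card U - X.ncard = k} ⟨_, X0, ⟨hX0u, hX0, hX0r⟩, rfl⟩
    have hcX : X.ncard < Nat.card U := by
      rw [← Set.ncard_univ]
      exact Set.ncard_lt_ncard ⟨Set.subset_univ _,
        fun h => hXu (Set.eq_univ_of_univ_subset h)⟩ (Set.toFinite _)
    refine hgoal (tf_replace (by omega) hH he (by omega) hX ?_
      (hIs ({u // u ∉ X} ⊕ Fin 4) (Rp G X) ⟨Sum.inr 0⟩ ?_) hN)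
    · intro u hu x hx y hy hux huy
      by_contra hxy
      have h5 := point_step hH h3 hX hu hx hy hxy hux huy
      by_cases hXu' : X ∪ {u} = Set.univ
      · rw [hXu'] at h5
        exact hnr (mu_univ h5)
      · have h6 : (X ∪ {u}).ncard = X.ncard + 1 := by
          rw [Set.union_singleton, Set.ncard_insert_of_notMem hu]
        refine hmin _ ⟨X ∪ {u}, ⟨hXu', by omega, h5⟩, rfl⟩ ?_
        omega
    · rw [Fintype.card_sum, Fintype.card_fin]
      have h5 : Fintype.card {u // u ∉ X} + X.ncard = Fintype.card U := by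
        rw [← Nat.card_eq_fintype_card, ← Nat.card_eq_fintype_card, ← Set.ncard_add_ncard_compl X,
          add_comm]
        rfl
      omega
  have hcrit : ∃ f : U → ℕ, (∃ a b, f a ≠ f b) ∧
      (N : ℤ) + 1 ≤ val (Fintype.card W) G f + Fintype.card W := by
    obtain ⟨v⟩ := hne
    obtain ⟨a, hva⟩ := hnb v
    by_contra hno
    push Not at hno
    refine hgoal (tf_crit (a := v) (b := a) h3 (ihm _ ?_ (G0 G v a) rfl) hN
      (fun f hf => by
        have := hno f ⟨v, a, hf⟩
        linarith))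
    rw [← hGm]
    refine Set.ncard_lt_ncard ⟨?_, fun hh => ?_⟩ (Set.toFinite _)
    · intro e
      induction e using Sym2.ind with | _ x y => ?_
      intro h
      exact (G0_adj.1 h).1
    · have h5 : (G0 G v a).Adj v a := hh (show s(v, a) ∈ G.edgeSet from hva)
      exact (G0_adj.1 h5).2 rfl
  obtain ⟨f, hf, hM⟩ := exists_nice_min h3 he hR4 hnr (exists_nice h3 hIA hN hcrit)
  have h5 := count_le h30 hH hG h2 hThree htri hR4 hnr hN6 hf hM
  exact hnr (leafless_rigid hH _ U G rfl hG h2 hThree h5)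

/-- **The number of degrees of freedom is the maximal value.** -/
theorem mu_iff [Fintype U] [Nonempty U] [Fintype W] (h30 : 30 ≤ Fintype.card W)
    (hH : GenRigid 2 H) (he : H.edgeSet.ncard + 3 = 2 * Fintype.card W) (N : ℕ) :
    Mu 0 N (G □ H) ↔ ∀ f : U → ℕ, val (Fintype.card W) G f ≤ N :=
  ⟨fun h f => val_le he (by omega) h f,
    fun h => tf_all h30 hH he _ U rfl inferInstance _ G rfl N h⟩

end Pool.Agent.J4H92.NC
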