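import Pool.Agent.J4H92.NC.Tree
import Pool.Agent.J4H92.NC.Fin1

/-!
# Products with a plane-rigid graph, factors of any size
-/

set_option autoImplicit false

namespace Pool.Agent.J4H92.NC

open SimpleGraph hiding between

open Module Pool.Agent.H283R2.DR Pool.Agent.H789R5 Pool.Agent.J4H92.CP

variable {U : Type} [Fintype U] {G : SimpleGraph U}

theorem br_of_deg {v : U} (h : 3 ≤ (G.neighborSet v).ncard) : Br G v := by
  obtain ⟨a, b, c, ha, hb, hc, h1, h2, h3⟩ := (Set.two_lt_ncard_iff (Set.toFinite _)).1 h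
  exact ⟨a, b, c, h1, h2, h3, ha, hb, hc⟩

theorem threads_of {s : ℕ} (h : ∀ f : ℕ → U, (∀ i ≤ s + 1, G.Adj (f i) (f (i + 1))) →
    (∀ i ≤ s, f (i + 2) ≠ f i) → ∃ i, 1 ≤ i ∧ i ≤ s + 1 ∧ 3 ≤ (G.neighborSet (f i)).ncard) :
    Threads G s := by
  intro f h1 h2
  obtain ⟨i, hi, hi', hd⟩ := h f h1 h2
  exact ⟨i, hi, hi', br_of_deg hd⟩

end Pool.Agent.J4H92.NC
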