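import Pool.Agent.J4H92.NC.Main
import Pool.Agent.J4H92.CP.Grow

/-!
# Graph theoretic preparations
-/

set_option autoImplicit false

namespace Pool.Agent.J4H92.NC

open Module SimpleGraph Pool.Agent.J4H92.CP Pool.Agent.H283R2.DR Pool.Agent.H789R5

variable {U : Type} {G : SimpleGraph U}

theorem exists_sid (U : Type) [Finite U] : ∃ t : U → ℝ, Sid t := by
  classical
  obtain ⟨n, ⟨e⟩⟩ := Finite.exists_equiv_fin U
  have hinj : ∀ a b : U, (e a : ℕ) = (e b : ℕ) → a = b := fun a b h => e.injective (Fin.ext h)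
  refine ⟨fun u => (((2 : ℕ) ^ (e u : ℕ) : ℕ) : ℝ), fun u => by positivity, ?_, ?_⟩
  · intro a b h
    have h1 : (2 : ℕ) ^ (e a : ℕ) = 2 ^ (e b : ℕ) := Nat.cast_injective (R := ℝ) h
    exact hinj a b (Nat.pow_right_injective le_rfl h1)
  · intro a b c d h hab hcd
    have h1 : (2 : ℕ) ^ (e a : ℕ) + 2 ^ (e b : ℕ) = 2 ^ (e c : ℕ) + 2 ^ (e d : ℕ) := by
      exact_mod_cast h
    have ne1 : (e a : ℕ) ≠ (e b : ℕ) := fun h => hab (hinj a b h)
    have ne2 : (e c : ℕ) ≠ (e d : ℕ) := fun h => hcd (hinj c d h)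
    have h2 : ({(e a : ℕ), (e b : ℕ)} : Finset ℕ) = {(e c : ℕ), (e d : ℕ)} := by
      apply Finset.geomSum_injective (n := 2) le_rfl
      show ∑ i ∈ ({(e a : ℕ), (e b : ℕ)} : Finset ℕ), 2 ^ i =
        ∑ i ∈ ({(e c : ℕ), (e d : ℕ)} : Finset ℕ), 2 ^ i
      rw [Finset.sum_pair ne1, Finset.sum_pair ne2]
      exact h1
    have h3 : (e a : ℕ) ∈ ({(e c : ℕ), (e d : ℕ)} : Finset ℕ) := by
      rw [← h2]
      simp
    rw [Finset.mem_insert, Finset.mem_singleton] at h3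
    rcases h3 with h3 | h3
    · exact Or.inl (hinj _ _ h3)
    · exact Or.inr (hinj _ _ h3)

/-- the last step of a walk to `v` -/
theorem last_step {G' : SimpleGraph U} (hle : G' ≤ G) {x v : U} (p : G'.Walk x v) (hx : x ≠ v) :
    ∃ w, G'.Adj v w ∧ (G.deleteIncidenceSet v).Reachable x w := by
  induction p with
  | nil => exact absurd rfl hx
  | cons hxy p ih =>
    rename_i x y v
    by_cases hy : y = v
    · subst hy
      exact ⟨x, hxy.symm, Reachable.refl _⟩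
    · obtain ⟨w, hw, hr⟩ := ih hy
      refine ⟨w, hw, Reachable.trans (Adj.reachable ?_) hr⟩
      rw [deleteIncidenceSet_adj]
      exact ⟨hle hxy, hx, hy⟩

theorem corner_of_reach {v u : U} (huv : G.Adj v u)
    (h : (G.deleteEdges {s(v, u)}).Reachable u v) : ∃ w, Cor G v u w := by
  obtain ⟨p⟩ := h
  obtain ⟨w, hw, hr⟩ := last_step (G.deleteEdges_le _) p huv.ne'
  rw [deleteEdges_adj] at hw
  refine ⟨w, ?_, huv, hw.1, hr⟩
  rintro rfl
  exact hw.2 rfl

theorem mu_of_rank {V : Type} [Fintype V] {G : SimpleGraph V} {k : ℕ}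
    (h : 3 * Fintype.card V ≤ genRank 3 G + k) : Mu 0 k G := by
  obtain ⟨p, hp⟩ := exists_mg V 3
  have h1 := genRank_add hp G
  refine ⟨p, 0, ?_⟩
  have h2 : Sol G (df p) (0 : V → Fin 0 → Fin 3 → ℝ) ≤ Mot G p := by
    rintro m ⟨hm, -⟩
    rw [mem_mot]
    exact hm
  have h3 := Submodule.finrank_mono h2
  have h4 : finrank ℝ (Mot G p) = mo G p := rfl
  omega

/-- **A bridgeless graph with a vertex of degree at least three.** -/
theorem bridgeless_rigid {W : Type} [Fintype U] [Fintype W] {H : SimpleGraph W}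
    (hG : G.Connected)
    (hb : ∀ u v, G.Adj u v → (G.deleteEdges {s(u, v)}).Reachable u v)
    (hd : ∃ v a b c : U, a ≠ b ∧ a ≠ c ∧ b ≠ c ∧ G.Adj v a ∧ G.Adj v b ∧ G.Adj v c)
    (hH : GenRigid 2 H) (hW : 3 * Fintype.card U ≤ Fintype.card W + 6) : Mu 0 6 (G □ H) := by
  obtain ⟨t, ht⟩ := exists_sid U
  refine fat_rigid ⟨hG, fun v u huv => corner_of_reach huv ?_, hd⟩ ht hH hW
  exact (hb v u huv).symm

end Pool.Agent.J4H92.NC
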