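import Pool.Agent.J4H92.NC.Cols

/-!
# The system of all columns
-/

set_option autoImplicit false

namespace Pool.Agent.J4H92.NC

open Module Pool.Agent.H283R2.DR.TA

variable {U W : Type} {G : SimpleGraph U} {t : U → ℝ}

/-- unknowns of the system of columns -/
abbrev XC (U W : Type) : Type := (U → Fin 3 → ℝ) × (W → ℝ) × (U → W → ℝ)

open Classical in
/-- indicator of the edges -/
noncomputable def ad {V : Type} (G : SimpleGraph V) (u v : V) : ℝ := if G.Adj u v then 1 else 0

theorem ad_adj {V : Type} {G : SimpleGraph V} {u v : V} (h : G.Adj u v) : ad G u v = 1 := by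
  simp [ad, h]

theorem ad_mul {V : Type} {G : SimpleGraph V} {u v : V} {c : ℝ} :
    ad G u v * c = 0 ↔ (G.Adj u v → c = 0) := by
  by_cases h : G.Adj u v
  · simp [ad, h]
  · simp [ad, h]

/-- the system of the columns -/
noncomputable def colMap (G : SimpleGraph U) (t : U → ℝ) (b : U) (q : W → Fin 2 → ℝ)
    (r : W → U → Fin 2 → ℝ) : XC U W →ₗ[ℝ] ((U → U → W → ℝ) × (Fin 3 → ℝ) × (W → ℝ)) where
  toFun p := (fun u v x => ad G u v * CE t (q x) (r x) p.1 (p.2.1 x) (fun u => p.2.2 u x) u v,
    p.1 b, fun x => p.2.2 b x)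
  map_add' p p' := by
    refine Prod.ext ?_ (Prod.ext ?_ ?_)
    · funext u v x
      simp only [CE, ya, yb, Prod.fst_add, Prod.snd_add, Pi.add_apply]
      ring
    · funext i
      simp
    · funext i
      simp
  map_smul' a p := by
    refine Prod.ext ?_ (Prod.ext ?_ ?_)
    · funext u v x
      simp only [CE, ya, yb, Prod.smul_fst, Prod.smul_snd, Pi.smul_apply, smul_eq_mul,
        RingHom.id_apply]
      ring
    · funext i
      simp
    · funext i
      simp

/-- its derivative in the points -/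
noncomputable def colDer (G : SimpleGraph U) (t : U → ℝ) (d : W → Fin 2 → ℝ)
    (r : W → U → Fin 2 → ℝ) : XC U W →ₗ[ℝ] ((U → U → W → ℝ) × (Fin 3 → ℝ) × (W → ℝ)) where
  toFun p := (fun u v x => ad G u v * ((r x u 0 - r x v 0) * (-(p.1 u 2 - p.1 v 2) * d x 1) +
      (r x u 1 - r x v 1) * ((p.1 u 2 - p.1 v 2) * d x 0) +
      ((t u ^ 2 - t v ^ 2) * d x 0 + (t u ^ 3 - t v ^ 3) * d x 1) * (p.2.2 u x - p.2.2 v x)),
    0, 0)
  map_add' p p' := by
    refine Prod.ext ?_ (Prod.ext ?_ ?_)
    · funext u v x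
      simp only [Prod.fst_add, Prod.snd_add, Pi.add_apply]
      ring
    · simp
    · simp
  map_smul' a p := by
    refine Prod.ext ?_ (Prod.ext ?_ ?_)
    · funext u v x
      simp only [Prod.smul_fst, Prod.smul_snd, Pi.smul_apply, smul_eq_mul,
        RingHom.id_apply]
      ring
    · simp
    · simp

theorem colMap_line (b : U) (q d : W → Fin 2 → ℝ) (r : W → U → Fin 2 → ℝ) (s : ℝ) :
    colMap G t b (q + s • d) r = colMap G t b q r + s • colDer G t d r := by
  refine LinearMap.ext fun p => ?_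
  refine Prod.ext ?_ (Prod.ext ?_ ?_)
  · funext u v x
    simp only [colMap, colDer, CE, ya, yb, lam, LinearMap.coe_mk, AddHom.coe_mk,
      LinearMap.add_apply, LinearMap.smul_apply, Prod.fst_add, Prod.smul_fst, Pi.add_apply,
      Pi.smul_apply, smul_eq_mul]
    ring
  · simp [colMap, colDer]
  · simp [colMap, colDer]

theorem mem_ker_col {b : U} {q : W → Fin 2 → ℝ} {r : W → U → Fin 2 → ℝ} {p : XC U W} :
    p ∈ LinearMap.ker (colMap G t b q r) ↔
      (∀ u v x, G.Adj u v → CE t (q x) (r x) p.1 (p.2.1 x) (fun u => p.2.2 u x) u v = 0) ∧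
        p.1 b = 0 ∧ ∀ x, p.2.2 b x = 0 := by
  rw [LinearMap.mem_ker, Prod.ext_iff, Prod.ext_iff]
  constructor
  · rintro ⟨h1, h2, h3⟩
    refine ⟨fun u v x huv => ?_, h2, fun x => congrFun h3 x⟩
    exact ad_mul.1 (congrFun (congrFun (congrFun h1 u) v) x) huv
  · rintro ⟨h1, h2, h3⟩
    refine ⟨?_, h2, funext h3⟩
    funext u v x
    exact ad_mul.2 (h1 u v x)

/-- the trivial solutions -/
def ψ (t : U → ℝ) (b : U) (q : W → Fin 2 → ℝ) (r : W → U → Fin 2 → ℝ) :
    (Fin 3 → ℝ) →ₗ[ℝ] XC U W where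
  toFun c := (fun u => ![c 0 * (t u ^ 2 - t b ^ 2) - c 1 * (t u - t b),
      c 0 * (t u ^ 3 - t b ^ 3) - c 2 * (t u - t b),
      c 1 * (t u ^ 3 - t b ^ 3) - c 2 * (t u ^ 2 - t b ^ 2)],
    fun x => c 0 + c 1 * q x 0 + c 2 * q x 1,
    fun u x => c 1 * (r x u 0 - r x b 0) + c 2 * (r x u 1 - r x b 1))
  map_add' c c' := by
    refine Prod.ext ?_ (Prod.ext ?_ ?_)
    · funext u i
      fin_cases i <;> simp <;> ring
    · funext x
      simp only [Pi.add_apply, Prod.snd_add, Prod.fst_add]
      ring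
    · funext u x
      simp only [Pi.add_apply, Prod.snd_add]
      ring
  map_smul' a c := by
    refine Prod.ext ?_ (Prod.ext ?_ ?_)
    · funext u i
      fin_cases i <;> simp <;> ring
    · funext x
      simp only [Pi.smul_apply, Prod.smul_snd, Prod.smul_fst, smul_eq_mul, RingHom.id_apply]
      ring
    · funext u x
      simp only [Pi.smul_apply, Prod.smul_snd, smul_eq_mul, RingHom.id_apply]
      ring

/-- at the chosen columns there are only trivial solutions -/
theorem ker_col_le [Fintype U] [Fintype W] (hconn : G.Connected) (b : U) {q : W → Fin 2 → ℝ}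
    {r : W → U → Fin 2 → ℝ} (hnd : ∀ x, ND G t (q x) (r x))
    (hcol : ∀ ι, (∀ x, ι ∈ Adm G t (q x) (r x)) → ι ∈ LinearMap.range (tr t)) :
    finrank ℝ (LinearMap.ker (colMap G t b q r)) ≤ 3 := by
  have hle : LinearMap.ker (colMap G t b q r) ≤ LinearMap.range (ψ t b q r) := by
    intro p hp
    rw [mem_ker_col] at hp
    obtain ⟨h1, h2, h3⟩ := hp
    obtain ⟨c, hc⟩ := hcol p.1 fun x => ⟨p.2.1 x, fun u => p.2.2 u x, fun u v huv => h1 u v x huv⟩
    have hdiff : ∀ x, p.2.1 x - (c 0 + c 1 * q x 0 + c 2 * q x 1) = 0 ∧ ∀ u v, G.Adj u v →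
        p.2.2 u x - (c 1 * r x u 0 + c 2 * r x u 1) =
          p.2.2 v x - (c 1 * r x v 0 + c 2 * r x v 1) := by
      intro x
      refine hnd x _ (fun u => p.2.2 u x - (c 1 * r x u 0 + c 2 * r x u 1)) fun u v huv => ?_
      have e1 := h1 u v x huv
      have e2 := ce_tr (t := t) (q x) (r x) c u v
      rw [hc] at e2
      simp only [CE, ya, yb, Pi.zero_apply] at *
      linear_combination e1 - e2
    have hreach : ∀ x u v, G.Reachable u v →
        p.2.2 u x - (c 1 * r x u 0 + c 2 * r x u 1) =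
          p.2.2 v x - (c 1 * r x v 0 + c 2 * r x v 1) := by
      rintro x u v ⟨w⟩
      induction w with
      | nil => rfl
      | cons hab w ih => rw [(hdiff x).2 _ _ hab, ih]
    refine ⟨![c 0, c 1, c 2], ?_⟩
    have hb : ∀ i, p.1 b i = 0 := fun i => by rw [h2]; rfl
    have hb0 := hb 0
    have hb1 := hb 1
    have hb2 := hb 2
    rw [← hc] at hb0 hb1 hb2
    simp only [tr_zero, tr_one, tr_two] at hb0 hb1 hb2
    refine Prod.ext ?_ (Prod.ext ?_ ?_)
    · rw [← hc]
      funext u i
      fin_cases i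
      · simp [ψ]
        linear_combination -hb0
      · simp [ψ]
        linear_combination -hb1
      · simp [ψ]
        linear_combination -hb2
    · funext x
      have := (hdiff x).1
      simp [ψ]
      linarith
    · funext u x
      have := hreach x u b (hconn.preconnected u b)
      rw [h3 x] at this
      simp [ψ]
      linarith
  refine (Submodule.finrank_mono hle).trans ?_
  refine (LinearMap.finrank_range_le _).trans ?_
  simp

/-- the good property of the points -/
theorem col_line [Fintype U] [Fintype W] (b : U) {q0 : W → Fin 2 → ℝ} {r : W → U → Fin 2 → ℝ}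
    {k : ℕ} (h0 : finrank ℝ (LinearMap.ker (colMap G t b q0 r)) ≤ k) (d : W → Fin 2 → ℝ) :
    {s : ℝ | ¬ finrank ℝ (LinearMap.ker (colMap G t b (q0 + s • d) r)) ≤ k}.Finite := by
  refine (rank_good (colMap G t b q0 r) (colDer G t d r)).subset ?_
  intro s hs
  rw [Set.mem_ofPred_eq] at hs ⊢
  rw [← colMap_line]
  have h1 := LinearMap.finrank_range_add_finrank_ker (colMap G t b q0 r)
  have h2 := LinearMap.finrank_range_add_finrank_ker (colMap G t b (q0 + s • d) r)
  omega

end Pool.Agent.J4H92.NC
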