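import Pool.Agent.J4H92.NC.Conv

/-!
# A vertex with at most one neighbour
-/

set_option autoImplicit false

namespace Pool.Agent.J4H92.NC

open SimpleGraph hiding between

open Module Pool.Agent.H283R2.DR Pool.Agent.H789R5 Pool.Agent.J4H92.CP

variable {U W : Type} [Fintype U] [Fintype W] {G : SimpleGraph U} {H : SimpleGraph W}

/-- the edges inside the layer of `v` and the edges outside -/
def Cut (G : SimpleGraph U) (H : SimpleGraph W) (v : U) : SimpleGraph (U × W) where
  Adj x y := (G □ H).Adj x y ∧ (x.1 = v ↔ y.1 = v)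
  symm := ⟨fun x y h => ⟨h.1.symm, h.2.symm⟩⟩
  loopless := ⟨fun x h => h.1.ne rfl⟩

/-- a rigid product in which the first factor has a vertex with at most one neighbour -/
theorem leaf_flex (hr : GenRigid 3 (G □ H)) (hU : 2 ≤ Fintype.card U)
    (hW : 3 ≤ Fintype.card W) {v w : U} (hv : ∀ x, G.Adj v x → x = w) :
    2 * Fintype.card W ≤ genRank 3 H := by
  classical
  obtain ⟨p, hp⟩ := exists_mg (U × W) 3
  have hcard : 3 ≤ Fintype.card (U × W) := by
    rw [Fintype.card_prod]
    nlinarith
  have hcard' : 3 ≤ Fintype.card ({u : U // u ≠ v} × W) := by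
    rw [Fintype.card_prod]
    have : 0 < Fintype.card {u : U // u ≠ v} := by
      have h1 : Nontrivial U := Fintype.one_lt_card_iff_nontrivial.1 (by omega)
      obtain ⟨u, hu⟩ := exists_ne v
      exact Fintype.card_pos_iff.2 ⟨⟨u, hu⟩⟩
    nlinarith
  have h1 := (genRigid_iff hp hcard _).1 hr
  norm_num at h1
  have h3 := mo_le_add (G := Cut G H v) (G' := G □ H) p
  have h4 : ((G □ H).edgeSet \ (Cut G H v).edgeSet).ncard ≤ Fintype.card W := by
    have h5 : ((G □ H).edgeSet \ (Cut G H v).edgeSet) ⊆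
        Set.range (fun x : W => s(((v, x) : U × W), (w, x))) := by
      intro e he
      induction e using Sym2.ind with | _ a b => ?_
      obtain ⟨h5, h6⟩ := he
      rw [mem_edgeSet] at h5 h6
      have h6 : ¬ ((G □ H).Adj a b ∧ (a.1 = v ↔ b.1 = v)) := h6
      have h7 : ¬ (a.1 = v ↔ b.1 = v) := fun h => h6 ⟨h5, h⟩
      rcases h5 with ⟨h8, h9⟩ | ⟨h8, h9⟩
      · by_cases ha : a.1 = v
        · refine ⟨a.2, ?_⟩
          rw [ha] at h8
          have h10 := hv _ h8
          show s((v, a.2), (w, a.2)) = s(a, b)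
          have e1 : a = (v, a.2) := Prod.ext ha rfl
          have e2 : b = (w, a.2) := Prod.ext h10 h9.symm
          rw [← e1, ← e2]
        · have hb : b.1 = v := by
            by_contra hb
            exact h7 ⟨fun h => absurd h ha, fun h => absurd h hb⟩
          refine ⟨b.2, ?_⟩
          rw [hb] at h8
          have h10 := hv _ h8.symm
          show s((v, b.2), (w, b.2)) = s(a, b)
          have e1 : b = (v, b.2) := Prod.ext hb rfl
          have e2 : a = (w, b.2) := Prod.ext h10 h9
          rw [← e1, ← e2, Sym2.eq_swap]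
      · have h9 : a.1 = b.1 := h9
        exact absurd (by rw [h9]) h7
    refine (Set.ncard_le_ncard h5 (Set.toFinite _)).trans ?_
    rw [← Set.image_univ]
    refine (Set.ncard_image_le (Set.toFinite _)).trans ?_
    rw [Set.ncard_univ, Nat.card_eq_fintype_card]
  -- motions of the two parts
  obtain ⟨p0, hp0⟩ := exists_mg ({u : U // u ≠ v} × W) 3
  have h5 := Pool.Agent.TH349.Rig.six_le hp0 hcard' ⊤
  have h6 := hp0.min ⊤ (fun z : {u : U // u ≠ v} × W => p (z.1.1, z.2))
  have h7 := layer_le (fun x => p (v, x)) H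
  set A := Mot (⊤ : SimpleGraph ({u : U // u ≠ v} × W))
    (fun z : {u : U // u ≠ v} × W => p (z.1.1, z.2)) with hA
  set B := Mot H (fun x => p (v, x)) with hB
  have h8 : finrank ℝ A = mo (⊤ : SimpleGraph ({u : U // u ≠ v} × W))
    (fun z : {u : U // u ≠ v} × W => p (z.1.1, z.2)) := rfl
  have h9 : finrank ℝ B = mo H (fun x => p (v, x)) := rfl
  let F : (A × B) →ₗ[ℝ] (U × W → Fin 3 → ℝ) :=
    { toFun := fun m z => if h : z.1 = v then m.2.1 z.2 else m.1.1 (⟨z.1, h⟩, z.2)
      map_add' := by
        intro m m'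
        funext z
        by_cases h : z.1 = v <;> simp [h]
      map_smul' := by
        intro s m
        funext z
        by_cases h : z.1 = v <;> simp [h] }
  have hF : ∀ m, F m ∈ Mot (Cut G H v) p := by
    intro m
    rw [mem_mot]
    rintro ⟨a, x⟩ ⟨b, y⟩ ⟨h, hab⟩
    have hab : a = v ↔ b = v := hab
    show (p (a, x) - p (b, y)) ⬝ᵥ
      ((if h : a = v then m.2.1 x else m.1.1 (⟨a, h⟩, x)) -
        (if h : b = v then m.2.1 y else m.1.1 (⟨b, h⟩, y))) = 0
    by_cases ha : a = v
    · have hb := hab.1 ha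
      rw [dif_pos ha, dif_pos hb]
      rcases h with ⟨h, -⟩ | ⟨h, -⟩
      · have h : G.Adj a b := h
        rw [ha, hb] at h
        exact absurd h (G.irrefl)
      · have h : H.Adj x y := h
        rw [ha, hb]
        exact (mem_mot _ _ _).1 m.2.2 x y h
    · have hb : b ≠ v := fun h => ha (hab.2 h)
      rw [dif_neg ha, dif_neg hb]
      refine (mem_mot _ _ _).1 m.1.2 (⟨a, ha⟩, x) (⟨b, hb⟩, y) ?_
      rw [top_adj]
      intro he
      rw [Prod.ext_iff] at he
      refine h.ne (Prod.ext ?_ he.2)
      exact congrArg Subtype.val he.1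
  have hinj : Function.Injective (F.codRestrict _ hF) := by
    rw [injective_iff_map_eq_zero]
    rintro ⟨m, m'⟩ h
    rw [Subtype.ext_iff] at h
    have h : F (m, m') = 0 := h
    have e1 : m = 0 := by
      refine Subtype.ext ?_
      funext z
      have h2 := congrFun h (z.1.1, z.2)
      have h3 : (if h : z.1.1 = v then m'.1 z.2 else m.1 (⟨z.1.1, h⟩, z.2)) = 0 := h2
      rw [dif_neg z.1.2] at h3
      exact h3
    have e2 : m' = 0 := by
      refine Subtype.ext ?_
      funext x
      have h2 := congrFun h (v, x)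
      have h3 : (if h : v = v then m'.1 x else m.1 (⟨v, h⟩, x)) = 0 := h2
      rw [dif_pos rfl] at h3
      exact h3
    rw [e1, e2]
    rfl
  have h10 := LinearMap.finrank_le_finrank_of_injective hinj
  rw [Module.finrank_prod] at h10
  have h11 : finrank ℝ (Mot (Cut G H v) p) = mo (Cut G H v) p := rfl
  omega

/-- the bound on the size of the plane-rigid factor is best possible -/
theorem sharp (hr : GenRigid 3 (G □ H)) (hU : 1 ≤ Fintype.card U)
    (hW : 3 ≤ Fintype.card W) (hG : G.edgeSet.ncard = Fintype.card U + 1)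
    (hH : H.edgeSet.ncard = 2 * Fintype.card W - 3) :
    3 * Fintype.card U ≤ Fintype.card W + 6 := by
  classical
  obtain ⟨p, hp⟩ := exists_mg (U × W) 3
  have hcard : 3 ≤ Fintype.card (U × W) := by
    rw [Fintype.card_prod]
    nlinarith
  have h1 := (genRigid_iff hp hcard _).1 hr
  norm_num at h1
  have h2 := genRank_add hp (G □ H)
  have h3 := rank_le (G □ H)
  rw [ncard_boxProd] at h3
  rw [Fintype.card_prod] at h2
  rw [hG, hH] at h3
  obtain ⟨h, hh⟩ : ∃ h, Fintype.card W = h + 3 := ⟨Fintype.card W - 3, by omega⟩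
  rw [hh] at h2 h3 ⊢
  have h4 : 2 * (h + 3) - 3 = 2 * h + 3 := by omega
  rw [h4] at h3
  nlinarith

end Pool.Agent.J4H92.NC
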