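import Pool.Agent.J4H92.NC.Blow

/-!
# Products of a fat graph with a large graph that is rigid in the plane
-/

set_option autoImplicit false

namespace Pool.Agent.J4H92.NC

open Module SimpleGraph Pool.Agent.H283R2.DR Pool.Agent.H283R2.DR.TA Pool.Agent.J4H92.CP

variable {U W : Type} {G : SimpleGraph U} {H : SimpleGraph W} {t : U → ℝ}

/-- planar motions -/
theorem plane_motion {q : W → Fin 2 → ℝ} (hH : InfRigid H q) {a b : W → ℝ}
    (h : ∀ x y, H.Adj x y → (q x 0 - q y 0) * (a x - a y) + (q x 1 - q y 1) * (b x - b y) = 0) :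
    ∃ c : Fin 3 → ℝ, ∀ x, a x = c 0 - c 2 * q x 1 ∧ b x = c 1 + c 2 * q x 0 := by
  obtain ⟨A, e, hA, hq⟩ := hH (fun x => ![a x, b x]) (by
    intro x y hxy
    have := h x y hxy
    simp only [dotProduct, Fin.sum_univ_two, Pi.sub_apply, Matrix.cons_val_zero,
      Matrix.cons_val_one]
    exact this)
  have h00 : A 0 0 = 0 := by
    have := congrFun (congrFun hA 0) 0
    simp only [Matrix.transpose_apply, Matrix.neg_apply] at this
    linarith
  have h11 : A 1 1 = 0 := by
    have := congrFun (congrFun hA 1) 1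
    simp only [Matrix.transpose_apply, Matrix.neg_apply] at this
    linarith
  have h01 : A 0 1 = - A 1 0 := by
    have := congrFun (congrFun hA 1) 0
    simpa only [Matrix.transpose_apply, Matrix.neg_apply] using this
  refine ⟨![e 0, e 1, A 1 0], fun x => ?_⟩
  have h0 := congrFun (hq x) 0
  have h1 := congrFun (hq x) 1
  simp only [Matrix.cons_val_zero, Matrix.cons_val_one, Pi.add_apply, Matrix.mulVec,
    dotProduct, Fin.sum_univ_two, h00, h01, h11] at h0 h1
  constructor
  · simp
    linarith
  · simp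
    linarith

/-- all motions of the limit system -/
noncomputable def Ψ (t : U → ℝ) (b : U) (q : W → Fin 2 → ℝ) (r : W → U → Fin 2 → ℝ) :
    ((Fin 3 → ℝ) × XC U W) →ₗ[ℝ] X0 U W where
  toFun p := (fun x => ![p.1 0 - p.1 2 * q x 1, p.1 1 + p.1 2 * q x 0, p.2.2.1 x],
    fun u x => ![-(p.1 2) * (r x u 1 - r x b 1) - (t u ^ 2 - t b ^ 2) * p.2.2.1 x +
        ya p.2.1 (q x) u,
      p.1 2 * (r x u 0 - r x b 0) - (t u ^ 3 - t b ^ 3) * p.2.2.1 x + yb p.2.1 (q x) u,
      p.2.2.2 u x])
  map_add' p p' := by
    refine Prod.ext ?_ ?_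
    · funext x i
      fin_cases i <;> simp <;> ring
    · funext u x i
      fin_cases i <;> simp [ya, yb] <;> ring
  map_smul' a p := by
    refine Prod.ext ?_ ?_
    · funext x i
      fin_cases i <;> simp <;> ring
    · funext u x i
      fin_cases i <;> simp [ya, yb] <;> ring

theorem ker_B0_le [Fintype U] [Fintype W] (b : U) {q : W → Fin 2 → ℝ} (hH : InfRigid H q)
    (r : W → U → Fin 2 → ℝ) :
    finrank ℝ (LinearMap.ker (B0 G H t b q r)) ≤
      3 + finrank ℝ (LinearMap.ker (colMap G t b q r)) := by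
  set K := LinearMap.ker (colMap G t b q r) with hK
  let F : ((Fin 3 → ℝ) × K) →ₗ[ℝ] X0 U W :=
    (Ψ t b q r).comp (LinearMap.prodMap LinearMap.id K.subtype)
  have hle : LinearMap.ker (B0 G H t b q r) ≤ LinearMap.range F := by
    intro p hp
    have hp' : p ∈ LinearMap.ker (B0 G H t b q r + (0 : ℝ) • B1 H t b q r) := by
      rw [zero_smul, add_zero]
      exact hp
    rw [mem_ker_B] at hp'
    obtain ⟨h1, h2, h3, h4⟩ := hp'
    simp only [zero_mul, add_zero] at h1 h2
    obtain ⟨c, hc⟩ := plane_motion hH (a := fun x => p.1 x 0) (b := fun x => p.1 x 1) (by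
      intro x y hxy
      have := h1 x y hxy
      simp only [dt, qh, Pi.sub_apply] at this
      simp at this
      linarith)
    -- the motions of the layers
    have hlay : ∀ u, ∃ e : Fin 3 → ℝ, (u = b → e = 0) ∧ ∀ x,
        p.2 u x 0 + c 2 * (r x u 1 - r x b 1) + (t u ^ 2 - t b ^ 2) * p.1 x 2 =
          e 0 - e 2 * q x 1 ∧
        p.2 u x 1 - c 2 * (r x u 0 - r x b 0) + (t u ^ 3 - t b ^ 3) * p.1 x 2 =
          e 1 + e 2 * q x 0 := by
      intro u
      by_cases hu : u = b
      · refine ⟨0, fun _ => rfl, fun x => ?_⟩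
        rw [hu, h4 x]
        simp
      · obtain ⟨e, he⟩ := plane_motion hH
          (a := fun x => p.2 u x 0 + c 2 * (r x u 1 - r x b 1) + (t u ^ 2 - t b ^ 2) * p.1 x 2)
          (b := fun x => p.2 u x 1 - c 2 * (r x u 0 - r x b 0) + (t u ^ 3 - t b ^ 3) * p.1 x 2)
          (by
            intro x y hxy
            have h5 := h2 u x y hxy
            simp only [dt, qh, Pu, Pi.sub_apply] at h5
            simp only [Matrix.cons_val_zero, Matrix.cons_val_one, Matrix.cons_val_two,
              Matrix.head_cons, Matrix.tail_cons] at h5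
            simp only [(hc x).1, (hc x).2, (hc y).1, (hc y).2, lam] at h5
            linear_combination h5)
        exact ⟨e, fun h => absurd h hu, he⟩
    choose ι hι0 hι using hlay
    have hmem : ((ι, (fun x => p.1 x 2), (fun u x => p.2 u x 2)) : XC U W) ∈ K := by
      rw [hK, mem_ker_col]
      refine ⟨fun u v x huv => ?_, hι0 b rfl, fun x => ?_⟩
      · have h5 := h3 u v x huv
        have e1 := (hι u x).1
        have e2 := (hι u x).2
        have e3 := (hι v x).1
        have e4 := (hι v x).2
        simp only [dt, Pu, Pi.sub_apply, Matrix.cons_val_zero, Matrix.cons_val_one,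
          Matrix.cons_val_two, Matrix.head_cons, Matrix.tail_cons] at h5
        simp only [CE, ya, yb]
        linear_combination h5 - (r x u 0 - r x v 0) * (e1 - e3) - (r x u 1 - r x v 1) * (e2 - e4)
      · show p.2 b x 2 = 0
        rw [h4 x]
        rfl
    refine ⟨(c, ⟨_, hmem⟩), ?_⟩
    refine Prod.ext ?_ ?_
    · funext x i
      have e1 := (hc x).1
      have e2 := (hc x).2
      fin_cases i
      · exact e1.symm
      · exact e2.symm
      · rfl
    · funext u x i
      have e1 := (hι u x).1
      have e2 := (hι u x).2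
      fin_cases i
      · show -(c 2) * (r x u 1 - r x b 1) - (t u ^ 2 - t b ^ 2) * p.1 x 2 + ya ι (q x) u =
          p.2 u x 0
        simp only [ya]
        linear_combination -e1
      · show c 2 * (r x u 0 - r x b 0) - (t u ^ 3 - t b ^ 3) * p.1 x 2 + yb ι (q x) u =
          p.2 u x 1
        simp only [yb]
        linear_combination -e2
      · rfl
  refine (Submodule.finrank_mono hle).trans ?_
  refine (LinearMap.finrank_range_le _).trans ?_
  rw [Module.finrank_prod, Module.finrank_fin_fun]

/-- **Products of a fat graph with a large graph that is rigid in the plane.** -/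
theorem fat_rigid [Fintype U] [Fintype W] (hG : Fat G) (ht : Sid t) (hH : GenRigid 2 H)
    (hW : 3 * Fintype.card U ≤ Fintype.card W + 6) : Mu 0 6 (G □ H) := by
  classical
  obtain ⟨b⟩ : Nonempty U := hG.conn.nonempty
  obtain ⟨q0, r, hnd, hcol⟩ := exists_cols hG ht hW
  have h0 := ker_col_le hG.conn b hnd hcol
  obtain ⟨q1, hq1⟩ := hH
  -- a common choice of the points
  obtain ⟨q, hq, hqr⟩ : ∃ q : W → Fin 2 → ℝ, InfRigid H q ∧
      finrank ℝ (LinearMap.ker (colMap G t b q r)) ≤ 3 := by
    have f1 := col_line (G := G) (t := t) b h0 (q1 - q0)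
    have f2 := (infRigid_good H q1 q0 hq1).preimage (f := fun s : ℝ => 1 - s)
      (fun a _ b _ hab => by simpa using hab)
    obtain ⟨s, hs⟩ := (f1.union f2).infinite_compl.nonempty
    rw [Set.mem_compl_iff, Set.mem_union, not_or, Set.mem_ofPred_eq, not_not,
      Set.mem_preimage, Set.mem_ofPred_eq, not_not] at hs
    refine ⟨q0 + s • (q1 - q0), ?_, hs.1⟩
    have e : q1 + (1 - s) • (q0 - q1) = q0 + s • (q1 - q0) := by
      rw [sub_smul, one_smul, smul_sub, smul_sub]
      abel
    rw [← e]
    exact hs.2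
  have hker := ker_B0_le (G := G) (t := t) b hq r
  have hfin := rank_good (B0 G H t b q r) (B1 H t b q r)
  obtain ⟨ε, hε⟩ := (hfin.union (Set.finite_singleton (0 : ℝ))).infinite_compl.nonempty
  rw [Set.mem_compl_iff, Set.mem_union, not_or, Set.mem_singleton_iff, Set.mem_ofPred_eq] at hε
  obtain ⟨hε1, hε0⟩ := hε
  have h1 := LinearMap.finrank_range_add_finrank_ker (B0 G H t b q r)
  have h2 := LinearMap.finrank_range_add_finrank_ker (B0 G H t b q r + ε • B1 H t b q r)
  have h3 := sol_le (G := G) (H := H) (t := t) b q r hε0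
  exact ⟨_, _, h3.trans (by omega)⟩

end Pool.Agent.J4H92.NC
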