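import Pool.Agent.J4H92.NC.Sel
import Pool.Agent.J4H92.NC.Graph
import Pool.Agent.N423.DE.Closed

/-!
# One pin at each vertex
-/

set_option autoImplicit false

namespace Pool.Agent.J4H92.NC

open Module SimpleGraph Pool.Agent.H283R2.DR Pool.Agent.H283R2.DR.TA Pool.Agent.J4H92.CP
  Pool.Agent.H789R5

theorem good_two {E : Type*} [AddCommGroup E] [Module ℝ E] {P Q : E → Prop} (hP : Good P)
    (hQ : Good Q) (h1 : ∃ e, P e) (h2 : ∃ e, Q e) : ∃ e, P e ∧ Q e := by
  obtain ⟨e, he⟩ := good_family (E := E) (ι := Bool) (fun b e => match b with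
    | true => P e
    | false => Q e) (by rintro (_ | _) <;> assumption) (by rintro (_ | _) <;> assumption)
  exact ⟨e, he true, he false⟩

theorem good_comp {E F : Type*} [AddCommGroup E] [Module ℝ E] [AddCommGroup F] [Module ℝ F]
    {P : F → Prop} (hP : Good P) (L : E →ₗ[ℝ] F) : Good (fun e => P (L e)) := by
  intro p0 p1 h0
  refine (hP (L p0) (L p1) h0).subset ?_
  intro s hs
  rw [Set.mem_ofPred_eq] at hs ⊢
  have e : L (p0 + s • (p1 - p0)) = L p0 + s • (L p1 - L p0) := by
    rw [map_add, map_smul, map_sub]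
  rw [← e]
  exact hs

variable {W : Type} [Fintype W] {H : SimpleGraph W}

/-- placement, directions, further pins -/
abbrev EC (W : Type) : Type := (W → Fin 3 → ℝ) × (W → Fin 3 → ℝ) × (W → Fin 3 → Fin 3 → ℝ)

open Classical in
/-- two fixed vertices and one pin at each vertex -/
noncomputable def LC (y y' : W) : EC W →ₗ[ℝ] ((W → W → Fin 3 → ℝ) × (W → Fin 4 → Fin 3 → ℝ)) where
  toFun e := (df e.1, fun x => Fin.cons (e.2.1 x)
    (fun i => if x = y ∨ x = y' then e.2.2 x i else 0))
  map_add' e e' := by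
    refine Prod.ext ?_ ?_
    · funext u v
      simp only [df, Prod.fst_add, Pi.add_apply]
      abel
    · funext x i
      refine Fin.cases ?_ (fun i => ?_) i
      · simp
      · by_cases h : x = y ∨ x = y' <;> simp [h]
  map_smul' c e := by
    refine Prod.ext ?_ ?_
    · funext u v
      simp only [df, Prod.smul_fst, Pi.smul_apply, RingHom.id_apply, smul_sub]
    · funext x i
      refine Fin.cases ?_ (fun i => ?_) i
      · simp
      · by_cases h : x = y ∨ x = y' <;> simp [h]

/-- the property of the placement and the directions -/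
def PC (H : SimpleGraph W) (y y' : W) (e : EC W) : Prop :=
  finrank ℝ (Sol H (LC y y' e).1 (LC y y' e).2) ≤ 0

omit [Fintype W] in
theorem good_PC [Finite W] (y y' : W) : Good (PC H y y') := good_sol H (LC y y') 0

omit [Fintype W] in
theorem PC.zero [Finite W] {y y' : W} {e : EC W} (h : PC H y y' e) {D : W → Fin 3 → ℝ}
    (h1 : ∀ x x', H.Adj x x' → (e.1 x - e.1 x') ⬝ᵥ (D x - D x') = 0)
    (h2 : ∀ x, e.2.1 x ⬝ᵥ D x = 0) (h3 : D y = 0) (h4 : D y' = 0) : D = 0 := by
  classical
  refine eq_zero_of_finrank_le h (mem_sol.2 ⟨fun x x' hx => h1 x x' hx, fun x i => ?_⟩)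
  refine Fin.cases ?_ (fun i => ?_) i
  · exact h2 x
  · show (if x = y ∨ x = y' then e.2.2 x i else 0) ⬝ᵥ D x = 0
    by_cases h : x = y ∨ x = y'
    · rw [if_pos h]
      rcases h with rfl | rfl
      · rw [h3, dotProduct_zero]
      · rw [h4, dotProduct_zero]
    · rw [if_neg h, zero_dotProduct]

theorem exists_PC (hH : GenRigid 2 H) (h2 : 2 ≤ Fintype.card W) {y y' : W} (hy : y ≠ y') :
    ∃ e : EC W, PC H y y' e := by
  classical
  obtain ⟨q, hq⟩ := exists_mg W 2
  have hrig : InfRigid H q := by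
    intro q' hq'
    obtain ⟨A, b, hA, hb⟩ := (hq.toGen.genRigid_iff H).1 hH q' (fun u _ v _ h => hq' u v h)
    exact ⟨A, b, hA, fun v => hb v trivial⟩
  have hne := Pool.Agent.N423.DE.p_ne hq (by norm_num) hy
  refine ⟨(fun x => ![q x 0, q x 1, 0], fun _ => ![0, 0, 1], fun _ i => Pi.single i 1), ?_⟩
  unfold PC
  have hbot : Sol H (LC y y' (fun x => ![q x 0, q x 1, 0], fun _ => ![0, 0, 1],
      fun _ i => Pi.single i 1)).1 (LC y y' (fun x => ![q x 0, q x 1, 0], fun _ => ![0, 0, 1],
      fun _ i => Pi.single i 1)).2 = ⊥ := by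
    rw [eq_bot_iff]
    intro D hD
    rw [mem_sol] at hD
    obtain ⟨hD1, hD2⟩ := hD
    have hz : ∀ x, D x 2 = 0 := by
      intro x
      have h5 := hD2 x 0
      have h6 : (![0, 0, 1] : Fin 3 → ℝ) ⬝ᵥ D x = 0 := h5
      rw [dt_eq] at h6
      simp only [dt, Matrix.cons_val_zero, Matrix.cons_val_one, Matrix.cons_val_two,
        Matrix.head_cons, Matrix.tail_cons] at h6
      linarith
    have hpin : ∀ x, (x = y ∨ x = y') → D x = 0 := by
      intro x hx
      funext i
      have h5 := hD2 x i.succ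
      have h6 : (if x = y ∨ x = y' then (Pi.single i 1 : Fin 3 → ℝ) else 0) ⬝ᵥ D x = 0 := h5
      rw [if_pos hx, single_dotProduct, one_mul] at h6
      exact h6
    obtain ⟨c, hc⟩ := plane_motion hrig (a := fun x => D x 0) (b := fun x => D x 1) (by
      intro x x' hx
      have h5 := hD1 x x' hx
      have h6 : ((![q x 0, q x 1, 0] : Fin 3 → ℝ) - ![q x' 0, q x' 1, 0]) ⬝ᵥ (D x - D x') = 0 :=
        h5
      rw [dt_eq] at h6
      simp only [dt, Pi.sub_apply, Matrix.cons_val_zero, Matrix.cons_val_one,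
        Matrix.cons_val_two, Matrix.head_cons, Matrix.tail_cons] at h6
      linarith)
    have e1 := hc y
    have e2 := hc y'
    rw [hpin y (Or.inl rfl)] at e1
    rw [hpin y' (Or.inr rfl)] at e2
    simp only [Pi.zero_apply] at e1 e2
    have hc2 : c 2 = 0 := by
      by_contra h0
      apply hne
      have f1 : c 2 * (q y 1 - q y' 1) = 0 := by linarith [e1.1, e2.1]
      have f2 : c 2 * (q y 0 - q y' 0) = 0 := by linarith [e1.2, e2.2]
      funext i
      fin_cases i
      · have := (mul_eq_zero.1 f2).resolve_left h0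
        show q y 0 = q y' 0
        linarith
      · have := (mul_eq_zero.1 f1).resolve_left h0
        show q y 1 = q y' 1
        linarith
    have hc0 : c 0 = 0 := by
      have := e1.1
      rw [hc2] at this
      linarith
    have hc1 : c 1 = 0 := by
      have := e1.2
      rw [hc2] at this
      linarith
    rw [Submodule.mem_bot]
    funext x i
    have f1 := (hc x).1
    have f2 := (hc x).2
    rw [hc0, hc2] at f1
    rw [hc1, hc2] at f2
    fin_cases i
    · show D x 0 = 0
      rw [f1]
      ring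
    · show D x 1 = 0
      rw [f2]
      ring
    · exact hz x
  rw [hbot, finrank_bot]

/-- the direction at a vertex -/
noncomputable def Ln (y : W) : EC W →ₗ[ℝ] (Fin 3 → ℝ) where
  toFun e := e.2.1 y
  map_add' _ _ := rfl
  map_smul' _ _ := rfl

/-- all conditions on the directions for a fixed placement -/
def PN (H : SimpleGraph W) (e : EC W) : Prop :=
  (∀ p : {p : W × W // p.1 ≠ p.2}, PC H p.1.1 p.1.2 e) ∧ ∀ y, e.2.1 y ≠ 0

omit [Fintype W] in
theorem good_PN [Finite W] : Good (PN H) := by
  refine good_and (good_all fun p => good_PC _ _) (good_all fun y => ?_)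
  exact good_ne (Ln y)

theorem exists_PN (hH : GenRigid 2 H) (h2 : 2 ≤ Fintype.card W) : ∃ e : EC W, PN H e := by
  refine good_two (good_all fun p : {p : W × W // p.1 ≠ p.2} => good_PC _ _) (good_all fun y => ?_)
    ?_ ?_
  · exact good_ne (Ln y)
  · exact good_family (fun (p : {p : W × W // p.1 ≠ p.2}) e => PC H p.1.1 p.1.2 e)
      (fun p => good_PC _ _) (fun p => exists_PC hH h2 p.2)
  · refine ⟨(0, fun _ => ![1, 0, 0], 0), fun y h => ?_⟩
    have := congrFun h 0
    simp at this

/-- the directions alone -/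
theorem good_PN_slice (p : W → Fin 3 → ℝ) (d : W → Fin 3 → Fin 3 → ℝ) :
    Good (fun n : W → Fin 3 → ℝ => PN H (p, n, d)) := by
  intro n0 n1 h0
  refine (good_PN (H := H) (p, n0, d) (p, n1, d) h0).subset ?_
  intro s hs
  rw [Set.mem_ofPred_eq] at hs ⊢
  have : ((p, n0, d) + s • ((p, n1, d) - (p, n0, d)) : EC W) = (p, n0 + s • (n1 - n0), d) := by
    refine Prod.ext ?_ (Prod.ext ?_ ?_)
    · simp
    · simp
    · simp
  rw [this]
  exact hs

/-- **One pin at each vertex.** -/
theorem pin_one (hH : GenRigid 2 H) (h2 : 2 ≤ Fintype.card W)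
    (hr : 2 * Fintype.card W ≤ genRank 3 H) : Mu 1 0 H := by
  obtain ⟨⟨p, n, d⟩, hP, hN⟩ := good_two (E := EC W)
    (P := fun e => finrank ℝ (Sol H (df e.1) (0 : W → Fin 0 → Fin 3 → ℝ)) ≤ Fintype.card W)
    (Q := PN H) (by
      have h := good_sol H (E := EC W) (j := 0)
        { toFun := fun e => (df e.1, (0 : W → Fin 0 → Fin 3 → ℝ))
          map_add' := by
            intro e e'
            refine Prod.ext ?_ ?_
            · funext u v
              simp only [df, Prod.fst_add, Pi.add_apply]
              abel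
            · simp
          map_smul' := by
            intro c e
            refine Prod.ext ?_ ?_
            · funext u v
              simp only [df, Prod.smul_fst, Pi.smul_apply, RingHom.id_apply, smul_sub]
            · simp } (Fintype.card W)
      exact h) good_PN (by
      obtain ⟨p, d, h⟩ := mu_of_rank (G := H) (k := Fintype.card W) (by omega)
      refine ⟨(p, 0, 0), ?_⟩
      have : d = 0 := Subsingleton.elim _ _
      rw [this] at h
      exact h) (exists_PN hH h2)
  set N := Sol H (df p) (0 : W → Fin 0 → Fin 3 → ℝ) with hNdef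
  obtain ⟨n', hn', hfin⟩ := sel (N := N) N.subtype (by
      have h1 : finrank ℝ N ≤ Fintype.card W := hP
      omega) (fun n => PN H (p, n, d)) (good_PN_slice p d) ⟨n, hN⟩ (by
      intro n hn M hM y y' hyy hy hy'
      exact (hn.1 ⟨(y, y'), hyy⟩).zero (fun x x' hx => M.2.1 x x' hx) hM hy hy') (by
      intro n hn y
      refine ⟨⟨fun _ => n y, ?_⟩, ?_⟩
      · rw [hNdef, mem_sol]
        refine ⟨fun u v _ => ?_, fun v i => i.elim0⟩
        rw [sub_self, dotProduct_zero]
      · show n y ⬝ᵥ n y ≠ 0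
        rw [Ne, dotProduct_self_eq_zero]
        exact hn.2 y)
  refine ⟨p, fun x _ => n' x, ?_⟩
  have : Sol H (df p) (fun x (_ : Fin 1) => n' x) = ⊥ := by
    rw [eq_bot_iff]
    rintro M ⟨h1, h2⟩
    have hM : M ∈ N := by
      rw [hNdef, mem_sol]
      exact ⟨h1, fun v i => i.elim0⟩
    exact hfin ⟨M, hM⟩ (fun x => h2 x 0)
  rw [this, finrank_bot]

end Pool.Agent.J4H92.NC
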