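import Pool.Agent.J4H92.CP.Lin

/-!
# Generic directions
-/

set_option autoImplicit false

namespace Pool.Agent.J4H92.NC

open Module Pool.Agent.H283R2.DR.TA Pool.Agent.J4H92.CP

theorem good_all {E ι : Type*} [AddCommGroup E] [Module ℝ E] [Finite ι] {P : ι → E → Prop}
    (h : ∀ i, Good (P i)) : Good (fun e => ∀ i, P i e) := by
  intro p0 p1 h0
  have h1 : (⋃ i, {s : ℝ | ¬ P i (p0 + s • (p1 - p0))}).Finite :=
    Set.finite_iUnion fun i => h i p0 p1 (h0 i)
  refine h1.subset ?_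
  intro s hs
  rw [Set.mem_ofPred_eq] at hs
  push Not at hs
  obtain ⟨i, hi⟩ := hs
  exact Set.mem_iUnion.2 ⟨i, hi⟩

theorem good_and {E : Type*} [AddCommGroup E] [Module ℝ E] {P Q : E → Prop}
    (hP : Good P) (hQ : Good Q) : Good (fun e => P e ∧ Q e) := by
  intro p0 p1 h0
  refine ((hP p0 p1 h0.1).union (hQ p0 p1 h0.2)).subset ?_
  intro s hs
  rw [Set.mem_ofPred_eq] at hs
  by_contra hcon
  rw [Set.mem_union, not_or, Set.mem_ofPred_eq, not_not, Set.mem_ofPred_eq, not_not] at hcon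
  exact hs hcon

theorem good_ne {E F : Type*} [AddCommGroup E] [Module ℝ E] [AddCommGroup F] [Module ℝ F]
    (L : E →ₗ[ℝ] F) : Good (fun e => L e ≠ 0) := by
  intro p0 p1 h0
  by_cases hv : L (p1 - p0) = 0
  · refine Set.finite_empty.subset ?_
    intro s hs
    rw [Set.mem_ofPred_eq, not_not, map_add, map_smul, hv, smul_zero, add_zero] at hs
    exact h0 hs
  · by_cases hex : ∃ s0 : ℝ, L (p0 + s0 • (p1 - p0)) = 0
    · obtain ⟨s0, hs0⟩ := hex
      refine (Set.finite_singleton s0).subset ?_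
      intro s hs
      rw [Set.mem_ofPred_eq, not_not, map_add, map_smul] at hs
      rw [map_add, map_smul] at hs0
      have h1 : (s - s0) • L (p1 - p0) = 0 := by
        have : (s - s0) • L (p1 - p0) =
          (L p0 + s • L (p1 - p0)) - (L p0 + s0 • L (p1 - p0)) := by module
        rw [this, hs, hs0, sub_zero]
      rcases smul_eq_zero.1 h1 with h2 | h2
      · rw [Set.mem_singleton_iff]
        linarith
      · exact absurd h2 hv
    · refine Set.finite_empty.subset ?_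
      intro s hs
      rw [Set.mem_ofPred_eq, not_not] at hs
      exact hex ⟨s, hs⟩

variable {N W : Type*} [AddCommGroup N] [Module ℝ N] [FiniteDimensional ℝ N] [Fintype W]

/-- components in the directions `n` -/
noncomputable def cmp (D : N →ₗ[ℝ] (W → Fin 3 → ℝ)) (n : W → Fin 3 → ℝ) :
    N →ₗ[ℝ] (W → ℝ) where
  toFun M x := n x ⬝ᵥ D M x
  map_add' M M' := by
    funext x
    simp [dotProduct_add]
  map_smul' c M := by
    funext x
    simp [dotProduct_smul]

/-- **Selection of directions.** -/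
theorem sel (D : N →ₗ[ℝ] (W → Fin 3 → ℝ))
    (hdim : finrank ℝ N ≤ Fintype.card W + finrank ℝ (LinearMap.ker D))
    (Q : (W → Fin 3 → ℝ) → Prop) (hg : Good Q) (h0 : ∃ n, Q n)
    (hC : ∀ n, Q n → ∀ M, (∀ x, n x ⬝ᵥ D M x = 0) → ∀ y y', y ≠ y' → D M y = 0 →
      D M y' = 0 → D M = 0)
    (hN : ∀ n, Q n → ∀ y, ∃ M, n y ⬝ᵥ D M y ≠ 0) :
    ∃ n, Q n ∧ ∀ M, (∀ x, n x ⬝ᵥ D M x = 0) → D M = 0 := by
  classical
  obtain ⟨k, ⟨n, hn, rfl⟩, hmin⟩ := (wellFounded_lt (α := ℕ)).has_min
    {k : ℕ | ∃ n, Q n ∧ finrank ℝ (LinearMap.ker (cmp D n)) = k}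
    (by obtain ⟨n, hn⟩ := h0; exact ⟨_, n, hn, rfl⟩)
  refine ⟨n, hn, ?_⟩
  by_contra hcon
  push Not at hcon
  obtain ⟨M0, hM0, hD0⟩ := hcon
  have hle : LinearMap.ker D ≤ LinearMap.ker (cmp D n) := by
    intro M hM
    rw [LinearMap.mem_ker] at hM ⊢
    funext x
    show n x ⬝ᵥ D M x = 0
    rw [hM]
    simp
  have hM0k : M0 ∈ LinearMap.ker (cmp D n) := by
    rw [LinearMap.mem_ker]
    funext x
    exact hM0 x
  have hlt : finrank ℝ (LinearMap.ker D) < finrank ℝ (LinearMap.ker (cmp D n)) := by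
    refine Submodule.finrank_lt_finrank_of_lt (lt_of_le_of_ne hle fun he => hD0 ?_)
    rw [← he] at hM0k
    exact hM0k
  have hrk := LinearMap.finrank_range_add_finrank_ker (cmp D n)
  have hrange : LinearMap.range (cmp D n) < ⊤ := by
    rw [lt_top_iff_ne_top]
    intro he
    rw [he, finrank_top] at hrk
    simp only [Module.finrank_fintype_fun_eq_card] at hrk
    omega
  obtain ⟨f, hf0, hf⟩ := Submodule.exists_le_ker_of_lt_top _ hrange
  have hfM : ∀ M, ∑ x, f (Pi.single x 1) * (n x ⬝ᵥ D M x) = 0 := by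
    intro M
    have h1 : f (cmp D n M) = 0 := hf ⟨M, rfl⟩
    have h2 : cmp D n M = ∑ x, (n x ⬝ᵥ D M x) • (Pi.single x (1 : ℝ) : W → ℝ) := by
      funext y
      simp [cmp, Finset.sum_apply, Pi.single_apply]
    rw [h2, map_sum] at h1
    rw [← h1]
    refine Finset.sum_congr rfl fun x _ => ?_
    rw [map_smul, smul_eq_mul, mul_comm]
  obtain ⟨y0, hy0⟩ : ∃ y, f (Pi.single y 1) ≠ 0 := by
    by_contra hcon
    push Not at hcon
    apply hf0
    refine LinearMap.pi_ext' fun y => LinearMap.ext_ring ?_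
    simpa using hcon y
  obtain ⟨y, hy, hDy⟩ : ∃ y, f (Pi.single y 1) ≠ 0 ∧ D M0 y ≠ 0 := by
    by_contra hcon
    push Not at hcon
    by_cases hex : ∃ y', y' ≠ y0 ∧ f (Pi.single y' 1) ≠ 0
    · obtain ⟨y', hne, hy'⟩ := hex
      exact hD0 (hC n hn M0 hM0 y' y0 hne (hcon y' hy') (hcon y0 hy0))
    · push Not at hex
      obtain ⟨M, hM⟩ := hN n hn y0
      have h1 := hfM M
      rw [Finset.sum_eq_single y0 (fun x _ hx => by rw [hex x hx, zero_mul])
        (fun h => absurd (Finset.mem_univ _) h)] at h1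
      exact hM ((mul_eq_zero.1 h1).resolve_left hy0)
  -- change the direction at `y`
  set e := D M0 y with he
  have hee : e ⬝ᵥ e ≠ 0 := by
    rw [Ne, dotProduct_self_eq_zero]
    exact hDy
  set E : W → Fin 3 → ℝ := Pi.single y e with hE
  have hfin := hg n (n + E) hn
  obtain ⟨β, hβ⟩ := (hfin.union (Set.finite_singleton (0 : ℝ))).infinite_compl.nonempty
  rw [Set.mem_compl_iff, Set.mem_union, not_or, Set.mem_ofPred_eq, not_not,
    Set.mem_singleton_iff, add_sub_cancel_left] at hβ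
  obtain ⟨hβ1, hβ0⟩ := hβ
  refine hmin _ ⟨_, hβ1, rfl⟩ ?_
  have hval : ∀ M x, cmp D (n + β • E) M x =
      n x ⬝ᵥ D M x + (if x = y then β * (e ⬝ᵥ D M y) else 0) := by
    intro M x
    show (n + β • E : W → Fin 3 → ℝ) x ⬝ᵥ D M x = _
    by_cases hx : x = y
    · subst hx
      simp [hE, add_dotProduct, smul_dotProduct]
    · simp [hE, hx]
  have hsub : LinearMap.ker (cmp D (n + β • E)) ≤ LinearMap.ker (cmp D n) := by
    intro M hM
    rw [LinearMap.mem_ker] at hM ⊢
    have h1 : ∀ x, x ≠ y → n x ⬝ᵥ D M x = 0 := by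
      intro x hx
      have := congrFun hM x
      rw [hval, if_neg hx, add_zero] at this
      exact this
    have h2 := hfM M
    rw [Finset.sum_eq_single y (fun x _ hx => by rw [h1 x hx, mul_zero])
      (fun h => absurd (Finset.mem_univ _) h)] at h2
    have h3 := (mul_eq_zero.1 h2).resolve_left hy
    funext x
    by_cases hx : x = y
    · rw [hx]
      exact h3
    · exact h1 x hx
  refine Submodule.finrank_lt_finrank_of_lt (lt_of_le_of_ne hsub fun hh => ?_)
  rw [← hh, LinearMap.mem_ker] at hM0k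
  have h1 := congrFun hM0k y
  rw [hval, if_pos rfl, hM0 y, zero_add] at h1
  exact (mul_ne_zero hβ0 hee) h1

end Pool.Agent.J4H92.NC
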