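import Pool.Agent.J4H92.NC.Col

/-!
# The columns determine the trivial motions
-/

set_option autoImplicit false

namespace Pool.Agent.J4H92.NC

open Module

variable {U : Type} {G : SimpleGraph U} {t : U → ℝ}

/-- a continuous function which vanishes outside a finite set vanishes -/
theorem cofin {F : ℝ → ℝ} (hF : Continuous F) {S : Set ℝ} (hS : S.Finite)
    (h : ∀ s, s ∉ S → F s = 0) (s : ℝ) : F s = 0 := by
  have h1 : Dense Sᶜ := hS.countable.dense_compl ℝ
  have h2 := Continuous.ext_on h1 hF (continuous_const (y := (0 : ℝ))) (fun x hx => h x hx)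
  exact congrFun h2 s

/-- the vector which decides whether the two edges of a corner have different slopes -/
def N1 (t : U → ℝ) (q : Fin 2 → ℝ) (v u w : U) : ℝ :=
  (t v ^ 2 - t u ^ 2) * (lam t v q - lam t w q) - (t v ^ 2 - t w ^ 2) * (lam t v q - lam t u q)

def N2 (t : U → ℝ) (q : Fin 2 → ℝ) (v u w : U) : ℝ :=
  (t v ^ 3 - t u ^ 3) * (lam t v q - lam t w q) - (t v ^ 3 - t w ^ 3) * (lam t v q - lam t u q)

/-- nice points -/
def Nice (t : U → ℝ) (v u w u' w' : U) (q : Fin 2 → ℝ) : Prop :=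
  (∀ a b, a ≠ b → lam t a q ≠ lam t b q) ∧
    N1 t q v u w * N2 t q v u' w' - N2 t q v u w * N1 t q v u' w' ≠ 0

/-- at a nice point the factor is the same for all corners -/
theorem exists_kappa [DecidableEq U] {v0 u0 w0 u1 w1 : U} (hc0 : Cor G v0 u0 w0)
    (hc1 : Cor G v0 u1 w1) {q : Fin 2 → ℝ} (hq : Nice t v0 u0 w0 u1 w1 q)
    {ι : U → Fin 3 → ℝ} (hι : ∀ r, ND G t q r → ι ∈ Adm G t q r) :
    ∃ κ : ℝ, ∀ v u w, Cor G v u w →
      ((ya ι q v - ya ι q u) - κ * (t v ^ 2 - t u ^ 2)) * (lam t v q - lam t w q) =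
        ((ya ι q v - ya ι q w) - κ * (t v ^ 2 - t w ^ 2)) * (lam t v q - lam t u q) ∧
      ((yb ι q v - yb ι q u) - κ * (t v ^ 3 - t u ^ 3)) * (lam t v q - lam t w q) =
        ((yb ι q v - yb ι q w) - κ * (t v ^ 3 - t w ^ 3)) * (lam t v q - lam t u q) := by
  obtain ⟨hne, hdet⟩ := hq
  set X : U → U → ℝ := fun a b => (t a ^ 2 - t b ^ 2) / (lam t a q - lam t b q) with hX
  set Y : U → U → ℝ := fun a b => (t a ^ 3 - t b ^ 3) / (lam t a q - lam t b q) with hY
  set X' : U → U → ℝ := fun a b => (ya ι q a - ya ι q b) / (lam t a q - lam t b q) with hX'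
  set Y' : U → U → ℝ := fun a b => (yb ι q a - yb ι q b) / (lam t a q - lam t b q) with hY'
  have hs : ∀ a b, G.Adj a b → lam t a q - lam t b q ≠ 0 := fun a b hab =>
    sub_ne_zero.2 (hne a b hab.ne)
  have hsplit : ∀ (s s' : ℝ), s • wt X Y (Pi.single v0 ![1, 0]) +
      s' • wt X Y (Pi.single v0 ![0, 1]) = wt X Y (Pi.single v0 ![s, s']) := by
    intro s s'
    rw [← map_smul, ← map_smul, ← map_add]
    congr 1
    funext a i
    by_cases ha : a = v0
    · subst ha
      fin_cases i <;> simp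
    · simp [Pi.single_eq_of_ne ha]
  have hind : ∀ s s' : ℝ, s • wt X Y (Pi.single v0 ![1, 0]) +
      s' • wt X Y (Pi.single v0 ![0, 1]) ∈ cob G → s = 0 ∧ s' = 0 := by
    intro s s' h
    rw [hsplit] at h
    have h0 := star h hc0
    have h1 := star h hc1
    have a1 := hs v0 u0 hc0.2.1
    have a2 := hs v0 w0 hc0.2.2.1
    have a3 := hs v0 u1 hc1.2.1
    have a4 := hs v0 w1 hc1.2.2.1
    simp only [Matrix.cons_val_zero, Matrix.cons_val_one, hX, hY] at h0 h1
    have e0 : s * N1 t q v0 u0 w0 + s' * N2 t q v0 u0 w0 = 0 := by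
      unfold N1 N2
      field_simp at h0
      linear_combination h0
    have e1 : s * N1 t q v0 u1 w1 + s' * N2 t q v0 u1 w1 = 0 := by
      unfold N1 N2
      field_simp at h1
      linear_combination h1
    constructor
    · have : s * (N1 t q v0 u0 w0 * N2 t q v0 u1 w1 - N2 t q v0 u0 w0 * N1 t q v0 u1 w1) = 0 := by
        linear_combination N2 t q v0 u1 w1 * e0 - N2 t q v0 u0 w0 * e1
      exact (mul_eq_zero.1 this).resolve_right hdet
    · have : s' * (N1 t q v0 u0 w0 * N2 t q v0 u1 w1 - N2 t q v0 u0 w0 * N1 t q v0 u1 w1) = 0 := by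
        linear_combination N1 t q v0 u0 w0 * e1 - N1 t q v0 u1 w1 * e0
      exact (mul_eq_zero.1 this).resolve_right hdet
  have hmul : ∀ r, wt X Y r ∉ cob G → ∃ z : ℝ, wt X' Y' r - z • wt X Y r ∈ cob G := by
    intro r hr
    have hnd : ND G t q r := by
      intro z ζ h
      have hz0 : z = 0 := by
        by_contra hz
        apply hr
        refine ⟨fun u => ζ u / z, fun u v huv => ?_⟩
        have h1 := h u v huv
        have h2 := hs u v huv
        simp only [CE, ya, yb, Pi.zero_apply] at h1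
        show (r u 0 - r v 0) * X u v + (r u 1 - r v 1) * Y u v = ζ u / z - ζ v / z
        simp only [hX, hY]
        field_simp
        linear_combination -h1
      refine ⟨hz0, fun u v huv => ?_⟩
      have h1 := h u v huv
      simp only [CE, ya, yb, Pi.zero_apply, hz0] at h1
      have h3 : (lam t u q - lam t v q) * (ζ u - ζ v) = 0 := by linear_combination h1
      exact sub_eq_zero.1 ((mul_eq_zero.1 h3).resolve_left (hs u v huv))
    obtain ⟨z, ζ, h⟩ := hι r hnd
    refine ⟨z, fun u => - ζ u, fun u v huv => ?_⟩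
    have h1 := h u v huv
    have h2 := hs u v huv
    simp only [CE] at h1
    show (r u 0 - r v 0) * X' u v + (r u 1 - r v 1) * Y' u v -
      z • ((r u 0 - r v 0) * X u v + (r u 1 - r v 1) * Y u v) = - ζ u - - ζ v
    simp only [hX, hY, hX', hY', smul_eq_mul]
    field_simp
    linear_combination h1
  obtain ⟨κ, hκ⟩ := par (cob G) (wt X' Y') (wt X Y) hind hmul
  refine ⟨κ, fun v u w hc => ?_⟩
  have key : ∀ e : Fin 2 → ℝ, e 0 * (X' v u - κ * X v u) + e 1 * (Y' v u - κ * Y v u) =
      e 0 * (X' v w - κ * X v w) + e 1 * (Y' v w - κ * Y v w) := by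
    intro e
    have h1 := hκ (Pi.single v e)
    have h2 : wt X' Y' (Pi.single v e) - κ • wt X Y (Pi.single v e) =
        wt (fun a b => X' a b - κ * X a b) (fun a b => Y' a b - κ * Y a b)
          (Pi.single v e) := by
      funext a b
      simp only [wt, LinearMap.coe_mk, AddHom.coe_mk, Pi.sub_apply, Pi.smul_apply,
        smul_eq_mul]
      ring
    rw [h2] at h1
    exact star h1 hc
  have hvu := hs v u hc.2.1
  have hvw := hs v w hc.2.2.1
  have k1 := key ![1, 0]
  have k2 := key ![0, 1]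
  simp only [Matrix.cons_val_zero, Matrix.cons_val_one, one_mul, zero_mul, add_zero,
    zero_add, hX, hY, hX', hY'] at k1 k2
  constructor
  · field_simp at k1
    linear_combination k1
  · field_simp at k2
    linear_combination k2

/-! ### Nice points are dense -/

theorem lam_smul (a : U) (s : ℝ) (q : Fin 2 → ℝ) :
    lam t a (s • q) = s * (t a ^ 2 * q 0 + t a ^ 3 * q 1) + t a := by
  simp only [lam, Pi.smul_apply, smul_eq_mul]
  ring

theorem bad_finite [Finite U] (htinj : Function.Injective t) {v u w u' w' : U} (hu : v ≠ u)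
    (hw : v ≠ w) (huw : u ≠ w) (hu' : v ≠ u') (hw' : v ≠ w') (huw' : u' ≠ w')
    (hS : t u + t w ≠ t u' + t w') (q : Fin 2 → ℝ) :
    {s : ℝ | ¬ Nice t v u w u' w' (s • q)}.Finite := by
  classical
  have := Fintype.ofFinite U
  set μ : U → ℝ := fun a => t a ^ 2 * q 0 + t a ^ 3 * q 1 with hμ
  have h1 : ∀ a b : U, a ≠ b → {s : ℝ | lam t a (s • q) = lam t b (s • q)}.Finite := by
    intro a b hab
    refine (Set.finite_singleton ((t b - t a) / (μ a - μ b))).subset ?_
    intro s hs
    rw [Set.mem_ofPred_eq, lam_smul, lam_smul] at hs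
    rw [Set.mem_singleton_iff]
    have h2 : s * (μ a - μ b) = t b - t a := by
      simp only [hμ]
      linear_combination hs
    have h3 : μ a - μ b ≠ 0 := by
      intro h0
      rw [h0, mul_zero] at h2
      exact hab (htinj (by linarith))
    field_simp
    linarith
  set DD : ℝ → ℝ := fun s => N1 t (s • q) v u w * N2 t (s • q) v u' w' -
    N2 t (s • q) v u w * N1 t (s • q) v u' w' with hDD
  have h2 : {s : ℝ | DD s = 0}.Finite := by
    let L : U → Polynomial ℝ := fun a => Polynomial.C (μ a) * Polynomial.X + Polynomial.C (t a)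
    let P1 : U → U → Polynomial ℝ := fun a b => Polynomial.C (t v ^ 2 - t a ^ 2) * (L v - L b) -
      Polynomial.C (t v ^ 2 - t b ^ 2) * (L v - L a)
    let P2 : U → U → Polynomial ℝ := fun a b => Polynomial.C (t v ^ 3 - t a ^ 3) * (L v - L b) -
      Polynomial.C (t v ^ 3 - t b ^ 3) * (L v - L a)
    let P : Polynomial ℝ := P1 u w * P2 u' w' - P2 u w * P1 u' w'
    have hP : ∀ s, P.eval s = DD s := by
      intro s
      simp only [P, P1, P2, L, hDD, N1, N2, lam_smul, Polynomial.eval_sub, Polynomial.eval_mul,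
        Polynomial.eval_add, Polynomial.eval_C, Polynomial.eval_X, hμ]
      ring
    have h0 : DD 0 ≠ 0 := by
      have e : DD 0 = ((t v - t u) * (t v - t w) * (t u - t w)) *
          ((t v - t u') * (t v - t w') * (t u' - t w')) * ((t u' + t w') - (t u + t w)) := by
        simp only [hDD, N1, N2, lam_smul]
        ring
      rw [e]
      have g : ∀ a b : U, a ≠ b → t a - t b ≠ 0 := fun a b hab =>
        sub_ne_zero.2 fun h => hab (htinj h)
      exact mul_ne_zero (mul_ne_zero (mul_ne_zero (mul_ne_zero (g _ _ hu) (g _ _ hw))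
        (g _ _ huw)) (mul_ne_zero (mul_ne_zero (g _ _ hu') (g _ _ hw')) (g _ _ huw')))
        (sub_ne_zero.2 hS.symm)
    have hP0 : P ≠ 0 := by
      intro h
      apply h0
      rw [← hP, h, Polynomial.eval_zero]
    refine (Polynomial.finite_setOfPred_isRoot hP0).subset ?_
    intro s hs
    rw [Set.mem_ofPred_eq] at hs ⊢
    rw [Polynomial.IsRoot.def, hP, hs]
  have h3 : (⋃ a : U, ⋃ b : U, {s : ℝ | a ≠ b ∧ lam t a (s • q) = lam t b (s • q)}).Finite := by
    refine Set.finite_iUnion fun a => Set.finite_iUnion fun b => ?_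
    by_cases hab : a = b
    · subst hab
      refine Set.finite_empty.subset ?_
      rintro s ⟨h, -⟩
      exact h rfl
    · exact (h1 a b hab).subset fun s hs => hs.2
  refine (h3.union h2).subset ?_
  intro s hs
  rw [Set.mem_ofPred_eq] at hs
  by_contra hcon
  rw [Set.mem_union, not_or] at hcon
  obtain ⟨hc1, hc2⟩ := hcon
  apply hs
  refine ⟨fun a b hab he => hc1 ?_, hc2⟩
  exact Set.mem_iUnion.2 ⟨a, Set.mem_iUnion.2 ⟨b, hab, he⟩⟩

/-- identities extend from nice points to all points -/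
theorem nice_ext [Finite U] (htinj : Function.Injective t) {v u w u' w' : U} (hu : v ≠ u)
    (hw : v ≠ w) (huw : u ≠ w) (hu' : v ≠ u') (hw' : v ≠ w') (huw' : u' ≠ w')
    (hS : t u + t w ≠ t u' + t w') {E : (Fin 2 → ℝ) → ℝ} (hE : Continuous E)
    (h : ∀ q, Nice t v u w u' w' q → E q = 0) (q : Fin 2 → ℝ) : E q = 0 := by
  have h1 := cofin (F := fun s : ℝ => E (s • q)) (by fun_prop)
    (bad_finite htinj hu hw huw hu' hw' huw' hS q) (by
      intro s hs
      rw [Set.mem_ofPred_eq, not_not] at hs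
      exact h _ hs) 1
  simpa using h1

/-- three distinct layers -/
theorem exists_q (ht0 : ∀ u, 0 < t u) (htinj : Function.Injective t) {v u w : U} (hu : v ≠ u)
    (hw : v ≠ w) (huw : u ≠ w) (x y : ℝ) :
    ∃ q : Fin 2 → ℝ, lam t v q - lam t u q = x ∧ lam t v q - lam t w q = y := by
  set Δ : ℝ := (t v ^ 2 - t u ^ 2) * (t v ^ 3 - t w ^ 3) -
    (t v ^ 3 - t u ^ 3) * (t v ^ 2 - t w ^ 2) with hΔ
  have g : ∀ a b : U, a ≠ b → t a - t b ≠ 0 := fun a b hab =>
    sub_ne_zero.2 fun h => hab (htinj h)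
  have hne : Δ ≠ 0 := by
    have e : Δ = (t v - t u) * (t v - t w) * (t w - t u) *
        (t v * (t w + t u) + t u * t w) := by
      rw [hΔ]
      ring
    rw [e]
    have h1 := ht0 v
    have h2 := ht0 u
    have h3 := ht0 w
    exact mul_ne_zero (mul_ne_zero (mul_ne_zero (g _ _ hu) (g _ _ hw)) (g _ _ huw.symm))
      (by positivity)
  refine ⟨![((x - (t v - t u)) * (t v ^ 3 - t w ^ 3) -
    (y - (t v - t w)) * (t v ^ 3 - t u ^ 3)) / Δ,
    ((t v ^ 2 - t u ^ 2) * (y - (t v - t w)) -
      (t v ^ 2 - t w ^ 2) * (x - (t v - t u))) / Δ], ?_, ?_⟩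
  · simp only [lam, Matrix.cons_val_zero, Matrix.cons_val_one]
    field_simp
    rw [hΔ]
    ring
  · simp only [lam, Matrix.cons_val_zero, Matrix.cons_val_one]
    field_simp
    rw [hΔ]
    ring

end Pool.Agent.J4H92.NC
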