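import Pool.Agent.J4H92.NC.Span

/-!
# The columns determine the trivial motions: conclusion
-/

set_option autoImplicit false

namespace Pool.Agent.J4H92.NC

open Module

variable {U : Type} {G : SimpleGraph U} {t : U → ℝ}

/-- the special corner -/
theorem corner_form (ht0 : ∀ u, 0 < t u) (htinj : Function.Injective t) {v u w : U} (hu : v ≠ u)
    (hw : v ≠ w) (huw : u ≠ w) {ι : U → Fin 3 → ℝ}
    (h : ∀ q : Fin 2 → ℝ,
      ((lam t v q - lam t w q) * (ya ι q v - ya ι q u) -
        (lam t v q - lam t u q) * (ya ι q v - ya ι q w)) * N2 t q v u w -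
      ((lam t v q - lam t w q) * (yb ι q v - yb ι q u) -
        (lam t v q - lam t u q) * (yb ι q v - yb ι q w)) * N1 t q v u w = 0) :
    ∃ c : Fin 6 → ℝ, (∀ i, ι v i - ι u i = tr t c v i - tr t c u i) ∧
      ∀ i, ι v i - ι w i = tr t c v i - tr t c w i := by
  set g1 := t v ^ 2 - t u ^ 2 with hg1
  set g2 := t v ^ 3 - t u ^ 3 with hg2
  set g1' := t v ^ 2 - t w ^ 2 with hg1'
  set g2' := t v ^ 3 - t w ^ 3 with hg2'
  set l := t v - t u with hl
  set l' := t v - t w with hl'
  set d0 := ι v 0 - ι u 0 with hd0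
  set d1 := ι v 1 - ι u 1 with hd1
  set d2 := ι v 2 - ι u 2 with hd2
  set d0' := ι v 0 - ι w 0 with hd0'
  set d1' := ι v 1 - ι w 1 with hd1'
  set d2' := ι v 2 - ι w 2 with hd2'
  have hform : ∀ q : Fin 2 → ℝ,
      (d0 * g2 - d1 * g1 + d2 * l) * (lam t v q - lam t w q) ^ 2 -
      ((d0 * g2' - d1 * g1' + d2 * l') + (d0' * g2 - d1' * g1 + d2' * l)) *
        (lam t v q - lam t u q) * (lam t v q - lam t w q) +
      (d0' * g2' - d1' * g1' + d2' * l') * (lam t v q - lam t u q) ^ 2 = 0 := by
    intro q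
    rw [← h q]
    simp only [N1, N2, ya, yb, lam, hd0, hd1, hd2, hd0', hd1', hd2', hg1, hg2, hg1', hg2', hl,
      hl']
    ring
  have hA : d0 * g2 - d1 * g1 + d2 * l = 0 := by
    obtain ⟨q, hq1, hq2⟩ := exists_q ht0 htinj hu hw huw 0 1
    have := hform q
    rw [hq1, hq2] at this
    linarith
  have hA' : d0' * g2' - d1' * g1' + d2' * l' = 0 := by
    obtain ⟨q, hq1, hq2⟩ := exists_q ht0 htinj hu hw huw 1 0
    have := hform q
    rw [hq1, hq2] at this
    linarith
  have hB : (d0 * g2' - d1 * g1' + d2 * l') + (d0' * g2 - d1' * g1 + d2' * l) = 0 := by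
    obtain ⟨q, hq1, hq2⟩ := exists_q ht0 htinj hu hw huw 1 1
    have := hform q
    rw [hq1, hq2] at this
    linarith
  have g : ∀ a b : U, a ≠ b → t a - t b ≠ 0 := fun a b hab =>
    sub_ne_zero.2 fun h => hab (htinj h)
  have p1 := ht0 v
  have p2 := ht0 u
  have p3 := ht0 w
  have hne : g1 * g2' - g2 * g1' ≠ 0 := by
    have e : g1 * g2' - g2 * g1' = (t v - t u) * (t v - t w) * (t w - t u) *
        (t v * (t w + t u) + t u * t w) := by
      rw [hg1, hg2, hg1', hg2']
      ring
    rw [e]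
    exact mul_ne_zero (mul_ne_zero (mul_ne_zero (g _ _ hu) (g _ _ hw)) (g _ _ huw.symm))
      (by positivity)
  have hg1n : g1 ≠ 0 := by
    have e : g1 = (t v - t u) * (t v + t u) := by rw [hg1]; ring
    rw [e]
    exact mul_ne_zero (g _ _ hu) (by positivity)
  have hg1n' : g1' ≠ 0 := by
    have e : g1' = (t v - t w) * (t v + t w) := by rw [hg1']; ring
    rw [e]
    exact mul_ne_zero (g _ _ hw) (by positivity)
  set Δ := g1 * g2' - g2 * g1' with hΔ
  set a1 := (g1 * d2' - g1' * d2) / Δ with ha1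
  set a2 := (g2 * d2' - g2' * d2) / Δ with ha2
  have e1 : a1 * g2 - a2 * g1 = d2 := by
    rw [ha1, ha2]
    field_simp
    rw [hΔ]
    ring
  have e2 : a1 * g2' - a2 * g1' = d2' := by
    rw [ha1, ha2]
    field_simp
    rw [hΔ]
    ring
  set κ := (d0 + a1 * l) / g1 with hκ
  have e3 : d0 + a1 * l = κ * g1 := by
    rw [hκ]
    field_simp
  have e4 : d1 + a2 * l = κ * g2 := by
    have : (d1 + a2 * l) * g1 = κ * g2 * g1 := by
      linear_combination g2 * e3 - hA - l * e1
    exact mul_right_cancel₀ hg1n this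
  have e5 : d0' + a1 * l' = κ * g1' := by
    -- the factor of the second edge
    set κ' := (d0' + a1 * l') / g1' with hκ'
    have f1 : d0' + a1 * l' = κ' * g1' := by
      rw [hκ']
      field_simp
    have f2 : d1' + a2 * l' = κ' * g2' := by
      have : (d1' + a2 * l') * g1' = κ' * g2' * g1' := by
        linear_combination g2' * f1 - hA' - l' * e2
      exact mul_right_cancel₀ hg1n' this
    have f3 : (κ - κ') * Δ = 0 := by
      rw [hΔ]
      linear_combination hB - g2' * e3 + g1' * e4 - g2 * f1 + g1 * f2 + l' * e1 + l * e2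
    have f4 : κ = κ' := by
      have := (mul_eq_zero.1 f3).resolve_right hne
      linarith
    rw [f4]
    exact f1
  have e6 : d1' + a2 * l' = κ * g2' := by
    have : (d1' + a2 * l') * g1' = κ * g2' * g1' := by
      linear_combination g2' * e5 - hA' - l' * e2
    exact mul_right_cancel₀ hg1n' this
  refine ⟨![κ, a1, a2, 0, 0, 0], ?_, ?_⟩
  · intro i
    fin_cases i
    · show d0 = _
      simp only [tr, LinearMap.coe_mk, AddHom.coe_mk]
      simp
      linear_combination e3 
    · show d1 = _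
      simp only [tr, LinearMap.coe_mk, AddHom.coe_mk]
      simp
      linear_combination e4
    · show d2 = _
      simp only [tr, LinearMap.coe_mk, AddHom.coe_mk]
      simp
      linear_combination -e1
  · intro i
    fin_cases i
    · show d0' = _
      simp only [tr, LinearMap.coe_mk, AddHom.coe_mk]
      simp
      linear_combination e5
    · show d1' = _
      simp only [tr, LinearMap.coe_mk, AddHom.coe_mk]
      simp
      linear_combination e6
    · show d2' = _
      simp only [tr, LinearMap.coe_mk, AddHom.coe_mk]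
      simp
      linear_combination -e2

/-- **The columns determine the trivial motions.** -/
theorem span_lemma [Finite U] [DecidableEq U] (ht0 : ∀ u, 0 < t u)
    (htinj : Function.Injective t) (hconn : G.Connected)
    (hHB : ∀ v u, G.Adj v u → ∃ w, Cor G v u w)
    {v0 u0 w0 u1 w1 : U} (hc0 : Cor G v0 u0 w0) (hc1 : Cor G v0 u1 w1)
    (hS : t u0 + t w0 ≠ t u1 + t w1) {ι : U → Fin 3 → ℝ}
    (hι : ∀ q r, ND G t q r → ι ∈ Adm G t q r) : ι ∈ LinearMap.range (tr t) := by
  have a1 : v0 ≠ u0 := hc0.2.1.ne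
  have a2 : v0 ≠ w0 := hc0.2.2.1.ne
  have a3 : u0 ≠ w0 := hc0.1
  have a4 : v0 ≠ u1 := hc1.2.1.ne
  have a5 : v0 ≠ w1 := hc1.2.2.1.ne
  have a6 : u1 ≠ w1 := hc1.1
  -- the special corner
  obtain ⟨c, hcu, hcw⟩ := corner_form ht0 htinj a1 a2 a3 (ι := ι) (by
    intro q
    refine nice_ext htinj a1 a2 a3 a4 a5 a6 hS (E := fun q =>
      ((lam t v0 q - lam t w0 q) * (ya ι q v0 - ya ι q u0) -
        (lam t v0 q - lam t u0 q) * (ya ι q v0 - ya ι q w0)) * N2 t q v0 u0 w0 -
      ((lam t v0 q - lam t w0 q) * (yb ι q v0 - yb ι q u0) -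
        (lam t v0 q - lam t u0 q) * (yb ι q v0 - yb ι q w0)) * N1 t q v0 u0 w0) ?_ ?_ q
    · unfold N1 N2 lam ya yb
      fun_prop
    · intro q hq
      obtain ⟨κ, hκ⟩ := exists_kappa hc0 hc1 hq (fun r => hι q r)
      obtain ⟨k1, k2⟩ := hκ v0 u0 w0 hc0
      have e1 : (lam t v0 q - lam t w0 q) * (ya ι q v0 - ya ι q u0) -
        (lam t v0 q - lam t u0 q) * (ya ι q v0 - ya ι q w0) = κ * N1 t q v0 u0 w0 := by
        unfold N1
        linear_combination k1
      have e2 : (lam t v0 q - lam t w0 q) * (yb ι q v0 - yb ι q u0) -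
        (lam t v0 q - lam t u0 q) * (yb ι q v0 - yb ι q w0) = κ * N2 t q v0 u0 w0 := by
        unfold N2
        linear_combination k2
      show (_ * N2 t q v0 u0 w0 - _ * N1 t q v0 u0 w0 : ℝ) = 0
      rw [e1, e2]
      ring)
  set ι' : U → Fin 3 → ℝ := ι - tr t c with hι'
  have hadm : ∀ q r, ND G t q r → ι' ∈ Adm G t q r := fun q r h =>
    Submodule.sub_mem _ (hι q r h) (tr_le q r ⟨c, rfl⟩)
  have b1 : ∀ i, ι' v0 i = ι' u0 i := fun i => by
    have := hcu i
    simp only [hι', Pi.sub_apply]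
    linarith
  have b2 : ∀ i, ι' v0 i = ι' w0 i := fun i => by
    have := hcw i
    simp only [hι', Pi.sub_apply]
    linarith
  have hk0 : ∀ q, Nice t v0 u0 w0 u1 w1 q → ∀ v u w, Cor G v u w →
      (ya ι' q v - ya ι' q u) * (lam t v q - lam t w q) -
        (ya ι' q v - ya ι' q w) * (lam t v q - lam t u q) = 0 ∧
      (yb ι' q v - yb ι' q u) * (lam t v q - lam t w q) -
        (yb ι' q v - yb ι' q w) * (lam t v q - lam t u q) = 0 := by
    intro q hq
    obtain ⟨κ, hκ⟩ := exists_kappa hc0 hc1 hq (fun r => hadm q r)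
    obtain ⟨k1, k2⟩ := hκ v0 u0 w0 hc0
    have y1 : ya ι' q v0 - ya ι' q u0 = 0 := by simp [ya, b1]
    have y2 : ya ι' q v0 - ya ι' q w0 = 0 := by simp [ya, b2]
    have y3 : yb ι' q v0 - yb ι' q u0 = 0 := by simp [yb, b1]
    have y4 : yb ι' q v0 - yb ι' q w0 = 0 := by simp [yb, b2]
    rw [y1, y2] at k1
    rw [y3, y4] at k2
    have e1 : κ * N1 t q v0 u0 w0 = 0 := by
      unfold N1
      linear_combination -k1
    have e2 : κ * N2 t q v0 u0 w0 = 0 := by
      unfold N2
      linear_combination -k2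
    have hκ0 : κ = 0 := by
      by_contra hne
      apply hq.2
      rw [(mul_eq_zero.1 e1).resolve_left hne, (mul_eq_zero.1 e2).resolve_left hne]
      ring
    intro v u w hc
    obtain ⟨k3, k4⟩ := hκ v u w hc
    rw [hκ0] at k3 k4
    constructor
    · linear_combination k3
    · linear_combination k4
  -- adjacent layers have the same motion
  have hadj : ∀ v u, G.Adj v u → ι' v = ι' u := by
    intro v u huv
    obtain ⟨w, hc⟩ := hHB v u huv
    have f1 : ∀ q, (ya ι' q v - ya ι' q u) * (lam t v q - lam t w q) -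
        (ya ι' q v - ya ι' q w) * (lam t v q - lam t u q) = 0 := by
      intro q
      refine nice_ext htinj a1 a2 a3 a4 a5 a6 hS (E := fun q =>
        (ya ι' q v - ya ι' q u) * (lam t v q - lam t w q) -
        (ya ι' q v - ya ι' q w) * (lam t v q - lam t u q)) ?_ ?_ q
      · unfold lam ya
        fun_prop
      · intro q hq
        exact (hk0 q hq v u w hc).1
    have f2 : ∀ q, (yb ι' q v - yb ι' q u) * (lam t v q - lam t w q) -
        (yb ι' q v - yb ι' q w) * (lam t v q - lam t u q) = 0 := by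
      intro q
      refine nice_ext htinj a1 a2 a3 a4 a5 a6 hS (E := fun q =>
        (yb ι' q v - yb ι' q u) * (lam t v q - lam t w q) -
        (yb ι' q v - yb ι' q w) * (lam t v q - lam t u q)) ?_ ?_ q
      · unfold lam yb
        fun_prop
      · intro q hq
        exact (hk0 q hq v u w hc).2
    have d1 : v ≠ u := huv.ne
    have d2 : v ≠ w := hc.2.2.1.ne
    obtain ⟨q, hq1, hq2⟩ := exists_q ht0 htinj d1 d2 hc.1 0 1
    obtain ⟨q', hq1', hq2'⟩ := exists_q ht0 htinj d1 d2 hc.1 0 2
    have g1 := f1 q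
    have g2 := f2 q
    have g1' := f1 q'
    have g2' := f2 q'
    rw [hq1, hq2] at g1 g2
    rw [hq1', hq2'] at g1' g2'
    simp only [ya, yb] at g1 g2 g1' g2'
    have h2 : ι' v 2 = ι' u 2 := by
      by_contra hne
      have hne' : ι' v 2 - ι' u 2 ≠ 0 := sub_ne_zero.2 hne
      have e1 : (ι' v 2 - ι' u 2) * (q 1 - q' 1) = 0 := by linarith
      have e2 : (ι' v 2 - ι' u 2) * (q 0 - q' 0) = 0 := by linarith
      have e3 : q 1 = q' 1 := by
        have := (mul_eq_zero.1 e1).resolve_left hne'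
        linarith
      have e4 : q 0 = q' 0 := by
        have := (mul_eq_zero.1 e2).resolve_left hne'
        linarith
      have e5 : lam t v q - lam t w q = lam t v q' - lam t w q' := by
        simp only [lam, e3, e4]
      rw [hq2, hq2'] at e5
      norm_num at e5
    have h0 : ι' v 0 = ι' u 0 := by
      rw [h2] at g1
      linarith
    have h1 : ι' v 1 = ι' u 1 := by
      rw [h2] at g2
      linarith
    funext i
    fin_cases i
    · exact h0
    · exact h1
    · exact h2
  have hreach : ∀ a b, G.Reachable a b → ι' a = ι' b := by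
    rintro a b ⟨p⟩
    induction p with
    | nil => rfl
    | cons hab p ih => rw [hadj _ _ hab, ih]
  have hall : ∀ u, ι' u = ι' v0 := fun u => hreach u v0 (hconn.preconnected u v0)
  have hfin : ι' = tr t ![0, 0, 0, ι' v0 0, ι' v0 1, ι' v0 2] := by
    funext u i
    rw [hall u]
    fin_cases i
    · simp [tr]
    · simp [tr]
    · simp [tr]
  have : ι = tr t c + ι' := by
    rw [hι']
    abel
  rw [this, hfin]
  exact Submodule.add_mem _ ⟨c, rfl⟩ ⟨_, rfl⟩

end Pool.Agent.J4H92.NC
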