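import Pool.Agent.J4H92.NC.Grow

/-!
# Graphs in which vertices of degree at least three are not far apart
-/

set_option autoImplicit false

namespace Pool.Agent.J4H92.NC

open SimpleGraph hiding between

open Module Pool.Agent.H283R2.DR Pool.Agent.H789R5 Pool.Agent.J4H92.CP

variable {U : Type} {G : SimpleGraph U}

/-- a vertex with three neighbours -/
def Br (G : SimpleGraph U) (v : U) : Prop :=
  ∃ a b c : U, a ≠ b ∧ a ≠ c ∧ b ≠ c ∧ G.Adj v a ∧ G.Adj v b ∧ G.Adj v c

/-- Every walk without immediate reversals that has `s + 1` inner vertices has an inner vertex with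
at least three neighbours. -/
def Threads (G : SimpleGraph U) (s : ℕ) : Prop :=
  ∀ f : ℕ → U, (∀ i ≤ s + 1, G.Adj (f i) (f (i + 1))) → (∀ i ≤ s, f (i + 2) ≠ f i) →
    ∃ i, 1 ≤ i ∧ i ≤ s + 1 ∧ Br G (f i)

open Classical in
/-- the choice of the next vertex -/
theorem exists_next (h2 : ∀ v, Two G v) : ∃ nx : U → U → Bool → U, ∀ a v,
    (∀ β, G.Adj v (nx a v β) ∧ nx a v β ≠ a) ∧ (Br G v → nx a v true ≠ nx a v false) := by
  have h : ∀ a v, ∃ g : Bool → U, (∀ β, G.Adj v (g β) ∧ g β ≠ a) ∧
      (Br G v → g true ≠ g false) := by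
    intro a v
    by_cases hb : Br G v
    · obtain ⟨x, y, z, hxy, hxz, hyz, hx, hy, hz⟩ := hb
      obtain ⟨p, q, hpq, hpa, hqa, hp, hq⟩ := two_others (w := a) hxy hxz hyz hx hy hz
      refine ⟨fun β => if β then p else q, fun β => ?_, fun _ => by simpa using hpq⟩
      cases β
      · simpa using ⟨hq, hqa⟩
      · simpa using ⟨hp, hpa⟩
    · obtain ⟨c, hc, hca⟩ := other (w := a) (h2 v)
      exact ⟨fun _ => c, fun _ => ⟨hc, hca⟩, fun h => absurd h hb⟩
  choose nx hnx using h
  exact ⟨nx, hnx⟩

/-- the walk given by a sequence of bits: previous and current vertex -/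
def wk (nx : U → U → Bool → U) (b x : U) (β : ℕ → Bool) : ℕ → U × U
  | 0 => (b, x)
  | k + 1 => ((wk nx b x β k).2, nx (wk nx b x β k).1 (wk nx b x β k).2 (β k))

variable {nx : U → U → Bool → U} {b x : U}

theorem wk_prev (β : ℕ → Bool) (k : ℕ) : (wk nx b x β (k + 1)).1 = (wk nx b x β k).2 := rfl

theorem ext_of_threads [Fintype U] (hG : G.Connected) (h2 : ∀ v, Two G v) {s d : ℕ}
    (hT : Threads G s) (hd : Fintype.card U < 2 ^ d) : Ext G (2 * ((s + 1) * d)) := by
  classical
  intro B hBc hBu
  have hBn : B.Nonempty := by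
    obtain ⟨b, hb⟩ := hBc.nonempty
    exact ⟨b, hb⟩
  obtain ⟨b, hb, x, hx, hbx⟩ := exists_cross hG hBn hBu
  obtain ⟨nx, hnx⟩ := exists_next h2
  set K := (s + 1) * d with hK
  -- current and previous vertices
  set c : (ℕ → Bool) → ℕ → U := fun β k => (wk nx b x β k).2 with hc
  set p : (ℕ → Bool) → ℕ → U := fun β k => (wk nx b x β k).1 with hp
  have hc0 : ∀ β, c β 0 = x := fun _ => rfl
  have hp0 : ∀ β, p β 0 = b := fun _ => rfl
  have hps : ∀ β k, p β (k + 1) = c β k := fun _ _ => rfl
  have hcs : ∀ β k, c β (k + 1) = nx (p β k) (c β k) (β k) := fun _ _ => rfl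
  have hadj : ∀ β k, G.Adj (c β k) (c β (k + 1)) := fun β k => by
    rw [hcs]
    exact ((hnx _ _).1 _).1
  have hne : ∀ β k, c β (k + 1) ≠ p β k := fun β k => by
    rw [hcs]
    exact ((hnx _ _).1 _).2
  have hpadj : ∀ β k, G.Adj (c β k) (p β k) := by
    intro β k
    cases k with
    | zero => exact hbx.symm
    | succ k => exact (hadj β k).symm
  -- a vertex on a walk has two neighbours on it
  have hin : ∀ (β : ℕ → Bool) (j : ℕ) (A : Set U), (b ∈ A) → (∀ i < j, c β i ∈ A) →
      c β (j + 1) ∈ A → In G A (c β j) := by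
    intro β j A hbA h1 h3
    refine ⟨p β j, ?_, c β (j + 1), h3, (hne β j).symm, hpadj β j, hadj β j⟩
    cases j with
    | zero => exact hbA
    | succ j => exact h1 j (by omega)
  -- connectivity
  have hconn : ∀ (β : ℕ → Bool) (k : ℕ), (G.induce (B ∪ (c β) '' {j | j ≤ k})).Connected := by
    intro β k
    have h1 := conn_ear (G := G) (n := k) (u := fun i => c β i) hBc
      (fun j hj => hadj β j) hb (hbx.symm)
    have h3 : Set.range (fun i : Fin (k + 1) => c β i) = (c β) '' {j | j ≤ k} := by
      ext v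
      constructor
      · rintro ⟨i, rfl⟩
        exact ⟨i, Nat.lt_succ_iff.1 i.2, rfl⟩
      · rintro ⟨j, hj, rfl⟩
        exact ⟨⟨j, Nat.lt_succ_iff.2 hj⟩, rfl⟩
    rwa [h3] at h1
  have hcardle : ∀ (β : ℕ → Bool) (k : ℕ), ((c β) '' {j | j ≤ k}).ncard ≤ k + 1 := by
    intro β k
    have h1 : {j : ℕ | j ≤ k} = (Finset.range (k + 1) : Set ℕ) := by
      ext j
      simp
    rw [h1]
    refine (Set.ncard_image_le (Finset.finite_toSet _)).trans ?_
    rw [Set.ncard_coe_finset, Finset.card_range]
  by_cases hA : ∃ k, k ≤ K ∧ ∃ β, c β k ∈ B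
  · -- a walk comes back to the body
    have hfind := Nat.find_spec hA
    set k := Nat.find hA with hk
    have hmin : ∀ j < k, ∀ β, c β j ∉ B := fun j hj β hjB =>
      Nat.find_min hA hj ⟨by omega, β, hjB⟩
    obtain ⟨hkK, β, hβ⟩ := hfind
    have hk0 : k ≠ 0 := by
      intro h
      rw [h, hc0] at hβ
      exact hx hβ
    obtain ⟨m, hm⟩ : ∃ m, k = m + 1 := ⟨k - 1, by omega⟩
    refine ⟨(c β) '' {j | j ≤ m}, ⟨x, 0, Nat.zero_le _, rfl⟩, ?_, ?_, hconn β m, ?_⟩
    · rw [Set.disjoint_left]
      rintro _ ⟨j, hj, rfl⟩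
      have hj : j ≤ m := hj
      exact hmin j (by omega) β
    · refine (hcardle β m).trans ?_
      omega
    · rintro _ ⟨j, hj, rfl⟩
      have hj : j ≤ m := hj
      refine hin β j _ (Or.inl hb) (fun i hi => Or.inr ⟨i, show i ≤ m by omega, rfl⟩) ?_
      rcases Nat.lt_or_ge j m with h | h
      · exact Or.inr ⟨j + 1, show j + 1 ≤ m by omega, rfl⟩
      · have e : j + 1 = k := by omega
        rw [e]
        exact Or.inl hβ
  push Not at hA
  by_cases hcol : ∃ k, k ≤ K ∧ ∃ β β', c β k = c β' k ∧ ∃ j ≤ k, c β j ≠ c β' j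
  · -- two walks meet
    have hfind := Nat.find_spec hcol
    set k := Nat.find hcol with hk
    have hmin : ∀ i < k, ∀ β β', c β i = c β' i → ∀ j ≤ i, c β j = c β' j := by
      intro i hi β β' h1 j hj
      by_contra h3
      exact Nat.find_min hcol hi ⟨by omega, β, β', h1, j, hj, h3⟩
    obtain ⟨hkK, β, β', heq, j0, hj0, hj0n⟩ := hfind
    have hk0 : k ≠ 0 := by
      intro h
      have : j0 = 0 := by omega
      rw [this, hc0, hc0] at hj0n
      exact hj0n rfl
    obtain ⟨m, hm⟩ : ∃ m, k = m + 1 := ⟨k - 1, by omega⟩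
    have hpred : c β m ≠ c β' m := by
      intro h
      apply hj0n
      rcases Nat.lt_or_ge j0 k with h1 | h1
      · exact hmin m (by omega) β β' h j0 (by omega)
      · have e : j0 = k := by omega
        rw [e]
        exact heq
    rw [hm] at heq
    set S1 := (c β) '' {j | j ≤ m + 1} with hS1
    set S2 := (c β') '' {j | j ≤ m} with hS2
    have hS : B ∪ (S1 ∪ S2) = (B ∪ S1) ∪ (B ∪ S2) := by
      ext v
      simp only [Set.mem_union]
      tauto
    refine ⟨S1 ∪ S2, ⟨x, Or.inl ⟨0, Nat.zero_le _, rfl⟩⟩, ?_, ?_, ?_, ?_⟩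
    · rw [Set.disjoint_left]
      rintro _ (⟨j, hj, rfl⟩ | ⟨j, hj, rfl⟩)
      · have hj : j ≤ m + 1 := hj
        exact hA j (by omega) β
      · have hj : j ≤ m := hj
        exact hA j (by omega) β'
    · have h1 : S1 ∪ S2 ⊆ S1 ∪ (S2 \ {x}) := by
        rintro v (hv | hv)
        · exact Or.inl hv
        · by_cases hvx : v = x
          · exact Or.inl ⟨0, Nat.zero_le _, by rw [hc0, hvx]⟩
          · exact Or.inr ⟨hv, hvx⟩
      have h3 : (S2 \ {x}).ncard + 1 ≤ m + 1 := by
        have hxS : x ∈ S2 := ⟨0, Nat.zero_le _, rfl⟩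
        have hfin : S2.Finite := Set.toFinite _
        have h4 : S2.ncard ≤ m + 1 := hcardle β' m
        rw [Set.ncard_sdiff_singleton_of_mem hxS]
        have h5 : 0 < S2.ncard := (Set.ncard_pos hfin).2 ⟨x, hxS⟩
        omega
      have h6 : S1.ncard ≤ m + 1 + 1 := hcardle β (m + 1)
      have h7 := Set.ncard_le_ncard h1 (Set.toFinite _)
      have h8 := Set.ncard_union_le S1 (S2 \ {x})
      omega
    · rw [hS]
      refine induce_union_connected (hconn β (m + 1)).preconnected (hconn β' m).preconnected ?_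
      exact ⟨b, Or.inl hb, Or.inl hb⟩
    · have hb' : b ∈ B ∪ (S1 ∪ S2) := Or.inl hb
      have m1 : ∀ j ≤ m + 1, c β j ∈ B ∪ (S1 ∪ S2) := fun j hj => Or.inr (Or.inl ⟨j, hj, rfl⟩)
      have m2 : ∀ j ≤ m + 1, c β' j ∈ B ∪ (S1 ∪ S2) := by
        intro j hj
        rcases Nat.lt_or_ge j (m + 1) with h | h
        · exact Or.inr (Or.inr ⟨j, show j ≤ m by omega, rfl⟩)
        · have e : j = m + 1 := by omega
          rw [e, ← heq]
          exact m1 _ le_rfl
      rintro _ (⟨j, hj, rfl⟩ | ⟨j, hj, rfl⟩)
      · have hj : j ≤ m + 1 := hj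
        rcases Nat.lt_or_ge j (m + 1) with h | h
        · exact hin β j _ hb' (fun i hi => m1 i (by omega)) (m1 _ (by omega))
        · have e : j = m + 1 := by omega
          subst e
          refine ⟨c β m, m1 m (by omega), c β' m, m2 m (by omega), hpred, (hadj β m).symm, ?_⟩
          rw [heq]
          exact (hadj β' m).symm
      · have hj : j ≤ m := hj
        exact hin β' j _ hb' (fun i hi => m2 i (by omega)) (m2 _ (by omega))
  · -- all walks are different: too many vertices
    exfalso
    push Not at hcol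
    let bits : (Fin d → Bool) → ℕ → Bool := fun y j => if h : j / (s + 1) < d then y ⟨_, h⟩ else
      false
    have hinj : Function.Injective (fun y : Fin d → Bool => c (bits y) K) := by
      intro y y' hyy
      have hall := hcol K le_rfl (bits y) (bits y') hyy
      funext i
      by_contra hbit
      set t0 := (s + 1) * (i : ℕ) with ht0
      have hiK : t0 + (s + 1) ≤ K := by
        rw [ht0, hK]
        have := i.2
        calc (s + 1) * (i : ℕ) + (s + 1) = (s + 1) * ((i : ℕ) + 1) := by ring
          _ ≤ (s + 1) * d := Nat.mul_le_mul_left _ (by omega)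
      -- a vertex of degree three in the block
      obtain ⟨r, hr1, hr2, hbr⟩ := hT (fun j => if j = 0 then p (bits y) t0 else
        c (bits y) (t0 + (j - 1))) (by
        intro j hj
        by_cases h0 : j = 0
        · subst h0
          simp only [if_true, zero_add, one_ne_zero, if_false, Nat.sub_self, add_zero]
          exact (hpadj (bits y) t0).symm
        · have e : t0 + (j + 1 - 1) = t0 + (j - 1) + 1 := by omega
          rw [if_neg h0, if_neg (by omega), e]
          exact hadj (bits y) (t0 + (j - 1))) (by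
        intro j hj
        by_cases h0 : j = 0
        · subst h0
          have e : t0 + (0 + 2 - 1) = t0 + 1 := by omega
          rw [if_pos rfl, if_neg (by omega), e]
          exact hne (bits y) t0
        · have e : t0 + (j + 2 - 1) = t0 + (j - 1) + 1 + 1 := by omega
          have e' : t0 + (j - 1) = t0 + (j - 1) := rfl
          rw [if_neg h0, if_neg (by omega), e]
          have := hne (bits y) (t0 + (j - 1) + 1)
          rwa [hps] at this)
      rw [if_neg (by omega)] at hbr
      set t := t0 + (r - 1) with ht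
      have htK : t + 1 ≤ K := by omega
      have e1 : c (bits y) t = c (bits y') t := hall t (by omega)
      have e2 : p (bits y) t = p (bits y') t := by
        cases h : t with
        | zero => rfl
        | succ j =>
          rw [hps, hps]
          exact hall j (by omega)
      have e3 : c (bits y) (t + 1) = c (bits y') (t + 1) := hall (t + 1) htK
      rw [hcs, hcs, ← e1, ← e2] at e3
      have hdiv : t / (s + 1) = i := by
        rw [ht, ht0, Nat.mul_add_div (by omega), Nat.div_eq_of_lt (by omega), add_zero]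
      have hb1 : ∀ z : Fin d → Bool, bits z t = z i := by
        intro z
        show (if h : t / (s + 1) < d then z ⟨_, h⟩ else false) = z i
        have hlt : t / (s + 1) < d := by
          rw [hdiv]
          exact i.2
        rw [dif_pos hlt]
        congr 1
        exact Fin.ext hdiv
      rw [hb1, hb1] at e3
      have h9 := (hnx (p (bits y) t) (c (bits y) t)).2 hbr
      cases h1 : y i <;> cases h3 : y' i
      · exact hbit (h1.trans h3.symm)
      · rw [h1, h3] at e3
        exact h9 e3.symm
      · rw [h1, h3] at e3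
        exact h9 e3
      · exact hbit (h1.trans h3.symm)
    have h1 := Fintype.card_le_of_injective _ hinj
    rw [Fintype.card_fun, Fintype.card_bool, Fintype.card_fin] at h1
    omega

/-- **Graphs in which vertices of degree at least three are not far apart.** -/
theorem threads_rigid {W : Type} [Fintype W] [Fintype U] {H : SimpleGraph W} (hH : GenRigid 2 H)
    (hW : 3 ≤ Fintype.card W) (hG : G.Connected) (h2 : ∀ v, Two G v) {s d : ℕ}
    (hT : Threads G s) (hd : Fintype.card U < 2 ^ d) (h3 : Three G)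
    (hl : 12 * ((s + 1) * d) ≤ Fintype.card W + 3) : Mu 0 6 (G □ H) :=
  ext_rigid hH hW hG h2 h3 (ext_of_threads hG h2 hT hd) (by omega)

end Pool.Agent.J4H92.NC
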